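import Pool.Agent.P.MP_f1a348_lc.PS.Defs
import Pool.Agent.P.MP_f1a348_lc.UP.Prog

/-!
Project PS: the program.
-/

namespace Pool.Agent.P.MP_f1a348_lc.PS

open GI (FP clo tuples prodL cm sims tower)
open PG (V Cx ran mulU unL mtab tab u1 u3 co rv ent pp nz oneP cz)
open UP (Fo nrm)

/-- numbers in unary -/
abbrev Un : Type := List Unit

/-- the solver of affine problems -/
structure Aff where
  start : Cx → List V → List V → Fo → List V × Fo
  solve : Cx → ℕ → (V → V) → List V → List V → List V × Fo → V →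
    List V × (List V × Fo) × Option (V × V)

noncomputable section
variable {U τ : Type} [Group U] [DecidableEq U]

def oj (Os : List (List U)) (j : ℕ) : List U := Os.getD j [1]
def pwU (u : Un) (x : U) : U := (u.map fun _ => x).prod
def wdP (u : Un) (x y : U) : U :=
  bif u.length == 0 then x * y else bif u.length == 1 then cm x y else pwU u x
def dfP (u : Un) (ψ : FP U) (x y : U) : U := (wdP u x y)⁻¹ * ψ⁻¹.app (wdP u (ψ.app x) (ψ.app y))

/-- an element that passes the tests and the subgroup of the tests -/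
def tw (mem pass : τ → FP U → Bool) (pad : Un) (Y : List U) (tests : List τ) (S : List (FP U)) :
    FP U × List (FP U) := (tower mem pass pad Y tests 1 S).getD (1, [])

/-! ### the data of a stage -/

def pgB (up : Un) (Y O D : List U) : Bool :=
  D.all fun x => O.contains (Y.foldl (fun y _ => pwU up y) x)
def sylP (up : Un) (Y O : List U) : List U :=
  Y.foldl (fun D x => bif pgB up Y O (clo Y (x :: D)) then clo Y (x :: D) else D) O
def dStep (up : Un) (Y D0 Ob D : List U) : List U :=
  clo Y (Ob ++ (D.map (pwU up) ++ D.flatMap fun x => D0.map (cm x)))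
def chainP (up us : Un) (Os : List (List U)) (i0 : ℕ) (D0 : List U) : List (List U) :=
  (ran us).foldl (fun Ds b =>
    Ds ++ [dStep up (oj Os 0) D0 (oj Os (i0 + b / (oj Os 0).length)) (oj Ds b)]) [D0]
def basP (Y D1 D : List U) : List U :=
  D.foldl (fun l x => bif (clo Y (D1 ++ l)).contains x then l else l ++ [x]) []

/-- context, series, chain, bases of the blocks, all basis elements -/
abbrev Dt (U : Type) : Type :=
  Cx × List (List U) × List (List U) × List (List U) × List (ℕ × ℕ × U)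

def dC (d : Dt U) : Cx := d.1
def dPad (d : Dt U) : Un := d.1.2.2
def dUp (d : Dt U) : Un := () :: d.1.1
def dO (d : Dt U) (j : ℕ) : List U := oj d.2.1 j
def dD (d : Dt U) (b : ℕ) : List U := oj d.2.2.1 b
def dB (d : Dt U) (b : ℕ) : List U := d.2.2.2.1.getD b []
def dE (d : Dt U) (α : ℕ) : ℕ × ℕ × U := d.2.2.2.2.getD (α - (cz d.1 + 1)) (0, 0, 1)

def mkE (pad u us : Un) (Os Ds Bs : List (List U)) : Dt U :=
  ((u, () :: mulU [(), ()] (unL Bs.flatten), pad), Os, Ds, Bs,
    (ran us).flatMap fun b => (Bs.getD b []).zipIdx.map fun q => (b, q.2, q.1))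
def mkB (pad u us : Un) (Os Ds : List (List U)) : Dt U :=
  mkE pad u us Os Ds ((ran us).map fun b => basP (oj Os 0) (oj Ds (b + 1)) (oj Ds b))
/-- the number of layers -/
def uI (Os : List (List U)) (i0 i1 : ℕ) : Un := unL ((Os.take i1).drop i0)
/-- the data of the stage of the prime `u.length + 1` -/
def mkD (pad u : Un) (Os : List (List U)) (i0 i1 : ℕ) : Dt U :=
  mkB pad u (mulU (unL (oj Os 0)) (() :: uI Os i0 i1)) Os
    (chainP (() :: u) (mulU (unL (oj Os 0)) (() :: uI Os i0 i1)) Os i0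
      (sylP (() :: u) (oj Os 0) (oj Os i0)))

def insBP (ub : Un) (i t b : ℕ) : List Ins :=
  (ran (ub.take (b + 1))).reverse.map (fun c => (0, i, t, b, c)) ++ [(1, i, t, b, 0), (2, i, t, b, 0)]
def insIP (uL ub : Un) (i : ℕ) : List Ins :=
  ((ran uL).flatMap fun t => (ran ub).reverse.flatMap fun b => insBP ub i (ub.length + t) b) ++
    [(3, i, ub.length, 0, 0)]
def insP (uL ui : Un) (i0 : ℕ) : List Ins :=
  (ran ui).flatMap fun j => insIP uL (mulU uL (() :: ui.take j)) (i0 + j)

/-! ### coordinates -/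

def digU (up : Un) : List Un := (ran up).map fun j => up.take j
def word (l : List U) (js : List Un) : U := ((l.zip js).map fun q => pwU q.2 q.1).prod
def crd (d : Dt U) (b : ℕ) (x : U) : List ℕ :=
  (((tuples (dPad d) (digU (dUp d)) (dB d b)).find? fun js =>
    (dD d (b + 1)).contains (x⁻¹ * word (dB d b) js)).getD []).map List.length
def kapP (d : Dt U) (b : ℕ) (x : U) (α : ℕ) : ℕ :=
  bif Nat.blt (cz d.1) α && (dE d α).1 == b then (crd d b x).getD (dE d α).2.1 0 else 0
def aP (d : Dt U) (u : FP U) (i j : ℕ) : ℕ :=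
  bif Nat.blt (cz d.1) j then kapP d (dE d j).1 (u.app (dE d j).2.2) i else 0
def lamP (d : Dt U) (u : FP U) : V :=
  mtab d.1 fun i j => aP d u i j + aP d u⁻¹ (rv d.1 j) (rv d.1 i) +
    (bif i == cz d.1 && j == cz d.1 then 1 else 0)
def thQ (d : Dt U) (a : Ins) (ψ : FP U) (i j k : ℕ) : ℕ :=
  bif Nat.blt (cz d.1) i && (dE d i).1 == a.b && Nat.blt k (cz d.1) &&
      (bif a.k == 0 then Nat.blt (cz d.1) j && (dE d j).1 == a.c else j == cz d.1) then
    kapP d a.t (dfP (bif a.k == 0 then [()] else dUp d) ψ (dE d i).2.2 (dE d j).2.2) (rv d.1 k)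
  else 0
def thP (d : Dt U) (a : Ins) (ψ : FP U) : V :=
  tab d.1 (u3 d.1) fun i => thQ d a ψ (co d.1 0 i) (co d.1 1 i) (co d.1 2 i)

/-! ### the steps -/

/-- generators, candidate, certificate -/
abbrev Stt (U : Type) : Type := List (FP U) × FP U × List V × Fo

def colE (c : Cx) (x z : V) (j : ℕ) : Bool :=
  (ran (u1 c)).all fun i => ent c x i j % pp c == ent c z i j % pp c
def passC (d : Dt U) (a : Ins) (ψ : FP U) (z : V) (t : Bool × ℕ) (u : FP U) : Bool :=
  bif t.1 then !nz d.1 (thP d a (ψ * u)) t.2 else colE d.1 (lamP d u) z t.2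
def tstL (c : Cx) : List (Bool × ℕ) := (ran (u1 c)).map fun j => (false, j)
def tstC (c : Cx) : List (Bool × ℕ) := tstL c ++ (ran (u3 c)).map fun i => (true, i)
/-- an element with given matrix; the kernel -/
def liftL (d : Dt U) (a : Ins) (S : List (FP U)) (z : V) : FP U × List (FP U) :=
  tw (passC d a 1 (oneP d.1)) (passC d a 1 z) (dPad d) (dO d 0) (tstL d.1) S
/-- an element with given matrix that solves the equation -/
def liftC (d : Dt U) (a : Ins) (S : List (FP U)) (ψ : FP U) (z : V) : FP U × List (FP U) :=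
  tw (passC d a 1 (oneP d.1)) (passC d a ψ z) (dPad d) (dO d 0) (tstC d.1) S
def omP (d : Dt U) (a : Ins) (S : List (FP U)) (x : V) : V := thP d a (liftL d a S (nrm d.1 x)).1
def callQ (d : Dt U) (a : Ins) (s : Stt U) (o : List V × (List V × Fo) × Option (V × V)) : Stt U :=
  (sims (dPad d) (dO d 0) (o.1.map (fun z => (liftC d a s.1 1 (nrm d.1 z)).1) ++
      (liftC d a s.1 1 (oneP d.1)).2),
    s.2.1 * o.2.2.elim 1 (fun y => (liftC d a s.1 s.2.1 (nrm d.1 y.1)).1), o.2.1)
def callP (A : Aff) (d : Dt U) (a : Ins) (s : Stt U) : Stt U :=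
  callQ d a s (A.solve d.1 a.k (omP d a s.1) (s.1.map (lamP d))
    ((liftL d a s.1 (oneP d.1)).2.map (thP d a)) s.2.2 (thP d a s.2.1))

/-- tests of a repair -/
abbrev Ts (U : Type) : Type := Bool × U × U × List U

def passF (ψ : FP U) (t : Ts U) (u : FP U) : Bool :=
  t.2.2.2.contains (bif t.1 then dfP [] (ψ * u) t.2.1 t.2.2.1 else t.2.1⁻¹ * u.app t.2.1)
def fxT (S D : List U) : List (Ts U) := S.map fun x => (false, x, x, D)
def c2T (S R T : List U) : List (Ts U) :=
  (prodL S R ++ prodL R S).map fun q => (true, q.1, q.2, T)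
def tstF (d : Dt U) (a : Ins) : List (Ts U) :=
  fxT (dO d 0) (dO d a.i) ++ (fxT (dO d a.i) (dO d (a.i + 1)) ++
    bif a.k == 2 then c2T (dD d a.b) (dD d 0) (dD d (a.t + 1))
    else c2T (dO d 0) (dO d 0) (dO d (a.i + 1)))
def fixT (d : Dt U) (a : Ins) (S : List (FP U)) (ψ : FP U) : FP U × List (FP U) :=
  tw (passF 1) (passF ψ) (dPad d) (dO d 0) (tstF d a) S
def fixP (d : Dt U) (a : Ins) (s : Stt U) : Stt U :=
  (sims (dPad d) (dO d 0) (s.1.map (fun u => u * (fixT d a s.1 u).1) ++ (fixT d a s.1 1).2),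
    s.2.1 * (fixT d a s.1 s.2.1).1, s.2.2)
def stepP (A : Aff) (d : Dt U) (s : Stt U) (a : Ins) : Stt U :=
  bif Nat.ble a.k 1 then callP A d a s else fixP d a s

/-! ### stages -/

def keepT (D : List U) (_ : Unit) (u : FP U) : Bool := D.all fun x => D.contains (u.app x)
def fratP (d : Dt U) (S : List (FP U)) : List (FP U) :=
  (tw (keepT (dD d 0)) (keepT (dD d 0)) (dPad d) (dO d 0) [()] S).2
def kkP (d : Dt U) (S : List (FP U)) : List (FP U) :=
  (tw (passF 1) (passF 1) (dPad d) (dO d 0) (fxT (dO d 0) (dO d 1)) S).2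
def foP (d : Dt U) (F : FoG (FP U)) : Fo :=
  F.map fun r => (r.1, r.2.1.map (lamP d), r.2.2.map (lamP d))
def st0 (A : Aff) (cf : List (FP U) → FoG (FP U)) (d : Dt U) (S : List (FP U)) (σ : FP U) : Stt U :=
  (S, σ, A.start d.1 (S.map (lamP d)) ((kkP d S).map (lamP d)) (foP d (cf S)))
def inn (Y : List U) : List (FP U) := Y.map fun a => FP.ofList (Y.map fun x => (x, a * x * a⁻¹))
def stEnd (d : Dt U) (s : Stt U) : List (FP U) × FP U :=
  (sims (dPad d) (dO d 0) (s.1 ++ inn (dO d 0)), s.2.1)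
def stRun (A : Aff) (cf : List (FP U) → FoG (FP U)) (d : Dt U) (l : List Ins)
    (s : List (FP U) × FP U) : List (FP U) × FP U :=
  stEnd d (l.foldl (stepP A d) (st0 A cf d (fratP d s.1) s.2))
/-- the stage of the prime `u.length + 1` -/
def stage (A : Aff) (cf : List (FP U) → FoG (FP U)) (pad u : Un) (Os : List (List U)) (i0 i1 : ℕ)
    (s : List (FP U) × FP U) : List (FP U) × FP U :=
  stRun A cf (mkD pad u Os i0 i1) (insP (unL (oj Os 0)) (uI Os i0 i1) i0) s
def iA (prs : List ℕ) (q : ℕ) : ℕ := prs.tail.countP (fun x => Nat.ble q x) + 1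
def psStep (A : Aff) (cf : List (FP U) → FoG (FP U)) (pad uN : Un) (Os : List (List U))
    (prs : List ℕ) (s : List (FP U) × FP U) (q : ℕ) : List (FP U) × FP U :=
  bif Nat.blt (oj Os (iA prs q)).length (oj Os (iA prs (q + 1))).length then
    stage A cf pad (uN.take (q - 1)) Os (iA prs (q + 1)) (iA prs q) s else s
/-- all stages -/
def psP (A : Aff) (cf : List (FP U) → FoG (FP U)) (pad uN : Un) (Os : List (List U))
    (prs : List ℕ) (s : List (FP U) × FP U) : List (FP U) × FP U :=
  (ran uN).reverse.foldl (psStep A cf pad uN Os prs) s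

end

end Pool.Agent.P.MP_f1a348_lc.PS
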