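import Pool.Agent.P.MP_f1a348_lc.PS.Iface
import Pool.Agent.P.MP_f1a348_lc.PS.Prog
import Pool.Agent.P.MP_f1a348_lc.UP.PBase

/-!
Project PS: the statements about the program.
-/

namespace Pool.Agent.P.MP_f1a348_lc.PS

open GI (gen Cg FP Rep sims)
open UP (Rec up topI SolvMod Nm Val GG SG SA UG Fo gS gD foD)
open PG (Ix Vec Mat Frm Sub c0 st l0 Par pull1 Wt key V Cx pp mM mV fV unL oneP)
open Pool.Agent.Lib.Helper47

/-- a group of pairs given by generators of its image, an oracle and its kernel -/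
structure Pairs (p n k : ℕ) (K : GG p n → Frm p n → Prop) (om : V → V) (G S0 : List V) : Prop where
  one : K 1 0
  mul : ∀ g w h v, K g w → K h v → K (g * h) (pull1 h.1 w + v)
  wt : ∀ g w, K g w → w ∈ Wt (l0 n) (key (l0 n) (box n k))
  img : ∀ g, g ∈ gS p n G ↔ ∃ w, K g w
  om : ∀ x w, K (gD p n x) w → K (gD p n x) (fV p n (om x))
  ker : ∀ w, K 1 w ↔ w ∈ PG.sp (PG.frm p n) S0

/-- the context is large enough for `m` calls -/
structure Cok (C p n c0 m : ℕ) (c : Cx) : Prop where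
  hp : pp c = p
  hM : mM c = 2 * n + 1
  pad : (p ^ (2 * n + 1) * 2 ^ c0 * (m + 1)) ^ C ≤ c.2.2.length

/-- certificates: prime, dimension, budget, context, group, state, counter -/
abbrev Crt : Type := ∀ p n : ℕ, ℕ → Cx → SG p n → List V × Fo → ℕ → Prop

/-- the solver is correct for the primes in `P` -/
structure Aff.Ok (A : Aff) (P : ℕ → Prop) (q C : ℕ) (Cert : Crt) : Prop where
  big : 30000 ≤ C
  start : ∀ (p n c0 m : ℕ) [Fact p.Prime] (c : Cx) (H N : List V) (F : Fo) (R : Sub p n), P p →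
    Cok C p n c0 m c → gS p n N ≤ gS p n H → Nm (gS p n H) (gS p n N) →
    Val q c0 (gS p n H) (gS p n N) (foD p n F) → F.length < m → SA R → gS p n N = UG R →
    Cert p n c0 c (gS p n H) (A.start c H N F) (F.length + 1)
  solve : ∀ (p n c0 m : ℕ) [Fact p.Prime] (c : Cx) (k j : ℕ) (K : GG p n → Frm p n → Prop)
    (om : V → V) (G S0 : List V) (w : List V × Fo) (δ : V), P p → Cok C p n c0 m c → j < m →
    Cert p n c0 c (gS p n G) w j → Pairs p n k K om G S0 →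
    fV p n δ ∈ Wt (l0 n) (key (l0 n) (box n k)) →
    (∀ z, z ∈ gS p n (A.solve c k om G S0 w δ).1 ↔ K z 0) ∧
    Cert p n c0 c (gS p n (A.solve c k om G S0 w δ).1) (A.solve c k om G S0 w δ).2.1 (j + 1) ∧
    (∀ y, (A.solve c k om G S0 w δ).2.2 = some y → K (gD p n y.1) (fV p n y.2) ∧
      pull1 (gD p n y.1).1 (fV p n δ) + fV p n y.2 = 0) ∧
    ((A.solve c k om G S0 w δ).2.2 = none → ∀ z v, K z v → pull1 z.1 (fV p n δ) + v ≠ 0)

/-- the solver runs in polynomial time -/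
structure Aff.Pt (A : Aff) : Prop where
  start : PT fun x : Cx × List V × List V × Fo => A.start x.1 x.2.1 x.2.2.1 x.2.2.2
  solve : ∀ (α : Type) [Enc α] (c : α → Cx) (k : α → ℕ) (om : α → V → V) (G S0 : α → List V)
    (w : α → List V × Fo) (δ : α → V), PT c → PT k → PT (fun x : α × V => om x.1 x.2) → PT G →
    PT S0 → PT w → PT δ → PT fun a => A.solve (c a) (k a) (om a) (G a) (S0 a) (w a) (δ a)
  bdd : ∃ f : Polynomial ℕ, ∀ c k om G S0 w δ,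
    size (A.solve c k om G S0 w δ).2.1 ≤ f.eval (size c)

section
variable {U : Type} [Group U] [DecidableEq U]

/-- the coordinates of the data -/
noncomputable def bsD (p n : ℕ) (d : Dt U) : Bs U p n :=
  ⟨fun α => (dE d α.val).2.2, fun α => (dE d α.val).1, fun b x α => (kapP d b x α.val : ℕ)⟩

/-- the data describe the stage -/
structure DOK (p n : ℕ) (g : Sg U) (d : Dt U) : Prop where
  ch : g.Ch p
  pres : g.Pres p
  ok : UP.Ok p n d.1
  repO : ∀ j, Rep (dO d j) (g.O j)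
  repD : ∀ b, b ≤ g.s → Rep (dD d b) (g.D p b)
  bas : (bsD p n d).OK (g.D p) g.s
  pad : (dO d 0).length * (dO d 0).length ≤ (dPad d).length

/-- a step from the condition `Q` to the condition `Q'` -/
structure Upd (g : Sg U) (Q Q' : FP U → Prop) (s s' : Stt U) : Prop where
  isG : IsG (gen s'.1) g.B Q'
  sig : s.2.1⁻¹ * s'.2.1 ∈ gen s.1
  sol : Q s.2.1 → (∃ u ∈ gen s.1, Q' (s.2.1 * u)) → Q' s'.2.1

/-- the invariant of the loop -/
structure Inv (Cert : Crt) (p n c0 : ℕ) (g : Sg U) (d : Dt U) (σ : FP U) (Q : FP U → Prop) (j : ℕ)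
    (s : Stt U) : Prop where
  isG : IsG (gen s.1) g.B Q
  sig : σ⁻¹ * s.2.1 ∈ g.B
  sol : (∃ u ∈ g.B, Hom (g.O 0) (σ * u)) → ∃ u ∈ gen s.1, Hom (g.O 0) (s.2.1 * u)
  cert : ∃ j', j' ≤ j ∧ Cert p n c0 d.1 (img (bsD p n d).lam (gen s.1)) s.2.2 j'

/-- from level `i` to level `i'` -/
structure Adv (O : ℕ → Subgroup U) (i i' : ℕ) (s s' : List (FP U) × FP U) : Prop where
  grp : gen s'.1 = TT O i'
  sig : s.2⁻¹ * s'.2 ∈ TT O i
  sol : (∃ u ∈ TT O i, Hom (O 0) (s.2 * u)) → ∃ u ∈ TT O i', Hom (O 0) (s'.2 * u)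

/-- the lists of the series -/
structure Dat (P : ℕ → Prop) (O : ℕ → Subgroup U) (r N : ℕ) (pr : ℕ → ℕ) (Os : List (List U))
    (ps : List ℕ) : Prop where
  ser : Ser O r
  prs : Prs P O r N pr
  rep : ∀ j, Rep (oj Os j) (O j)
  lenO : Os.length = r + 1
  lenP : ps.length = r
  val : ∀ j, 1 ≤ j → j < r → ps.getD j 0 = pr j
  r0 : 1 ≤ r
  rN : r ≤ N + 1
  card : Nat.card (O 0) ≤ N

end

/-- the padding that is needed -/
def need (C c0 f0 N : ℕ) : ℕ := ((N + 2) ^ 3 * 2 ^ c0 * (f0 + (N + 2) ^ 7)) ^ C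

/-- towers in the group of permutations of `Y` -/
def A_TW : Prop := ∀ (U τ : Type) [Group U] [DecidableEq U] (mem pass : τ → FP U → Bool) (pad : Un)
  (Y : List U) (y : Subgroup U) (tests : List τ) (S : List (FP U)), Rep Y y → gen S ≤ SupG y →
  Y.length * Y.length ≤ pad.length → gen (sims pad Y S) = gen S ∧
  ((∀ (pre : List τ) t post, tests = pre ++ t :: post → ∃ (W : Type) (c : FP U → W) (T : Set W), T.Finite ∧
      T.ncard ≤ pad.length ∧ ∀ u ∈ gen S, (∀ s ∈ pre, mem s u = true) → c u ∈ T ∧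
        ∀ v ∈ gen S, (∀ s ∈ pre, mem s v = true) → (c u = c v ↔ mem t (u⁻¹ * v) = true)) →
    (∀ (pre : List τ) t post, tests = pre ++ t :: post → ∀ g ∈ gen S, (∀ s ∈ pre, pass s g = true) →
      pass t g = true → ∀ u ∈ gen S, (∀ s ∈ pre, mem s u = true) → pass t (g * u) = mem t u) →
    (∃ g ∈ gen S, ∀ t ∈ tests, pass t g = true) →
    (∀ t ∈ tests, pass t (tw mem pass pad Y tests S).1 = true) ∧
      ∀ u, u ∈ gen (tw mem pass pad Y tests S).2 ↔ u ∈ gen S ∧ ∀ t ∈ tests, mem t u = true)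

/-- the results of a tower lie in the group -/
def A_TWM : Prop := ∀ (U τ : Type) [Group U] [DecidableEq U] (mem pass : τ → FP U → Bool) (pad : Un)
  (Y : List U) (tests : List τ) (S : List (FP U)), (tw mem pass pad Y tests S).1 ∈ gen S ∧
  gen (tw mem pass pad Y tests S).2 ≤ gen S

/-- kernel and lifts -/
def A_GENL : Prop := ∀ (Γ : Type) [Group Γ] (S : List Γ) (H N Z : Subgroup Γ), Nm (gen S) N →
  Z ≤ H → H ≤ gen S → H ⊓ N ≤ Z → (∀ s ∈ S, ∃ z ∈ Z, z⁻¹ * s ∈ N) → Z = H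

def A_WD : Prop := ∀ (U : Type) [Group U] [DecidableEq U] (u : Un) (ψ : FP U) (x y : U),
  pwU u x = x ^ u.length ∧ wdP u x y = wd u.length x y ∧ dfP u ψ x y = df u.length ψ x y

def A_SYL : Prop := ∀ (U : Type) [Group U] [DecidableEq U] (up : Un) (Y O : List U)
  (y o : Subgroup U), up.length.Prime → Rep Y y → Rep O o → o ≤ y → Nm y o →
  ∃ D, Rep (sylP up Y O) D ∧ MaxP up.length y o D

def A_CHN : Prop := ∀ (U : Type) [Group U] [DecidableEq U] (up us : Un) (Os : List (List U))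
  (D0 : List U) (g : Sg U), g.Ch up.length → (∀ j, Rep (oj Os j) (g.O j)) → Rep D0 g.D0 →
  g.L = (oj Os 0).length → ∀ b, b ≤ us.length →
  Rep (oj (chainP up us Os g.i0 D0) b) (g.D up.length b)

/-- the coordinates of one block -/
def A_CRD : Prop := ∀ (U : Type) [Group U] [DecidableEq U] (p b : ℕ) (d : Dt U) (Y : List U)
  (y D D1 : Subgroup U), p.Prime → pp d.1 = p → Rep Y y → Rep (dD d b) D → Rep (dD d (b + 1)) D1 →
  D1 ≤ D → D ≤ y → (∀ x ∈ D, x ^ p ∈ D1 ∧ ∀ z ∈ D, x * z * x⁻¹ * z⁻¹ ∈ D1) →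
  Y.length ≤ (dPad d).length → dB d b = basP Y (dD d (b + 1)) (dD d b) →
  (∀ x ∈ dB d b, x ∈ D) ∧
  (∀ x ∈ D, ∀ z ∈ D, ∀ k, (((crd d b (x * z)).getD k 0 : ℕ) : ZMod p) =
    ((crd d b x).getD k 0 : ℕ) + ((crd d b z).getD k 0 : ℕ)) ∧
  (∀ x ∈ D, (∀ k, k < (dB d b).length → (((crd d b x).getD k 0 : ℕ) : ZMod p) = 0) ↔ x ∈ D1) ∧
  ∀ k, k < (dB d b).length → ∀ k',
    (((crd d b ((dB d b).getD k 1)).getD k' 0 : ℕ) : ZMod p) = if k' = k then 1 else 0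

def A_BAS : Prop := ∀ (U : Type) [Group U] [DecidableEq U] (pad u us : Un) (Os Ds : List (List U))
  (y : Subgroup U) (D : ℕ → Subgroup U), (u.length + 1).Prime → Rep (oj Os 0) y →
  (∀ b, b ≤ us.length → Rep (oj Ds b) (D b)) → (∀ b, D (b + 1) ≤ D b) → D 0 ≤ y →
  (∀ b, ∀ x ∈ D b, x ^ (u.length + 1) ∈ D (b + 1) ∧ ∀ z ∈ D b, x * z * x⁻¹ * z⁻¹ ∈ D (b + 1)) →
  (oj Os 0).length ≤ pad.length → ∃ n, mM (mkB pad u us Os Ds).1 = 2 * n + 1 ∧
    (bsD (u.length + 1) n (mkB pad u us Os Ds)).OK D us.length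

def A_MKD : Prop := ∀ (U : Type) [Group U] [DecidableEq U] (C c0 f0 N r i0 i1 : ℕ) (pad u : Un)
  (O : ℕ → Subgroup U) (Os : List (List U)), (u.length + 1).Prime → u.length ≤ N → Ser O r →
  (∀ j, Rep (oj Os j) (O j)) → Os.length = r + 1 → r ≤ N + 1 → Nat.card (O 0) ≤ N → 1 ≤ i0 →
  i0 ≤ i1 → i1 ≤ r → (∀ i, i0 ≤ i → i < i1 → ∀ x ∈ O i, x ^ (u.length + 1) ∈ O (i + 1)) →
  (∀ x ∈ O 1, x ^ (u.length + 1) ∈ O i0 → x ∈ O i0) → 30000 ≤ C → need C c0 f0 N ≤ pad.length →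
  ∃ (n : ℕ) (g : Sg U), g.O = O ∧ g.i0 = i0 ∧ g.i1 = i1 ∧
    DOK (u.length + 1) n g (mkD pad u Os i0 i1) ∧
    insP (unL (oj Os 0)) (uI Os i0 i1) i0 = g.ins ∧
    Cok C (u.length + 1) n c0 (f0 + 1 + (g.s + 1) ^ 3) (mkD pad u Os i0 i1).1

section
variable (p n : ℕ) [Fact p.Prime]

def A_DEC : Prop := ∀ (U : Type) [Group U] [DecidableEq U] (d : Dt U), UP.Ok p n d.1 →
  ∀ u : FP U, mV p n (lamP d u) = (bsD p n d).lamM u ∧
    ∀ a, fV p n (thP d a u) = (bsD p n d).th a u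

/-- the images of lists of generators -/
def A_GS : Prop := ∀ (U : Type) [Group U] [DecidableEq U] (g : Sg U) (d : Dt U), DOK p n g d →
  (∀ u ∈ g.B, gD p n (lamP d u) = (bsD p n d).lam u ∧ Par (l0 n) (mV p n (lamP d u))) ∧
  ∀ S, gen S ≤ g.B → gS p n (S.map (lamP d)) = img (bsD p n d).lam (gen S)

def A_LIFT0 : Prop := ∀ (U : Type) [Group U] [DecidableEq U] (g : Sg U) (d : Dt U) (a : Ins)
  (S : List (FP U)) (z : V), DOK p n g d → gen S ≤ g.B →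
  (∃ u ∈ gen S, ((bsD p n d).lam u).1 = mV p n z) →
  ((bsD p n d).lam (liftL d a S z).1).1 = mV p n z ∧
  ∀ u, u ∈ gen (liftL d a S z).2 ↔ u ∈ gen S ∧ (bsD p n d).lam u = 1

def A_PAIR : Prop := ∀ (U : Type) [Group U] [DecidableEq U] (g : Sg U) (d : Dt U) (a : Ins)
  (S : List (FP U)), DOK p n g d → g.Vd a → a.k ≤ 1 → IsG (gen S) g.B (g.pre p a) →
  Pairs p n a.k (fun z v => ∃ u ∈ gen S, (bsD p n d).lam u = z ∧ (bsD p n d).th a u = v)
    (omP d a S) (S.map (lamP d)) ((liftL d a S (oneP d.1)).2.map (thP d a))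

def A_LIFT : Prop := ∀ (U : Type) [Group U] [DecidableEq U] (g : Sg U) (d : Dt U) (a : Ins)
  (S : List (FP U)) (ψ : FP U) (z : V), DOK p n g d → g.Vd a → a.k ≤ 1 →
  IsG (gen S) g.B (g.pre p a) → g.pre p a ψ →
  (∃ u ∈ gen S, ((bsD p n d).lam u).1 = mV p n z ∧ (bsD p n d).th a (ψ * u) = 0) →
  ((bsD p n d).lam (liftC d a S ψ z).1).1 = mV p n z ∧
  (bsD p n d).th a (ψ * (liftC d a S ψ z).1) = 0 ∧
  ∀ u, u ∈ gen (liftC d a S ψ z).2 ↔
    u ∈ gen S ∧ (bsD p n d).lam u = 1 ∧ (bsD p n d).th a u = 0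

def A_CALL : Prop := ∀ (U : Type) [Group U] [DecidableEq U] (A : Aff) (P : ℕ → Prop)
  (q C c0 m j : ℕ) (Cert : Crt) (g : Sg U) (d : Dt U) (a : Ins) (s : Stt U), A.Ok P q C Cert → P p →
  DOK p n g d → Cok C p n c0 m d.1 → j < m → g.Vd a → a.k ≤ 1 → IsG (gen s.1) g.B (g.pre p a) →
  Cert p n c0 d.1 (img (bsD p n d).lam (gen s.1)) s.2.2 j →
  Upd g (g.pre p a) (g.post p a) s (callP A d a s) ∧
  Cert p n c0 d.1 (img (bsD p n d).lam (gen (callP A d a s).1)) (callP A d a s).2.2 (j + 1)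

def A_FIXT : Prop := ∀ (U : Type) [Group U] [DecidableEq U] (g : Sg U) (d : Dt U) (a : Ins)
  (S : List (FP U)) (ψ : FP U), DOK p n g d → g.Vd a → 2 ≤ a.k → IsG (gen S) g.B (g.pre p a) →
  g.pre p a ψ → (fixT d a S ψ).1 ∈ g.Nk a.i ∧ g.post p a (ψ * (fixT d a S ψ).1) ∧
  ∀ u, u ∈ gen (fixT d a S ψ).2 ↔ u ∈ gen S ∧ u ∈ g.Nk a.i ∧ g.post p a u

def A_FIX : Prop := ∀ (U : Type) [Group U] [DecidableEq U] (g : Sg U) (d : Dt U) (a : Ins)
  (s : Stt U), DOK p n g d → g.Vd a → 2 ≤ a.k → IsG (gen s.1) g.B (g.pre p a) →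
  Upd g (g.pre p a) (g.post p a) s (fixP d a s) ∧
  img (bsD p n d).lam (gen (fixP d a s).1) = img (bsD p n d).lam (gen s.1)

def A_LOOP : Prop := ∀ (U : Type) [Group U] [DecidableEq U] (A : Aff) (P : ℕ → Prop)
  (q C c0 m : ℕ) (Cert : Crt) (g : Sg U) (d : Dt U) (σ : FP U), A.Ok P q C Cert → P p →
  DOK p n g d → Cok C p n c0 m d.1 → ∀ (l : List Ins) (Q Q' : FP U → Prop) (j : ℕ) (s : Stt U),
  g.Lnk p Q l Q' → j + l.length ≤ m → Inv Cert p n c0 g d σ Q j s →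
  Inv Cert p n c0 g d σ Q' (j + l.length) (l.foldl (stepP A d) s)

def A_FRAT : Prop := ∀ (U : Type) [Group U] [DecidableEq U] (g : Sg U) (d : Dt U), DOK p n g d →
  (∀ S, gen S = TT g.O g.i0 → gen (fratP d S) = g.B) ∧
  (∀ S, gen S ≤ g.B → gen (kkP d S) = gen S ⊓ FxG (g.O 0) (g.O 1)) ∧
  (∀ c ∈ inn (dO d 0), ∃ a ∈ g.O 0, IsInn (g.O 0) a c) ∧
  ∀ a ∈ g.O 0, ∃ c ∈ inn (dO d 0), IsInn (g.O 0) a c

def A_ST0 : Prop := ∀ (U : Type) [Group U] [DecidableEq U] (A : Aff) (P : ℕ → Prop)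
  (q C c0 f0 m : ℕ) (Cert : Crt) (g : Sg U) (d : Dt U) (cf : List (FP U) → FoG (FP U))
  (S : List (FP U)) (σ : FP U), A.Ok P q C Cert → P p → DOK p n g d → Cok C p n c0 m d.1 →
  f0 < m → Cf g.O q c0 f0 cf → gen S = g.B →
  Inv Cert p n c0 g d σ (LevG g.O g.i0) (f0 + 1) (st0 A cf d S σ)

def A_RUN : Prop := ∀ (U : Type) [Group U] [DecidableEq U] (A : Aff) (P : ℕ → Prop)
  (q C c0 f0 : ℕ) (Cert : Crt) (g : Sg U) (d : Dt U) (cf : List (FP U) → FoG (FP U))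
  (s : List (FP U) × FP U), A.Ok P q C Cert → P p → DOK p n g d →
  Cok C p n c0 (f0 + 1 + (g.s + 1) ^ 3) d.1 → Cf g.O q c0 f0 cf → gen s.1 = TT g.O g.i0 →
  Adv g.O g.i0 g.i1 s (stRun A cf d g.ins s)

end

/-- the result of the project -/
def A_PS : Prop := ∀ (U : Type) [Group U] [DecidableEq U] (A : Aff) (P : ℕ → Prop)
  (q C c0 f0 r N : ℕ) (Cert : Crt) (O : ℕ → Subgroup U) (pr : ℕ → ℕ) (Os : List (List U))
  (ps : List ℕ) (cf : List (FP U) → FoG (FP U)) (pad uN : Un) (s : List (FP U) × FP U),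
  A.Ok P q C Cert → Dat P O r N pr Os ps → Cf O q c0 f0 cf → uN.length = N + 2 →
  need C c0 f0 N ≤ pad.length → gen s.1 = TT O 1 →
  (∀ u, u ∈ gen (psP A cf pad uN Os ps s).1 ↔ u ∈ T0 O ∧ Hom (O 0) u) ∧
  s.2⁻¹ * (psP A cf pad uN Os ps s).2 ∈ TT O 1 ∧
  ((∃ u ∈ TT O 1, Hom (O 0) (s.2 * u)) → Hom (O 0) (psP A cf pad uN Os ps s).2)

/-! ### time -/

def P_MKD : Prop := ∀ (U : Type) [Group U] [DecidableEq U] [Enc U] [GI.PG U],
  PT (fun x : Un × Un × List (List U) × ℕ × ℕ => mkD x.1 x.2.1 x.2.2.1 x.2.2.2.1 x.2.2.2.2) ∧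
  PT (fun x : List (List U) × ℕ × ℕ => insP (unL (oj x.1 0)) (uI x.1 x.2.1 x.2.2) x.2.1)

def P_LAM : Prop := ∀ (U : Type) [Group U] [DecidableEq U] [Enc U] [GI.PG U],
  PT (fun x : Un × FP U × U × U => dfP x.1 x.2.1 x.2.2.1 x.2.2.2) ∧
  PT (fun x : Dt U × FP U => lamP x.1 x.2) ∧
  PT (fun x : Dt U × Ins × FP U => thP x.1 x.2.1 x.2.2)

def P_STEP : Prop := ∀ (U : Type) [Group U] [DecidableEq U] [Enc U] [GI.PG U] (A : Aff), A.Pt →
  PT (fun x : Dt U × Stt U × Ins => stepP A x.1 x.2.1 x.2.2) ∧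
  PT (fun x : Dt U × List (FP U) => fratP x.1 x.2) ∧
  PT (fun x : Dt U × List (FP U) => kkP x.1 x.2) ∧
  ∀ (d : Dt U) (s : Stt U) (a : Ins), gen (stepP A d s a).1 ≤ gen s.1 ∧
    (stepP A d s a).1.length ≤ (dPad d).length ∧ s.2.1⁻¹ * (stepP A d s a).2.1 ∈ gen s.1 ∧
    ((stepP A d s a).2.2 = s.2.2 ∨ ∃ k om G S0 w δ,
      (stepP A d s a).2.2 = (A.solve d.1 k om G S0 w δ).2.1)

def P_PS : Prop := ∀ (U α : Type) [Group U] [DecidableEq U] [Enc U] [GI.PG U] [Enc α] (A : Aff)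
  (cf : α → List (FP U) → FoG (FP U)) (pad uN : α → Un) (Os : α → List (List U))
  (ps : α → List ℕ) (s : α → List (FP U) × FP U), A.Pt →
  PT (fun x : α × List (FP U) => cf x.1 x.2) → PT pad → PT uN → PT Os → PT ps → PT s →
  PT (fun a => psP A (cf a) (pad a) (uN a) (Os a) (ps a) (s a))

end Pool.Agent.P.MP_f1a348_lc.PS
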