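import Pool.Agent.P.MP_f1a348_lc.PS.GDefs

/-!
Project PS: certificates are monotone in the base and in the bounds.
-/

namespace Pool.Agent.P.MP_f1a348_lc.PS

open GI (FP)
open UP (Rec)

theorem Tight.base {Γ : Type} [Group Γ] {q q' c : ℕ} {G : Subgroup Γ} {F : List (Rec Γ)}
    (h : q ≤ q') (t : Tight q c G F) : Tight q' c G F := by
  induction t with
  | nil c G => exact .nil c G
  | cons c c0 c' G K P sub rest h1 h2 h3 h4 h5 _ h7 _ i1 i2 =>
    exact .cons c c0 c' G K P sub rest h1 h2 h3 (h4.trans (Nat.pow_le_pow_left h _)) h5 i1 h7 i2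

theorem Tight.bud {Γ : Type} [Group Γ] {q c : ℕ} {G : Subgroup Γ} {F : List (Rec Γ)}
    (t : Tight q c G F) : ∀ c', c ≤ c' → Tight q c' G F := by
  induction t with
  | nil c G => exact fun c' _ => .nil c' G
  | cons c c0 c1 G K P sub rest h1 h2 h3 h4 h5 h6 h7 _ _ i2 =>
    exact fun c' h => .cons c' c0 c1 G K P sub rest h1 h2 h3 h4 (h5.trans h) h6 h7 (i2 c' h)

theorem Cf.mono {U : Type} [Group U] {O : ℕ → Subgroup U} {q q' c0 c1 f0 f1 : ℕ}
    {cf : List (FP U) → FoG (FP U)} (h : Cf O q c0 f0 cf) (hq : q ≤ q') (hc : c0 ≤ c1)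
    (hf : f0 ≤ f1) : Cf O q' c1 f1 cf := fun S hS =>
  ⟨((h S hS).1.base hq).bud _ hc, (h S hS).2.1, (h S hS).2.2.trans hf⟩

theorem Cf.base {U : Type} [Group U] {O : ℕ → Subgroup U} {c0 f0 : ℕ}
    {cf : List (FP U) → FoG (FP U)} (h : Cf O 4 c0 f0 cf) : Cf O 5 c0 f0 cf :=
  h.mono (by norm_num) le_rfl le_rfl

end Pool.Agent.P.MP_f1a348_lc.PS
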