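import Pool.Agent.P.MP_f1a348_lc.PS.Iface

/-!
Project PS: Sylow subgroups modulo a normal subgroup and the argument of Frattini.
-/

namespace Pool.Agent.P.MP_f1a348_lc.PS

open GI (gen Cg FP)
open UP (Rec up topI SolvMod Nm Val GG SA UG)
open PG (Ix Vec Mat Frm Sub c0 st l0 Par pull1 Wt key)
open scoped commutatorElement Matrix

namespace TSYL
variable {U : Type} [Group U]

theorem normal {Y O : Subgroup U} (h : Nm Y O) : (O.subgroupOf Y).Normal :=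
  ⟨fun n hn g => by
    rw [Subgroup.mem_subgroupOf] at hn ⊢
    exact h g g.2 n hn⟩

/-- a maximal group gives a Sylow subgroup of the quotient -/
theorem syl {p : ℕ} {Y O D : Subgroup U} [(O.subgroupOf Y).Normal] (h : MaxP p Y O D) :
    ∃ P : Sylow p (Y ⧸ O.subgroupOf Y), ∀ x : Y,
      QuotientGroup.mk' (O.subgroupOf Y) x ∈ (P : Subgroup _) ↔ (x : U) ∈ D := by
  set π := QuotientGroup.mk' (O.subgroupOf Y) with hπ
  have hk : ∀ x : Y, π x = 1 ↔ (x : U) ∈ O := fun x => by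
    rw [hπ, QuotientGroup.mk'_apply, QuotientGroup.eq_one_iff, Subgroup.mem_subgroupOf]
  have hs : Function.Surjective π := QuotientGroup.mk'_surjective _
  have hm : ∀ x : Y, π x ∈ (D.subgroupOf Y).map π ↔ (x : U) ∈ D := fun x => by
    refine ⟨?_, fun hx => ⟨x, hx, rfl⟩⟩
    rintro ⟨d, hd, e⟩
    have h1 : ((d⁻¹ * x : Y) : U) ∈ O := (hk _).1 (by rw [map_mul, map_inv, e, inv_mul_cancel])
    have h2 := D.mul_mem (Subgroup.mem_subgroupOf.1 hd) (h.lo h1)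
    simpa using h2
  refine ⟨⟨(D.subgroupOf Y).map π, ?_, ?_⟩, hm⟩
  · rintro ⟨_, d, hd, rfl⟩
    obtain ⟨k, hk'⟩ := h.pg d (Subgroup.mem_subgroupOf.1 hd)
    refine ⟨k, Subtype.ext ?_⟩
    change π d ^ p ^ k = 1
    rw [← map_pow, hk]
    exact hk'
  · intro Q hQ hle
    refine le_antisymm (fun q hq => ?_) hle
    obtain ⟨x, rfl⟩ := hs q
    rw [hm]
    refine h.max ((Q.comap π).map Y.subtype) (fun d hd => ?_) ?_ ?_ ⟨x, hq, rfl⟩
    · exact ⟨⟨d, h.hi hd⟩, hle ((hm _).2 hd), rfl⟩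
    · rintro _ ⟨y, -, rfl⟩
      exact y.2
    · rintro _ ⟨y, hy, rfl⟩
      obtain ⟨k, hk'⟩ := hQ ⟨π y, hy⟩
      refine ⟨k, (hk (y ^ p ^ k)).1 ?_⟩
      rw [map_pow]
      exact congrArg Subtype.val hk'

theorem inn_hom {Y : Subgroup U} {a : U} {c : FP U} (hc : IsInn Y a c) : Hom Y c :=
  fun x hx y hy => by
    rw [hc.2 _ (Y.mul_mem hx hy), hc.2 x hx, hc.2 y hy]
    group

theorem conj_iff {Y T : Subgroup U} (h : Nm Y T) {a : U} (ha : a ∈ Y) (x : U) :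
    a * x * a⁻¹ ∈ T ↔ x ∈ T :=
  ⟨fun hx => by simpa [mul_assoc] using h _ (Y.inv_mem ha) _ hx, h a ha x⟩

theorem inn_keep {Y T : Subgroup U} (h : Nm Y T) {a : U} (ha : a ∈ Y) {c : FP U}
    (hc : IsInn Y a c) : c ∈ Keep T := fun x => by
  by_cases hx : x ∈ Y
  · rw [hc.2 x hx, conj_iff h ha]
  · rw [hc.1 x hx]

theorem inn_pv {Y T : Subgroup U} (h : Nm Y T) (hT : T ≤ Y) {a : U} (ha : a ∈ Y) {c : FP U}
    (hc : IsInn Y a c) : c ∈ Pv T := fun x y => by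
  have hK := SupG_keep Y hc.1
  by_cases hx : x ∈ Y <;> by_cases hy : y ∈ Y
  · rw [hc.2 x hx, hc.2 y hy, Cg, Cg, ← conj_iff h ha (x⁻¹ * y)]
    congr! 1
    group
  · exact iff_of_false (fun e => hy ((hK y).1 ((e.mem_iff hT).1 ((hK x).2 hx))))
      fun e => hy ((e.mem_iff hT).1 hx)
  · exact iff_of_false (fun e => hx ((hK x).1 ((e.mem_iff hT).2 ((hK y).2 hy))))
      fun e => hx ((e.mem_iff hT).2 hy)
  · rw [hc.1 x hx, hc.1 y hy]

theorem inn_TT {O : ℕ → Subgroup U} {r : ℕ} (h : Ser O r) {a : U} (ha : a ∈ O 0) {c : FP U}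
    (hc : IsInn (O 0) a c) (i : ℕ) : c ∈ TT O i := by
  have l : ∀ j, O j ≤ O 0 := fun j => h.le (Nat.zero_le j)
  have hh := inn_hom hc
  exact ⟨mem_T0.2 ⟨hc.1, fun j => ⟨inn_keep (h.nm j) ha hc, inn_pv (h.nm j) (l j) ha hc⟩⟩,
    fun j => ⟨hh.cd 0 (l j) le_rfl _, hh.cd 0 le_rfl (l j) _⟩, hh.cd 0 le_rfl le_rfl _⟩

variable {O : ℕ → Subgroup U} {i : ℕ} {u : FP U}

theorem mul_cg (hu : u ∈ TT O i) {x y : U} (hx : x ∈ O 0) (hy : y ∈ O 0) :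
    Cg (O i) (u.app (x * y)) (u.app x * u.app y) :=
  (df_iff (T0_pv i hu.1) 0 x y).1 (hu.2.2 x hx y hy)

theorem one_mem (hu : u ∈ TT O i) : u.app 1 ∈ O i := (T0_keep i hu.1 1).2 (O i).one_mem

theorem pow_cg (hn : Nm (O 0) (O i)) (hu : u ∈ TT O i) {x : U} (hx : x ∈ O 0) :
    ∀ m : ℕ, Cg (O i) (u.app (x ^ m)) (u.app x ^ m)
  | 0 => by
    rw [pow_zero, pow_zero]
    exact (Cg.one_iff.2 (one_mem hu)).symm
  | m + 1 => by
    rw [pow_succ, pow_succ]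
    exact (mul_cg hu ((O 0).pow_mem hx m) hx).trans
      ((pow_cg hn hu hx m).right (nm_cg hn ((T0_keep 0 hu.1 x).2 hx)))

/-- the preimage of a group between `O i` and `O 0` -/
theorem pb (hu : u ∈ TT O i) {D : Subgroup U} (lo : O i ≤ D) (hi : D ≤ O 0) :
    ∃ E : Subgroup U, ∀ x, x ∈ E ↔ u.app x ∈ D := by
  have k : ∀ x, u.app x ∈ D → x ∈ O 0 := fun x hx => (T0_keep 0 hu.1 x).1 (hi hx)
  refine ⟨⟨⟨⟨{x | u.app x ∈ D}, fun {x y} hx hy => ?_⟩, lo (one_mem hu)⟩, fun {x} hx => ?_⟩,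
    fun _ => Iff.rfl⟩
  · exact ((mul_cg hu (k x hx) (k y hy)).mem_iff lo).2 (D.mul_mem hx hy)
  · have := (mul_cg hu (k x hx) ((O 0).inv_mem (k x hx))).mem_iff lo
    rw [mul_inv_cancel] at this
    exact (D.mul_mem_cancel_left hx).1 (this.1 (lo (one_mem hu)))

theorem pb_fact {p : ℕ} (hn : Nm (O 0) (O i)) (hu : u ∈ TT O i) {D E : Subgroup U} (lo : O i ≤ D)
    (hi : D ≤ O 0) (pg : PGm p D (O i)) (hE : ∀ x, x ∈ E ↔ u.app x ∈ D) :
    O i ≤ E ∧ E ≤ O 0 ∧ PGm p E (O i) := by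
  have k : E ≤ O 0 := fun x hx => (T0_keep 0 hu.1 x).1 (hi ((hE x).1 hx))
  refine ⟨fun x hx => (hE x).2 (lo ((T0_keep i hu.1 x).2 hx)), k, fun x hx => ?_⟩
  obtain ⟨m, hm⟩ := pg _ ((hE x).1 hx)
  exact ⟨m, (T0_keep i hu.1 _).1 (((pow_cg hn hu (k hx) _).mem_iff le_rfl).2 hm)⟩

theorem pb_max {p : ℕ} (hn : Nm (O 0) (O i)) (hu : u ∈ TT O i) {D E : Subgroup U}
    (h : MaxP p (O 0) (O i) D) (hE : ∀ x, x ∈ E ↔ u.app x ∈ D) : MaxP p (O 0) (O i) E := by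
  obtain ⟨a, b, c⟩ := pb_fact hn hu h.lo h.hi h.pg hE
  refine ⟨a, b, c, fun D' h1 h2 h3 x hx => ?_⟩
  have hv := (TT O i).inv_mem hu
  obtain ⟨E', hE'⟩ := pb hv (a.trans h1) h2
  obtain ⟨-, b', c'⟩ := pb_fact hn hv (a.trans h1) h2 h3 hE'
  refine (hE x).2 (h.max E' (fun y hy => (hE' y).2 (h1 ((hE _).2 ?_))) b' c' ((hE' _).2 ?_))
  · simpa using hy
  · simpa using hx

end TSYL

open TSYL

theorem s_SYL : S_SYL := by
  intro U _ p Y O D hp hY hn h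
  have := Fact.mk hp
  have := normal hn
  obtain ⟨P, hP⟩ := syl h
  refine ⟨?_, fun D' h' => ?_⟩
  · have e : D.subgroupOf Y = (P : Subgroup _).comap (QuotientGroup.mk' (O.subgroupOf Y)) := by
      ext x
      rw [Subgroup.mem_subgroupOf, Subgroup.mem_comap, hP]
    rw [Subgroup.relIndex, e,
      Subgroup.index_comap_of_surjective _ (QuotientGroup.mk'_surjective _)]
    exact hp.coprime_iff_not_dvd.2 P.not_dvd_index
  · obtain ⟨P', hP'⟩ := syl h'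
    obtain ⟨q, hq⟩ := MulAction.exists_smul_eq (Y ⧸ O.subgroupOf Y) P P'
    obtain ⟨a, rfl⟩ := QuotientGroup.mk'_surjective _ q
    refine ⟨a, a.2, fun x => ?_⟩
    by_cases hx : x ∈ Y
    · have e := hP' (a * ⟨x, hx⟩ * a⁻¹)
      rw [← hq, Sylow.coe_subgroup_smul, map_mul, map_mul, map_inv, ← MulAut.conj_apply,
        ← MulAut.smul_def, Subgroup.smul_mem_pointwise_smul_iff, hP] at e
      exact e.symm
    · refine iff_of_false (fun e => hx ?_) fun e => hx (h.hi e)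
      have := Y.mul_mem (Y.mul_mem (Y.inv_mem a.2) (h'.hi e)) a.2
      simpa [mul_assoc] using this

theorem s_FRAT : S_FRAT := by
  intro U _ p g hp ok
  refine ⟨fun a ha c hc => ⟨inn_TT ok.ser ha hc, fun ψ hψ x hx y hy => ?_⟩, fun u hu => ?_⟩
  · have hK := SupG_keep _ hc.1
    rw [FP.app_mul, FP.app_mul, FP.app_mul, inn_hom hc x hx y hy,
      hψ _ ((hK x).2 hx) _ ((hK y).2 hy)]
  · obtain ⟨E, hE⟩ := pb hu ok.syl.lo ok.syl.hi
    have hm := pb_max (ok.ser.nm _) hu ok.syl hE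
    obtain ⟨a, ha, h⟩ := (s_SYL U p _ _ _ hp ok.ser.fin (ok.ser.nm _) ok.syl).2 E hm
    refine ⟨a, ha, fun c hc => ⟨(TT _ _).mul_mem hu (inn_TT ok.ser ha hc _), fun x => ?_⟩⟩
    rw [FP.app_mul, ← hE]
    by_cases hx : x ∈ g.O 0
    · rw [hc.2 x hx, h]
    · rw [hc.1 x hx]
      exact iff_of_false (fun e => hx (hm.hi e)) fun e => hx (ok.syl.hi e)

end Pool.Agent.P.MP_f1a348_lc.PS
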