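import Pool.Agent.P.MP_f1a348_lc.PS.PIf

/-!
Project PS: all stages.
-/

namespace Pool.Agent.P.MP_f1a348_lc.PS

open GI (gen Cg FP Rep sims)
open UP (Rec up topI SolvMod Nm Val GG SG SA UG Fo gS gD foD)
open PG (Ix Vec Mat Frm Sub c0 st l0 Par pull1 Wt key V Cx pp mM mV fV unL oneP)
open Pool.Agent.Lib.Helper47

set_option linter.unusedSectionVars false

namespace TAPS

theorem cnt (q : ℕ) : ∀ (l : List ℕ) (f : ℕ → ℕ), (∀ k, k < l.length → l.getD k 0 = f k) →
    (∀ i j, i ≤ j → j < l.length → f j ≤ f i) →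
    ∀ k, k < l.length → (k < l.countP (fun x => Nat.ble q x) ↔ q ≤ f k)
  | [], _, _, _, k, hk => absurd hk (by simp)
  | a :: t, f, hv, ha, k, hk => by
    have ih := cnt q t (fun k => f (k + 1)) (fun k hk => hv (k + 1) (by simpa using hk))
      (fun i j hij hj => ha _ _ (by omega) (by simpa using hj))
    have h0 : a = f 0 := hv 0 (by simp)
    have hl : t.countP (fun x => Nat.ble q x) ≤ t.length := List.countP_le_length
    rw [List.length_cons] at hk ha
    rw [List.countP_cons]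
    simp only [Nat.ble_eq]
    rcases k with _ | k
    · split_ifs with h
      · exact ⟨fun _ => h0 ▸ h, fun _ => by omega⟩
      · refine ⟨fun h' => ?_, fun h' => absurd (h0 ▸ h') h⟩
        exact ((ih 0 (by omega)).1 (by omega)).trans (ha 0 1 (by omega) (by omega))
    · have h1 := ih k (by omega)
      have h2 := ha 0 (k + 1) (by omega) hk
      split_ifs with h
      · rw [← h1]; omega
      · exact ⟨fun h' => h1.1 (by omega), fun h' => absurd (h0 ▸ h'.trans h2) h⟩

section
variable {U : Type} [Group U] [DecidableEq U]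

theorem cop {H : Subgroup U} {x : U} {a b : ℕ} (h : a.Coprime b) (ha : x ^ a ∈ H)
    (hb : x ^ b ∈ H) : x ∈ H := by
  have e := Nat.gcd_eq_gcd_ab a b
  rw [h.gcd_eq_one] at e
  have : x = (x ^ a) ^ Nat.gcdA a b * (x ^ b) ^ Nat.gcdB a b := by
    rw [← zpow_natCast, ← zpow_natCast, ← zpow_mul, ← zpow_mul, ← zpow_add, ← e]
    simp
  rw [this]
  exact H.mul_mem (H.zpow_mem ha _) (H.zpow_mem hb _)

theorem adv_refl {O : ℕ → Subgroup U} {i j : ℕ} {s : List (FP U) × FP U} (h : gen s.1 = TT O i)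
    (e : TT O j = TT O i) : Adv O i j s s :=
  ⟨h.trans e.symm, by simp, fun h' => e ▸ h'⟩

theorem adv_trans {O : ℕ → Subgroup U} {i j k : ℕ} {s s' s'' : List (FP U) × FP U}
    (h : Adv O i j s s') (h' : Adv O j k s' s'') (hle : TT O j ≤ TT O i) : Adv O i k s s'' :=
  ⟨h'.grp, by simpa [mul_assoc] using (TT O i).mul_mem h.sig (hle h'.sig),
    fun e => h'.sol (h.sol e)⟩

variable {P : ℕ → Prop} {O : ℕ → Subgroup U} {r N : ℕ} {pr : ℕ → ℕ} {Os : List (List U)}
  {ps : List ℕ}

theorem iA_pos (q : ℕ) : 1 ≤ iA ps q := Nat.le_add_left _ _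

theorem iA_anti (q : ℕ) : iA ps (q + 1) ≤ iA ps q :=
  Nat.add_le_add_right (List.countP_mono_left fun x _ h => by
    simp only [Nat.ble_eq] at h ⊢; omega) 1

theorem iA_le (h : Dat P O r N pr Os ps) (q : ℕ) : iA ps q ≤ r := by
  have h1 : ps.tail.countP (fun x => Nat.ble q x) ≤ ps.tail.length := List.countP_le_length
  have h2 := h.r0
  rw [List.length_tail, h.lenP] at h1
  unfold iA
  omega

theorem lt_iA (h : Dat P O r N pr Os ps) (q : ℕ) {j : ℕ} (h1 : 1 ≤ j) (hj : j < r) :
    j < iA ps q ↔ q ≤ pr j := by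
  have hl : ps.tail.length = r - 1 := by rw [List.length_tail, h.lenP]
  have key := cnt q ps.tail (fun k => pr (k + 1)) (fun k hk => by
      rw [← h.val (k + 1) (by omega) (by omega)]
      simp [List.getD_eq_getElem?_getD])
    (fun i j hij => by
      induction j, hij using Nat.le_induction with
      | base => exact fun _ => le_rfl
      | succ j _ ih =>
        exact fun hj => (h.prs.anti (j + 1) (by omega) (by omega)).trans (ih (by omega)))
    (j - 1) (by omega)
  rw [Nat.sub_add_cancel h1] at key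
  rw [← key]
  unfold iA
  omega

theorem iA_top (h : Dat P O r N pr Os ps) : iA ps (N + 2) = 1 := by
  refine le_antisymm (not_lt.1 fun h1 => ?_) (iA_pos _)
  have h2 := h1.trans_le (iA_le h _)
  have := ((lt_iA h _ le_rfl h2).1 h1).trans (h.prs.le 1 le_rfl h2)
  omega

theorem iA_zero (h : Dat P O r N pr Os ps) : iA ps 0 = r :=
  le_antisymm (iA_le h 0) (not_lt.1 fun h1 =>
    lt_irrefl _ ((lt_iA h 0 (iA_pos 0) h1).2 (Nat.zero_le _)))

theorem lay (h : Dat P O r N pr Os ps) {q i : ℕ} (h0 : iA ps (q + 1) ≤ i) (h1 : i < iA ps q) :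
    O i ≤ O (i + 1) ∨ (q.Prime ∧ P q ∧ ∀ x ∈ O i, x ^ q ∈ O (i + 1)) := by
  have hi : 1 ≤ i := (iA_pos _).trans h0
  have hr : i < r := h1.trans_le (iA_le h q)
  have a := (lt_iA h q hi hr).1 h1
  have b := (lt_iA h (q + 1) hi hr).not.1 (not_lt.2 h0)
  have e : pr i = q := by omega
  exact e ▸ h.prs.exp i hi hr

theorem low (h : Dat P O r N pr Os ps) {q : ℕ} (hq : q.Prime) {x : U} (hx : x ∈ O 1)
    (hp : x ^ q ∈ O (iA ps (q + 1))) : x ∈ O (iA ps (q + 1)) := by
  suffices ∀ j, 1 ≤ j → j ≤ iA ps (q + 1) → x ∈ O j from this _ (iA_pos _) le_rfl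
  intro j h1
  induction j, h1 using Nat.le_induction with
  | base => exact fun _ => hx
  | succ j h1 ih =>
    intro hj
    have hr : j < r := (Nat.lt_of_succ_le hj).trans_le (iA_le h _)
    have a := (lt_iA h (q + 1) h1 hr).1 hj
    rcases h.prs.exp j h1 hr with e | ⟨e1, -, e2⟩
    · exact e (ih (by omega))
    · exact cop ((Nat.coprime_primes hq e1).2 (by omega)) (h.ser.le hj hp) (e2 x (ih (by omega)))

theorem step (hM : A_MKD) (hR : ∀ (p n : ℕ) [Fact p.Prime], A_RUN p n) {A : Aff}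
    {q0 C c0 f0 : ℕ} {Cert : Crt} {cf : List (FP U) → FoG (FP U)} {pad uN : Un}
    (hA : A.Ok P q0 C Cert) (h : Dat P O r N pr Os ps) (hcf : Cf O q0 c0 f0 cf)
    (hN : uN.length = N + 2) (hpad : need C c0 f0 N ≤ pad.length) {q : ℕ} (hq : q ≤ N + 1)
    (s : List (FP U) × FP U) (hs : gen s.1 = TT O (iA ps (q + 1))) :
    Adv O (iA ps (q + 1)) (iA ps q) s (psStep A cf pad uN Os ps s q) := by
  have hle : O (iA ps q) ≤ O (iA ps (q + 1)) := h.ser.le (iA_anti q)
  unfold psStep
  cases hb : Nat.blt (oj Os (iA ps q)).length (oj Os (iA ps (q + 1))).length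
  · have hb' : ¬ (oj Os (iA ps q)).length < (oj Os (iA ps (q + 1))).length := by
      rw [← Nat.blt_eq, hb]; simp
    have := (h.rep (iA ps (q + 1))).finite
    have e : O (iA ps q) = O (iA ps (q + 1)) := Subgroup.eq_of_le_of_card_ge hle (by
      rw [(h.rep _).card, (h.rep _).card]; omega)
    exact adv_refl hs (le_antisymm (TT_anti e.le) (TT_anti e.ge))
  · rw [Nat.blt_eq] at hb
    obtain ⟨hp, hP⟩ : q.Prime ∧ P q := by
      by_contra hn
      have : ∀ j, iA ps (q + 1) ≤ j → j ≤ iA ps q → O (iA ps (q + 1)) ≤ O j := by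
        intro j h1
        induction j, h1 using Nat.le_induction with
        | base => exact fun _ => le_rfl
        | succ j h1 ih =>
          exact fun hj => (ih (by omega)).trans
            ((lay h h1 hj).resolve_right fun e => hn ⟨e.1, e.2.1⟩)
      exact absurd ((h.rep _).length_le (h.rep _) (this _ (iA_anti q) le_rfl)) (not_le.2 hb)
    have h2 := hp.two_le
    have hu : (uN.take (q - 1)).length + 1 = q := by rw [List.length_take, hN]; omega
    obtain ⟨n, g, rfl, e0, e1, hD, hi, hC⟩ := hM U C c0 f0 N r (iA ps (q + 1)) (iA ps q) pad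
      (uN.take (q - 1)) O Os (hu.symm ▸ hp) (by omega) h.ser h.rep h.lenO h.rN h.card (iA_pos _)
      (iA_anti q) (iA_le h q)
      (fun i a b x hx => by
        rw [hu]
        exact (lay h a b).elim (fun e => (O (i + 1)).pow_mem (e hx) q) fun e => e.2.2 x hx)
      (fun x hx hx' => low h hp hx (by rwa [hu] at hx')) hA.big hpad
    rw [hu] at hD hC
    have : Fact q.Prime := ⟨hp⟩
    have key := hR q n U A P q0 C c0 f0 Cert g _ cf s hA hP hD hC hcf (e0.symm ▸ hs)
    rw [e0, e1, ← hi] at key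
    exact key

end

end TAPS

open TAPS in
theorem a_PS (hM : A_MKD) (hR : ∀ (p n : ℕ) [Fact p.Prime], A_RUN p n) : A_PS := by
  intro U _ _ A P q C c0 f0 r N Cert O pr Os ps cf pad uN s hA h hcf hN hpad hs
  have fold : ∀ m, m ≤ N + 2 → ∀ s', Adv O 1 (iA ps m) s s' →
      Adv O 1 (iA ps 0) s ((List.range m).reverse.foldl (psStep A cf pad uN Os ps) s') := by
    intro m
    induction m with
    | zero => exact fun _ _ a => a
    | succ m ih =>
      intro hm s' a
      rw [List.range_succ, List.reverse_append]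
      exact ih (by omega) _ (adv_trans a (step hM hR hA h hcf hN hpad (by omega) s' a.grp)
        (TT_anti (h.ser.le (iA_pos _))))
  have key := fold (N + 2) le_rfl s (adv_refl hs (by rw [iA_top h]))
  rw [iA_zero h, ← hN, ← PG.ran_eq] at key
  have hb : O r = ⊥ := h.ser.bot r le_rfl
  refine ⟨fun u => ?_, key.sig, fun e => ?_⟩
  · unfold psP
    rw [key.grp, mem_TT]
    refine and_congr_right fun _ => ⟨fun a => hom_iff.2 (hb ▸ a.2), fun a => ⟨fun j => ?_, ?_⟩⟩
    · exact ⟨a.cd 0 (h.ser.le (Nat.zero_le j)) le_rfl _, a.cd 0 le_rfl (h.ser.le (Nat.zero_le j)) _⟩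
    · exact a.cd 0 le_rfl le_rfl _
  · obtain ⟨u, hu, e'⟩ := key.sol e
    have := ((two_cd 0 (T0_keep 0) (T0_keep 0) (T0_pv r)).mul _ u hu.1 hu.2.2).1
      (e'.cd 0 le_rfl le_rfl _)
    exact hom_iff.2 (hb ▸ this)

end Pool.Agent.P.MP_f1a348_lc.PS
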