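import Pool.Agent.P.MP_f1a348_lc.PS.PIf

/-!
Project PS: the coordinates of the program are a system of coordinates.
-/

namespace Pool.Agent.P.MP_f1a348_lc.PS

open GI (gen Cg FP Rep sims)
open UP (Rec up topI SolvMod Nm Val GG SG SA UG Fo gS gD foD)
open PG (Ix Vec Mat Frm Sub c0 st l0 Par pull1 Wt key V Cx pp mM mV fV unL oneP)
open Pool.Agent.Lib.Helper47

namespace TBAS
variable {U : Type} [Group U]

def en (m : ℕ) (B : ℕ → List U) : List (ℕ × ℕ × U) :=
  (List.range m).flatMap fun b => (B b).zipIdx.map fun q => (b, q.2, q.1)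

theorem mem_en {m : ℕ} {B : ℕ → List U} {e : ℕ × ℕ × U} :
    e ∈ en m B ↔ e.1 < m ∧ e.2.1 < (B e.1).length ∧ e.2.2 = (B e.1).getD e.2.1 1 := by
  obtain ⟨b, k, x⟩ := e
  simp only [en, List.mem_flatMap, List.mem_range, List.mem_map, Prod.mk.injEq, Prod.exists,
    List.mk_mem_zipIdx_iff_getElem?]
  constructor
  · rintro ⟨b, hb, x, k, h, rfl, rfl, rfl⟩
    obtain ⟨hk, rfl⟩ := List.getElem?_eq_some_iff.1 h
    exact ⟨hb, hk, (List.getD_eq_getElem _ _ hk).symm⟩
  · rintro ⟨hb, hk, rfl⟩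
    exact ⟨b, hb, _, k, by rw [List.getD_eq_getElem _ _ hk, List.getElem?_eq_getElem], rfl, rfl, rfl⟩

omit [Group U] in
theorem nodup_en (m : ℕ) (B : ℕ → List U) : (en m B).Nodup := by
  refine List.nodup_flatMap.2 ⟨fun b _ => List.Nodup.of_map (fun e => e.2.1) ?_,
    List.nodup_range.imp fun {a b} h e ha hb => h ?_⟩
  · rw [List.map_map]
    exact (List.zipIdx_map_snd 0 (B b)).symm ▸ List.nodup_range'
  · obtain ⟨q, -, rfl⟩ := List.mem_map.1 ha
    obtain ⟨q', -, e⟩ := List.mem_map.1 hb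
    exact (congrArg Prod.fst e).symm

theorem ok [DecidableEq U] (p n m : ℕ) (d : Dt U) (D : ℕ → Subgroup U) (hz : PG.cz d.1 = n)
    (hE : d.2.2.2.2 = en m (dB d)) (hn : (en m (dB d)).length = n)
    (H : ∀ b, b < m → (∀ x ∈ dB d b, x ∈ D b) ∧
      (∀ x ∈ D b, ∀ z ∈ D b, ∀ k, (((crd d b (x * z)).getD k 0 : ℕ) : ZMod p) =
        ((crd d b x).getD k 0 : ℕ) + ((crd d b z).getD k 0 : ℕ)) ∧
      (∀ x ∈ D b, (∀ k, k < (dB d b).length → (((crd d b x).getD k 0 : ℕ) : ZMod p) = 0) ↔
        x ∈ D (b + 1)) ∧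
      ∀ k, k < (dB d b).length → ∀ k',
        (((crd d b ((dB d b).getD k 1)).getD k' 0 : ℕ) : ZMod p) = if k' = k then 1 else 0) :
    (bsD p n d).OK D m := by
  have lt : ∀ α : Ix n, c0 n < α → α.val - (n + 1) < (en m (dB d)).length := fun α h => by
    have h1 : n < α.val := h
    have h2 := α.2
    omega
  have get : ∀ (α : Ix n) (h : c0 n < α), dE d α.val = (en m (dB d))[α.val - (n + 1)]'(lt α h) :=
    fun α h => by rw [dE, hE, hz, List.getD_eq_getElem _ _ (lt α h)]
  have mem := fun α h => mem_en.1 (get α h ▸ List.getElem_mem (lt α h))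
  have kap : ∀ b x (α : Ix n), (bsD p n d).kap b x α = if c0 n < α ∧ (dE d α.val).1 = b then
      (((crd d b x).getD (dE d α.val).2.1 0 : ℕ) : ZMod p) else 0 := fun b x α => by
    have e : c0 n < α ↔ n < α.val := Iff.rfl
    simp only [bsD, kapP, hz, e, Bool.cond_eq_ite, Bool.and_eq_true, Nat.blt_eq, beq_iff_eq]
    split_ifs <;> simp
  refine ⟨fun α h => ⟨(mem α h).1, ?_⟩, fun b hb x hx y hy => funext fun α => ?_,
    fun b hb x hx => ?_, fun b x α h => ?_, fun α h => funext fun γ => ?_⟩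
  · obtain ⟨h1, h2, h3⟩ := mem α h
    refine (H _ h1).1 _ ?_
    change (dE d α.val).2.2 ∈ _
    rw [h3, List.getD_eq_getElem _ _ h2]
    exact List.getElem_mem h2
  · rw [Pi.add_apply, kap, kap, kap]
    split_ifs
    · exact (H b hb).2.1 x hx y hy _
    · simp
  · rw [← (H b hb).2.2.1 x hx]
    refine ⟨fun h k hk => ?_, fun h => funext fun α => ?_⟩
    · obtain ⟨j, hj, e⟩ := List.getElem_of_mem
        (mem_en (e := (b, k, (dB d b).getD k 1)).2 ⟨hb, hk, rfl⟩)
      have c : c0 n < (⟨j + (n + 1), by omega⟩ : Ix n) := show n < j + (n + 1) by omega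
      have e' := get _ c
      simp only [Nat.add_sub_cancel, e] at e'
      have := congrFun h ⟨j + (n + 1), by omega⟩
      rwa [kap, e', if_pos ⟨c, rfl⟩] at this
    · rw [kap]
      split_ifs with c
      · exact h _ (c.2 ▸ (mem α c.1).2.1)
      · rfl
  · rw [kap] at h
    exact (ite_ne_right_iff.1 h).1
  · obtain ⟨h1, h2, h3⟩ := mem α h
    rw [kap, Pi.single_apply]
    change (if c0 n < γ ∧ (dE d γ.val).1 = (dE d α.val).1 then
      (((crd d (dE d α.val).1 (dE d α.val).2.2).getD (dE d γ.val).2.1 0 : ℕ) : ZMod p) else 0) = _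
    rw [h3, (H _ h1).2.2.2 _ h2]
    by_cases e : γ = α
    · simp [e, h]
    · rw [if_neg e]
      split_ifs with c c'
      · refine absurd (Fin.ext ?_) e
        have e1 : dE d γ.val = dE d α.val :=
          Prod.ext c.2 (Prod.ext c' (by rw [h3, (mem γ c.1).2.2, c.2, c']))
        have e2 := (nodup_en m (dB d)).getElem_inj_iff.1
          ((get γ c.1).symm.trans (e1.trans (get α h)))
        have h4 : n < γ.val := c.1
        have h5 : n < α.val := h
        omega
      · rfl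
      · rfl

end TBAS
open TBAS

theorem a_BAS (hC : A_CRD) : A_BAS := by
  intro U _ _ pad u us Os Ds y D hp hY hD hle h0 hc hpad
  have hB : ∀ b, b < us.length →
      dB (mkB pad u us Os Ds) b = basP (oj Os 0) (oj Ds (b + 1)) (oj Ds b) := fun b hb => by
    simp [dB, mkB, mkE, PG.ran_eq, hb]
  have hE : (mkB pad u us Os Ds).2.2.2.2 = en us.length (dB (mkB pad u us Os Ds)) := by
    rw [en, ← PG.ran_eq]
    rfl
  have hM : mM (mkB pad u us Os Ds).1 = 2 * (en us.length (dB (mkB pad u us Os Ds))).length + 1 := by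
    simp only [en, List.length_flatMap, List.length_map, List.length_zipIdx]
    rw [List.map_congr_left fun b hb => congrArg List.length (hB b (List.mem_range.1 hb))]
    simp [mM, mkB, mkE, PG.ran_eq, List.length_flatten, Function.comp_def]
  have anti : ∀ b, D b ≤ y := fun b => (antitone_nat_of_succ_le hle (Nat.zero_le b)).trans h0
  refine ⟨_, hM, ok _ _ _ _ D (by rw [PG.cz, hM]; omega) hE rfl fun b hb => ?_⟩
  exact hC U _ b _ _ y _ _ hp rfl hY (hD b hb.le) (hD _ hb) (hle b) (anti b) (hc b) hpad (hB b hb)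

end Pool.Agent.P.MP_f1a348_lc.PS
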