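import Pool.Agent.P.MP_f1a348_lc.PS.Iface

/-!
Project PS: the defects of commutators and powers are bilinear in a central section.
-/

namespace Pool.Agent.P.MP_f1a348_lc.PS

open GI (gen Cg FP)
open UP (Rec up topI SolvMod Nm Val GG SA UG)
open PG (Ix Vec Mat Frm Sub c0 st l0 Par pull1 Wt key)
open scoped commutatorElement Matrix

namespace TBIL

section
variable {Q : Type} [Group Q]

theorem cl {a z e : Q} (hz : ∀ q, Commute z q) : ⁅a * z, e⁆ = ⁅a, e⁆ := by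
  have : z * e * z⁻¹ = e := by rw [(hz e).eq]; simp
  calc ⁅a * z, e⁆ = a * (z * e * z⁻¹) * a⁻¹ * e⁻¹ := by simp [commutatorElement_def, mul_assoc]
    _ = ⁅a, e⁆ := by rw [this, commutatorElement_def]

theorem cr {a z e : Q} (hz : ∀ q, Commute z q) : ⁅a, e * z⁆ = ⁅a, e⁆ := by
  rw [← commutatorElement_inv, cl hz, commutatorElement_inv]

theorem c1 {a b e : Q} (hb : ∀ q, Commute ⁅b, e⁆ q) : ⁅a * b, e⁆ = ⁅a, e⁆ * ⁅b, e⁆ := by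
  calc ⁅a * b, e⁆ = a * (⁅b, e⁆ * (e * a⁻¹ * e⁻¹)) := by simp [commutatorElement_def, mul_assoc]
    _ = ⁅a, e⁆ * ⁅b, e⁆ := by
      rw [(hb _).eq, commutatorElement_def a e]
      simp only [mul_assoc]

theorem c2 {a e f : Q} (hb : ∀ q, Commute ⁅a, f⁆ q) : ⁅a, e * f⁆ = ⁅a, e⁆ * ⁅a, f⁆ := by
  calc ⁅a, e * f⁆ = ⁅a, e⁆ * (e * (⁅a, f⁆ * e⁻¹)) := by simp [commutatorElement_def, mul_assoc]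
    _ = ⁅a, e⁆ * ⁅a, f⁆ := by rw [(hb _).eq]; simp

end

section
variable {Γ : Type} [Group Γ]

theorem quo {E N : Subgroup Γ} (h : Nm E N) : ∃ (Q : Type) (_ : Group Q) (φ : E →* Q),
    Function.Surjective φ ∧ ∀ a b : E, φ a = φ b ↔ Cg N a.1 b.1 := by
  have : (N.subgroupOf E).Normal := ⟨fun n hn g => h g g.2 n hn⟩
  exact ⟨E ⧸ N.subgroupOf E, inferInstance, QuotientGroup.mk' _, QuotientGroup.mk'_surjective _,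
    fun a b => QuotientGroup.eq⟩

/-- the computations modulo `N`, with `M` central modulo `N` -/
theorem core {E M N : Subgroup Γ} (h : Nm E N) (hM : M ≤ E)
    (hc : ∀ μ ∈ M, ∀ δ ∈ E, ⁅μ, δ⁆ ∈ N) :
    (∀ a ∈ E, ∀ b ∈ E, ∀ e ∈ E, ∀ μ ∈ M, ⁅b, e⁆ ∈ M → Cg N ⁅a * b * μ, e⁆ (⁅a, e⁆ * ⁅b, e⁆)) ∧
    (∀ a ∈ E, ∀ e ∈ E, ∀ f ∈ E, ∀ μ ∈ M, ⁅a, f⁆ ∈ M → Cg N ⁅a, e * f * μ⁆ (⁅a, e⁆ * ⁅a, f⁆)) ∧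
    (∀ a ∈ E, ∀ e ∈ E, ∀ μ ∈ M, ∀ ν ∈ M, Cg N ⁅a * μ, e * ν⁆ ⁅a, e⁆) ∧
    (∀ p : ℕ, ∀ a ∈ E, ∀ b ∈ E, ⁅a, b⁆ ∈ N → Cg N ((a * b) ^ p) (a ^ p * b ^ p)) := by
  obtain ⟨Q, _, φ, hs, hφ⟩ := quo h
  have cm : ∀ a b : E, ⁅a.1, b.1⁆ ∈ N → Commute (φ a) (φ b) := fun a b hab => by
    rw [← commutatorElement_eq_one_iff_commute, ← map_commutatorElement, ← map_one φ, eq_comm, hφ]
    exact Cg.one_iff.2 hab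
  have ce : ∀ μ : E, μ.1 ∈ M → ∀ q, Commute (φ μ) q := fun μ hμ q => by
    obtain ⟨δ, rfl⟩ := hs q
    exact cm μ δ (hc _ hμ _ δ.2)
  refine ⟨fun a ha b hb e he μ hμ hbe => ?_, fun a ha e he f hf μ hμ haf => ?_,
    fun a ha e he μ hμ ν hν => ?_, fun p a ha b hb hab => ?_⟩
  · refine (hφ ⁅(⟨a, ha⟩ * ⟨b, hb⟩ * ⟨μ, hM hμ⟩ : E), ⟨e, he⟩⁆
      (⁅(⟨a, ha⟩ : E), ⟨e, he⟩⁆ * ⁅(⟨b, hb⟩ : E), ⟨e, he⟩⁆)).1 ?_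
    have := ce ⁅(⟨b, hb⟩ : E), ⟨e, he⟩⁆ hbe
    simp only [map_commutatorElement, map_mul] at this ⊢
    rw [cl (ce ⟨μ, hM hμ⟩ hμ), c1 this]
  · refine (hφ ⁅(⟨a, ha⟩ : E), (⟨e, he⟩ * ⟨f, hf⟩ * ⟨μ, hM hμ⟩ : E)⁆
      (⁅(⟨a, ha⟩ : E), ⟨e, he⟩⁆ * ⁅(⟨a, ha⟩ : E), ⟨f, hf⟩⁆)).1 ?_
    have := ce ⁅(⟨a, ha⟩ : E), ⟨f, hf⟩⁆ haf
    simp only [map_commutatorElement, map_mul] at this ⊢
    rw [cr (ce ⟨μ, hM hμ⟩ hμ), c2 this]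
  · refine (hφ ⁅(⟨a, ha⟩ * ⟨μ, hM hμ⟩ : E), (⟨e, he⟩ * ⟨ν, hM hν⟩ : E)⁆
      ⁅(⟨a, ha⟩ : E), ⟨e, he⟩⁆).1 ?_
    simp only [map_commutatorElement, map_mul]
    rw [cl (ce ⟨μ, hM hμ⟩ hμ), cr (ce ⟨ν, hM hν⟩ hν)]
  · refine (hφ ((⟨a, ha⟩ * ⟨b, hb⟩ : E) ^ p) ((⟨a, ha⟩ : E) ^ p * (⟨b, hb⟩ : E) ^ p)).1 ?_
    simp only [map_pow, map_mul]
    exact (cm ⟨a, ha⟩ ⟨b, hb⟩ hab).mul_pow p

end

end TBIL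
open TBIL

theorem s_BIL (hD : S_DEV) : S_BIL := by
  intro U _ p A B B1 T0 T1 ψ c z
  have d := hD U p A B1 T0 T1 ψ c
  have mE := d.memA A c.lB le_rfl
  have mW := d.memA B z.lo z.hi
  have mM := d.memA B1 le_rfl c.lB
  have WE : Gr ψ B T0 ≤ Gr ψ A T0 := fun δ h => (mE δ).2 ⟨z.hi ((mW δ).1 h).1, ((mW δ).1 h).2⟩
  have ME : Gr ψ B1 T0 ≤ Gr ψ A T0 := fun δ h => (mE δ).2 ⟨c.lB ((mM δ).1 h).1, ((mM δ).1 h).2⟩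
  have NM : Gr ψ B1 T1 ≤ Gr ψ B1 T0 := fun δ h =>
    (mM δ).2 ⟨((d.memN δ).1 h).1, c.l1 ((d.memN δ).1 h).2⟩
  have toM : ∀ δ ∈ Gr ψ A T0, δ.2 ∈ B1 → δ ∈ Gr ψ B1 T0 := fun δ h h2 =>
    (mM δ).2 ⟨h2, ((mE δ).1 h).2⟩
  have hE : ∀ x ∈ A, hat ψ x ∈ Gr ψ A T0 := fun x hx => (mE _).2 ⟨hx, by simp⟩
  have hW : ∀ x ∈ B, hat ψ x ∈ Gr ψ B T0 := fun x hx => (mW _).2 ⟨hx, by simp⟩
  have spl : ∀ δ ∈ Gr ψ A T0, ∀ ε ∈ Gr ψ A T0, δ.2 = ε.2 → ∃ μ ∈ Gr ψ B1 T0, ε = δ * μ :=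
    fun δ hδ ε hε e => ⟨δ⁻¹ * ε, toM _ ((Gr ψ A T0).mul_mem ((Gr ψ A T0).inv_mem hδ) hε)
      (by simp [e]), by simp⟩
  have prd : ∀ x ∈ A, ∀ y ∈ A, ∃ μ ∈ Gr ψ B1 T0, hat ψ (x * y) = hat ψ x * hat ψ y * μ :=
    fun x hx y hy => spl _ ((Gr ψ A T0).mul_mem (hE x hx) (hE y hy)) _ (hE _ (A.mul_mem hx hy)) rfl
  have cM : ∀ x ∈ B, ∀ y ∈ A, ⁅hat ψ x, hat ψ y⁆ ∈ Gr ψ B1 T0 := fun x hx y hy =>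
    toM _ (wd_mem 1 (hE x (z.hi hx)) (hE y hy)) (z.cm x hx y hy)
  have pM : ∀ x ∈ B, hat ψ x ^ p ∈ Gr ψ B1 T0 := fun x hx =>
    toM _ ((Gr ψ A T0).pow_mem (hE x (z.hi hx)) p) (z.pw x hx)
  have dv : ∀ δ, ∀ μ ∈ Gr ψ B1 T0, ∀ ν ∈ Gr ψ B1 T0, Cg (Gr ψ B1 T1) δ (μ * ν) →
      Cg T1 (dev ψ δ) (dev ψ μ * dev ψ ν) := fun δ μ hμ ν hν h => by
    obtain ⟨n, hn, rfl⟩ := h.symm.exists_eq
    exact ((d.right _ (ME ((Gr ψ B1 T0).mul_mem hμ hν)) n (NM hn)).trans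
      (Cg.mul_mem ((d.memN n).1 hn).2 _).symm).trans (d.right μ (ME hμ) ν hν)
  obtain ⟨k1, k2, k3, k4⟩ := core d.nmN ME (d.cen z.ct)
  refine ⟨fun x hx x' hx' y hy => ?_, fun x hx y hy y' hy' => ?_, fun h1 => ?_⟩
  · obtain ⟨μ, hμ, e⟩ := prd x (z.hi hx) x' (z.hi hx')
    simp only [df_eq_dev, wd_one]
    rw [e]
    exact dv _ _ (cM x hx y hy) _ (cM x' hx' y hy)
      (k1 _ (hE x (z.hi hx)) _ (hE x' (z.hi hx')) _ (hE y hy) μ hμ (cM x' hx' y hy))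
  · obtain ⟨μ, hμ, e⟩ := prd y hy y' hy'
    simp only [df_eq_dev, wd_one]
    rw [e]
    exact dv _ _ (cM x hx y hy) _ (cM x hx y' hy')
      (k2 _ (hE x (z.hi hx)) _ (hE y hy) _ (hE y' hy') μ hμ (cM x hx y' hy'))
  have cN : ∀ δ ∈ Gr ψ B T0, ∀ ε ∈ Gr ψ A T0, ⁅δ, ε⁆ ∈ Gr ψ B1 T1 := fun δ hδ ε hε => by
    have hx := ((mW δ).1 hδ).1
    have hy := ((mE ε).1 hε).1
    obtain ⟨μ, hμ, e1⟩ := spl _ (hE _ (z.hi hx)) δ (WE hδ) rfl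
    obtain ⟨ν, hν, e2⟩ := spl _ (hE _ hy) ε hε rfl
    have := (k3 _ (hE _ (z.hi hx)) _ (hE _ hy) μ hμ ν hν).mem_iff le_rfl
    rw [← e1, ← e2] at this
    refine this.2 ((d.memN _).2 ⟨z.cm _ hx _ hy, ?_⟩)
    have := h1 _ hx _ hy
    rwa [df_eq_dev] at this
  have pk : ∀ δ ∈ Gr ψ B T0, ∀ μ ∈ Gr ψ B1 T0, Cg (Gr ψ B1 T1) ((δ * μ) ^ p) (δ ^ p) :=
    fun δ hδ μ hμ => (k4 p δ (WE hδ) μ (ME hμ) (cN δ hδ μ (ME hμ))).trans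
      (Cg.mul_mem (d.pw μ hμ) _).symm
  refine ⟨cN, fun hp => ⟨fun x hx x' hx' y => ?_, fun h2 δ hδ => ?_⟩⟩
  · obtain ⟨μ, hμ, e⟩ := prd x (z.hi hx) x' (z.hi hx')
    simp only [df_eq_dev, wd_pow hp]
    rw [e]
    exact dv _ _ (pM x hx) _ (pM x' hx')
      ((pk _ ((Gr ψ B T0).mul_mem (hW x hx) (hW x' hx')) μ hμ).trans
        (k4 p _ (hE x (z.hi hx)) _ (hE x' (z.hi hx')) (cN _ (hW x hx) _ (hE x' (z.hi hx')))))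
  · have hx := ((mW δ).1 hδ).1
    obtain ⟨μ, hμ, e⟩ := spl _ (hE _ (z.hi hx)) δ (WE hδ) rfl
    have := (pk _ (hW _ hx) μ hμ).mem_iff le_rfl
    rw [← e] at this
    refine this.2 ((d.memN _).2 ⟨z.pw _ hx, ?_⟩)
    have := h2 _ hx _ hx
    rwa [df_eq_dev, wd_pow hp] at this

end Pool.Agent.P.MP_f1a348_lc.PS
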