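import Pool.Agent.P.MP_f1a348_lc.PS.PIf

/-!
Project PS: a call of the solver.
-/

namespace Pool.Agent.P.MP_f1a348_lc.PS

open GI (gen Cg FP Rep sims)
open UP (Rec up topI SolvMod Nm Val GG SG SA UG Fo gS gD foD)
open PG (Ix Vec Mat Frm Sub c0 st l0 Par pull1 Wt key V Cx pp mM mV fV unL oneP)
open Pool.Agent.Lib.Helper47

set_option linter.unusedSectionVars false

namespace TCALL

variable {p n : ℕ} [Fact p.Prime] {U : Type} [Group U] [DecidableEq U] {g : Sg U} {d : Dt U}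

theorem lam_mul (hL : S_LAM p n) (hd : DOK p n g d) : ∀ u ∈ g.B, ∀ v ∈ g.B,
    (bsD p n d).lam (u * v) = (bsD p n d).lam u * (bsD p n d).lam v := fun u hu =>
  (hL U g _ hd.ch hd.pres hd.bas u hu).2.2.1

theorem lam_one (hL : S_LAM p n) (hd : DOK p n g d) : (bsD p n d).lam 1 = 1 := by
  have := lam_mul hL hd 1 (one_mem _) 1 (one_mem _)
  rw [mul_one] at this
  exact mul_eq_left.1 this.symm

theorem th_one (hL : S_LAM p n) (hC : S_COC p n) (hd : DOK p n g d) {a : Ins} (ha : g.Vd a)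
    (hk : a.k ≤ 1) (h : g.pre p a 1) : (bsD p n d).th a 1 = 0 := by
  have := hC U g _ a 1 hd.ch hd.pres hd.bas ha hk h 1 (one_mem _) h
  rw [mul_one, lam_one hL hd, UP.val_one, PG.pull1_one] at this
  exact add_eq_left.1 this.symm

end TCALL

open TCALL

theorem a_GS (p n : ℕ) [Fact p.Prime] (hI : S_IMG) (hL : S_LAM p n) (hD : A_DEC p n) :
    A_GS p n := by
  intro U _ _ g d hd
  have h1 : ∀ u ∈ g.B, mV p n (lamP d u) = ((bsD p n d).lam u).1 := fun u hu => by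
    rw [(hD U d hd.ok u).1, (hL U g _ hd.ch hd.pres hd.bas u hu).2.1]
  refine ⟨fun u hu => ⟨UP.gD_of (h1 u hu), h1 u hu ▸ ((bsD p n d).lam u).2⟩, fun S hS => ?_⟩
  rw [(hI _ _ _ g.B (lam_mul hL hd)).2.1 S hS, gS]
  congr 1
  ext y
  constructor
  · rintro ⟨x, hx, rfl⟩
    obtain ⟨u, hu, rfl⟩ := List.mem_map.1 hx
    exact ⟨u, hu, (UP.gD_of (h1 u (hS (GI.mem_gen hu)))).symm⟩
  · rintro ⟨u, hu, rfl⟩
    exact ⟨_, List.mem_map_of_mem hu, UP.gD_of (h1 u (hS (GI.mem_gen hu)))⟩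

theorem a_PAIR (p n : ℕ) [Fact p.Prime] (hM : A_TWM) (hI : S_IMG) (hL : S_LAM p n)
    (hZ : S_ZERO p n) (hC : S_COC p n) (hD : A_DEC p n) (hG : A_GS p n) (h0 : A_LIFT0 p n) :
    A_PAIR p n := by
  intro U _ _ g d a S hd ha hk hS
  have hB : gen S ≤ g.B := fun u hu => ((hS u).1 hu).1
  have coc : ∀ u ∈ gen S, ∀ v ∈ gen S, (bsD p n d).th a (u * v) =
      pull1 ((bsD p n d).lam v).1 ((bsD p n d).th a u) + (bsD p n d).th a v := fun u hu v hv =>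
    hC U g _ a u hd.ch hd.pres hd.bas ha hk ((hS u).1 hu).2 v (hB hv) ((hS v).1 hv).2
  have t1 := th_one hL hC hd ha hk ((hS 1).1 (one_mem _)).2
  have hN := (h0 U g d a S (oneP d.1) hd hB
    ⟨1, one_mem _, by rw [lam_one hL hd, hd.ok.oneP]; rfl⟩).2
  have add : ∀ u ∈ gen (liftL d a S (oneP d.1)).2, ∀ v ∈ gen (liftL d a S (oneP d.1)).2,
      (bsD p n d).th a (u * v) = (bsD p n d).th a u + (bsD p n d).th a v := fun u hu v hv => by
    rw [coc u ((hN u).1 hu).1 v ((hN v).1 hv).1, ((hN v).1 hv).2, UP.val_one, PG.pull1_one]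
  refine ⟨⟨1, one_mem _, lam_one hL hd, t1⟩, ?_, ?_, fun y => ?_, ?_, fun w => ⟨?_, fun hw => ?_⟩⟩
  · rintro _ _ _ _ ⟨u, hu, rfl, rfl⟩ ⟨v, hv, rfl, rfl⟩
    exact ⟨u * v, mul_mem hu hv, lam_mul hL hd u (hB hu) v (hB hv), coc u hu v hv⟩
  · rintro _ _ ⟨u, -, -, rfl⟩
    exact (hZ U g _ a u hd.ch hd.bas ha hk).1
  · rw [(hG U g d hd).2 S hB, (hI _ _ _ g.B (lam_mul hL hd)).1 _ hB]
    exact ⟨fun ⟨u, hu, e⟩ => ⟨_, u, hu, e, rfl⟩, fun ⟨_, u, hu, e, _⟩ => ⟨u, hu, e⟩⟩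
  · rintro x w ⟨u, hu, e, -⟩
    refine ⟨_, (hM _ _ _ _ _ _ _ S).1, Subtype.ext ?_, ((hD U d hd.ok _).2 a).symm⟩
    exact ((h0 U g d a S (UP.nrm d.1 x) hd hB ⟨u, hu, by rw [e, hd.ok.nrm]⟩).1).trans (hd.ok.nrm x)
  · rintro ⟨u, hu, e, rfl⟩
    have hu' := (hN u).2 ⟨hu, e⟩
    clear hu e
    induction hu' using Subgroup.closure_induction with
    | mem x hx => exact (hD U d hd.ok x).2 a ▸ PG.mem_sp (List.mem_map_of_mem hx)
    | one => exact t1 ▸ zero_mem _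
    | mul x y hx hy h1 h2 => exact add x hx y hy ▸ add_mem h1 h2
    | inv x hx h1 =>
      have := add x hx x⁻¹ (inv_mem hx)
      rw [mul_inv_cancel, t1] at this
      exact eq_neg_of_add_eq_zero_right this.symm ▸ neg_mem h1
  · suffices ∃ u ∈ gen (liftL d a S (oneP d.1)).2, (bsD p n d).th a u = w from
      let ⟨u, hu, e⟩ := this
      ⟨u, ((hN u).1 hu).1, ((hN u).1 hu).2, e⟩
    induction hw using Submodule.span_induction with
    | mem x hx =>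
      obtain ⟨y, hy, rfl⟩ := List.mem_map.1 hx
      obtain ⟨u, hu, rfl⟩ := List.mem_map.1 hy
      exact ⟨u, GI.mem_gen hu, ((hD U d hd.ok u).2 a).symm⟩
    | zero => exact ⟨1, one_mem _, t1⟩
    | add x y _ _ h1 h2 =>
      obtain ⟨u, hu, rfl⟩ := h1
      obtain ⟨v, hv, rfl⟩ := h2
      exact ⟨u * v, mul_mem hu hv, add u hu v hv⟩
    | smul c x _ h1 =>
      obtain ⟨u, hu, rfl⟩ := h1
      refine ⟨u ^ c.val, pow_mem hu _, ?_⟩
      conv_rhs => rw [← ZMod.natCast_zmod_val c]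
      induction c.val with
      | zero => simpa using t1
      | succ k ih => rw [pow_succ, add _ (pow_mem hu k) u hu, ih, Nat.cast_succ, add_smul, one_smul]

theorem a_CALL (p n : ℕ) [Fact p.Prime] (hW : A_TW) (hM : A_TWM) (hQ : S_TWOQ) (hI : S_IMG)
    (hL : S_LAM p n) (hZ : S_ZERO p n) (hC : S_COC p n) (hD : A_DEC p n) (hG : A_GS p n)
    (hP : A_PAIR p n) (hT : A_LIFT p n) : A_CALL p n := by
  intro U _ _ A P q C c0 m j Cert g d a s hA hp hd hc hj ha hk hS hcert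
  have hB : gen s.1 ≤ g.B := fun u hu => ((hS u).1 hu).1
  obtain ⟨q1, q2, q3, -⟩ := hQ U p g a hd.ch hd.pres ha
  have hz := fun ψ => hZ U g _ a ψ hd.ch hd.bas ha hk
  have hσ := (hD U d hd.ok s.2.1).2 a
  obtain ⟨o1, o2, o3, o4⟩ := hA.solve p n c0 m d.1 a.k j _ _ _ _ s.2.2 (thP d a s.2.1) hp hc hj
    (((hG U g d hd).2 _ hB).symm ▸ hcert) (hP U g d a s.1 hd ha hk hS) (hσ ▸ (hz _).1)
  rw [hσ] at o3 o4
  unfold callP
  generalize A.solve d.1 a.k (omP d a s.1) (s.1.map (lamP d))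
    ((liftL d a s.1 (oneP d.1)).2.map (thP d a)) s.2.2 (thP d a s.2.1) = o at o1 o2 o3 o4 ⊢
  obtain ⟨H, hH⟩ := exists_isG q2
  have hH' : ∀ u, u ∈ H ↔ u ∈ gen s.1 ∧ (bsD p n d).th a u = 0 := fun u => by
    rw [hH, hS]
    exact ⟨fun h => ⟨⟨h.1, q3 u h.2⟩, ((hz u).2 (q3 u h.2)).1 h.2⟩,
      fun h => ⟨h.1.1, ((hz u).2 h.1.2).2 h.2⟩⟩
  have mem : ∀ ψ z, (liftC d a s.1 ψ z).1 ∈ gen s.1 := fun ψ z => (hM _ _ _ _ _ _ _ s.1).1
  have hK := (hT U g d a s.1 1 (oneP d.1) hd ha hk hS q1.one ⟨1, one_mem _,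
    by rw [lam_one hL hd, hd.ok.oneP]; rfl, by rw [mul_one, th_one hL hC hd ha hk q1.one]⟩).2.2
  have hz1 : ∀ z ∈ o.1, (bsD p n d).lam (liftC d a s.1 1 (UP.nrm d.1 z)).1 = gD p n z ∧
      (liftC d a s.1 1 (UP.nrm d.1 z)).1 ∈ H := fun z hz => by
    obtain ⟨u, hu, e1, e2⟩ := (o1 _).1 (UP.mem_gS hz)
    obtain ⟨h1, h2, -⟩ := hT U g d a s.1 1 (UP.nrm d.1 z) hd ha hk hS q1.one
      ⟨u, hu, by rw [e1, hd.ok.nrm], by rw [one_mul, e2]⟩
    exact ⟨Subtype.ext (h1.trans (hd.ok.nrm z)), (hH' _).2 ⟨mem _ _, by rwa [one_mul] at h2⟩⟩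
  set L := o.1.map (fun z => (liftC d a s.1 1 (UP.nrm d.1 z)).1) ++ (liftC d a s.1 1 (oneP d.1)).2
    with hLd
  have hLH : gen L ≤ H := GI.gen_le.2 fun x hx => (List.mem_append.1 hx).elim
    (fun h => by
      obtain ⟨z, hz, rfl⟩ := List.mem_map.1 h
      exact (hz1 z hz).2)
    fun h => (hH' x).2 ⟨((hK x).1 (GI.mem_gen h)).1, ((hK x).1 (GI.mem_gen h)).2.2⟩
  have hHB : H ≤ g.B := fun u hu => ((hH u).1 hu).1
  have hIm := (hI _ _ _ g.B (lam_mul hL hd)).1 _ (hLH.trans hHB)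
  have hge : gS p n o.1 ≤ img (bsD p n d).lam (gen L) := UP.gS_le.2 fun z hz => (hIm _).2
    ⟨_, GI.mem_gen (List.mem_append_left _ (List.mem_map_of_mem hz)), (hz1 z hz).1⟩
  have hin : ∀ u ∈ H, (bsD p n d).lam u ∈ gS p n o.1 := fun u hu =>
    (o1 _).2 ⟨u, ((hH' u).1 hu).1, rfl, ((hH' u).1 hu).2⟩
  have hE : gen L = H := le_antisymm hLH fun u hu => by
    obtain ⟨z, hz, e⟩ := (hIm _).1 (hge (hin u hu))
    have h1 := (hH' _).1 (mul_mem (inv_mem (hLH hz)) hu)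
    have h2 := lam_mul hL hd z (hHB (hLH hz)) _ (hB h1.1)
    rw [mul_inv_cancel_left, e] at h2
    have h3 : z⁻¹ * u ∈ gen L := GI.gen_mono (fun x hx => List.mem_append_right _ hx)
      ((hK _).2 ⟨h1.1, mul_eq_left.1 h2.symm, h1.2⟩)
    simpa using mul_mem hz h3
  have hS' : gen (callQ d a s o).1 = gen L :=
    (hW U Unit (fun _ _ => true) (fun _ _ => true) (dPad d) (dO d 0) (g.O 0) [] L (hd.repO 0)
      (hLH.trans (hHB.trans (g.B_le.trans T0_sup))) hd.pad).1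
  have hle : img (bsD p n d).lam (gen L) = gS p n o.1 := le_antisymm (fun y hy => by
    obtain ⟨z, hz, rfl⟩ := (hIm y).1 hy
    exact hin z (hLH hz)) hge
  refine ⟨⟨by rw [hS', hE]; exact hH, ?_, fun h1 ⟨u, hu, h2⟩ => ?_⟩, by rw [hS', hle]; exact o2⟩
  · simp only [callQ, inv_mul_cancel_left]
    cases o.2.2 with
    | none => exact one_mem _
    | some y => exact mem _ _
  · have coc := hC U g _ a s.2.1 hd.ch hd.pres hd.bas ha hk h1
    simp only [callQ]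
    cases e : o.2.2 with
    | none =>
      exact (o4 e _ _ ⟨u, hu, rfl, rfl⟩ (coc u (hB hu) ((hS u).1 hu).2 ▸
        ((hz _).2 (q3 _ h2)).1 h2)).elim
    | some y =>
      obtain ⟨⟨v, hv, e1, e2⟩, e3⟩ := o3 y e
      obtain ⟨-, h3, -⟩ := hT U g d a s.1 s.2.1 (UP.nrm d.1 y.1) hd ha hk hS h1
        ⟨v, hv, by rw [e1, hd.ok.nrm], by rw [coc v (hB hv) ((hS v).1 hv).2, e1, e2, e3]⟩
      exact ((hz _).2 ((q1.mul _ _ (hB (mem _ _)) ((hS _).1 (mem _ _)).2).2 h1)).2 h3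

end Pool.Agent.P.MP_f1a348_lc.PS
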