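import Pool.Agent.P.MP_f1a348_lc.PS.Iface

/-!
Project PS: the forms of the calls are cocycles.
-/

namespace Pool.Agent.P.MP_f1a348_lc.PS

open GI (gen Cg FP)
open UP (Rec up topI SolvMod Nm Val GG SA UG)
open PG (Ix Vec Mat Frm Sub c0 st l0 Par pull1 Wt key)
open scoped commutatorElement Matrix

namespace TCOC

variable {p n : ℕ}

theorem rev_c0 : (c0 n).rev = c0 n := Fin.ext (by simp [c0, Fin.val_rev]; omega)

theorem c0_lt_rev {α : Ix n} : c0 n < α.rev ↔ α < c0 n := by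
  rw [← rev_c0, Fin.rev_lt_rev, rev_c0]

theorem pull_sum (M : Mat p n) (w : Frm p n) (i : Fin 3 → Ix n) : pull1 M w i =
    ∑ α, ∑ γ, ∑ δ : Ix n, w ![α, γ, δ.rev] * (M α (i 0) * M γ (i 1) * M δ.rev (i 2)) := by
  have e : pull1 M w i = ∑ k, w k * ∏ j, M (k j) (i j) := rfl
  rw [e, ← Fintype.sum_prod_type', ← Fintype.sum_prod_type']
  refine (Fintype.sum_bijective (fun q : (Ix n × Ix n) × Ix n => ![q.1.1, q.1.2, q.2.rev])
    ⟨fun q q' h => ?_, fun k => ⟨((k 0, k 1), (k 2).rev), ?_⟩⟩ _ _ fun q => ?_).symm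
  · have h0 : q.1.1 = q'.1.1 := congrFun h 0
    have h1 : q.1.2 = q'.1.2 := congrFun h 1
    have h2 : q.2.rev = q'.2.rev := congrFun h 2
    exact Prod.ext (Prod.ext h0 h1) (Fin.rev_injective h2)
  · ext j
    fin_cases j <;> simp
  · simp [Fin.prod_univ_three]

variable {U : Type} [Group U]

theorem df_pow {k : ℕ} (hk : 2 ≤ k) (ψ : FP U) (x y y' : U) : df k ψ x y = df k ψ x y' := by
  simp only [df, wd_pow hk]

section
variable {A A' : Mat p n} (hA : ∀ α γ, A α γ ≠ 0 → c0 n < α) (hA' : ∀ α γ, A' α γ ≠ 0 → c0 n < γ)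

include hA' in
theorem lam_hi {α : Ix n} (h : c0 n < α) (γ : Ix n) :
    (A + st A' + Matrix.single (c0 n) (c0 n) 1 : Mat p n) α γ = A α γ := by
  have : A' γ.rev α.rev = 0 := by_contra fun e => h.not_gt (c0_lt_rev.1 (hA' _ _ e))
  simp [st, this, Matrix.single, h.ne]

include hA in
theorem lam_lo {α : Ix n} (h : c0 n < α) (γ : Ix n) :
    (A + st A' + Matrix.single (c0 n) (c0 n) 1 : Mat p n) α.rev γ = A' γ.rev α := by
  have : A α.rev γ = 0 := by_contra fun e => h.not_gt (c0_lt_rev.1 (hA _ _ e))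
  have h2 : c0 n ≠ α.rev := fun e => h.ne (by rw [← rev_c0, e, Fin.rev_rev])
  simp [st, this, Matrix.single, h2]

include hA hA' in
theorem lam_c (γ : Ix n) :
    (A + st A' + Matrix.single (c0 n) (c0 n) 1 : Mat p n) (c0 n) γ = if γ = c0 n then 1 else 0 := by
  have h1 : A (c0 n) γ = 0 := by_contra fun e => lt_irrefl _ (hA _ _ e)
  have h2 : A' γ.rev (c0 n) = 0 := by_contra fun e => lt_irrefl _ (hA' _ _ e)
  simp [st, h1, h2, Matrix.single, eq_comm]

end

end TCOC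

open TCOC in
theorem s_COC (p n : ℕ) [Fact p.Prime] (hT : S_TRIV) (hB : S_BIL) (hX : S_CTX) (hK : S_LINK p n)
    (hA : S_AF p n) (hL : S_LAM p n) : S_COC p n := by
  intro U _ g β a ψ ch pr ok vd hk hψ u hu hpu
  have p2 : 2 ≤ p := (Fact.out : p.Prime).two_le
  have an : ∀ b, g.D p (b + 1) ≤ g.D p b := fun b => ch.anti _ _ b.le_succ
  have a0 : ∀ b, g.D p b ≤ g.D0 := fun b => ch.anti 0 b b.zero_le
  obtain ⟨X1, X2, -, X4⟩ := hX U p g ch
  obtain ⟨ts, bt, -⟩ := X4 a vd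
  have bs : a.b < g.s := bt.trans ts
  have cs : a.c < g.s := vd.c.trans_lt bs
  obtain ⟨K1, K2, -⟩ := hK U β (g.D p) g.s ok an
  obtain ⟨A1, -, A3⟩ := hA U β (g.D p) g.s ok an
  have ctx : ∀ φ, g.pre p a φ →
      Ctx p g.D0 (g.D p (a.b + 1)) (g.D p a.t) (g.D p (a.t + 1)) φ := fun φ h => by
    refine X1 a.i _ _ φ vd.lo vd.t0 bt ?_
    unfold Sg.pre at h
    split_ifs at h with h0 h1
    exacts [h.1, h.1, by omega, by omega]
  obtain ⟨-, T2, T3, T4, -⟩ := hT U p _ _ _ _ ψ (ctx ψ hψ)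
  have T5 := (hT U p _ _ _ _ u (ctx u hpu)).2.2.2.1
  obtain ⟨B1, B2, B3⟩ := hB U p _ _ _ _ _ ψ (ctx ψ hψ) (X2 a.t a.b)
  have kadd : ∀ x ∈ g.D p a.t, ∀ y ∈ g.D p a.t, ∀ z, Cg (g.D p (a.t + 1)) z (x * y) →
      β.kap a.t z = β.kap a.t x + β.kap a.t y := fun x hx y hy z h => by
    rw [← ok.add _ ts x hx y hy]
    exact (((K1 _ ts).2 _ (Subgroup.mul_mem _ hx hy)).2.2 z h.symm).symm
  have kz : ∀ x ∈ g.D p (a.t + 1), β.kap a.t x = 0 := fun x hx => (ok.ker _ ts x (an _ hx)).2 hx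
  have kp : ∀ b, b < g.s → ∀ x ∈ g.D p b, u.app x ∈ g.D p b := (hL U g β ch pr ok u hu).1.mem
  have kp0 : ∀ x ∈ g.D0, u.app x ∈ g.D0 := kp 0 (by omega)
  have hu' := g.B.inv_mem hu
  have act' := (hL U g β ch pr ok u⁻¹ hu').1
  -- the cocycle identity
  have coc : ∀ k, ∀ x ∈ g.D0, ∀ y ∈ g.D0, β.kap a.t (df k (ψ * u) x y) =
      β.aM u⁻¹ *ᵥ β.kap a.t (df k ψ (u.app x) (u.app y)) + β.kap a.t (df k u x y) := by
    intro k x hx y hy
    have hd := T4 k _ (kp0 x hx) _ (kp0 y hy)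
    have h1 := (pr.mul u⁻¹ hu' _ ts _ hd _ (ch.syl.hi (wd_mem k (kp0 x hx) (kp0 y hy)))).2
    rw [kadd _ (T5 k x hx y hy) _ (act'.mem _ ts _ hd) (df k (ψ * u) x y) (by
      rw [df_mul, df.eq_1 k u, mul_assoc]
      exact (h1.mono (ch.low _)).left _), add_comm]
    exact congrArg (· + _) ((A3 _ act').1 _ ts _ hd)
  have sA : ∀ v α γ, β.aM v α γ ≠ 0 → c0 n < α ∧ c0 n < γ ∧ β.bl α = β.bl γ := fun v => A1 _
  have lhi := fun {α} => lam_hi (A := β.aM u) (α := α) fun α γ e => (sA u⁻¹ α γ e).2.1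
  have llo := fun {α} => lam_lo (A' := β.aM u⁻¹) (α := α) fun α γ e => (sA u α γ e).1
  have lc := lam_c (fun α γ e => (sA u α γ e).1) fun α γ e => (sA u⁻¹ α γ e).2.1
  set kk := if a.k = 0 then 1 else p with hkk
  set W : U → U → Vec p n := fun x y => β.kap a.t (df kk ψ x y) with hW
  set P : ℕ → Ix n → Prop := fun b α => c0 n < α ∧ β.bl α = b with hP
  set Q : Ix n → Prop := fun γ => if a.k = 0 then P a.c γ else γ = c0 n with hQ
  have th : ∀ φ i, β.th a φ i = if P a.b (i 0) ∧ i 2 < c0 n ∧ Q (i 1) then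
      β.kap a.t (df kk φ (β.e (i 0)) (β.e (i 1))) (i 2).rev else 0 := fun φ i => by
    simp only [Bs.th, hP, hQ, hkk, and_assoc]
  classical
  funext i
  have pl : pull1 (β.lamM u) (β.th a ψ) i = ∑ α, ∑ γ, (if P a.b α then β.aM u α (i 0) else 0) *
      ((if Q γ then β.lamM u γ (i 1) else 0) * (β.aM u⁻¹ *ᵥ W (β.e α) (β.e γ)) (i 2).rev) := by
    rw [pull_sum]
    refine Finset.sum_congr rfl fun α _ => Finset.sum_congr rfl fun γ _ => ?_
    simp only [Matrix.mulVec, dotProduct, Finset.mul_sum]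
    refine Finset.sum_congr rfl fun δ _ => ?_
    rw [th]
    simp only [Matrix.cons_val_zero, Matrix.cons_val_one, Matrix.cons_val, Fin.rev_rev]
    by_cases h1 : P a.b α
    · by_cases h2 : Q γ
      · by_cases h3 : c0 n < δ
        · rw [if_pos ⟨h1, c0_lt_rev.1 (by rwa [Fin.rev_rev]), h2⟩, if_pos h1, if_pos h2,
            show β.lamM u α (i 0) = _ from lhi h1.1 _, show β.lamM u δ.rev (i 2) = _ from llo h3 _]
          ring
        · have : β.aM u⁻¹ (i 2).rev δ = 0 := by_contra fun e => h3 (sA _ _ _ e).2.1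
          rw [if_neg fun e => h3 (by simpa using c0_lt_rev.2 e.2.1), this]
          simp
      · rw [if_neg fun e => h2 e.2.2, if_neg h2]
        simp
    · rw [if_neg fun e => h1 e.1, if_neg h1]
      simp
  have col : ∀ b α γ, P b γ →
      (if P b α then β.aM u α γ else 0) = β.kap b (u.app (β.e γ)) α := fun b α γ h => by
    have e : β.aM u α γ = β.kap b (u.app (β.e γ)) α := by
      simp only [Bs.aM, Bs.aF, Matrix.of_apply, if_pos h.1, h.2]
    rw [e]
    exact ite_eq_left_iff.2 fun q => (by_contra fun z => q (ok.supp _ _ _ z) :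
      β.kap b (u.app (β.e γ)) α = 0).symm
  have off : ∀ b α γ, ¬ P b γ → (if P b α then β.aM u α γ else 0) = 0 := fun b α γ h =>
    ite_eq_right_iff.2 fun q => by_contra fun z =>
      h ⟨(sA _ _ _ z).2.1, (sA _ _ _ z).2.2.symm.trans q.2⟩
  have qk : a.k = 0 → ∀ γ δ, (if Q γ then β.lamM u γ δ else 0) =
      if P a.c γ then β.aM u γ δ else 0 := fun h γ δ => by
    simp only [hQ, if_pos h]
    exact ite_congr rfl (fun q => lhi q.1 _) fun _ => rfl
  have mem : ∀ b α, P b α → β.e α ∈ g.D p b := fun b α h => h.2 ▸ (ok.mem α h.1).2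
  rw [Pi.add_apply, (hL U g β ch pr ok u hu).2.1, pl, th, th]
  by_cases hi : P a.b (i 0) ∧ i 2 < c0 n ∧ Q (i 1)
  swap
  · rw [if_neg hi, if_neg hi, add_zero]
    refine (Finset.sum_eq_zero fun α _ => Finset.sum_eq_zero fun γ _ => ?_).symm
    by_cases h1 : P a.b (i 0)
    swap
    · rw [off _ _ _ h1, zero_mul]
    by_cases h2 : i 2 < c0 n
    swap
    · have : ∀ δ, β.aM u⁻¹ (i 2).rev δ = 0 := fun δ =>
        by_contra fun e => h2 (c0_lt_rev.1 (sA _ _ _ e).1)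
      simp [Matrix.mulVec, dotProduct, this]
    have h3 : ¬ Q (i 1) := fun q => hi ⟨h1, h2, q⟩
    suffices (if Q γ then β.lamM u γ (i 1) else 0) = 0 by rw [this, zero_mul, mul_zero]
    by_cases h : a.k = 0
    · rw [qk h, off _ _ _ (by simpa only [hQ, if_pos h] using h3)]
    · simp only [hQ, if_neg h] at h3 ⊢
      exact ite_eq_right_iff.2 fun q => q ▸ (lc _).trans (if_neg h3)
  rw [if_pos hi, if_pos hi]
  obtain ⟨h1, -, h3⟩ := hi
  have m0 := mem _ _ h1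
  have key : β.kap a.t (df kk (ψ * u) (β.e (i 0)) (β.e (i 1))) = β.aM u⁻¹ *ᵥ
      (∑ α, β.kap a.b (u.app (β.e (i 0))) α • ∑ γ, (if Q γ then β.lamM u γ (i 1) else 0) •
        W (β.e α) (β.e γ)) + β.kap a.t (df kk u (β.e (i 0)) (β.e (i 1))) := by
    unfold Sg.pre at hψ
    by_cases h : a.k = 0
    · have e : kk = 1 := if_pos h
      rw [if_pos h] at hψ
      have h4 : P a.c (i 1) := by simpa only [hQ, if_pos h] using h3
      have m1 := mem _ _ h4
      rw [coc _ _ (a0 _ m0) _ (a0 _ m1)]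
      congr 2
      have y0 := kp0 _ (a0 _ m1)
      rw [K2 _ (fun x => β.kap a.t (df kk ψ x (u.app (β.e (i 1))))) _ bs (fun x hx y hy => e ▸
        kadd _ (T4 1 x (a0 _ hx) _ y0) _ (T4 1 y (a0 _ hy) _ y0) _ (B1 x hx y hy _ y0))
        (fun x hx => e ▸ kz _ (T2 x hx _ y0)) _ (kp _ bs _ m0)]
      refine Finset.sum_congr rfl fun α _ => ?_
      by_cases z : β.kap a.b (u.app (β.e (i 0))) α = 0
      · rw [z, zero_smul, zero_smul]
      have x0 := mem _ _ (ok.supp _ _ _ z)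
      rw [K2 _ (fun y => β.kap a.t (df kk ψ (β.e α) y)) _ cs (fun x hx y hy => e ▸
        kadd _ (T4 1 _ (a0 _ x0) x (a0 _ hx)) _ (T4 1 _ (a0 _ x0) y (a0 _ hy)) _
          (B2 _ x0 x (a0 _ hx) y (a0 _ hy)))
        (fun x hx => e ▸ kz _ (hψ.2 _ x0 x hx)) _ (kp _ cs _ m1)]
      simp only [qk h, col _ _ _ h4, hW]
    · have e : kk = p := if_neg h
      rw [if_neg h, if_pos (by omega)] at hψ
      have h4 : i 1 = c0 n := by simpa only [hQ, if_neg h] using h3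
      have o := g.D0.one_mem
      rw [e, df_pow p2 _ _ _ 1, df_pow p2 u _ _ 1, coc _ _ (a0 _ m0) _ o, df_pow p2 ψ _ _ 1]
      congr 2
      rw [K2 _ (fun x => β.kap a.t (df p ψ x 1)) _ bs (fun x hx y hy =>
        kadd _ (T4 p x (a0 _ hx) _ o) _ (T4 p y (a0 _ hy) _ o) _
          (((B3 hψ.2).2 p2).1 x hx y hy 1))
        (fun x hx => kz _ (T3 p x hx _ (Subgroup.one_mem _))) _ (kp _ bs _ m0)]
      refine Finset.sum_congr rfl fun α _ => ?_
      have : β.lamM u (c0 n) (c0 n) = 1 := (lc _).trans (if_pos rfl)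
      simp only [hQ, if_neg h, h4, ite_smul, zero_smul, Finset.sum_ite_eq', Finset.mem_univ,
        if_true, this, one_smul, hW, e, df_pow p2 ψ _ (β.e (c0 n)) 1]
  rw [key, Pi.add_apply]
  congr 1
  simp only [Matrix.mulVec_sum, Matrix.mulVec_smul, Finset.sum_apply, Pi.smul_apply, smul_eq_mul,
    Finset.mul_sum, col _ _ _ h1]

end Pool.Agent.P.MP_f1a348_lc.PS
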