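import Pool.Agent.P.MP_f1a348_lc.PS.Iface

/-!
Project PS: the graph groups.
-/

namespace Pool.Agent.P.MP_f1a348_lc.PS

open GI (gen Cg FP)
open UP (Rec up topI SolvMod Nm Val GG SA UG)
open PG (Ix Vec Mat Frm Sub c0 st l0 Par pull1 Wt key)
open scoped commutatorElement Matrix

namespace TDEV
variable {U : Type} [Group U]

theorem dev_mul (ψ : FP U) (δ ε : U × U) : dev ψ (δ * ε) = ε.2⁻¹ * dev ψ δ * ε.2 * dev ψ ε *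
    df 0 ψ (δ.2 * dev ψ δ) (ε.2 * dev ψ ε) := by
  simp [dev, df, mul_assoc]

theorem closed {V : Type} [Group V] {Z : Set V} (hf : Z.Finite) (hn : Z.Nonempty)
    (hm : ∀ a ∈ Z, ∀ b ∈ Z, a * b ∈ Z) (x : V) : x ∈ Subgroup.closure Z ↔ x ∈ Z := by
  have hs : ∀ a ∈ Z, ∀ c ∈ Z, ∃ b ∈ Z, a * b = c := fun a ha =>
    ((hf.injOn_iff_bijOn_of_mapsTo (f := fun b => a * b) fun b hb => hm a ha b hb).1
      (mul_right_injective a).injOn).surjOn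
  have h1 : (1 : V) ∈ Z := by
    obtain ⟨a, ha⟩ := hn
    obtain ⟨b, hb, e⟩ := hs a ha a ha
    rwa [mul_eq_left.1 e] at hb
  let K : Subgroup V :=
    { carrier := Z
      one_mem' := h1
      mul_mem' := fun {a b} ha hb => hm a ha b hb
      inv_mem' := fun {a} ha => by
        obtain ⟨b, hb, e⟩ := hs a ha 1 h1
        rwa [← eq_inv_of_mul_eq_one_right e] }
  exact SetLike.ext_iff.1 (Subgroup.closure_eq K) x

theorem nm_mono {A B T : Subgroup U} (h : Nm A T) (hB : B ≤ A) : Nm B T :=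
  fun g hg => h g (hB hg)

theorem fin_of_le {A B : Subgroup U} (h : Finite A) (hB : B ≤ A) : Finite B :=
  Finite.of_injective _ (Subgroup.inclusion_injective hB)

theorem cgc {A T0 T1 : Subgroup U} (n1 : Nm A T1) {u y : U} (hy : y ∈ A)
    (h : ∀ v ∈ T0, ⁅v, y⁆ ∈ T1) (hu : u ∈ T0) : Cg T1 (y⁻¹ * u * y) u := by
  simpa [Cg, commutatorElement_def, mul_assoc] using n1 _ (A.inv_mem hy) _ (h _ (T0.inv_mem hu))

end TDEV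
open TDEV

theorem s_GR1 : S_GR1 := by
  intro U _ ψ B T hB hT hn h0
  have hf : {δ : U × U | δ.2 ∈ B ∧ dev ψ δ ∈ T}.Finite := by
    have hb : (B : Set U).Finite := Set.toFinite _
    refine Set.Finite.of_injOn (f := fun δ => (δ.2, dev ψ δ))
      (fun δ h => Set.mk_mem_prod h.1 (hT h.2)) (fun δ _ ε _ e => ?_) (hb.prod hb)
    obtain ⟨e1, e2⟩ := Prod.ext_iff.1 e
    simp only [dev] at e1 e2
    rw [e1] at e2
    exact Prod.ext (ψ⁻¹.app_injective (mul_left_cancel e2)) e1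
  have hm := closed hf ⟨hat ψ 1, B.one_mem, by simp⟩ fun a ha b hb =>
    ⟨B.mul_mem ha.1 hb.1, by
      rw [dev_mul]
      exact T.mul_mem (T.mul_mem (nm_cg hn hb.1 _ ha.2) hb.2)
        (h0 _ (B.mul_mem ha.1 (hT ha.2)) _ (B.mul_mem hb.1 (hT hb.2)))⟩
  refine ⟨hm, (hf.subset fun δ h => (hm δ).1 h).to_subtype, fun k x hx y hy => ?_⟩
  rw [df_eq_dev]
  exact ((hm _).1 (wd_mem k ((hm _).2 ⟨hx, by simp⟩) ((hm _).2 ⟨hy, by simp⟩))).2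

theorem s_DEV : S_DEV := by
  intro U _ p A B1 T0 T1 ψ c
  have l0A : T0 ≤ A := c.l0.trans c.lB
  have memA : ∀ B, B1 ≤ B → B ≤ A → ∀ δ, δ ∈ Gr ψ B T0 ↔ δ.2 ∈ B ∧ dev ψ δ ∈ T0 :=
    fun B h1 h2 => (s_GR1 U ψ B T0 (fin_of_le c.fin h2) (c.l0.trans h1) (nm_mono c.n0 h2)
      (c.h0.mono h2 h2 le_rfl)).1
  have memN := (s_GR1 U ψ B1 T1 (fin_of_le c.fin c.lB) (c.l1.trans c.l0) (nm_mono c.n1 c.lB)
    (c.h1.1.mono le_rfl c.lB le_rfl)).1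
  have mD := memA A c.lB le_rfl
  have mM := memA B1 le_rfl c.lB
  have MD : ∀ μ ∈ Gr ψ B1 T0, μ ∈ Gr ψ A T0 := fun μ h =>
    (mD μ).2 ⟨c.lB ((mM μ).1 h).1, ((mM μ).1 h).2⟩
  have NM : ∀ μ ∈ Gr ψ B1 T1, μ ∈ Gr ψ B1 T0 := fun μ h =>
    (mM μ).2 ⟨((memN μ).1 h).1, c.l1 ((memN μ).1 h).2⟩
  have right : ∀ δ ∈ Gr ψ A T0, ∀ μ ∈ Gr ψ B1 T0,
      Cg T1 (dev ψ (δ * μ)) (dev ψ δ * dev ψ μ) := fun δ hδ μ hμ => by
    obtain ⟨d1, d2⟩ := (mD δ).1 hδ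
    obtain ⟨m1, m2⟩ := (mM μ).1 hμ
    rw [dev_mul]
    exact (Cg.mul_mem (c.h1.2 _ (A.mul_mem d1 (l0A d2)) _ (B1.mul_mem m1 (c.l0 m2))) _).symm.trans
      ((cgc c.n1 (c.lB m1) (fun v hv => c.cm v hv _ m1) d2).right (nm_cg c.n1 (l0A m2)))
  have left : ∀ δ ∈ Gr ψ A T0, ∀ μ ∈ Gr ψ B1 T0,
      Cg T1 (dev ψ (μ * δ)) (δ.2⁻¹ * dev ψ μ * δ.2 * dev ψ δ) := fun δ hδ μ hμ => by
    obtain ⟨d1, d2⟩ := (mD δ).1 hδ
    obtain ⟨m1, m2⟩ := (mM μ).1 hμ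
    rw [dev_mul]
    exact (Cg.mul_mem (c.h1.1 _ (B1.mul_mem m1 (c.l0 m2)) _ (A.mul_mem d1 (l0A d2))) _).symm
  have nmM : Nm (Gr ψ A T0) (Gr ψ B1 T0) := fun δ hδ μ hμ =>
    (mM _).2 ⟨c.nB _ ((mD δ).1 hδ).1 _ ((mM μ).1 hμ).1, ((mD _).1 ((Gr ψ A T0).mul_mem
      ((Gr ψ A T0).mul_mem hδ (MD μ hμ)) ((Gr ψ A T0).inv_mem hδ))).2⟩
  have conj : ∀ δ ∈ Gr ψ A T0, ∀ μ ∈ Gr ψ B1 T0,
      Cg T1 (δ.2⁻¹ * dev ψ (δ * μ * δ⁻¹) * δ.2) (dev ψ μ) := fun δ hδ μ hμ => by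
    obtain ⟨d1, d2⟩ := (mD δ).1 hδ
    obtain ⟨m1, m2⟩ := (mM μ).1 hμ
    have h1 := left δ hδ _ (nmM δ hδ μ hμ)
    rw [inv_mul_cancel_right] at h1
    have h2 := (h1.symm.trans (right δ hδ μ hμ)).right (nm_cg c.n1 (A.inv_mem (l0A d2)))
    rw [mul_inv_cancel_right] at h2
    refine h2.trans ?_
    simpa using cgc c.n1 (A.inv_mem (l0A d2))
      (fun v hv => c.cm v hv _ (B1.inv_mem (c.l0 d2))) m2
  have cen : ∀ μ ∈ Gr ψ B1 T0, ∀ δ ∈ Gr ψ A T0, (∀ u ∈ T0, ⁅u, δ.2⁆ ∈ T1) →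
      ⁅μ, δ⁆ ∈ Gr ψ B1 T1 := fun μ hμ δ hδ h => by
    have hν := nmM δ hδ μ hμ
    have hκ : ⁅μ, δ⁆ ∈ Gr ψ B1 T0 := by
      simpa [commutatorElement_def, mul_assoc] using
        (Gr ψ B1 T0).mul_mem hμ ((Gr ψ B1 T0).inv_mem hν)
    have h1 := right _ (MD _ hκ) _ hν
    rw [show ⁅μ, δ⁆ * (δ * μ * δ⁻¹) = μ by simp [commutatorElement_def, mul_assoc]] at h1
    have h2 := (((cgc c.n1 ((mD δ).1 hδ).1 h ((mM _).1 hν).2).symm.trans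
      (conj δ hδ μ hμ)).trans h1).right (nm_cg c.n1 (A.inv_mem (l0A ((mM _).1 hν).2)))
    rw [mul_inv_cancel, mul_inv_cancel_right] at h2
    exact (memN _).2 ⟨((mM _).1 hκ).1, Cg.one_iff.1 h2⟩
  refine ⟨memA, memN, (s_GR1 U ψ A T0 c.fin l0A c.n0 c.h0).2.1, right, left, nmM,
    fun δ hδ μ hμ => ?_, fun μ hμ => ?_,
    fun μ hμ ν hν => cen μ hμ ν (MD ν hν) fun u hu => c.cm u hu _ ((mM ν).1 hν).1,
    fun h μ hμ δ hδ => cen μ hμ δ hδ fun u hu => h u hu _ ((mD δ).1 hδ).1⟩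
  · have h1 := ((conj δ hδ μ (NM μ hμ)).mem_iff le_rfl).2 ((memN μ).1 hμ).2
    refine (memN _).2 ⟨((mM _).1 (nmM δ hδ μ (NM μ hμ))).1, ?_⟩
    simpa [mul_assoc] using c.n1 _ ((mD δ).1 hδ).1 _ h1
  · obtain ⟨m1, m2⟩ := (mM μ).1 hμ
    have h1 : ∀ k : ℕ, Cg T1 (dev ψ (μ ^ (k + 1))) (dev ψ μ ^ (k + 1)) := fun k => by
      induction k with
      | zero => simpa using Cg.refl _
      | succ k ih =>
        rw [pow_succ μ, pow_succ (dev ψ μ)]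
        exact (right _ (MD _ ((Gr ψ B1 T0).pow_mem hμ _)) μ hμ).trans
          (ih.right (nm_cg c.n1 (l0A m2)))
    cases p with
    | zero => simp
    | succ k => exact (memN _).2 ⟨B1.pow_mem m1 _, ((h1 k).mem_iff le_rfl).2 (c.pw _ m2)⟩

theorem s_TRIV : S_TRIV := by
  intro U _ p A B1 T0 T1 ψ c
  have d := s_DEV U p A B1 T0 T1 ψ c
  have mD := d.memA A c.lB le_rfl
  have mM := d.memA B1 le_rfl c.lB
  have hD : ∀ x ∈ A, hat ψ x ∈ Gr ψ A T0 := fun x hx => (mD _).2 ⟨hx, by simp⟩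
  have hN : ∀ x ∈ B1, hat ψ x ∈ Gr ψ B1 T1 := fun x hx => (d.memN _).2 ⟨hx, by simp⟩
  have key : ∀ x ∈ A, ∀ x', Cg B1 x x' → (hat ψ x)⁻¹ * hat ψ x' ∈ Gr ψ B1 T1 := fun x hx x' h => by
    have hx' : x' ∈ A := (h.mem_iff c.lB).1 hx
    have hμ : (hat ψ x)⁻¹ * hat ψ x' ∈ Gr ψ B1 T0 := (mM _).2 ⟨h, ((mD _).1
      ((Gr ψ A T0).mul_mem ((Gr ψ A T0).inv_mem (hD x hx)) (hD x' hx'))).2⟩
    have h1 := d.right _ (hD x hx) _ hμ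
    rw [mul_inv_cancel_left, dev_hat, dev_hat, one_mul] at h1
    exact (d.memN _).2 ⟨h, Cg.one_iff.1 h1⟩
  refine ⟨fun x hx y hy => ?_, fun x hx y hy => ?_,
    (s_GR1 U ψ B1 T1 (fin_of_le c.fin c.lB) (c.l1.trans c.l0) (nm_mono c.n1 c.lB)
      (c.h1.1.mono le_rfl c.lB le_rfl)).2.2,
    (s_GR1 U ψ A T0 c.fin (c.l0.trans c.lB) c.n0 c.h0).2.2, fun x hx y hy x' y' h h' => ?_⟩
  · rw [df_eq_dev, wd_one]
    exact ((d.memN _).1 ((Gr ψ B1 T1).mul_mem (d.nmN _ (hD x hx) _ (hN y hy))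
      ((Gr ψ B1 T1).inv_mem (hN y hy)))).2
  · rw [df_eq_dev, wd_one]
    refine ((d.memN _).1 ?_).2
    simpa [commutatorElement_def, mul_assoc] using (Gr ψ B1 T1).mul_mem (hN x hx)
      (d.nmN _ (hD y hy) _ ((Gr ψ B1 T1).inv_mem (hN x hx)))
  · obtain ⟨n1, n2⟩ := (d.memN _).1 ((Gr ψ B1 T1).mul_mem
      (d.nmN _ ((Gr ψ A T0).inv_mem (hD y hy)) _ (key x hx x' h)) (key y hy y' h'))
    have h1 := d.right _ ((Gr ψ A T0).mul_mem (hD x hx) (hD y hy)) _ ((mM _).2 ⟨n1, c.l1 n2⟩)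
    rw [df_eq_dev, df_eq_dev, wd_zero, wd_zero]
    refine ((Cg.mul_mem n2 _).trans h1.symm).trans (Cg.of_eq ?_)
    simp [mul_assoc]

end Pool.Agent.P.MP_f1a348_lc.PS
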