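import Pool.Agent.P.MP_f1a348_lc.PS.Iface

/-!
Project PS: the repairs, and the additivity of defects along the kernel.
-/

namespace Pool.Agent.P.MP_f1a348_lc.PS

open GI (gen Cg FP)
open UP (Rec up topI SolvMod Nm Val GG SA UG)
open PG (Ix Vec Mat Frm Sub c0 st l0 Par pull1 Wt key)
open scoped commutatorElement Matrix

namespace TFIXM
variable {U : Type} [Group U] {p : ℕ} {g : Sg U}

theorem lowO (ch : g.Ch p) {i b : ℕ} (hi : g.i0 ≤ i) (hb : b < g.b0 i) : g.O i ≤ g.D p (b + 1) := by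
  have := Nat.div_lt_of_lt_mul hb
  exact (ch.antiO _ _ (by omega)).trans (ch.low b)

theorem core (hR : S_TRI) (ch : g.Ch p) {i : ℕ} (lo : g.i0 ≤ i) (hi : i < g.i1) {f : U → U}
    (hm : ∀ x, f x ∈ g.O i) (hp : ∀ x y, Cg (g.O i) x y → f x = f y) (h1 : ∀ x ∈ g.O i, f x = 1) :
    ∃ τ ∈ g.B, τ ∈ TT g.O i ∧ τ ∈ g.Nk i ∧ (∀ b, b < g.s → Fx (g.D p b) (g.D p (b + 1)) τ) ∧
      ∀ x ∈ g.O 0, Cg (g.O (i + 1)) (τ.app x) (x * f x) := by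
  have i1 : 1 ≤ i := ch.lo.trans lo
  obtain ⟨u, hu, a1, a2, a3⟩ := hR U g.O g.r i (fun x => x * f x) ch.ser i1
    (fun x _ => Cg.mul_mem (hm x) x) (fun x hx o ho => by
      simp only [h1 o ho, mul_one]
      rw [← hp _ _ (Cg.mul_mem ho x), ← hp x (o * x) (by
        simpa [Cg, mul_assoc] using nm_cg (ch.ser.nm i) hx o ho), mul_assoc, mul_assoc, mul_assoc]
      exact ⟨(cg_comm (ch.ser.cen i i1 _ (ch.antiO _ _ i1 ((g.O i).inv_mem (hm x))) _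
        ((g.O i).inv_mem ho))).left x, Cg.refl _⟩)
    fun o ho => by simp only [h1 o ho, mul_one]
  have a4 : Fx (g.O i) (g.O (i + 1)) u := fun x hx => by
    simpa only [h1 x hx, mul_one] using (a2 x (ch.antiO _ _ (Nat.zero_le i) hx)).symm
  refine ⟨u, ⟨TT_anti (ch.antiO _ _ lo) hu, fun x => ?_⟩, hu,
    ⟨⟨T0_keep 0 hu.1, a1⟩, T0_keep i hu.1, a4⟩, fun b _ x hx => ?_, a2⟩
  · by_cases hx : x ∈ g.O 0
    · exact ((a1 x hx).mem_iff ((ch.antiO _ _ lo).trans ch.syl.lo)).symm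
    · rw [T0_sup hu.1 x hx]
  · rcases lt_or_ge b (g.b0 i) with c | c
    · exact (a1 x (ch.syl.hi (ch.anti 0 b (Nat.zero_le b) hx))).mono (lowO ch lo c)
    rcases lt_or_ge b (g.b0 (i + 1)) with c' | c'
    · exact (a4 x (ch.eqO i lo hi.le ▸ ch.anti _ _ c hx)).mono (lowO ch (by omega) c')
    · rw [a3 x (ch.eqO (i + 1) (by omega) hi ▸ ch.anti _ _ c' hx)]
      exact Cg.refl x

theorem fx_conj {S D : Subgroup U} {c u : FP U} (h1 : c ∈ Keep S) (h2 : c ∈ Pv D)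
    (hu : u ∈ FxG S D) : c * u * c⁻¹ ∈ FxG S D := by
  refine ⟨(Keep S).mul_mem ((Keep S).mul_mem h1 hu.1) ((Keep S).inv_mem h1), fun x hx => ?_⟩
  simpa using (h2 _ _).2 (hu.2 _ (((Keep S).inv_mem h1 x).2 hx))

end TFIXM

open TFIXM

theorem s_FIXM (hR : S_TRI) (hP : S_REP) (hS : S_SYL) (hX : S_CTX) : S_FIXM := by
  intro U _ p g a ψ hp ch pr v hk h
  obtain ⟨X1, X2, X3, X4⟩ := hX U p g ch
  obtain ⟨b1, b2, b3, b4, b5, -⟩ := X4 a v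
  unfold Sg.pre at h
  unfold Sg.post
  simp only [if_neg (show ¬a.k = 0 by omega), if_neg (show ¬a.k = 1 by omega)] at h ⊢
  split_ifs at h ⊢ with k2
  · obtain ⟨⟨h1, h2⟩, h3⟩ := h
    obtain ⟨f, hf⟩ := (hP U p ψ hp).1 _ _ _ _ _ (X1 _ _ _ ψ v.lo v.t0 b2 h1) (X2 a.t a.b) h2 h3
    obtain ⟨τ, t1, t2, t3, t4, t5⟩ := core hR ch v.lo v.hi (fun x => b3 (hf.mem x))
      (fun x y e => hf.per x y (e.mono b5)) fun x hx => hf.one x (b5 hx)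
    have k0 := pr.keep 0 (Nat.zero_le _)
    have t6 : ∀ x ∈ g.D0, Cg (g.D p a.t) x (τ.app x) := fun x hx =>
      (Cg.mul_mem (hf.mem x) x).trans
        ((t5 x (ch.syl.hi hx)).mono (b4.trans (ch.anti _ _ (Nat.le_succ _)))).symm
    refine ⟨τ, t1, t3, t4, ((two_levG g.O a.i).mul ψ τ t2.1 t2.2).2 h1.1,
      ((two_cd 0 k0 k0 (pr.pv _ b1.le)).mul ψ τ t1 fun x hx y hy => ?_).2 h1.2.1,
      hf.fix τ (pr.pv _ b1 t1) fun x hx => (t5 x (ch.syl.hi hx)).mono b4⟩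
    exact (df_iff (pr.pv _ b1.le t1) 0 x y).2 ((t6 _ (g.D0.mul_mem hx hy)).symm.trans
      ((t6 x hx).mul (nm_cg (ch.nm _) hy) (t6 y hy)))
  · obtain ⟨f, hf⟩ := (hP U p ψ hp).2 _ _ _ g.D0 (X3 _ ψ v.lo v.hi h.1)
      ((ch.antiO _ _ v.lo).trans ch.syl.lo) ch.syl.hi
      (hS U p _ _ _ hp ch.ser.fin (ch.ser.nm _) ch.syl).1 h.2
    obtain ⟨τ, t1, t2, t3, t4, t5⟩ := core hR ch v.lo v.hi hf.mem hf.per hf.one
    exact ⟨τ, t1, t3, t4, (((two_levG g.O a.i).mul ψ τ t2.1 t2.2).2 h.1).1,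
      (hf.fix τ (T0_pv _ t2.1) t5).1⟩

theorem s_ADD (hT : S_TRIV) (hX : S_CTX) : S_ADD := by
  intro U _ p g i ch lo hi
  refine ⟨fun c hc u hu => ⟨(T0 g.O).mul_mem ((T0 g.O).mul_mem hc hu.1) ((T0 g.O).inv_mem hc),
    fx_conj (T0_keep 0 hc) (T0_pv i hc) hu.2.1, fx_conj (T0_keep i hc) (T0_pv (i + 1) hc) hu.2.2⟩,
    fun ψ h u hu hn x hx y hy => ⟨h.2 x hx y hy, ?_⟩⟩
  have hx' := (T0_keep 0 hu.1 x).2 hx
  have hy' := (T0_keep 0 hu.1 y).2 hy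
  have hd := h.2 _ hx' _ hy'
  have hv := (TT g.O i).inv_mem hu
  have e1 := (df_iff (T0_pv (i + 1) hv.1) 0 _ _).1
    ((hv.2.1 i).2 _ ((g.O 0).mul_mem hx' hy') _ hd)
  have e2 := (((g.Nk i).inv_mem hn).2.2 _ hd).symm
  have e3 := ((hT U p _ _ _ _ ψ ((hX U p g ch).2.2.1 i ψ lo hi h)).2.2.2.2 x hx y hy _ _
    (hn.1.2 x hx) (hn.1.2 y hy)).symm
  rw [df_mul, df.eq_1 0 u, mul_assoc]
  exact (e1.trans ((e2.trans e3).left _)).left _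

end Pool.Agent.P.MP_f1a348_lc.PS
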