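import Pool.Agent.P.MP_f1a348_lc.PS.PIf

/-!
Project PS: the tower of a repair and the step of a repair.
-/

namespace Pool.Agent.P.MP_f1a348_lc.PS

open GI (gen Cg FP Rep sims)
open UP (Rec up topI SolvMod Nm Val GG SG SA UG Fo gS gD foD)
open PG (Ix Vec Mat Frm Sub c0 st l0 Par pull1 Wt key V Cx pp mM mV fV unL oneP)
open Pool.Agent.Lib.Helper47
open scoped commutatorElement

namespace TFIXT

theorem split {τ : Type} {A C pre post : List τ} {t : τ} (h : A ++ C = pre ++ t :: post) :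
    t ∈ A ∨ (t ∈ C ∧ ∀ s ∈ A, s ∈ pre) := by
  rcases List.append_eq_append_iff.1 h with ⟨b, rfl, rfl⟩ | ⟨c, rfl, e⟩
  · exact Or.inr ⟨by simp, fun s hs => by simp [hs]⟩
  · cases c with
    | nil => exact Or.inr ⟨by rw [List.nil_append] at e; simp [← e], fun s hs => by simpa using hs⟩
    | cons x c =>
      rw [List.cons_append, List.cons.injEq] at e
      exact Or.inl (by simp [e.1])

variable {U : Type} [Group U] [DecidableEq U]

theorem pass_fx {D : List U} {Z : Subgroup U} (h : Rep D Z) (ψ u : FP U) (x : U) :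
    passF ψ (false, x, x, D) u = true ↔ Cg Z x (u.app x) := h.contains _

theorem pass_df (hD : A_WD) {D : List U} {Z : Subgroup U} (h : Rep D Z) (ψ u : FP U) (x y : U) :
    passF ψ (true, x, y, D) u = true ↔ df 0 (ψ * u) x y ∈ Z := by
  have e := (hD U [] (ψ * u) x y).2.2
  rw [List.length_nil] at e
  rw [← e]
  exact h.contains _

theorem all_fx {S D : List U} {Z Z' : Subgroup U} (h : Rep S Z) (h' : Rep D Z') (ψ u : FP U) :
    (∀ t ∈ fxT S D, passF ψ t u = true) ↔ Fx Z Z' u := by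
  simp only [fxT, List.forall_mem_map, pass_fx h', h.mem, Fx]

omit [Group U] [DecidableEq U] in
theorem mem_c2 {S R T : List U} {t : Ts U} : t ∈ c2T S R T ↔
    ∃ x y, ((x ∈ S ∧ y ∈ R) ∨ (x ∈ R ∧ y ∈ S)) ∧ t = (true, x, y, T) := by
  simp only [c2T, List.mem_map, List.mem_append, GI.mem_prodL, Prod.exists, eq_comm]

theorem all_c2 (hD : A_WD) {S R T : List U} {Z Z' Z'' : Subgroup U} (h : Rep S Z) (h' : Rep R Z')
    (h'' : Rep T Z'') (ψ u : FP U) :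
    (∀ t ∈ c2T S R T, passF ψ t u = true) ↔ C2 Z Z' Z'' (ψ * u) := by
  refine ⟨fun a => ⟨fun x hx y hy => ?_, fun x hx y hy => ?_⟩, fun a t ht => ?_⟩
  · exact (pass_df hD h'' ψ u x y).1
      (a _ (mem_c2.2 ⟨x, y, Or.inl ⟨(h.mem x).2 hx, (h'.mem y).2 hy⟩, rfl⟩))
  · exact (pass_df hD h'' ψ u x y).1
      (a _ (mem_c2.2 ⟨x, y, Or.inr ⟨(h'.mem x).2 hx, (h.mem y).2 hy⟩, rfl⟩))
  · obtain ⟨x, y, ⟨hx, hy⟩ | ⟨hx, hy⟩, rfl⟩ := mem_c2.1 ht
    · exact (pass_df hD h'' ψ u x y).2 (a.1 x ((h.mem x).1 hx) y ((h'.mem y).1 hy))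
    · exact (pass_df hD h'' ψ u x y).2 (a.2 x ((h'.mem x).1 hx) y ((h.mem y).1 hy))

theorem cls {Y : List U} {y : Subgroup U} (h : Rep Y y) (Z : Subgroup U) {m : ℕ}
    (hm : Y.length * Y.length ≤ m) :
    ((QuotientGroup.mk : U → U ⧸ Z) '' y).Finite ∧
      ((QuotientGroup.mk : U → U ⧸ Z) '' y).ncard ≤ m := by
  have := h.finite
  have hf : (y : Set U).Finite := Set.toFinite _
  refine ⟨hf.image _, (Set.ncard_image_le hf).trans ?_⟩
  have e : (y : Set U).ncard = Y.length := h.card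
  rw [e]
  exact (Nat.le_mul_self _).trans hm

/-- the lists of the tests -/
theorem lists {p n : ℕ} (hX : S_CTX) {g : Sg U} {d : Dt U} {a : Ins} (ok : DOK p n g d)
    (v : g.Vd a) : ∃ LS LR LT, Rep LS (g.fS p a) ∧ Rep LR (g.fR a) ∧ Rep LT (g.fT p a) ∧
      tstF d a = (fxT (dO d 0) (dO d a.i) ++ fxT (dO d a.i) (dO d (a.i + 1))) ++ c2T LS LR LT := by
  obtain ⟨b1, b2, -⟩ := (hX U p g ok.ch).2.2.2 a v
  unfold tstF Sg.fS Sg.fR Sg.fT
  by_cases k2 : a.k = 2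
  · simp only [if_pos k2]
    exact ⟨_, _, _, ok.repD _ (by omega), ok.repD 0 (Nat.zero_le _), ok.repD _ b1, by
      simp [k2]⟩
  · simp only [if_neg k2]
    exact ⟨_, _, _, ok.repO _, ok.repO _, ok.repO _, by
      rw [show (a.k == 2) = false by simpa using k2, List.append_assoc]; rfl⟩

end TFIXT

open TFIXT

theorem a_FIXT (p n : ℕ) [Fact p.Prime] (hW : A_TW) (hM : A_TWM) (hD : A_WD) (hQ : S_TWOQ)
    (hX : S_CTX) (hF : S_FIXM) (hA : S_ADD) : A_FIXT p n := by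
  intro U _ _ g d a S ψ ok v hk hG hψ
  obtain ⟨LS, LR, LT, rS, rR, rT, e⟩ := lists hX ok v
  obtain ⟨-, -, -, -, -, x1, x2, x3, -, x5⟩ := (hX U p g ok.ch).2.2.2 a v
  obtain ⟨q1, -, q3, -, q5, q6⟩ := hQ U p g a ok.ch ok.pres v
  replace q6 := q6 hk
  have hA' := (hA U p g a.i ok.ch v.lo v.hi).2
  have hB : ∀ u ∈ gen S, u ∈ g.B := fun u hu => ((hG u).1 hu).1
  have hP : ∀ u ∈ gen S, g.pre p a u := fun u hu => ((hG u).1 hu).2
  have h0 : ∀ u ∈ gen S, u ∈ T0 g.O := fun u hu => g.B_le (hB u hu)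
  have hT : ∀ u ∈ gen S, u ∈ TT g.O a.i := fun u hu => ⟨h0 u hu, q5 u (hP u hu)⟩
  have i0 : g.O a.i ≤ g.O 0 := ok.ch.antiO _ _ (Nat.zero_le _)
  set FX := fxT (dO d 0) (dO d a.i) ++ fxT (dO d a.i) (dO d (a.i + 1)) with hFX
  have f1 : ∀ φ, ∀ u ∈ T0 g.O, (∀ t ∈ FX, passF φ t u = true) ↔ u ∈ g.Nk a.i := fun φ u hu => by
    rw [hFX, List.forall_mem_append, all_fx (ok.repO _) (ok.repO _), all_fx (ok.repO _) (ok.repO _)]
    exact ⟨fun h => ⟨⟨T0_keep _ hu, h.1⟩, T0_keep _ hu, h.2⟩, fun h => ⟨h.1.2, h.2.2⟩⟩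
  have f2 : ∀ t ∈ FX, ∃ x ∈ g.O 0, ∃ j, t = (false, x, x, dO d j) := fun t ht => by
    rcases List.mem_append.1 ht with h | h
    · obtain ⟨x, hx, rfl⟩ := List.mem_map.1 h
      exact ⟨x, ((ok.repO _).mem x).1 hx, _, rfl⟩
    · obtain ⟨x, hx, rfl⟩ := List.mem_map.1 h
      exact ⟨x, i0 (((ok.repO _).mem x).1 hx), _, rfl⟩
  have f3 : ∀ t ∈ c2T LS LR LT, ∃ x ∈ g.O 0, ∃ y ∈ g.O 0, t = (true, x, y, LT) := fun t ht => by
    obtain ⟨x, y, ⟨hx, hy⟩ | ⟨hx, hy⟩, rfl⟩ := mem_c2.1 ht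
    · exact ⟨x, x1 ((rS.mem x).1 hx), y, x2 ((rR.mem y).1 hy), rfl⟩
    · exact ⟨x, x2 ((rR.mem x).1 hx), y, x1 ((rS.mem y).1 hy), rfl⟩
  have f4 : ∀ φ, g.pre p a φ → ∀ u ∈ gen S, (∀ t ∈ tstF d a, passF φ t u = true) ↔
      u ∈ g.Nk a.i ∧ g.post p a (φ * u) := fun φ hφ u hu => by
    rw [e, List.forall_mem_append, f1 φ u (h0 u hu), all_c2 hD rS rR rT, q6]
    exact ⟨fun h => ⟨h.1, (q1.mul φ u (hB u hu) (hP u hu)).2 hφ, h.2⟩, fun h => ⟨h.1, h.2.2⟩⟩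
  obtain ⟨w1, w2⟩ := (hW U (Ts U) (passF 1) (passF ψ) (dPad d) (dO d 0) (g.O 0) (tstF d a) S
    (ok.repO 0) (fun u hu => T0_sup (h0 u hu)) ok.pad).2 (fun pre t post ht => by
      rcases split (e.symm.trans ht) with h | ⟨h, hp⟩
      · obtain ⟨x, hx, j, rfl⟩ := f2 t h
        obtain ⟨c1, c2⟩ := cls (ok.repO 0) (g.O j) ok.pad
        refine ⟨_, fun u => (QuotientGroup.mk (u.app x) : U ⧸ g.O j), _, c1, c2, fun u hu _ =>
          ⟨⟨_, (T0_keep 0 (h0 u hu) x).2 hx, rfl⟩, fun w _ _ => ?_⟩⟩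
        rw [pass_fx (ok.repO j), QuotientGroup.eq, ← T0_pv j (h0 u hu)]
        simp [Cg]
      · obtain ⟨x, hx, y, hy, rfl⟩ := f3 t h
        obtain ⟨c1, c2⟩ := cls (ok.repO 0) (g.fT p a) ok.pad
        refine ⟨_, fun u => (QuotientGroup.mk (df 0 u x y) : U ⧸ g.fT p a), _, c1, c2,
          fun u hu hu' => ⟨⟨_, i0 ((hT u hu).2.2 x hx y hy), rfl⟩, fun w hw hw' => ?_⟩⟩
        have n1 := (f1 1 u (h0 u hu)).1 fun s hs => hu' s (hp s hs)
        have n2 := (f1 1 w (h0 w hw)).1 fun s hs => hw' s (hp s hs)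
        have m1 : u⁻¹ * w ∈ gen S := (gen S).mul_mem ((gen S).inv_mem hu) hw
        obtain ⟨a1, a2⟩ := hA' u (hT u hu).2 _ (hT _ m1)
          ((g.Nk a.i).mul_mem ((g.Nk a.i).inv_mem n1) n2) x hx y hy
        have a3 := (hT _ m1).2.2 x hx y hy
        rw [mul_inv_cancel_left] at a2
        rw [pass_df hD rT, one_mul, QuotientGroup.eq]
        have a4 := x5 _ ((g.O a.i).inv_mem a3) _ ((g.O a.i).inv_mem a1)
        have a5 := ((a2.mono x3).trans (cg_comm (x5 _ ((g.O a.i).inv_mem a1) _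
          ((g.O a.i).inv_mem a3)))).left (df 0 u x y)⁻¹
        rw [inv_mul_cancel_left] at a5
        exact a5.mem_iff le_rfl)
    (fun pre t post ht c hc _ hc2 u hu hu' => by
      rw [Bool.eq_iff_iff]
      rcases split (e.symm.trans ht) with h | ⟨h, hp⟩
      · obtain ⟨x, hx, j, rfl⟩ := f2 t h
        rw [pass_fx (ok.repO j)] at hc2
        rw [pass_fx (ok.repO j), pass_fx (ok.repO j), ← T0_pv j (h0 c hc) x (u.app x)]
        exact ⟨fun b => hc2.symm.trans b, fun b => hc2.trans b⟩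
      · obtain ⟨x, hx, y, hy, rfl⟩ := f3 t h
        have n1 := (f1 1 u (h0 u hu)).1 fun s hs => hu' s (hp s hs)
        have a2 := (hA' (ψ * c) (q5 _ ((q1.mul ψ c (hB c hc) (hP c hc)).2 hψ)) u (hT u hu) n1
          x hx y hy).2
        rw [pass_df hD rT] at hc2
        rw [pass_df hD rT, pass_df hD rT, one_mul, ← mul_assoc, (a2.mono x3).mem_iff le_rfl]
        exact (g.fT p a).mul_mem_cancel_right hc2)
    (by
      obtain ⟨τ, t1, t2, -, t4⟩ := hF U p g a ψ Fact.out ok.ch ok.pres v hk hψ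
      have t5 : τ ∈ gen S := (hG τ).2 ⟨t1, q1.div ψ τ t1 hψ (q3 _ t4)⟩
      exact ⟨τ, t5, (f4 ψ hψ τ t5).2 ⟨t2, t4⟩⟩)
  have w3 := (f4 ψ hψ _ (hM U (Ts U) (passF 1) (passF ψ) (dPad d) (dO d 0) (tstF d a) S).1).1 w1
  refine ⟨w3.1, w3.2, fun u => (w2 u).trans (and_congr_right fun hu => ?_)⟩
  rw [f4 1 q1.one u hu, one_mul]

theorem a_FIX (p n : ℕ) [Fact p.Prime] (hW : A_TW) (hM : A_TWM) (hG : A_GENL) (hQ : S_TWOQ)
    (hF : S_FIXM) (hA : S_ADD) (hI : S_IMG) (hL : S_LAM p n) (hT : A_FIXT p n) : A_FIX p n := by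
  intro U _ _ g d a s ok v hk hS
  obtain ⟨q1, q2, q3, -⟩ := hQ U p g a ok.ch ok.pres v
  have hB : gen s.1 ≤ g.B := fun u hu => ((hS u).1 hu).1
  have m1 : ∀ ψ, (fixT d a s.1 ψ).1 ∈ gen s.1 := fun ψ => (hM U (Ts U) _ _ _ _ _ s.1).1
  have hH : cut g.B _ q2 ≤ gen s.1 := fun u hu => (hS u).2 ⟨hu.1, q3 u hu.2⟩
  have t1 := (hT U g d a s.1 1 ok v hk hS q1.one).2.2
  have t2 := fun u (hu : u ∈ s.1) => hT U g d a s.1 u ok v hk hS ((hS u).1 (GI.mem_gen hu)).2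
  set L := s.1.map (fun u => u * (fixT d a s.1 u).1) ++ (fixT d a s.1 1).2 with hL'
  have e1 : gen L = cut g.B _ q2 := by
    refine hG (FP U) s.1 _ (T0 g.O ⊓ g.Nk a.i) _
      (fun c hc => (hA U p g a.i ok.ch v.lo v.hi).1 c (g.B_le (hB hc)))
      (GI.gen_le.2 fun u hu => ?_) hH (fun u hu => ?_) fun u hu => ?_
    · rcases List.mem_append.1 hu with h | h
      · obtain ⟨w, hw, rfl⟩ := List.mem_map.1 h
        exact ⟨hB ((gen s.1).mul_mem (GI.mem_gen hw) (m1 w)), (t2 w hw).2.1⟩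
      · have := (t1 u).1 (GI.mem_gen h)
        exact ⟨hB this.1, this.2.2⟩
    · exact GI.gen_mono (fun x hx => List.mem_append_right _ hx)
        ((t1 u).2 ⟨hH hu.1, hu.2.2, hu.1.2⟩)
    · refine ⟨_, GI.mem_gen (List.mem_append_left _ (List.mem_map_of_mem hu)), ?_⟩
      rw [mul_inv_rev, inv_mul_cancel_right]
      exact Subgroup.inv_mem _ ⟨g.B_le (hB (m1 u)), (t2 u hu).1⟩
  have e2 : gen (fixP d a s).1 = cut g.B _ q2 :=
    (hW U (Ts U) (passF 1) (passF 1) (dPad d) (dO d 0) (g.O 0) [] L (ok.repO 0)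
      (e1 ▸ (hH.trans hB).trans (g.B_le.trans T0_sup)) ok.pad).1.trans e1
  refine ⟨⟨fun u => by rw [e2]; rfl, ?_, fun h _ => (hT U g d a s.1 _ ok v hk hS h).2.1⟩, ?_⟩
  · change s.2.1⁻¹ * (s.2.1 * (fixT d a s.1 s.2.1).1) ∈ _
    rw [inv_mul_cancel_left]
    exact m1 _
  have l1 := hL U g (bsD p n d) ok.ch ok.pres ok.bas
  have i1 := (hI _ _ (bsD p n d).lam g.B fun u hu w hw => (l1 u hu).2.2.1 w hw).1
  rw [e2]
  refine Subgroup.ext fun y => ?_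
  rw [i1 _ (hH.trans hB), i1 _ hB]
  refine ⟨fun ⟨z, hz, e⟩ => ⟨z, hH hz, e⟩, fun ⟨z, hz, e⟩ => ?_⟩
  obtain ⟨τ, b1, -, b3, b4⟩ := hF U p g a z Fact.out ok.ch ok.pres v hk ((hS z).1 hz).2
  refine ⟨z * τ, ⟨g.B.mul_mem (hB hz) b1, b4⟩, ?_⟩
  rw [(l1 z (hB hz)).2.2.1 τ b1, (l1 τ b1).2.2.2 b3, mul_one, e]

end Pool.Agent.P.MP_f1a348_lc.PS
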