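import Pool.Agent.P.MP_f1a348_lc.PS.Iface

/-!
Project PS: the algebra of the first certificate and its unitary group.
-/

namespace Pool.Agent.P.MP_f1a348_lc.PS

open GI (gen Cg FP)
open UP (Rec up topI SolvMod Nm Val GG SA UG)
open PG (Ix Vec Mat Frm Sub c0 st l0 Par pull1 Wt key)
open scoped commutatorElement Matrix

namespace TFULL0

variable {p n : ℕ}

/-- supported on the primal part -/
def Pm (a : Mat p n) : Prop := ∀ α γ, a α γ ≠ 0 → c0 n < α ∧ c0 n < γ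

/-- primal part, dual part and centre -/
noncomputable def blk (a a' : Mat p n) (χ : ZMod p) : Mat p n :=
  a + st a' + Matrix.single (c0 n) (c0 n) χ

/-- the projection to the primal part -/
def PP (p n : ℕ) : Mat p n := Matrix.diagonal fun α => if c0 n < α then 1 else 0

theorem mz {x y : Mat p n} (h : ∀ α β γ, x α β ≠ 0 → y β γ ≠ 0 → False) : x * y = 0 := by
  ext α γ
  rw [Matrix.mul_apply]
  refine Finset.sum_eq_zero fun β _ => ?_
  by_cases h1 : x α β = 0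
  · rw [h1, zero_mul]
  · by_cases h2 : y β γ = 0
    · rw [h2, mul_zero]
    · exact (h α β γ h1 h2).elim

theorem Pm.dual {a : Mat p n} (h : Pm a) {α γ : Ix n} (e : st a α γ ≠ 0) :
    α < c0 n ∧ γ < c0 n := ⟨PG.c0_lt_rev.1 (h _ _ e).2, PG.c0_lt_rev.1 (h _ _ e).1⟩

theorem sg_ne {χ : ZMod p} {α γ : Ix n}
    (e : (Matrix.single (c0 n) (c0 n) χ : Mat p n) α γ ≠ 0) : α = c0 n ∧ γ = c0 n := by
  by_contra h
  exact e (Matrix.single_apply_of_ne _ _ _ _ _ fun h' => h ⟨h'.1.symm, h'.2.symm⟩)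

theorem Pm.mul {a b : Mat p n} (ha : Pm a) (hb : Pm b) : Pm (a * b) := fun α γ e => by
  rw [Matrix.mul_apply] at e
  obtain ⟨β, _, h⟩ := Finset.exists_ne_zero_of_sum_ne_zero e
  exact ⟨(ha α β (left_ne_zero_of_mul h)).1, (hb β γ (right_ne_zero_of_mul h)).2⟩

theorem pm_PP : Pm (PP p n) := fun α γ e => by
  rw [PP, Matrix.diagonal_apply] at e
  split_ifs at e with h1 h2
  · exact ⟨h2, h1 ▸ h2⟩
  all_goals exact (e rfl).elim

theorem blk_mul {a a' b b' : Mat p n} (ha : Pm a) (ha' : Pm a') (hb : Pm b) (hb' : Pm b')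
    (χ ψ : ZMod p) : blk a a' χ * blk b b' ψ = blk (a * b) (b' * a') (χ * ψ) := by
  have e1 : a * st b' = 0 := mz fun α β γ h1 h2 => lt_asymm (ha _ _ h1).2 (hb'.dual h2).1
  have e2 : st a' * b = 0 := mz fun α β γ h1 h2 => lt_asymm (ha'.dual h1).2 (hb _ _ h2).1
  have e3 : a * (Matrix.single (c0 n) (c0 n) ψ : Mat p n) = 0 :=
    mz fun α β γ h1 h2 => (ha _ _ h1).2.ne' (sg_ne h2).1
  have e4 : st a' * (Matrix.single (c0 n) (c0 n) ψ : Mat p n) = 0 :=
    mz fun α β γ h1 h2 => (ha'.dual h1).2.ne (sg_ne h2).1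
  have e5 : (Matrix.single (c0 n) (c0 n) χ : Mat p n) * b = 0 :=
    mz fun α β γ h1 h2 => (hb _ _ h2).1.ne' (sg_ne h1).2
  have e6 : (Matrix.single (c0 n) (c0 n) χ : Mat p n) * st b' = 0 :=
    mz fun α β γ h1 h2 => (hb'.dual h2).1.ne (sg_ne h1).2
  simp only [blk, add_mul, mul_add, e1, e2, e3, e4, e5, e6, Matrix.single_mul_single_same,
    PG.st_mul, add_zero, zero_add]

theorem st_blk (a a' : Mat p n) (χ : ZMod p) : st (blk a a' χ) = blk a' a χ := by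
  have : st (Matrix.single (c0 n) (c0 n) χ : Mat p n) = Matrix.single (c0 n) (c0 n) χ := by
    ext α β
    simp only [PG.st_apply, Matrix.single_apply]
    refine if_congr ⟨fun h => ⟨?_, ?_⟩, fun h => ⟨?_, ?_⟩⟩ rfl rfl
    · rw [← Fin.rev_rev α, ← h.2, PG.rev_c0]
    · rw [← Fin.rev_rev β, ← h.1, PG.rev_c0]
    · rw [← h.2, PG.rev_c0]
    · rw [← h.1, PG.rev_c0]
  rw [blk, blk, PG.st_add, PG.st_add, PG.st_st, this, add_comm a']

theorem blk_pri {a a' : Mat p n} (ha' : Pm a') (χ : ZMod p) {α : Ix n} (h : c0 n < α) (γ : Ix n) :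
    blk a a' χ α γ = a α γ := by
  have e1 : st a' α γ = 0 := by_contra fun e => lt_asymm h (ha'.dual e).1
  have e2 : (Matrix.single (c0 n) (c0 n) χ : Mat p n) α γ = 0 :=
    by_contra fun e => h.ne' (sg_ne e).1
  rw [blk, Matrix.add_apply, Matrix.add_apply, e1, e2, add_zero, add_zero]

theorem blk_c0 {a a' : Mat p n} (ha : Pm a) (ha' : Pm a') (χ : ZMod p) :
    blk a a' χ (c0 n) (c0 n) = χ := by
  have e1 : st a' (c0 n) (c0 n) = 0 := by_contra fun e => (ha'.dual e).1.ne rfl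
  have e2 : a (c0 n) (c0 n) = 0 := by_contra fun e => (ha _ _ e).1.ne rfl
  rw [blk, Matrix.add_apply, Matrix.add_apply, e1, e2, Matrix.single_apply_same, add_zero, zero_add]

theorem blk_one : blk (PP p n) (PP p n) 1 = 1 := by
  rw [blk, PP, PG.st_diagonal, ← Matrix.diagonal_single, Matrix.diagonal_add, Matrix.diagonal_add,
    ← Matrix.diagonal_one]
  congr 1
  funext α
  simp only [PG.c0_lt_rev, Pi.single_apply]
  rcases lt_trichotomy α (c0 n) with h | h | h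
  · simp [h, h.ne, lt_asymm h]
  · simp [h]
  · simp [h, h.ne', lt_asymm h]

theorem un_blk {a a' : Mat p n} (ha : Pm a) (ha' : Pm a') {χ : ZMod p} (h : PG.Un (blk a a' χ)) :
    a' * a = PP p n := by
  rw [PG.Un, st_blk, blk_mul ha' ha ha ha', ← blk_one] at h
  ext α γ
  by_cases hα : c0 n < α
  · rw [← blk_pri (a := a' * a) (ha'.mul ha) (χ * χ) hα, h, blk_pri pm_PP _ hα]
  · rw [by_contra fun e => hα (ha'.mul ha α γ e).1, by_contra fun e => hα (pm_PP α γ e).1]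

theorem dg_blk {a a' : Mat p n} (ha : Pm a) (ha' : Pm a') (χ : ZMod p) :
    PG.Dg (l0 n) (blk a a' χ) := fun α γ e => by
  have : (c0 n < α ∧ c0 n < γ) ∨ (α < c0 n ∧ γ < c0 n) ∨ (α = c0 n ∧ γ = c0 n) := by
    by_contra h
    simp only [not_or] at h
    rw [blk, Matrix.add_apply, Matrix.add_apply, by_contra fun e => h.1 (ha α γ e),
      by_contra fun e => h.2.1 (ha'.dual e), by_contra fun e => h.2.2 (sg_ne (χ := χ) e)] at e
    simp at e
  simp only [Fin.lt_def, Fin.ext_iff, c0] at this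
  simp only [l0]
  split_ifs <;> omega

end TFULL0

open TFULL0 in
theorem s_FULL0 (p n : ℕ) [Fact p.Prime] (hA : S_AF p n) (hL : S_LAM p n) (hE : S_REL p n)
    (hR : S_RLIFT p n) (hI : S_IMG) : S_FULL0 p n := by
  intro U _ g β hc hp hβ
  obtain ⟨hA1, hA2, -⟩ := hA U β _ _ hβ fun b => hc.anti b (b + 1) b.le_succ
  obtain ⟨-, hE0, hE1, hE2⟩ := hE U g β hc hβ
  obtain ⟨hR1, hR2⟩ := hR U g β hc hp hβ
  have hP : (β.aF fun _ x => x) = PP p n := hA2
  rw [hP] at hE1 hR2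
  have pm : ∀ {a χ}, Rel g β a χ → Pm a := fun ⟨_, _, e⟩ α γ h =>
    have := hA1 _ α γ (e ▸ h)
    ⟨this.1, this.2.1⟩
  have inn : ∀ {a a' χ}, Rel g β a χ → Rel g β a' χ → blk a a' χ ∈ R0 g β := fun h h' =>
    Submodule.subset_span ⟨_, _, _, h, h', rfl⟩
  have out : ∀ x ∈ R0 g β, ∃ a a' χ, Rel g β a χ ∧ Rel g β a' χ ∧ x = blk a a' χ := fun x hx => by
    induction hx using Submodule.span_induction with
    | mem x hx => exact hx
    | zero => exact ⟨0, 0, 0, hE0, hE0, by simp [blk]⟩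
    | add x y _ _ hx hy =>
      obtain ⟨a, a', χ, h1, h2, rfl⟩ := hx
      obtain ⟨b, b', ψ, h3, h4, rfl⟩ := hy
      refine ⟨a + b, a' + b', χ + ψ, ((hE2 _ _ h1).2 _ _ h3).1, ((hE2 _ _ h2).2 _ _ h4).1, ?_⟩
      simp only [blk, PG.st_add, Matrix.single_add]
      abel
    | smul c x _ hx =>
      obtain ⟨a, a', χ, h1, h2, rfl⟩ := hx
      refine ⟨c • a, c • a', c * χ, (hE2 _ _ h1).1 c, (hE2 _ _ h2).1 c, ?_⟩
      simp only [blk, PG.st_smul, smul_add, Matrix.smul_single, smul_eq_mul]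
  have hS : SA (R0 g β) := ⟨blk_one ▸ inn hE1 hE1, fun x hx y hy => ?_, fun x hx => ?_,
    fun x hx => ?_⟩
  rotate_left
  · obtain ⟨a, a', χ, h1, h2, rfl⟩ := out x hx
    obtain ⟨b, b', ψ, h3, h4, rfl⟩ := out y hy
    rw [blk_mul (pm h1) (pm h2) (pm h3) (pm h4)]
    exact inn ((hE2 _ _ h1).2 _ _ h3).2 (mul_comm ψ χ ▸ ((hE2 _ _ h4).2 _ _ h2).2)
  · obtain ⟨a, a', χ, h1, h2, rfl⟩ := out x hx
    exact st_blk a a' χ ▸ inn h2 h1
  · obtain ⟨a, a', χ, h1, h2, rfl⟩ := out x hx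
    exact dg_blk (pm h1) (pm h2) χ
  have hl : ∀ u ∈ g.B, (β.lam u).1 = blk (β.aM u) (β.aM u⁻¹) 1 := fun u hu =>
    (hL U g β hc hp hβ u hu).2.1
  refine ⟨hS, Subgroup.ext fun y => ?_⟩
  rw [(hI _ _ β.lam g.B fun u hu => (hL U g β hc hp hβ u hu).2.2.1).1 _ inf_le_left, UP.mem_UG]
  constructor
  · rintro ⟨u, hu, rfl⟩ x hx
    exact hS.mul _ (hl u hu.1 ▸ inn (hR1 u hu) (hR1 _ (inv_mem hu))) x hx
  · intro hy
    obtain ⟨a, a', χ, h1, h2, e⟩ := out _ (hy 1 hS.one)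
    rw [mul_one] at e
    obtain rfl : χ = 1 := by rw [← blk_c0 (pm h1) (pm h2) χ, ← e]; exact y.2.2.2
    have h3 := un_blk (pm h1) (pm h2) (e ▸ y.2.2.1)
    obtain ⟨u, hu, rfl⟩ := hR2 a a' h1 h3
    have h4 := pm (hR1 _ (inv_mem hu))
    have h5 := un_blk (pm h1) h4 (hl u hu.1 ▸ (β.lam u).2.2.1)
    have h6 : (y⁻¹ * β.lam u).1 = (1 : GG p n).1 := by
      rw [UP.val_mul, UP.val_inv, UP.val_one, hl u hu.1, e, st_blk,
        blk_mul (pm h2) (pm h1) (pm h1) h4, h3, h5, mul_one, blk_one]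
    exact ⟨u, hu, (inv_mul_eq_one.1 (show y⁻¹ * β.lam u = 1 from Subtype.ext h6)).symm⟩

end Pool.Agent.P.MP_f1a348_lc.PS
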