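import Pool.Agent.P.MP_f1a348_lc.PS.Iface

/-!
Project PS: the representation of the group of a stage, and the zeros of the form of a call.
-/

namespace Pool.Agent.P.MP_f1a348_lc.PS

open GI (gen Cg FP)
open UP (Rec up topI SolvMod Nm Val GG SA UG)
open PG (Ix Vec Mat Frm Sub c0 st l0 Par pull1 Wt key)
open scoped commutatorElement Matrix

set_option linter.unusedSectionVars false

namespace TLAM

variable {p n : ℕ} [Fact p.Prime]

/-- primal matrices -/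
def Pm (a : Mat p n) : Prop := ∀ α γ, a α γ ≠ 0 → c0 n < α ∧ c0 n < γ

/-- the centre -/
abbrev E (p n : ℕ) : Mat p n := Matrix.single (c0 n) (c0 n) 1

theorem E_ne {α γ : Ix n} (h : E p n α γ ≠ 0) : α = c0 n ∧ γ = c0 n := by
  by_contra e
  exact h (Matrix.single_apply_of_ne _ _ _ _ _ fun k => e ⟨k.1.symm, k.2.symm⟩)

theorem st_E : st (E p n) = E p n := by
  ext α γ
  simp only [PG.st_apply, Matrix.single_apply, ← Fin.rev_eq_iff, PG.rev_c0, and_comm]

theorem Pm.st {a : Mat p n} (h : Pm a) {α γ : Ix n} (e : st a α γ ≠ 0) : α < c0 n ∧ γ < c0 n :=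
  ⟨PG.c0_lt_rev.1 (h _ _ e).2, PG.c0_lt_rev.1 (h _ _ e).1⟩

theorem mz {g h : Mat p n} (k : ∀ α γ β, g α γ ≠ 0 → h γ β ≠ 0 → False) : g * h = 0 := by
  ext α β
  by_contra e
  obtain ⟨γ, h1, h2⟩ := PG.exists_of_mul_ne e
  exact k _ _ _ h1 h2

theorem prod {a b a' b' : Mat p n} (ha : Pm a) (hb : Pm b) (ha' : Pm a') (hb' : Pm b') :
    (a + st b + E p n) * (a' + st b' + E p n) = a * a' + st (b' * b) + E p n := by
  have h1 : a * st b' = 0 := mz fun _ _ _ x y => (ha _ _ x).2.not_gt (hb'.st y).1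
  have h2 : a * E p n = 0 := mz fun _ _ _ x y => (ha _ _ x).2.ne' (E_ne y).1
  have h3 : st b * a' = 0 := mz fun _ _ _ x y => (ha' _ _ y).1.not_gt (hb.st x).2
  have h4 : st b * E p n = 0 := mz fun _ _ _ x y => (hb.st x).2.ne (E_ne y).1
  have h5 : E p n * a' = 0 := mz fun _ _ _ x y => (ha' _ _ y).1.ne' (E_ne x).2
  have h6 : E p n * st b' = 0 := mz fun _ _ _ x y => (hb'.st y).1.ne (E_ne x).2
  have h7 : E p n * E p n = E p n := by rw [Matrix.single_mul_single_same, mul_one]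
  simp only [add_mul, mul_add, h1, h2, h3, h4, h5, h6, h7, PG.st_mul, add_zero, zero_add]

theorem unit : (Matrix.diagonal fun α => if c0 n < α then 1 else 0 : Mat p n) +
    st (Matrix.diagonal fun α => if c0 n < α then 1 else 0) + E p n = 1 := by
  rw [PG.st_diagonal, E, ← Matrix.diagonal_single, Matrix.diagonal_add, Matrix.diagonal_add,
    ← Matrix.diagonal_one]
  congr 1
  funext α
  simp only [PG.c0_lt_rev]
  rcases lt_trichotomy α (c0 n) with h | h | h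
  · simp [h, h.not_gt, h.ne]
  · simp [h]
  · simp [h, h.not_gt, h.ne']

theorem par {a b : Mat p n} (ha : Pm a) (hb : Pm b) (e : b * a + st (b * a) + E p n = 1) :
    Par (l0 n) (a + st b + E p n) := by
  refine ⟨PG.Dg.tri PG.lab_l0 fun α γ h => ?_, ?_, ?_⟩
  · have : a α γ ≠ 0 ∨ st b α γ ≠ 0 ∨ E p n α γ ≠ 0 := by
      by_contra k
      push Not at k
      exact h (by rw [Matrix.add_apply, Matrix.add_apply, k.1, k.2.1, k.2.2]; simp)
    rcases this with k | k | k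
    · have : n < α.val ∧ n < γ.val := ha _ _ k
      simp only [l0]; split_ifs <;> omega
    · have : α.val < n ∧ γ.val < n := hb.st k
      simp only [l0]; split_ifs <;> omega
    · rw [(E_ne k).1, (E_ne k).2]
  · rw [PG.Un, PG.st_add, PG.st_add, PG.st_st, st_E, add_comm (st a), prod hb ha ha hb, e]
  · have h1 : a (c0 n) (c0 n) = 0 := by_contra fun k => (ha _ _ k).1.false
    have h2 : st b (c0 n) (c0 n) = 0 := by_contra fun k => (hb.st k).1.false
    rw [Matrix.add_apply, Matrix.add_apply, h1, h2]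
    simp

theorem dfp {U : Type} [Group U] {k : ℕ} (hk : 2 ≤ k) (ψ : FP U) (x y z : U) :
    df k ψ x y = df k ψ x z := by simp only [df, wd_pow hk]

end TLAM

open TLAM

theorem s_LAM (p n : ℕ) [Fact p.Prime] (hA : S_AF p n) : S_LAM p n := by
  intro U _ g β ch pr ok
  obtain ⟨h1, h2, h3⟩ := hA U β (g.D p) g.s ok fun b => ch.anti _ _ (Nat.le_succ b)
  have act : ∀ u ∈ g.B, Act (g.D p) g.s fun _ => u.app := fun u hu =>
    ⟨fun b hb x hx => (pr.keep b hb.le hu x).2 hx, fun b hb x hx => (pr.keep (b + 1) hb hu x).2 hx,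
      fun b hb x hx y hy => (pr.mul u hu b hb x hx y
        (ch.syl.hi (ch.anti 0 b (Nat.zero_le b) hy))).1.mono (ch.low b)⟩
  have pm : ∀ u, Pm (β.aM u) := fun u α γ e => ⟨(h1 _ _ _ e).1, (h1 _ _ _ e).2.1⟩
  have mul : ∀ u ∈ g.B, ∀ v ∈ g.B, β.aM (u * v) = β.aM u * β.aM v := fun u hu v hv =>
    ((h3 _ (act u hu)).2 _ (act v hv).mem).1
  have one : β.aM 1 + st (β.aM 1) + E p n = 1 := by rw [show β.aM 1 = _ from h2, unit]
  have val : ∀ u ∈ g.B, (β.lam u).1 = β.lamM u := fun u hu => by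
    have e : Par (l0 n) (β.lamM u) := par (pm u) (pm u⁻¹)
      (by rw [← mul _ (g.B.inv_mem hu) _ hu, inv_mul_cancel, one])
    exact congrArg Subtype.val (dif_pos e : β.lam u = ⟨_, e⟩)
  refine fun u hu => ⟨act u hu, val u hu, fun v hv => Subtype.ext ?_, fun h => Subtype.ext ?_⟩
  · rw [UP.val_mul, val _ (g.B.mul_mem hu hv), val u hu, val v hv, Bs.lamM, Bs.lamM, Bs.lamM,
      prod (pm _) (pm _) (pm _) (pm _), mul u hu v hv, mul_inv_rev,
      mul _ (g.B.inv_mem hv) _ (g.B.inv_mem hu)]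
  · have e : β.aM 1 = β.aM u := ((h3 _ (act 1 g.B.one_mem)).2 _ (act u hu).mem).2.2 h
    have e' : β.aM u⁻¹ = β.aM 1 := by
      rw [← inv_mul_cancel u, mul _ (g.B.inv_mem hu) _ hu, ← e,
        ← mul _ (g.B.inv_mem hu) _ g.B.one_mem, mul_one]
    rw [val u hu, Bs.lamM, ← e, e']
    exact one

theorem s_ZERO (p n : ℕ) [Fact p.Prime] (hT : S_TRIV) (hB : S_BIL) (hX : S_CTX)
    (hK : S_LINK p n) : S_ZERO p n := by
  intro U _ g β a ψ ch ok vd hk
  refine ⟨fun i hi => if_neg fun c => hi ?_, fun pre => ?_⟩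
  · obtain ⟨c1, -, c2, c3⟩ := c
    have c1 : n < (i 0).val := c1
    have c2 : (i 2).val < n := c2
    have e0 : l0 n (i 0) = l0 n (Fin.last _) := by
      simp only [l0, Fin.val_last]; split_ifs <;> omega
    have e2 : l0 n (i 2) = l0 n 0 := by
      simp only [l0, Fin.val_zero]; split_ifs <;> omega
    have e1 : l0 n (i 1) = l0 n (if a.k = 0 then Fin.last _ else c0 n) := by
      split_ifs at c3 ⊢
      · have : n < (i 1).val := c3.1
        simp only [l0, Fin.val_last]; split_ifs <;> omega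
      · rw [c3]
    rw [key, e0, e1, e2]
    rfl
  have an : ∀ b, g.D p (b + 1) ≤ g.D p b := fun b => ch.anti _ _ (Nat.le_succ b)
  have d0 : ∀ b, g.D p b ≤ g.D0 := fun b => ch.anti 0 b (Nat.zero_le b)
  obtain ⟨k1, k2, -⟩ := hK U β (g.D p) g.s ok an
  obtain ⟨x1, x2, -, x3⟩ := hX U p g ch
  obtain ⟨ts, bt, -⟩ := x3 a vd
  have ext0 : ∀ (φ : U → U) (b : ℕ), b < g.s → (∀ x ∈ g.D p b, φ x ∈ g.D p a.t) →
      (∀ x ∈ g.D p b, ∀ y ∈ g.D p b, Cg (g.D p (a.t + 1)) (φ (x * y)) (φ x * φ y)) →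
      (∀ x ∈ g.D p (b + 1), φ x ∈ g.D p (a.t + 1)) →
      (∀ α, c0 n < α → β.bl α = b → φ (β.e α) ∈ g.D p (a.t + 1)) →
      ∀ x ∈ g.D p b, φ x ∈ g.D p (a.t + 1) := fun φ b hb m1 m2 m3 m4 x hx => by
    rw [← ok.ker _ ts _ (m1 x hx), k2 (Vec p n) (fun x => β.kap a.t (φ x)) b hb
      (fun x hx y hy => by
        rw [← ok.add _ ts _ (m1 x hx) _ (m1 y hy)]
        exact ((k1 _ ts).2 _ (m1 _ (mul_mem hx hy))).2.2 _ (m2 x hx y hy))
      (fun x hx => (ok.ker _ ts _ (an _ (m3 x hx))).2 (m3 x hx)) x hx]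
    refine Finset.sum_eq_zero fun α _ => ?_
    by_cases e : β.kap b x α = 0
    · rw [e, zero_smul]
    · have := m4 α (ok.supp _ _ _ e).1 (ok.supp _ _ _ e).2
      rw [(ok.ker _ ts _ (an _ this)).2 this, smul_zero]
  have me : ∀ α b, c0 n < α → β.bl α = b → β.e α ∈ g.D p b := fun α b h e => e ▸ (ok.mem α h).2
  have iff : β.th a ψ = 0 ↔ ∀ α γ, c0 n < α → β.bl α = a.b →
      (if a.k = 0 then c0 n < γ ∧ β.bl γ = a.c else γ = c0 n) →
      β.kap a.t (df (if a.k = 0 then 1 else p) ψ (β.e α) (β.e γ)) = 0 := by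
    refine ⟨fun h α γ h1 h2 h3 => funext fun δ => by_contra fun e => e ?_, fun h => funext fun i => ?_⟩
    · have := congrFun h ![α, γ, δ.rev]
      rw [Bs.th, if_pos ⟨h1, h2, PG.rev_lt_c0.2 (ok.supp _ _ _ e).1, h3⟩] at this
      simpa using this
    · rw [Bs.th]
      exact ite_eq_right_iff.2 fun c => congrFun (h _ _ c.1 c.2.1 c.2.2.2) _
  rw [iff, Sg.post]
  rw [Sg.pre] at pre
  by_cases e : a.k = 0
  · simp only [if_pos e] at pre ⊢
    have cx := x1 _ _ _ ψ vd.lo vd.t0 bt pre.1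
    obtain ⟨-, t2, -, t4, -⟩ := hT U p _ _ _ _ ψ cx
    obtain ⟨b1, b2, -⟩ := hB U p _ _ _ _ _ ψ cx (x2 a.t a.b)
    refine ⟨fun h α γ h1 h2 h3 => ?_, fun h => ⟨pre.1, fun x hx y hy => ?_⟩⟩
    · have := h.2 _ (me α _ h1 h2) _ (me γ _ h3.1 h3.2)
      exact (ok.ker _ ts _ (an _ this)).2 this
    · refine ext0 (fun x => df 1 ψ x y) a.b (bt.trans ts) (fun x hx => t4 1 _ (d0 _ hx) _ (d0 _ hy))
        (fun x hx x' hx' => b1 x hx x' hx' y (d0 _ hy)) (fun x hx => t2 x hx y (d0 _ hy))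
        (fun α h1 h2 => ?_) x hx
      have m := me α _ h1 h2
      exact ext0 (fun y => df 1 ψ (β.e α) y) a.c ((vd.c.trans_lt bt).trans ts)
        (fun y hy => t4 1 _ (d0 _ m) _ (d0 _ hy))
        (fun y hy y' hy' => b2 _ m y (d0 _ hy) y' (d0 _ hy')) (fun y hy => pre.2 _ m y hy)
        (fun γ h3 h4 => (ok.ker _ ts _ (t4 1 _ (d0 _ m) _ (d0 _ (me γ _ h3 h4)))).1
          (h α γ h1 h2 ⟨h3, h4⟩)) y hy
  · have e1 : a.k = 1 := by omega
    have p2 : 2 ≤ p := (Fact.out : p.Prime).two_le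
    simp only [if_neg e, if_pos e1] at pre ⊢
    have cx := x1 _ _ _ ψ vd.lo vd.t0 bt pre.1
    obtain ⟨-, -, t3, t4, -⟩ := hT U p _ _ _ _ ψ cx
    have b1 := (((hB U p _ _ _ _ _ ψ cx (x2 a.t a.b)).2.2 pre.2).2 p2).1
    refine ⟨fun h α γ h1 h2 _ => ?_, fun h => ⟨pre, fun x hx y hy => ?_⟩⟩
    · have := h.2 _ (me α _ h1 h2) _ (me α _ h1 h2)
      rw [dfp p2 ψ _ _ (β.e α)]
      exact (ok.ker _ ts _ (an _ this)).2 this
    · refine ext0 (fun x => df p ψ x y) a.b (bt.trans ts) (fun x hx => t4 p _ (d0 _ hx) _ (d0 _ hy))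
        (fun x hx x' hx' => b1 x hx x' hx' y) (fun x hx => dfp p2 ψ x x y ▸ t3 p x hx x hx)
        (fun α h1 h2 => ?_) x hx
      rw [← ok.ker _ ts _ (t4 p _ (d0 _ (me α _ h1 h2)) _ (d0 _ hy)), dfp p2 ψ _ _ (β.e (c0 n))]
      exact h α _ h1 h2 rfl

end Pool.Agent.P.MP_f1a348_lc.PS
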