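import Pool.Agent.P.MP_f1a348_lc.PS.PIf

/-!
Project PS: elements with given matrix and form.
-/

namespace Pool.Agent.P.MP_f1a348_lc.PS

open GI (gen Cg FP Rep sims)
open UP (Rec up topI SolvMod Nm Val GG SG SA UG Fo gS gD foD)
open PG (Ix Vec Mat Frm Sub c0 st l0 Par pull1 Wt key V Cx pp mM mV fV unL oneP)
open Pool.Agent.Lib.Helper47

set_option linter.unusedSectionVars false

namespace TLIFT

variable {p n : ℕ} [Fact p.Prime]

/-- a column of a matrix -/
def col (j : Ix n) (M : Mat p n) : Vec p n := fun α => M α j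

theorem col_mul (j : Ix n) (M N N' : Mat p n) (h : col j N = col j N') :
    col j (M * N) = col j (M * N') := by
  funext α
  simp only [col, Matrix.mul_apply]
  exact Finset.sum_congr rfl fun k _ => congrArg _ (congrFun h k)

theorem col_key (j : Ix n) (A X : GG p n) :
    col j (A * X).1 = col j A.1 ↔ col j X.1 = col j 1 := by
  refine ⟨fun h => ?_, fun h => ?_⟩
  · have := col_mul j (A⁻¹).1 _ _ h
    rwa [← UP.val_mul, ← UP.val_mul, inv_mul_cancel_left, inv_mul_cancel] at this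
  · have := col_mul j A.1 _ _ h
    rwa [mul_one] at this

theorem colE_iff {c : Cx} (h : UP.Ok p n c) (x z : V) (j : Ix n) :
    colE c x z j.val = true ↔ col j (mV p n x) = col j (mV p n z) := by
  rw [colE, h.ran1, List.all_eq_true, funext_iff]
  simp only [List.mem_map, List.mem_finRange, true_and, forall_exists_index, forall_apply_eq_imp_iff,
    beq_iff_eq, col, h.mV_apply, ZMod.natCast_eq_natCast_iff', h.hp]

theorem mem_tstL {c : Cx} (h : UP.Ok p n c) (t : Bool × ℕ) :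
    t ∈ tstL c ↔ ∃ j : Ix n, (false, j.val) = t := by
  rw [tstL, h.ran1, List.map_map, List.mem_map]
  exact ⟨fun ⟨j, _, e⟩ => ⟨j, e⟩, fun ⟨j, e⟩ => ⟨j, List.mem_finRange j, e⟩⟩

theorem col_all {M N : Mat p n} : (∀ j, col j M = col j N) ↔ M = N :=
  ⟨fun h => Matrix.ext fun α j => congrFun (h j) α, fun h _ => h ▸ rfl⟩

theorem sub_pre {α : Type} {L X pre post : List α} {t : α} (h : L ++ X = pre ++ t :: post)
    (ht : t ∉ L) : ∀ s ∈ L, s ∈ pre := by
  rcases List.append_eq_append_iff.1 h with ⟨a, rfl, -⟩ | ⟨c, rfl, e⟩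
  · exact fun s hs => List.mem_append_left _ hs
  · cases c with
    | nil => simp
    | cons x c =>
      obtain ⟨rfl, -⟩ := List.cons.inj e
      simp at ht

variable {U : Type} [Group U] [DecidableEq U]

theorem main (hW : A_TW) (hL : S_LAM p n) (hD : A_DEC p n) (g : Sg U) (d : Dt U) (a : Ins)
    (S : List (FP U)) (ψ : FP U) (z : V) (hd : DOK p n g d) (hS : gen S ≤ g.B)
    (I : List (Fin 3 → Ix n))
    (hc : ∀ k ∈ I, ∀ u ∈ gen S, ∀ w ∈ gen S, (bsD p n d).lam w = 1 →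
      (bsD p n d).th a (u * w) k = (bsD p n d).th a u k + (bsD p n d).th a w k ∧
      (bsD p n d).th a (ψ * u * w) k = (bsD p n d).th a (ψ * u) k + (bsD p n d).th a w k)
    (he : ∃ u ∈ gen S, ((bsD p n d).lam u).1 = mV p n z ∧ ∀ k ∈ I, (bsD p n d).th a (ψ * u) k = 0)
    (T : List (Bool × ℕ)) (hT : T = tstL d.1 ++ I.map fun k => (true, PG.enc3 k))
    (r : FP U × List (FP U))
    (hr : r = tw (passC d a 1 (oneP d.1)) (passC d a ψ z) (dPad d) (dO d 0) T S) :
    ((bsD p n d).lam r.1).1 = mV p n z ∧ (∀ k ∈ I, (bsD p n d).th a (ψ * r.1) k = 0) ∧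
      ∀ u, u ∈ gen r.2 ↔ u ∈ gen S ∧ (bsD p n d).lam u = 1 ∧ ∀ k ∈ I, (bsD p n d).th a u k = 0 := by
  set β := bsD p n d with hβ
  have ok := hd.ok
  have hv : ∀ u ∈ gen S, (β.lam u).1 = β.lamM u := fun u hu =>
    (hL U g β hd.ch hd.pres hd.bas u (hS hu)).2.1
  have hm : ∀ u ∈ gen S, ∀ v ∈ gen S, β.lam (u * v) = β.lam u * β.lam v := fun u hu v hv =>
    (hL U g β hd.ch hd.pres hd.bas u (hS hu)).2.2.1 v (hS hv)
  have pc : ∀ φ y (j : Ix n) u, passC d a φ y (false, j.val) u = true ↔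
      col j (β.lamM u) = col j (mV p n y) := fun φ y j u => by
    rw [← (hD U d ok u).1]
    exact colE_iff ok _ _ _
  have pt : ∀ φ y k u, passC d a φ y (true, PG.enc3 k) u = true ↔ β.th a (φ * u) k = 0 :=
    fun φ y k u => by
      rw [← (hD U d ok (φ * u)).2 a, passC, cond_true, Bool.not_eq_true', PG.nz_false ok.hp]
      rfl
  have pa : ∀ φ y u, (∀ t ∈ tstL d.1, passC d a φ y t u = true) ↔ β.lamM u = mV p n y :=
    fun φ y u => by
      simp only [mem_tstL ok, forall_exists_index, forall_apply_eq_imp_iff, pc, col_all]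
  have pA : ∀ φ y u, (∀ t ∈ T, passC d a φ y t u = true) ↔
      β.lamM u = mV p n y ∧ ∀ k ∈ I, β.th a (φ * u) k = 0 := fun φ y u => by
    rw [hT, List.forall_mem_append, pa, List.forall_mem_map]
    simp only [pt]
  have k1 : ∀ u ∈ gen S, β.lamM u = mV p n (oneP d.1) ↔ β.lam u = 1 := fun u hu => by
    rw [ok.oneP, ← hv u hu]
    exact ⟨fun e => Subtype.ext e, fun e => by rw [e]; rfl⟩
  have sp : ∀ (pre : List (Bool × ℕ)) t post, T = pre ++ t :: post →
      (∃ j : Ix n, t = (false, j.val)) ∨ ∃ k ∈ I, t = (true, PG.enc3 k) ∧ ∀ u ∈ gen S,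
        (∀ s ∈ pre, passC d a 1 (oneP d.1) s u = true) → β.lam u = 1 := fun pre t post e => by
    by_cases ht : t ∈ tstL d.1
    · obtain ⟨j, rfl⟩ := (mem_tstL ok t).1 ht
      exact Or.inl ⟨j, rfl⟩
    · have h1 : t ∈ T := by rw [e]; simp
      rw [hT, List.mem_append, List.mem_map] at h1
      obtain ⟨k, hk, rfl⟩ := h1.resolve_left ht
      exact Or.inr ⟨k, hk, rfl, fun u hu h => (k1 u hu).1
        ((pa _ _ u).1 fun s hs => h s (sub_pre (hT ▸ e) ht s hs))⟩
  obtain ⟨u0, hu0, e0, e1⟩ := he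
  obtain ⟨r1, r2⟩ := (hW U _ (passC d a 1 (oneP d.1)) (passC d a ψ z) (dPad d) (dO d 0) (g.O 0) T S
    (hd.repO 0) (hS.trans (g.B_le.trans T0_sup)) hd.pad).2 (fun pre t post e => by
      rcases sp pre t post e with ⟨j, rfl⟩ | ⟨k, hk, rfl, h1⟩
      · refine ⟨Vec p n, fun u => col j (β.lam u).1, Set.univ, Set.toFinite _, ?_,
          fun u hu _ => ⟨trivial, fun v hv' _ => ?_⟩⟩
        · rw [Set.ncard_univ, Nat.card_fun, Nat.card_zmod, Nat.card_eq_fintype_card,
            Fintype.card_fin]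
          exact ok.pow_le' (by omega)
        · have hw := (gen S).mul_mem ((gen S).inv_mem hu) hv'
          rw [pc, ok.oneP, ← hv _ hw, ← col_key j (β.lam u), ← hm u hu _ hw, mul_inv_cancel_left]
          exact eq_comm
      · refine ⟨ZMod p, fun u => β.th a u k, Set.univ, Set.toFinite _, ?_,
          fun u hu hu1 => ⟨trivial, fun v hv' hv1 => ?_⟩⟩
        · rw [Set.ncard_univ, Nat.card_zmod, ← pow_one p]
          exact ok.pow_le' (by omega)
        · have hw := (gen S).mul_mem ((gen S).inv_mem hu) hv'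
          have h2 := hm u hu _ hw
          rw [mul_inv_cancel_left, h1 u hu hu1, h1 v hv' hv1, one_mul] at h2
          have h3 := (hc k hk u hu _ hw h2.symm).1
          rw [mul_inv_cancel_left] at h3
          rw [pt, one_mul]
          simp [h3])
    (fun pre t post e w hw _ ht u hu hu1 => by
      rw [Bool.eq_iff_iff]
      rcases sp pre t post e with ⟨j, rfl⟩ | ⟨k, hk, rfl, h1⟩
      · rw [pc] at ht
        rw [pc, pc, ← ht, ok.oneP, ← hv _ ((gen S).mul_mem hw hu), ← hv w hw, ← hv u hu,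
          hm w hw u hu, col_key]
      · rw [pt] at ht
        rw [pt, pt, one_mul, ← mul_assoc, (hc k hk w hw u hu (h1 u hu hu1)).2, ht, zero_add])
    ⟨u0, hu0, (pA _ _ _).2 ⟨(hv u0 hu0).symm.trans e0, e1⟩⟩
  rw [← hr] at r1 r2
  obtain ⟨r3, r4⟩ := (pA _ _ _).1 r1
  refine ⟨?_, r4, fun u => ?_⟩
  · have h1 : Par (l0 n) (β.lamM r.1) := by rw [r3, ← e0]; exact (β.lam u0).2
    rw [Bs.lam, dif_pos h1]
    exact r3
  · rw [r2, pA]
    simp only [one_mul]
    exact and_congr_right fun hu => by rw [k1 u hu]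

end TLIFT

theorem a_LIFT0 (p n : ℕ) [Fact p.Prime] (hW : A_TW) (hL : S_LAM p n) (hD : A_DEC p n) :
    A_LIFT0 p n := by
  intro U _ _ g d a S z hd hS ⟨u, hu, e⟩
  obtain ⟨h1, -, h2⟩ := TLIFT.main hW hL hD g d a S 1 z hd hS [] (by simp) ⟨u, hu, e, by simp⟩
    (tstL d.1) (by simp) _ rfl
  exact ⟨h1, fun u => (h2 u).trans (by simp)⟩

theorem a_LIFT (p n : ℕ) [Fact p.Prime] (hW : A_TW) (hM : A_TWM) (hQ : S_TWOQ) (hL : S_LAM p n)
    (hC : S_COC p n) (hD : A_DEC p n) : A_LIFT p n := by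
  intro U _ _ g d a S ψ z hd hv hk hG hψ ⟨u, hu, e, e'⟩
  have hS : gen S ≤ g.B := fun x hx => ((hG x).1 hx).1
  have hI : ∀ k : Fin 3 → Ix n, k ∈ (PG.ran (PG.u3 d.1)).map (UP.bx n) := fun k =>
    List.mem_map.2 ⟨PG.enc3 k, PG.mem_ran.2 (hd.ok.len3 ▸ PG.enc3_lt k), UP.bx_enc k⟩
  have hc : ∀ φ, g.pre p a φ → ∀ w ∈ gen S, (bsD p n d).lam w = 1 → ∀ k,
      (bsD p n d).th a (φ * w) k = (bsD p n d).th a φ k + (bsD p n d).th a w k :=
    fun φ hφ w hw h1 k => by
      rw [hC U g _ a φ hd.ch hd.pres hd.bas hv hk hφ w (hS hw) ((hG w).1 hw).2, h1, UP.val_one,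
        PG.pull1_one]
      rfl
  obtain ⟨h1, h2, h3⟩ := TLIFT.main hW hL hD g d a S ψ z hd hS _
    (fun k _ x hx w hw h1 => ⟨hc x ((hG x).1 hx).2 w hw h1 k, hc _
      (((hQ U p g a hd.ch hd.pres hv).1.mul ψ x (hS hx) ((hG x).1 hx).2).2 hψ) w hw h1 k⟩)
    ⟨u, hu, e, fun k (_ : k ∈ (PG.ran (PG.u3 d.1)).map (UP.bx n)) => congrFun e' k⟩
    (tstC d.1) (by
      rw [tstC, List.map_map]
      refine congrArg _ (List.map_congr_left fun i hi => ?_)
      obtain ⟨k, rfl⟩ := PG.exists_enc3 (hd.ok.len3 ▸ PG.mem_ran.1 hi)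
      simp [UP.bx_enc]) _ rfl
  refine ⟨h1, funext fun k => h2 k (hI k), fun x => (h3 x).trans ?_⟩
  exact and_congr_right fun _ => and_congr_right fun _ =>
    ⟨fun h => funext fun k => h k (hI k), fun h k _ => congrFun h k⟩

end Pool.Agent.P.MP_f1a348_lc.PS
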