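import Pool.Agent.P.MP_f1a348_lc.PS.Iface

/-!
Project PS: coordinates on the sections of a chain, and graded matrices.
-/

namespace Pool.Agent.P.MP_f1a348_lc.PS

open GI (gen Cg FP)
open UP (Rec up topI SolvMod Nm Val GG SA UG)
open PG (Ix Vec Mat Frm Sub c0 st l0 Par pull1 Wt key)
open scoped commutatorElement Matrix

set_option linter.unusedSectionVars false

namespace TLINK

variable {p n : ℕ} [Fact p.Prime] {U : Type} [Group U]

section
variable {W : Type} [AddCommGroup W] [Module (ZMod p) W] {φ : U → W} {E : Subgroup U}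

theorem a_one (h : ∀ x ∈ E, ∀ y ∈ E, φ (x * y) = φ x + φ y) : φ 1 = 0 := by
  simpa using h 1 E.one_mem 1 E.one_mem

theorem a_inv (h : ∀ x ∈ E, ∀ y ∈ E, φ (x * y) = φ x + φ y) {x : U} (hx : x ∈ E) :
    φ x⁻¹ = -φ x := by
  have := h x⁻¹ (E.inv_mem hx) x hx
  rw [inv_mul_cancel, a_one h] at this
  exact eq_neg_of_add_eq_zero_left this.symm

theorem a_pow (h : ∀ x ∈ E, ∀ y ∈ E, φ (x * y) = φ x + φ y) {x : U} (hx : x ∈ E) (k : ℕ) :
    φ (x ^ k) = (k : ZMod p) • φ x := by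
  induction k with
  | zero => simpa using a_one h
  | succ k ih => rw [pow_succ, h _ (E.pow_mem hx k) _ hx, ih, Nat.cast_succ, add_smul, one_smul]

end

variable {β : Bs U p n} {D : ℕ → Subgroup U} {s b : ℕ}

theorem kap_cg (h : β.OK D s) (hD : ∀ b, D (b + 1) ≤ D b) (hb : b < s) {x y : U} (hx : x ∈ D b)
    (hc : Cg (D (b + 1)) x y) : β.kap b x = β.kap b y := by
  obtain ⟨e, he, rfl⟩ := hc.exists_eq
  rw [h.add b hb x hx e (hD b he), (h.ker b hb e (hD b he)).2 he, add_zero]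

theorem span (h : β.OK D s) (hb : b < s) {W : Type} [AddCommGroup W] [Module (ZMod p) W]
    {φ : U → W} (hφ : ∀ x ∈ D b, ∀ y ∈ D b, φ (x * y) = φ x + φ y) (v : Vec p n)
    (hv : ∀ α, v α ≠ 0 → c0 n < α ∧ β.bl α = b) :
    ∃ y ∈ D b, β.kap b y = v ∧ φ y = ∑ α, v α • φ (β.e α) := by
  have key : ∀ S : Finset (Ix n), ∃ y ∈ D b, β.kap b y = ∑ α ∈ S, Pi.single α (v α) ∧
      φ y = ∑ α ∈ S, v α • φ (β.e α) := by
    intro S
    induction S using Finset.induction_on with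
    | empty => exact ⟨1, (D b).one_mem, a_one (h.add b hb), a_one hφ⟩
    | insert α S hα ih =>
      obtain ⟨y, hy, h1, h2⟩ := ih
      rw [Finset.sum_insert hα, Finset.sum_insert hα]
      by_cases h0 : v α = 0
      · exact ⟨y, hy, by simp [h0, h1], by simp [h0, h2]⟩
      · obtain ⟨hc, rfl⟩ := hv α h0
        have he := (h.mem α hc).2
        have hk := (D (β.bl α)).pow_mem he (v α).val
        refine ⟨β.e α ^ (v α).val * y, (D _).mul_mem hk hy, ?_, ?_⟩
        · rw [h.add _ hb _ hk _ hy, a_pow (p := p) (h.add _ hb) he, h.unit α hc, h1,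
            ZMod.natCast_zmod_val, ← Pi.single_smul, smul_eq_mul, mul_one]
        · rw [hφ _ hk _ hy, a_pow (p := p) hφ he, h2, ZMod.natCast_zmod_val]
  obtain ⟨y, hy, h1, h2⟩ := key Finset.univ
  exact ⟨y, hy, h1.trans (Finset.univ_sum_single v), h2⟩

theorem expand (h : β.OK D s) (hD : ∀ b, D (b + 1) ≤ D b) (hb : b < s) {W : Type}
    [AddCommGroup W] [Module (ZMod p) W] {φ : U → W}
    (hφ : ∀ x ∈ D b, ∀ y ∈ D b, φ (x * y) = φ x + φ y) (h0 : ∀ x ∈ D (b + 1), φ x = 0) {x : U}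
    (hx : x ∈ D b) : φ x = ∑ α, β.kap b x α • φ (β.e α) := by
  obtain ⟨y, hy, h1, h2⟩ := span h hb hφ (β.kap b x) (h.supp b x)
  have hi := (D b).inv_mem hx
  have hz : x⁻¹ * y ∈ D (b + 1) := (h.ker b hb _ ((D b).mul_mem hi hy)).1 (by
    rw [h.add b hb _ hi _ hy, a_inv (h.add b hb) hx, h1, neg_add_cancel])
  rw [← h2, ← mul_inv_cancel_left x y, hφ _ hx _ (hD b hz), h0 _ hz, add_zero]

theorem step (h : β.OK D s) (hD : ∀ b, D (b + 1) ≤ D b) (hb : b < s) [Finite (D b)] :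
    p ^ (Finset.univ.filter fun α => c0 n < α ∧ β.bl α = b).card * Nat.card (D (b + 1)) ≤
      Nat.card (D b) := by
  have ex : ∀ w : {α // c0 n < α ∧ β.bl α = b} → ZMod p, ∃ y ∈ D b, ∀ α, β.kap b y α.1 = w α := by
    intro w
    obtain ⟨y, hy, h1, -⟩ := span h hb (h.add b hb)
      (fun α => if hα : c0 n < α ∧ β.bl α = b then w ⟨α, hα⟩ else 0)
      (fun α hα => by_contra fun hn => hα (dif_neg hn))
    exact ⟨y, hy, fun α => by rw [h1]; exact dif_pos α.2⟩
  choose y hy hw using ex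
  have hk : ∀ w, ∀ z : D (b + 1), β.kap b (y w * z) = β.kap b (y w) := fun w z =>
    (kap_cg h hD hb (hy w) (Cg.mul_mem z.2 _)).symm
  have := Nat.card_le_card_of_injective
    (fun q : ({α // c0 n < α ∧ β.bl α = b} → ZMod p) × D (b + 1) =>
      (⟨y q.1 * q.2, (D b).mul_mem (hy _) (hD b q.2.2)⟩ : D b)) fun q q' e => by
    have e' : y q.1 * q.2 = y q'.1 * q'.2 := congrArg Subtype.val e
    have e1 : q.1 = q'.1 := funext fun α => by
      rw [← hw q.1 α, ← hw q'.1 α, ← hk _ q.2, ← hk _ q'.2, e']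
    rw [e1, mul_right_inj] at e'
    exact Prod.ext e1 (Subtype.ext e')
  rwa [Nat.card_prod, Nat.card_fun, Nat.card_zmod, Nat.card_eq_fintype_card,
    Fintype.card_subtype] at this

theorem card_le (h : β.OK D s) (hD : ∀ b, D (b + 1) ≤ D b) [Finite (D 0)] :
    p ^ n ≤ Nat.card (D 0) := by
  have fin : ∀ b, Finite (D b) := fun b => Finite.of_injective _
    (Subgroup.inclusion_injective (antitone_nat_of_succ_le hD (Nat.zero_le b)))
  have key : ∀ b, b ≤ s → p ^ (Finset.univ.filter fun α => c0 n < α ∧ β.bl α < b).card *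
      Nat.card (D b) ≤ Nat.card (D 0) := by
    intro b hb
    induction b with
    | zero => simp
    | succ b ih =>
      refine le_trans ?_ (ih (Nat.le_of_succ_le hb))
      have : (Finset.univ.filter fun α => c0 n < α ∧ β.bl α < b + 1) =
          (Finset.univ.filter fun α => c0 n < α ∧ β.bl α < b) ∪
            Finset.univ.filter fun α => c0 n < α ∧ β.bl α = b := by
        ext α
        simp only [Finset.mem_filter, Finset.mem_univ, true_and, Finset.mem_union, ← and_or_left,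
          Nat.lt_succ_iff_lt_or_eq]
      rw [this, Finset.card_union_of_disjoint, pow_add, mul_assoc]
      · exact Nat.mul_le_mul_left _ (step h hD hb)
      · exact Finset.disjoint_filter.2 fun α _ h1 h2 => absurd h2.2 h1.2.ne
  have := key s le_rfl
  have e : (Finset.univ.filter fun α => c0 n < α ∧ β.bl α < s) = Finset.Ioi (c0 n) := by
    ext α
    simpa using fun hα => (h.mem α hα).1
  rw [e, Fin.card_Ioi, show 2 * n + 1 - 1 - (c0 n).val = n by simp only [c0]; omega] at this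
  exact (Nat.le_mul_of_pos_right _ Nat.card_pos).trans this

theorem act (h : β.OK D s) (hD : ∀ b, D (b + 1) ≤ D b) {φ : ℕ → U → U} (hφ : Act D s φ)
    (hb : b < s) {x : U} (hx : x ∈ D b) : β.kap b (φ b x) = β.aF φ *ᵥ β.kap b x := by
  rw [expand h hD hb (φ := fun x => β.kap b (φ b x)) (fun x hx y hy => ?_) (fun x hx => ?_) hx]
  · funext α
    rw [Finset.sum_apply, Matrix.mulVec, dotProduct]
    refine Finset.sum_congr rfl fun γ _ => ?_
    by_cases h0 : β.kap b x γ = 0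
    · simp [h0]
    · obtain ⟨hc, rfl⟩ := h.supp b x γ h0
      simp [Bs.aF, hc, mul_comm]
  · rw [kap_cg h hD hb (hφ.mem b hb _ ((D b).mul_mem hx hy)) (hφ.mul b hb x hx y hy),
      h.add b hb _ (hφ.mem b hb x hx) _ (hφ.mem b hb y hy)]
  · exact (h.ker b hb _ (hD b (hφ.low b hb x hx))).2 (hφ.low b hb x hx)

end TLINK

open TLINK

theorem s_LINK (p n : ℕ) [Fact p.Prime] : S_LINK p n := fun _ _ _ _ _ h hD =>
  ⟨fun b hb => ⟨a_one (h.add b hb), fun _ hx => ⟨a_inv (h.add b hb) hx, a_pow (h.add b hb) hx,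
    fun _ hc => kap_cg h hD hb hx hc⟩⟩,
    fun _ _ _ _ _ hb hφ h0 _ hx => expand h hD hb hφ h0 hx, fun _ => card_le h hD⟩

theorem s_AF (p n : ℕ) [Fact p.Prime] : S_AF p n := by
  intro U _ β D s h hD
  refine ⟨fun φ α γ h0 => ?_, ?_, fun φ hφ => ⟨fun b hb x hx => act h hD hφ hb hx,
    fun φ' hφ' => ⟨?_, ?_, fun hc => ?_⟩⟩⟩
  · have hγ : c0 n < γ := by_contra fun hn => h0 (if_neg hn)
    have := h.supp _ _ α fun e => h0 ((if_pos hγ).trans e)
    exact ⟨this.1, hγ, this.2⟩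
  · ext α γ
    by_cases hγ : c0 n < γ
    · by_cases e : α = γ
      · simp [Bs.aF, hγ, e, h.unit γ hγ]
      · simp [Bs.aF, hγ, e, h.unit γ hγ]
    · by_cases e : α = γ
      · simp [Bs.aF, hγ, e]
      · simp [Bs.aF, hγ, e]
  · ext α γ
    by_cases hγ : c0 n < γ
    · have m := h.mem γ hγ
      have := congrFun (act h hD hφ m.1 (hφ' _ m.1 _ m.2)) α
      simpa [Bs.aF, hγ, Matrix.mul_apply, Matrix.mulVec, dotProduct] using this
    · simp [Bs.aF, hγ, Matrix.mul_apply]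
  · ext α γ
    by_cases hγ : c0 n < γ
    · have m := h.mem γ hγ
      simp [Bs.aF, hγ, h.add _ m.1 _ (hφ.mem _ m.1 _ m.2) _ (hφ' _ m.1 _ m.2)]
    · simp [Bs.aF, hγ]
  · ext α γ
    by_cases hγ : c0 n < γ
    · have m := h.mem γ hγ
      simp [Bs.aF, hγ, kap_cg h hD m.1 (hφ.mem _ m.1 _ m.2) (hc _ m.1 _ m.2)]
    · simp [Bs.aF, hγ]

end Pool.Agent.P.MP_f1a348_lc.PS
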