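import Pool.Agent.P.MP_f1a348_lc.PS.PIf

/-!
Project PS: the loop over the instructions; the matrices and forms of the program.
-/

namespace Pool.Agent.P.MP_f1a348_lc.PS

open GI (gen Cg FP Rep sims)
open UP (Rec up topI SolvMod Nm Val GG SG SA UG Fo gS gD foD)
open PG (Ix Vec Mat Frm Sub c0 st l0 Par pull1 Wt key V Cx pp mM mV fV unL oneP)

set_option linter.unusedSectionVars false

namespace TLOOP

variable {U : Type} [Group U] [DecidableEq U] {p n : ℕ}

/-- one step keeps the invariant -/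
theorem step (hQ : S_TWOQ) {Cert : Crt} {c j : ℕ} {g : Sg U} {d : Dt U} {σ : FP U} {a : Ins}
    {Q : FP U → Prop} {s s' : Stt U} (hd : DOK p n g d) (ha : g.Vd a)
    (e : ∀ ψ, Q ψ ↔ g.pre p a ψ) (h : Inv Cert p n c g d σ Q j s)
    (hu : Upd g (g.pre p a) (g.post p a) s s')
    (hc : ∃ j', j' ≤ j + 1 ∧ Cert p n c d.1 (img (bsD p n d).lam (gen s'.1)) s'.2.2 j') :
    Inv Cert p n c g d σ (g.post p a) (j + 1) s' := by
  obtain ⟨t1, t2, pp', hh, -⟩ := hQ U p g a hd.ch hd.pres ha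
  have hB : gen s.1 ≤ g.B := fun u hu => ((h.isG u).1 hu).1
  refine ⟨hu.isG, ?_, fun hs => ?_, hc⟩
  · have := g.B.mul_mem h.sig (hB hu.sig)
    rwa [mul_assoc, mul_inv_cancel_left] at this
  · obtain ⟨u, hus, hH⟩ := h.sol hs
    have h1 : g.post p a (s.2.1 * u) := hh _ hH
    have h2 : g.pre p a s.2.1 :=
      (t1.mul _ u (hB hus) ((e u).1 ((h.isG u).1 hus).2)).1 (pp' _ h1)
    have h3 : g.post p a s'.2.1 := hu.sol h2 ⟨u, hus, h1⟩
    have h4 : (s.2.1⁻¹ * s'.2.1)⁻¹ * u ∈ g.B :=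
      hB ((gen s.1).mul_mem ((gen s.1).inv_mem hu.sig) hus)
    have h5 : s'.2.1 * ((s.2.1⁻¹ * s'.2.1)⁻¹ * u) = s.2.1 * u := by group
    refine ⟨_, (hu.isG _).2 ⟨h4, t2.div _ _ h4 h3 ?_⟩, ?_⟩
    · rw [h5]; exact h1
    · rw [h5]; exact hH

theorem blt_c0 {d : Dt U} (h : UP.Ok p n d.1) (γ : Ix n) :
    Nat.blt (PG.cz d.1) γ.val = true ↔ c0 n < γ := by
  rw [Nat.blt_eq, h.cz]; rfl

theorem blt_c0' {d : Dt U} (h : UP.Ok p n d.1) (γ : Ix n) :
    Nat.blt γ.val (PG.cz d.1) = true ↔ γ < c0 n := by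
  rw [Nat.blt_eq, h.cz]; rfl

theorem beq_c0 {d : Dt U} (h : UP.Ok p n d.1) (γ : Ix n) :
    (γ.val == PG.cz d.1) = true ↔ γ = c0 n := by
  rw [beq_iff_eq, h.cz, Fin.ext_iff]; rfl

theorem cast_bif {b : Bool} {P : Prop} [Decidable P] (e : b = true ↔ P) (x : ℕ) :
    ((bif b then x else 0 : ℕ) : ZMod p) = if P then (x : ZMod p) else 0 := by
  cases b
  · rw [if_neg fun hP => Bool.false_ne_true (e.2 hP), cond_false, Nat.cast_zero]
  · rw [if_pos (e.1 rfl), cond_true]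

theorem cast_aP {d : Dt U} (h : UP.Ok p n d.1) (u : FP U) (α γ : Ix n) :
    ((aP d u α.val γ.val : ℕ) : ZMod p) = (bsD p n d).aM u α γ := by
  rw [aP, cast_bif (blt_c0 h γ)]; rfl

end TLOOP

open TLOOP

theorem a_LOOP (p n : ℕ) [Fact p.Prime] (hQ : S_TWOQ) (hC : A_CALL p n) (hF : A_FIX p n) :
    A_LOOP p n := by
  intro U _ _ A P q C c m Cert g d σ hA hP hd hk l
  induction l with
  | nil =>
    intro Q Q' j s hl _ h
    exact ⟨fun u => (h.isG u).trans (and_congr_right fun _ => hl u), h.sig, h.sol, h.cert⟩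
  | cons a l ih =>
    intro Q Q' j s hl hm h
    obtain ⟨ha, e, hl⟩ := hl
    rw [List.length_cons] at hm
    have hG : IsG (gen s.1) g.B (g.pre p a) := fun u =>
      (h.isG u).trans (and_congr_right fun _ => e u)
    obtain ⟨j', hj, hc⟩ := h.cert
    have key : Inv Cert p n c g d σ (g.post p a) (j + 1) (stepP A d s a) := by
      rw [stepP]
      by_cases hk1 : a.k ≤ 1
      · rw [Nat.ble_eq.mpr hk1, cond_true]
        obtain ⟨h1, h2⟩ := hC U A P q C c m j' Cert g d a s hA hP hd hk (by omega) ha hk1 hG hc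
        exact step hQ hd ha e h h1 ⟨j' + 1, by omega, h2⟩
      · rw [Bool.eq_false_iff.2 (mt Nat.ble_eq.mp hk1), cond_false]
        obtain ⟨h1, h2⟩ := hF U g d a s hd ha (by omega) hG
        refine step hQ hd ha e h h1 ⟨j', by omega, ?_⟩
        rw [h2]; exact hc
    have := ih _ Q' (j + 1) _ hl (by omega) key
    rwa [List.length_cons, List.foldl_cons, show j + (l.length + 1) = j + 1 + l.length by omega]

theorem a_DEC (p n : ℕ) [Fact p.Prime] (hD : A_WD) : A_DEC p n := by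
  intro U _ _ d h u
  refine ⟨?_, fun a => ?_⟩
  · ext α β
    rw [lamP, h.mtab, Matrix.of_apply, h.rv, h.rv, Nat.cast_add, Nat.cast_add, cast_aP h, cast_aP h,
      cast_bif (P := α = c0 n ∧ β = c0 n) (by rw [Bool.and_eq_true, beq_c0 h, beq_c0 h]), Bs.lamM,
      Matrix.add_apply, Matrix.add_apply, Matrix.single_apply, Nat.cast_one]
    simp only [eq_comm (a := c0 n)]
    rfl
  · funext i
    have hp : (dUp d).length = p := h.hp
    rw [fV, thP, PG.dv_tab h.hp h.d3, PG.frm_apply, UP.co0_y h, UP.co1_y h, UP.co2_y h, thQ, h.rv,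
      (hD U _ u _ _).2.2, Bs.th]
    by_cases e : a.k = 0
    · rw [beq_iff_eq.2 e, cond_true, cond_true, if_pos (t := 1) (e := p) e]
      refine cast_bif ?_ _
      simp only [Bool.and_eq_true, blt_c0 h, blt_c0' h, beq_iff_eq, and_assoc, if_pos e]
      rfl
    · rw [beq_false_of_ne e, cond_false, cond_false, if_neg (t := 1) (e := p) e, hp]
      refine cast_bif ?_ _
      simp only [Bool.and_eq_true, blt_c0 h, blt_c0' h, beq_c0 h, and_assoc, if_neg e]
      simp only [beq_iff_eq]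
      rfl

end Pool.Agent.P.MP_f1a348_lc.PS
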