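import Pool.Agent.P.MP_f1a348_lc.PS.PIf

/-!
Project PS: the data of a stage are correct.
-/

namespace Pool.Agent.P.MP_f1a348_lc.PS

open GI (gen Cg FP Rep sims)
open UP (Rec up topI SolvMod Nm Val GG SG SA UG Fo gS gD foD)
open PG (Ix Vec Mat Frm Sub c0 st l0 Par pull1 Wt key V Cx pp mM mV fV unL oneP)
open Pool.Agent.Lib.Helper47

namespace TMKD

variable {U : Type} [Group U] [DecidableEq U]

theorem fold_pow (hD : A_WD) (w : Un) (l : List U) (x : U) :
    l.foldl (fun y _ => pwU w y) x = x ^ w.length ^ l.length := by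
  induction l generalizing x with
  | nil => simp
  | cons a l ih => rw [List.foldl_cons, ih, (hD U w 1 x x).1, ← pow_mul, List.length_cons, pow_succ']

omit [DecidableEq U] in
theorem pow_big {p k : ℕ} (hp : p.Prime) {y o : Subgroup U} [Finite y] {x : U} (hx : x ∈ y)
    (h : x ^ p ^ k ∈ o) : x ^ p ^ Nat.card y ∈ o := by
  have h1 : x ^ Nat.card y = 1 := congrArg Subtype.val (pow_card_eq_one' (x := (⟨x, hx⟩ : y)))
  have h2 : x ^ Nat.gcd (p ^ k) (Nat.card y) ∈ o := by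
    rw [← zpow_natCast, Nat.gcd_eq_gcd_ab, zpow_add, zpow_mul, zpow_mul, zpow_natCast,
      zpow_natCast, h1, one_zpow, mul_one]
    exact o.zpow_mem h _
  obtain ⟨j, -, e⟩ := (Nat.dvd_prime_pow hp).1 (Nat.gcd_dvd_left (p ^ k) (Nat.card y))
  have h3 : p ^ j ≤ Nat.card y := e ▸ Nat.gcd_le_right _ Nat.card_pos
  have h4 : j ≤ Nat.card y := (Nat.lt_pow_self hp.one_lt).le.trans h3
  rw [e] at h2
  rw [← Nat.add_sub_cancel' h4, pow_add, pow_mul]
  exact o.pow_mem h2 _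

theorem pgB_iff (hD : A_WD) {w : Un} {Y O Dl : List U} {y o D : Subgroup U} (hp : w.length.Prime)
    (hY : Rep Y y) (hO : Rep O o) (h : Rep Dl D) (hle : D ≤ y) :
    pgB w Y O Dl = true ↔ PGm w.length D o := by
  have := hY.finite
  simp only [pgB, List.all_eq_true, fold_pow hD, hO.contains, h.mem]
  refine ⟨fun a x hx => ⟨_, a x hx⟩, fun a x hx => ?_⟩
  obtain ⟨k, hk⟩ := a x hx
  exact hY.card ▸ pow_big hp (hle hx) hk

omit [DecidableEq U] in
theorem insIP_eq (g : Sg U) {uL ub : Un} {i : ℕ} (h1 : uL.length = g.L) (h2 : ub.length = g.b0 i) :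
    insIP uL ub i = g.insI i := by
  rw [insIP, Sg.insI, PG.ran_eq, PG.ran_eq, h1, h2]
  congr 1
  refine List.flatMap_congr fun t _ => List.flatMap_congr fun b hb => ?_
  have hb' : b < g.b0 i := by simpa using hb
  rw [insBP, Sg.insB, PG.ran_eq, List.length_take, h2, Nat.min_eq_left hb']

theorem arith {C c f N p n s L P : ℕ} (hC : 30000 ≤ C) (hP : need C c f N ≤ P) (hp : p ≤ N + 1)
    (hn : p ^ n ≤ N) (hL : L ≤ N) (hs : s ≤ L * (N + 1)) :
    p ^ (30000 * (2 * n + 1)) ≤ P ∧ L * L ≤ P ∧ L ≤ P ∧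
      (p ^ (2 * n + 1) * 2 ^ c * (f + 1 + (s + 1) ^ 3 + 1)) ^ C ≤ P := by
  have h1 : p ^ (2 * n + 1) ≤ (N + 2) ^ 3 := by
    calc p ^ (2 * n + 1) = p ^ n * p ^ n * p := by ring
      _ ≤ (N + 2) * (N + 2) * (N + 2) := by gcongr <;> omega
      _ = _ := by ring
  have h2 : (N + 2) ^ 3 ≤ (N + 2) ^ 3 * 2 ^ c * (f + (N + 2) ^ 7) := by
    rw [mul_assoc]
    exact Nat.le_mul_of_pos_right _ (by positivity)
  have h0 : 0 < (N + 2) ^ 3 * 2 ^ c * (f + (N + 2) ^ 7) := by positivity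
  have h3 : (N + 2) ^ 3 ≤ P := h2.trans ((Nat.le_self_pow (by omega) _).trans hP)
  have h4 : L * L ≤ (N + 2) ^ 3 := (Nat.mul_le_mul hL hL).trans (by nlinarith [Nat.zero_le (N ^ 3)])
  have h5 : s + 1 ≤ (N + 2) ^ 2 := by nlinarith
  have h6 : (s + 1) ^ 3 ≤ (N + 2) ^ 6 := (Nat.pow_le_pow_left h5 3).trans_eq (by ring)
  have h7 : 2 + (N + 2) ^ 6 ≤ (N + 2) ^ 7 := by
    have : 2 ≤ (N + 2) ^ 6 := le_trans (by omega) (Nat.le_self_pow (by omega) (N + 2))
    nlinarith
  refine ⟨?_, h4.trans h3, le_trans (by nlinarith) h3, le_trans ?_ hP⟩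
  · generalize 30000 = E at hC
    rw [mul_comm, pow_mul]
    exact ((Nat.pow_le_pow_left (h1.trans h2) _).trans (Nat.pow_le_pow_right h0 hC)).trans hP
  · refine Nat.pow_le_pow_left (Nat.mul_le_mul (Nat.mul_le_mul_right _ h1) (by omega)) _

end TMKD

open TMKD

theorem a_SYL (hD : A_WD) : A_SYL := by
  intro U _ _ w Y O y o hp hY hO hle _
  have main : ∀ l : List U, (∀ x ∈ l, x ∈ y) → ∃ D, Rep (l.foldl (fun D x =>
      bif pgB w Y O (GI.clo Y (x :: D)) then GI.clo Y (x :: D) else D) O) D ∧ o ≤ D ∧ D ≤ y ∧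
      PGm w.length D o ∧ ∀ x ∈ l, ∀ D', D ≤ D' → D' ≤ y → PGm w.length D' o → x ∈ D' → x ∈ D := by
    intro l
    induction l using List.reverseRecOn with
    | nil => exact fun _ => ⟨o, hO, le_rfl, hle, fun x hx => ⟨0, by simpa using hx⟩, by simp⟩
    | append_singleton l a ih =>
      intro hl
      obtain ⟨D, h1, h2, h3, h4, h5⟩ := ih fun x hx => hl x (by simp [hx])
      rw [List.foldl_append, List.foldl_cons, List.foldl_nil]
      generalize l.foldl _ O = Dl at h1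
      have hE : ∀ Z : Subgroup U, a ∈ Z → D ≤ Z → gen (a :: Dl) ≤ Z := fun Z ha hZ =>
        GI.gen_le.2 fun x hx => (List.mem_cons.1 hx).elim (fun e => e ▸ ha)
          fun hx => hZ ((h1.mem x).1 hx)
      have hy := hE y (hl a (by simp)) h3
      have hr := GI.clo_rep hY (GI.gen_le.1 hy)
      have hDE : D ≤ gen (a :: Dl) := fun x hx => GI.mem_gen (by simp [(h1.mem x).2 hx])
      have hb := pgB_iff hD hp hY hO hr hy
      cases hc : pgB w Y O (GI.clo Y (a :: Dl))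
      · refine ⟨D, h1, h2, h3, h4, fun x hx D' a1 a2 a3 a4 => ?_⟩
        rcases List.mem_append.1 hx with hx | hx
        · exact h5 x hx D' a1 a2 a3 a4
        · rw [List.mem_singleton.1 hx] at a4
          have := hb.2 fun z hz => a3 z (hE D' a4 a1 hz)
          simp [hc] at this
      · refine ⟨_, hr, h2.trans hDE, hy, hb.1 hc, fun x hx D' a1 a2 a3 a4 => ?_⟩
        rcases List.mem_append.1 hx with hx | hx
        · exact hDE (h5 x hx D' (hDE.trans a1) a2 a3 a4)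
        · rw [List.mem_singleton.1 hx]
          exact GI.mem_gen (by simp)
  obtain ⟨D, h1, h2, h3, h4, h5⟩ := main Y fun x hx => (hY.mem x).1 hx
  exact ⟨D, h1, h2, h3, h4, fun D' a1 a2 a3 x hx => h5 x ((hY.mem x).2 (a2 hx)) D' a1 a2 a3 hx⟩

theorem a_CHN (hD : A_WD) : A_CHN := by
  intro U _ _ w us Os D0 g ch hO h0 hL
  rw [chainP, PG.ran_eq]
  suffices h : ∀ m, ((List.range m).foldl (fun Ds b => Ds ++ [dStep w (oj Os 0) D0
      (oj Os (g.i0 + b / (oj Os 0).length)) (oj Ds b)]) [D0]).length = m + 1 ∧ ∀ b, b ≤ m →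
      Rep (oj ((List.range m).foldl (fun Ds b => Ds ++ [dStep w (oj Os 0) D0
      (oj Os (g.i0 + b / (oj Os 0).length)) (oj Ds b)]) [D0]) b) (g.D w.length b) from (h _).2
  intro m
  induction m with
  | zero => exact ⟨rfl, fun b hb => by obtain rfl := Nat.le_zero.1 hb; exact h0⟩
  | succ m ih =>
    rw [List.range_succ, List.foldl_append, List.foldl_cons, List.foldl_nil]
    generalize (List.range m).foldl _ [D0] = Ds at ih
    obtain ⟨h1, h2⟩ := ih
    refine ⟨by simp [h1], fun b hb => ?_⟩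
    rcases Nat.lt_succ_iff_lt_or_eq.1 (Nat.lt_succ_of_le hb) with hb | rfl
    · rw [oj, List.getD_append _ _ _ _ (by omega)]
      exact h2 b (by omega)
    · rw [oj, List.getD_append_right _ _ _ _ h1.le, h1, Nat.sub_self, List.getD_cons_zero]
      have h3 := h2 m le_rfl
      have h4 : g.D w.length m ≤ g.O 0 := (ch.anti 0 m (Nat.zero_le _)).trans ch.syl.hi
      have h5 : ∀ z, z ∈ (oj Ds m).map (pwU w) ++ (oj Ds m).flatMap (fun x => D0.map (GI.cm x)) ↔
          (∃ x ∈ g.D w.length m, z = x ^ w.length) ∨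
            ∃ x ∈ g.D w.length m, ∃ y ∈ g.D0, z = x * y * x⁻¹ * y⁻¹ := fun z => by
        simp only [List.mem_append, List.mem_map, List.mem_flatMap, h3.mem, h0.mem,
          fun x => (hD U w 1 x x).1, eq_comm (a := z)]
        rfl
      have h6 := GI.clo_over (hO 0) (hO (g.i0 + m / (oj Os 0).length))
        (ch.antiO _ _ (Nat.zero_le _)) fun z hz => by
          rcases (h5 z).1 hz with ⟨x, hx, rfl⟩ | ⟨x, hx, y, hy, rfl⟩
          · exact pow_mem (h4 hx) _
          · exact mul_mem (mul_mem (mul_mem (h4 hx) (ch.syl.hi hy)) (inv_mem (h4 hx)))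
              (inv_mem (ch.syl.hi hy))
      rw [Sg.D, hL]
      rw [gen, Set.ext (a := {x | x ∈ _}) (b := {z | _ ∨ _}) h5] at h6
      exact h6

theorem a_MKD (hH : S_CHAIN) (hP : S_PRES) (hK : ∀ (p n : ℕ) [Fact p.Prime], S_LINK p n)
    (hS : A_SYL) (hC : A_CHN) (hB : A_BAS) : A_MKD := by
  intro U _ _ C c f N r i0 i1 pad u O Os hp hu ser rep hl hr hN h0 h01 h1 pw cop h3 hpad
  have := Fact.mk hp
  obtain ⟨D0, hD0, syl⟩ := hS U (() :: u) (oj Os 0) (oj Os i0) (O 0) (O i0) hp (rep 0) (rep i0)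
    (ser.le (Nat.zero_le _)) (ser.nm i0)
  let g : Sg U := ⟨O, r, i0, i1, (oj Os 0).length, D0⟩
  have ch := hH U _ g hp ⟨ser, h0, h01, pw, cop, syl, (rep 0).card.le⟩
  have hI : (uI Os i0 i1).length = i1 - i0 := by
    rw [uI, PG.length_unL, List.length_drop, List.length_take, Nat.min_eq_left (by omega)]
  have hs : (PG.mulU (unL (oj Os 0)) (() :: uI Os i0 i1)).length = g.s := by
    rw [PG.length_mulU, PG.length_unL, List.length_cons, hI]; rfl
  have hL : (oj Os 0).length ≤ N := (rep 0).card ▸ hN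
  have hsN : g.s ≤ (oj Os 0).length * (N + 1) := Nat.mul_le_mul_left _ (show i1 - i0 + 1 ≤ _ by omega)
  have repD := hC U (() :: u) (PG.mulU (unL (oj Os 0)) (() :: uI Os i0 i1)) Os _ g ch rep hD0 rfl
  have anti : ∀ b, g.D (u.length + 1) (b + 1) ≤ g.D (u.length + 1) b := fun b =>
    ch.anti _ _ (Nat.le_succ b)
  obtain ⟨n, hM, bas⟩ := hB U pad u _ Os _ (O 0) (g.D (u.length + 1)) hp (rep 0) repD anti syl.hi
    (fun b x hx => ⟨ch.pow b x hx, fun z hz => ch.cm b x hx z (ch.anti 0 b (Nat.zero_le _) hz)⟩)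
    (arith (p := 1) (n := 0) h3 hpad (by omega) ((rep 0).length_pos.trans_le hL) hL hsN).2.2.1
  rw [hs] at bas repD
  have hn : (u.length + 1) ^ n ≤ N := ((hK _ n U _ _ _ bas anti).2.2 hD0.finite).trans
    ((hD0.card.le.trans (hD0.length_le (rep 0) syl.hi)).trans hL)
  obtain ⟨a1, a2, -, a4⟩ := arith h3 hpad (Nat.succ_le_succ hu) hn hL hsN
  refine ⟨n, g, rfl, rfl, rfl, ⟨ch, hP U _ g ch, ⟨rfl, hM, a1⟩, rep, repD, bas, a2⟩, ?_,
    ⟨rfl, hM, a4⟩⟩
  rw [insP, Sg.ins, PG.ran_eq, hI]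
  refine List.flatMap_congr fun j hj => insIP_eq g (PG.length_unL _) ?_
  rw [PG.length_mulU, PG.length_unL, List.length_cons, List.length_take, hI,
    Nat.min_eq_left (List.mem_range.1 hj).le, Sg.b0]
  exact congrArg (fun z => (oj Os 0).length * (z + 1)) (Nat.add_sub_cancel_left i0 j).symm

end Pool.Agent.P.MP_f1a348_lc.PS
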