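import Pool.Agent.P.MP_f1a348_lc.PS.Iface

/-!
Project PS: the elements of the group of a stage preserve the chain.
-/

namespace Pool.Agent.P.MP_f1a348_lc.PS

open GI (gen Cg FP)
open UP (Rec up topI SolvMod Nm Val GG SA UG)
open PG (Ix Vec Mat Frm Sub c0 st l0 Par pull1 Wt key)
open scoped commutatorElement Matrix

namespace TPRES

variable {U : Type} [Group U] {p : ℕ} {g : Sg U}

theorem le0 (h : g.Ch p) (b : ℕ) : g.D p b ≤ g.O 0 :=
  (h.anti 0 b (Nat.zero_le _)).trans h.syl.hi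

theorem mul (h : g.Ch p) : ∀ u ∈ g.B, ∀ b, b < g.s → ∀ x ∈ g.D p b, ∀ y ∈ g.O 0,
    Cg (g.O (g.i0 + b / g.L)) (u.app (x * y)) (u.app x * u.app y) ∧
    Cg (g.O (g.i0 + b / g.L)) (u.app (y * x)) (u.app y * u.app x) := by
  intro u hu b hb x hx y hy
  have hpv := T0_pv (g.i0 + b / g.L) (g.B_le hu)
  have hl : LevG g.O g.i0 u := hu.1.2
  suffices hc : C2 (g.D p b) (g.O 0) (g.O (g.i0 + b / g.L)) u from
    ⟨(df_iff hpv 0 x y).1 (hc.1 x hx y hy), (df_iff hpv 0 y x).1 (hc.2 y hy x hx)⟩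
  have h1 : b / g.L < g.i1 - g.i0 + 1 := Nat.div_lt_of_lt_mul hb
  have h2 : g.L * (b / g.L) ≤ b := Nat.mul_div_le _ _
  have h3 := h.le
  generalize b / g.L = j at h1 h2
  cases j with
  | zero => exact ⟨hl.2.mono (le0 h b) le_rfl le_rfl, hl.2.mono le_rfl (le0 h b) le_rfl⟩
  | succ j =>
    refine (hl.1 (g.i0 + j)).mono ?_ le_rfl le_rfl
    rw [← h.eqO (g.i0 + j) (by omega) (by omega)]
    refine h.anti _ _ ?_
    rwa [Sg.b0, Nat.add_sub_cancel_left]

theorem map (h : g.Ch p) : ∀ b, b ≤ g.s → ∀ u ∈ g.B, ∀ x ∈ g.D p b, u.app x ∈ g.D p b := by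
  intro b
  induction b with
  | zero => exact fun _ u hu x hx => (hu.2 x).2 hx
  | succ b ih =>
    intro hb u hu
    have hm := mul h u hu b hb
    have ih' := ih (by omega) u hu
    have hT := h.low b
    have hk := T0_keep (g.i0 + b / g.L) (g.B_le hu)
    have hn : ∀ c ∈ g.O 0, GI.Nm (g.O (g.i0 + b / g.L)) c := fun c hc => nm_cg (h.ser.nm _) hc
    have hd := h.anti b (b + 1) (Nat.le_succ b)
    have h1 : u.app 1 ∈ g.O (g.i0 + b / g.L) := (hk 1).2 (one_mem _)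
    let Z : Subgroup U :=
      { carrier := {x | x ∈ g.D p b ∧ u.app x ∈ g.D p (b + 1)}
        one_mem' := ⟨one_mem _, hT h1⟩
        mul_mem' := fun {x y} hx hy => ⟨mul_mem hx.1 hy.1,
          ((hm x hx.1 y (le0 h b hy.1)).1.mem_iff hT).2 (mul_mem hx.2 hy.2)⟩
        inv_mem' := fun {x} hx => ⟨inv_mem hx.1, by
          have := (hm x hx.1 x⁻¹ (le0 h b (inv_mem hx.1))).1.mem_iff hT
          rw [mul_inv_cancel] at this
          exact ((g.D p (b + 1)).mul_mem_cancel_left hx.2).1 (this.1 (hT h1))⟩ }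
    have hZ : g.D p (b + 1) ≤ Z := by
      refine sup_le (fun x hx => ⟨hd (hT hx), hT ((hk x).2 hx)⟩) ((Subgroup.closure_le _).2 ?_)
      rintro z (⟨x, hx, rfl⟩ | ⟨x, hx, y, hy, rfl⟩)
      · refine ⟨pow_mem hx p, (Cg.mem_iff (b := u.app x ^ p) ?_ hT).2 (h.pow b _ (ih' x hx))⟩
        generalize p = k
        induction k with
        | zero => simpa using (Cg.one_iff.2 h1).symm
        | succ k ihk =>
          rw [pow_succ, pow_succ]
          exact (hm _ (pow_mem hx k) x (le0 h b hx)).1.trans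
            (ihk.right (hn _ (le0 h b (ih' x hx))))
      · have hz := hd (h.cm b x hx y hy)
        have hy0 : y ∈ g.O 0 := h.syl.hi hy
        have huy : u.app y ∈ g.D0 := (hu.2 y).2 hy
        refine ⟨hz, (Cg.mem_iff (b := ⁅u.app x, u.app y⁆) ?_ hT).2 (h.cm b _ (ih' x hx) _ huy)⟩
        have e1 := (hm _ hz (y * x) (mul_mem hy0 (le0 h b hx))).1
        rw [show ⁅x, y⁆ * (y * x) = x * y by simp [commutatorElement_def, mul_assoc]] at e1
        have e2 := ((hm x hx y hy0).1.symm.trans (e1.trans ((hm x hx y hy0).2.left _))).symm.right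
          (hn (u.app y * u.app x)⁻¹ (inv_mem (mul_mem (h.syl.hi huy) (le0 h b (ih' x hx)))))
        simpa [commutatorElement_def, mul_assoc] using e2
    exact fun x hx => (hZ hx).2

theorem cg (h : g.Ch p) (b : ℕ) (hb : b ≤ g.s) : ∀ u ∈ g.B, ∀ x y, Cg (g.D p b) x y →
    Cg (g.D p b) (u.app x) (u.app y) := by
  intro u hu x y hxy
  rcases hb.eq_or_lt with e | hb'
  · have e1 : g.D p b = g.O g.i1 := by rw [e]; exact h.eqO g.i1 h.le le_rfl
    rw [e1] at hxy ⊢
    exact (T0_pv g.i1 (g.B_le hu) x y).2 hxy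
  by_cases hx : x ∈ g.O 0
  · obtain ⟨d, hd, rfl⟩ := hxy.exists_eq
    exact (Cg.mul_mem (map h b hb u hu d hd) _).trans
      ((mul h u hu b hb' d hd x hx).2.symm.mono ((h.low b).trans (h.anti _ _ (Nat.le_succ b))))
  · have hy : y ∉ g.O 0 := fun hy => hx ((hxy.mem_iff (le0 h b)).2 hy)
    rwa [T0_sup (g.B_le hu) x hx, T0_sup (g.B_le hu) y hy]

end TPRES

theorem s_PRES : S_PRES := by
  intro U _ p g h
  refine ⟨fun b hb u hu x => ⟨fun hx => ?_, TPRES.map h b hb u hu x⟩,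
    fun b hb u hu x y => ⟨fun hx => ?_, TPRES.cg h b hb u hu x y⟩, TPRES.mul h⟩
  · simpa using TPRES.map h b hb u⁻¹ (inv_mem hu) _ hx
  · simpa using TPRES.cg h b hb u⁻¹ (inv_mem hu) _ _ hx

end Pool.Agent.P.MP_f1a348_lc.PS
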