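import Pool.Agent.P.MP_f1a348_lc.PS.PIf
import Pool.Agent.P.MP_f1a348_lc.GI.PTA
import Pool.Agent.P.MP_f1a348_lc.PG.PT

/-!
Project PS: the data of a stage and the coordinates are computed in polynomial time.
-/

namespace Pool.Agent.P.MP_f1a348_lc.PS

open GI (gen Cg FP Rep sims)
open PG (V Cx pp mM mV fV unL oneP ran)
open Pool.Agent.Lib.Helper47

namespace TPTMK

set_option linter.unusedSectionVars false

variable {α U : Type} [Enc α] [Group U] [DecidableEq U] [Enc U] [GI.PG U]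

@[fun_prop] theorem pt_oj {a : α → List (List U)} {j : α → ℕ} (h1 : PT a) (h2 : PT j) :
    PT (fun e => oj (a e) (j e)) := by
  unfold oj; fun_prop

@[fun_prop] theorem pt_pwU {u : α → Un} {x : α → U} (h1 : PT u) (h2 : PT x) :
    PT (fun e => pwU (u e) (x e)) := by
  unfold pwU; fun_prop

@[fun_prop] theorem pt_wdP {u : α → Un} {x y : α → U} (h1 : PT u) (h2 : PT x) (h3 : PT y) :
    PT (fun e => wdP (u e) (x e) (y e)) := by
  unfold wdP; fun_prop

@[fun_prop] theorem pt_dfP {u : α → Un} {f : α → FP U} {x y : α → U} (h1 : PT u) (h0 : PT f)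
    (h2 : PT x) (h3 : PT y) : PT (fun e => dfP (u e) (f e) (x e) (y e)) := by
  unfold dfP; fun_prop

theorem pt_itp {u : α → Un} {Y : α → List U} {x : α → U} (h1 : PT u) (h2 : PT Y) (h3 : PT x) :
    PT (fun e => (Y e).foldl (fun y _ => pwU (u e) y) (x e)) := by
  obtain ⟨B, hB, h⟩ := GI.gen_bound (l := fun e => [x e]) (by fun_prop)
  refine PT.foldl_inv (f := fun e (y : U) (_ : U) => pwU (u e) y) (by fun_prop) h2 h3
    (fun e t => t ∈ gen [x e]) (fun e => GI.mem_gen (by simp)) (fun e t _ _ ht => ?_) B hB h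
  refine Subgroup.list_prod_mem _ fun z hz => ?_
  obtain ⟨_, _, rfl⟩ := List.mem_map.1 hz
  exact ht

@[fun_prop] theorem pt_pgB {u : α → Un} {Y O D : α → List U} (h1 : PT u) (h2 : PT Y) (h3 : PT O)
    (h4 : PT D) : PT (fun e => pgB (u e) (Y e) (O e) (D e)) := by
  have : PT (fun q : α × U => (Y q.1).foldl (fun y _ => pwU (u q.1) y) q.2) :=
    pt_itp (by fun_prop) (by fun_prop) (by fun_prop)
  unfold pgB; fun_prop

@[fun_prop] theorem pt_sylP {u : α → Un} {Y O : α → List U} (h1 : PT u) (h2 : PT Y) (h3 : PT O) :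
    PT (fun e => sylP (u e) (Y e) (O e)) := by
  refine PT.foldl_inv (f := fun e (D : List U) (x : U) =>
      bif pgB (u e) (Y e) (O e) (GI.clo (Y e) (x :: D)) then GI.clo (Y e) (x :: D) else D)
    (by fun_prop) h2 h3 (fun e t => size t ≤ size (Y e) + size (O e)) (fun e => Nat.le_add_left _ _)
    (fun e t x _ ht => ?_) _ (h2.size_le.add h3.size_le) (fun _ _ h => h)
  cases pgB (u e) (Y e) (O e) (GI.clo (Y e) (x :: t))
  · exact ht
  · exact (size_sublist (GI.clo_sublist _ _)).trans (Nat.le_add_right _ _)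

@[fun_prop] theorem pt_dStep {u : α → Un} {Y D0 O D : α → List U} (h1 : PT u) (h2 : PT Y)
    (h3 : PT D0) (h4 : PT O) (h5 : PT D) : PT (fun e => dStep (u e) (Y e) (D0 e) (O e) (D e)) := by
  unfold dStep; fun_prop

@[fun_prop] theorem pt_chainP {u w : α → Un} {O : α → List (List U)} {i : α → ℕ} {D : α → List U}
    (h1 : PT u) (h2 : PT w) (h3 : PT O) (h4 : PT i) (h5 : PT D) :
    PT (fun e => chainP (u e) (w e) (O e) (i e) (D e)) := by
  have h0 : PT (fun e => oj (O e) 0) := by fun_prop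
  refine PT.foldl_add (f := fun e (Ds : List (List U)) (b : ℕ) => Ds ++ [dStep (u e) (oj (O e) 0) (D e)
      (oj (O e) (i e + b / (oj (O e) 0).length)) (oj Ds b)]) (by fun_prop) (by fun_prop) (by fun_prop)
    (fun e => size (oj (O e) 0) + 1) (h0.size_le.add (PB.const 1)) (fun e t b _ => ?_)
  have e1 := size_append t [dStep (u e) (oj (O e) 0) (D e)
      (oj (O e) (i e + b / (oj (O e) 0).length)) (oj t b)]
  have e2 : size (dStep (u e) (oj (O e) 0) (D e) (oj (O e) (i e + b / (oj (O e) 0).length)) (oj t b)) ≤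
    size (oj (O e) 0) := size_sublist (GI.clo_sublist _ _)
  simp only [size_cons, size_nil] at e1
  omega

@[fun_prop] theorem pt_basP {Y D1 D : α → List U} (h1 : PT Y) (h2 : PT D1) (h3 : PT D) :
    PT (fun e => basP (Y e) (D1 e) (D e)) := by
  refine PT.foldl_add (f := fun e (l : List U) (x : U) =>
      bif (GI.clo (Y e) (D1 e ++ l)).contains x then l else l ++ [x]) (by fun_prop) h3 (PT.const _)
    (fun e => size (D e)) h3.size_le (fun e t x hx => ?_)
  have := size_lt_of_mem hx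
  have e1 := size_append t [x]
  simp only [size_cons, size_nil] at e1
  cases (GI.clo (Y e) (D1 e ++ t)).contains x <;> simp only [cond_true, cond_false] <;> omega

@[fun_prop] theorem pt_mkE {p u w : α → Un} {O D B : α → List (List U)} (h1 : PT p) (h2 : PT u)
    (h3 : PT w) (h4 : PT O) (h5 : PT D) (h6 : PT B) :
    PT (fun e => mkE (p e) (u e) (w e) (O e) (D e) (B e)) := by
  unfold mkE; fun_prop

@[fun_prop] theorem pt_mkB {p u w : α → Un} {O D : α → List (List U)} (h1 : PT p) (h2 : PT u)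
    (h3 : PT w) (h4 : PT O) (h5 : PT D) : PT (fun e => mkB (p e) (u e) (w e) (O e) (D e)) := by
  unfold mkB; fun_prop

@[fun_prop] theorem pt_uI {O : α → List (List U)} {i j : α → ℕ} (h1 : PT O) (h2 : PT i)
    (h3 : PT j) : PT (fun e => uI (O e) (i e) (j e)) := by
  unfold uI; fun_prop

@[fun_prop] theorem pt_insBP {u : α → Un} {i t b : α → ℕ} (h1 : PT u) (h2 : PT i) (h3 : PT t)
    (h4 : PT b) : PT (fun e => insBP (u e) (i e) (t e) (b e)) := by
  unfold insBP; fun_prop

@[fun_prop] theorem pt_insIP {u w : α → Un} {i : α → ℕ} (h1 : PT u) (h2 : PT w) (h3 : PT i) :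
    PT (fun e => insIP (u e) (w e) (i e)) := by
  unfold insIP; fun_prop

@[fun_prop] theorem pt_insP {u w : α → Un} {i : α → ℕ} (h1 : PT u) (h2 : PT w) (h3 : PT i) :
    PT (fun e => insP (u e) (w e) (i e)) := by
  unfold insP; fun_prop

@[fun_prop] theorem pt_digU {u : α → Un} (h1 : PT u) : PT (fun e => digU (u e)) := by
  unfold digU; fun_prop

@[fun_prop] theorem pt_word {l : α → List U} {j : α → List Un} (h1 : PT l) (h2 : PT j) :
    PT (fun e => word (l e) (j e)) := by
  unfold word; fun_prop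

@[fun_prop] theorem pt_dUp {d : α → Dt U} (h1 : PT d) : PT (fun e => dUp (d e)) := by
  unfold dUp; fun_prop

@[fun_prop] theorem pt_dE {d : α → Dt U} {j : α → ℕ} (h1 : PT d) (h2 : PT j) :
    PT (fun e => dE (d e) (j e)) := by
  unfold dE; fun_prop

@[fun_prop] theorem pt_crd {d : α → Dt U} {b : α → ℕ} {x : α → U} (h1 : PT d) (h2 : PT b)
    (h3 : PT x) : PT (fun e => crd (d e) (b e) (x e)) := by
  unfold crd dPad dB dD; fun_prop

@[fun_prop] theorem pt_kapP {d : α → Dt U} {b j : α → ℕ} {x : α → U} (h1 : PT d) (h2 : PT b)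
    (h3 : PT x) (h4 : PT j) : PT (fun e => kapP (d e) (b e) (x e) (j e)) := by
  unfold kapP; fun_prop

@[fun_prop] theorem pt_aP {d : α → Dt U} {u : α → FP U} {i j : α → ℕ} (h1 : PT d) (h2 : PT u)
    (h3 : PT i) (h4 : PT j) : PT (fun e => aP (d e) (u e) (i e) (j e)) := by
  unfold aP; fun_prop

@[fun_prop] theorem pt_thQ {d : α → Dt U} {a : α → Ins} {u : α → FP U} {i j k : α → ℕ} (h1 : PT d)
    (h0 : PT a) (h2 : PT u) (h3 : PT i) (h4 : PT j) (h5 : PT k) :
    PT (fun e => thQ (d e) (a e) (u e) (i e) (j e) (k e)) := by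
  unfold thQ Ins.k Ins.b Ins.c Ins.t; fun_prop

end TPTMK

open TPTMK

theorem p_MKD : P_MKD := fun U _ _ _ _ => ⟨by unfold mkD; fun_prop, by fun_prop⟩

theorem p_LAM : P_LAM := fun U _ _ _ _ =>
  ⟨by fun_prop, by unfold lamP; fun_prop, by unfold thP; fun_prop⟩

end Pool.Agent.P.MP_f1a348_lc.PS
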