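import Pool.Agent.P.MP_f1a348_lc.PS.PIf
import Pool.Agent.P.MP_f1a348_lc.GI.PTA
import Pool.Agent.P.MP_f1a348_lc.PG.PT

/-!
Project PS, task PTPS: all stages run in polynomial time.
-/

namespace Pool.Agent.P.MP_f1a348_lc.PS

open GI (gen Cg FP Rep sims)
open UP (Rec up topI SolvMod Nm Val GG SG SA UG Fo gS gD foD)
open PG (Ix Vec Mat Frm Sub c0 st l0 Par pull1 Wt key V Cx pp mM mV fV unL oneP)
open Pool.Agent.Lib.Helper47

set_option linter.unusedSectionVars false

namespace TPTPS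

variable {U τ : Type} [Group U] [DecidableEq U]

theorem tw_inv (mem pass : τ → FP U → Bool) (pad : Un) (Y : List U) (tests : List τ)
    (S : List (FP U)) : gen (tw mem pass pad Y tests S).2 ≤ gen S := by
  have : ∀ s ∈ GI.tower mem pass pad Y tests 1 S, s.1 ∈ gen S ∧ (∀ x ∈ s.2, x ∈ gen S) ∧
      s.2.length ≤ pad.length + S.length := by
    unfold GI.tower
    induction tests using List.reverseRecOn with
    | nil =>
      intro s hs
      obtain rfl := Option.mem_some_iff.1 hs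
      exact ⟨Subgroup.one_mem _, fun x hx => GI.mem_gen hx, Nat.le_add_left _ _⟩
    | append_singleton u t ih =>
      rw [List.foldl_append]
      exact GI.towerStep_inv (Nat.le_add_right _ _) ih
  unfold tw
  cases h : GI.tower mem pass pad Y tests 1 S with
  | none => exact GI.gen_le.2 (by simp)
  | some s => exact GI.gen_le.2 (this s h).2.1

variable [Enc U] [GI.PG U] {α : Type} [Enc α] {A : Aff}

theorem fold_inv (hS : P_STEP) (hA : A.Pt) (d : Dt U) (l : List Ins) (s : Stt U) :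
    gen (l.foldl (stepP A d) s).1 ≤ gen s.1 ∧
      s.2.1⁻¹ * (l.foldl (stepP A d) s).2.1 ∈ gen s.1 := by
  induction l generalizing s with
  | nil => exact ⟨le_rfl, by simp⟩
  | cons a l ih =>
    obtain ⟨h1, -, h2, -⟩ := (hS U A hA).2.2.2 d s a
    obtain ⟨h3, h4⟩ := ih (stepP A d s a)
    refine ⟨h3.trans h1, ?_⟩
    simpa [mul_assoc] using (gen s.1).mul_mem h2 (h1 h4)

theorem run_inv (hS : P_STEP) (hA : A.Pt) (cf : List (FP U) → FoG (FP U)) (d : Dt U)
    (l : List Ins) (s : List (FP U) × FP U) :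
    gen (stRun A cf d l s).1 ≤ gen (s.1 ++ inn (dO d 0)) ∧
      (stRun A cf d l s).1.length ≤ (dPad d).length ∧ s.2⁻¹ * (stRun A cf d l s).2 ∈ gen s.1 := by
  obtain ⟨h1, h2⟩ := fold_inv hS hA d l (st0 A cf d (fratP d s.1) s.2)
  have h3 : gen (fratP d s.1) ≤ gen s.1 := tw_inv _ _ _ _ _ _
  refine ⟨GI.gen_le.2 fun x hx => ?_, GI.sims_length _ _ _, h3 h2⟩
  have := GI.sims_mem hx
  rw [GI.gen_append] at this ⊢
  exact sup_le_sup_right (h1.trans h3) _ this

@[fun_prop] theorem pt_oj {Os : α → List (List U)} {j : α → ℕ} (h1 : PT Os) (h2 : PT j) :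
    PT fun a => oj (Os a) (j a) := by
  unfold oj; fun_prop

@[fun_prop] theorem pt_dO {d : α → Dt U} {j : α → ℕ} (h1 : PT d) (h2 : PT j) :
    PT fun a => dO (d a) (j a) := by
  unfold dO; fun_prop

@[fun_prop] theorem pt_dPad {d : α → Dt U} (h1 : PT d) : PT fun a => dPad (d a) := by
  unfold dPad; fun_prop

@[fun_prop] theorem pt_inn {Y : α → List U} (h1 : PT Y) : PT fun a => inn (Y a) := by
  unfold inn; fun_prop

@[fun_prop] theorem pt_iA {prs : α → List ℕ} {q : α → ℕ} (h1 : PT prs) (h2 : PT q) :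
    PT fun a => iA (prs a) (q a) := by
  unfold iA; fun_prop

@[fun_prop] theorem pt_stEnd {d : α → Dt U} {s : α → Stt U} (h1 : PT d) (h2 : PT s) :
    PT fun a => stEnd (d a) (s a) := by
  unfold stEnd; fun_prop

theorem pt_lams (hL : P_LAM) {d : α → Dt U} {S : α → List (FP U)} (h1 : PT d) (h2 : PT S) :
    PT fun a => (S a).map (lamP (d a)) :=
  PT.map ((hL U).2.1.comp (g := fun p : α × FP U => (d p.1, p.2)) (by fun_prop)) h2

theorem pt_foP (hL : P_LAM) {d : α → Dt U} {F : α → FoG (FP U)} (h1 : PT d) (h2 : PT F) :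
    PT fun a => foP (d a) (F a) :=
  PT.map (PT.prodMk (by fun_prop) (PT.prodMk
    (pt_lams hL (d := fun p : α × ℕ × List (FP U) × List (FP U) => d p.1) (by fun_prop)
      (by fun_prop))
    (pt_lams hL (d := fun p : α × ℕ × List (FP U) × List (FP U) => d p.1) (by fun_prop)
      (by fun_prop)))) h2

theorem pt_st0 (hL : P_LAM) (hS : P_STEP) (hA : A.Pt) {cf : α → List (FP U) → FoG (FP U)}
    {d : α → Dt U} {S : α → List (FP U)} {σ : α → FP U}
    (hc : PT fun x : α × List (FP U) => cf x.1 x.2) (h1 : PT d) (h2 : PT S) (h3 : PT σ) :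
    PT fun a => st0 A (cf a) (d a) (S a) (σ a) := by
  have e1 := pt_lams hL h1 h2
  have e2 := pt_lams hL h1 ((hS U A hA).2.2.1.comp (PT.prodMk h1 h2))
  have e3 := pt_foP hL h1 (hc.comp (PT.prodMk PT.id h2))
  exact PT.prodMk h2 (PT.prodMk h3
    (hA.start.comp (PT.prodMk (PT.fst h1) (PT.prodMk e1 (PT.prodMk e2 e3)))))

theorem pt_fold (hS : P_STEP) (hA : A.Pt) {d : α → Dt U} {l : α → List Ins} {s : α → Stt U}
    (h1 : PT d) (h2 : PT l) (h3 : PT s) : PT fun a => (l a).foldl (stepP A (d a)) (s a) := by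
  obtain ⟨f, hf⟩ := hA.bdd
  obtain ⟨B, hB, h⟩ := GI.gen_bound (PT.cons (PT.fst (PT.snd h3)) (PT.fst h3))
  refine PT.foldl_inv (f := fun a t x => stepP A (d a) t x)
    ((hS U A hA).1.comp (g := fun p : α × Stt U × Ins => (d p.1, p.2)) (by fun_prop)) h2 h3
    (fun a t => gen t.1 ≤ gen ((s a).2.1 :: (s a).1) ∧
      t.1.length ≤ (dPad (d a)).length + (s a).1.length ∧ t.2.1 ∈ gen ((s a).2.1 :: (s a).1) ∧
      size t.2.2 ≤ size (s a).2.2 + f.eval (size (d a).1))
    (fun a => ⟨GI.gen_mono fun x hx => by simp [hx], Nat.le_add_left _ _, GI.mem_gen (by simp),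
      Nat.le_add_right _ _⟩) (fun a t x _ ht => ?_)
    (fun a => ((dPad (d a)).length + (s a).1.length) * (B a + 1) + B a +
      (size (s a).2.2 + f.eval (size (d a).1)) + 3)
    ((((((GI.ps_len (pt_dPad h1)).add (GI.ps_len (PT.fst h3))).mul (hB.add (PB.const 1))).add
      hB).add ((PT.snd (PT.snd h3)).size_le.add ((PT.fst h1).size_le.eval f))).add (PB.const 3))
    (fun a t ht => ?_)
  · obtain ⟨a1, a2, a3, a4⟩ := (hS U A hA).2.2.2 (d a) t x
    refine ⟨a1.trans ht.1, a2.trans (Nat.le_add_right _ _), ?_, ?_⟩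
    · simpa using Subgroup.mul_mem _ ht.2.2.1 (ht.1 a3)
    · rcases a4 with e | ⟨k, om, G, S0, w, δ, e⟩
      · rw [e]; exact ht.2.2.2
      · rw [e]; exact (hf _ _ _ _ _ _ _).trans (Nat.le_add_left _ _)
  · obtain ⟨a1, a2, a3, a4⟩ := ht
    have e1 := h a _ a3
    have e2 := size_list_le (fun x hx => h a x (a1 (GI.mem_gen hx)))
    have e3 := Nat.mul_le_mul_right (B a + 1) a2
    rw [size_prod, size_prod t.2]
    omega

theorem pt_stRun (hL : P_LAM) (hS : P_STEP) (hA : A.Pt) {cf : α → List (FP U) → FoG (FP U)}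
    {d : α → Dt U} {l : α → List Ins} {s : α → List (FP U) × FP U}
    (hc : PT fun x : α × List (FP U) => cf x.1 x.2) (h1 : PT d) (h2 : PT l) (h3 : PT s) :
    PT fun a => stRun A (cf a) (d a) (l a) (s a) := by
  have e0 := (hS U A hA).2.1.comp (PT.prodMk h1 (PT.fst h3))
  have e1 : PT fun a => fratP (d a) (s a).1 := e0
  have e2 : PT fun a => st0 A (cf a) (d a) (fratP (d a) (s a).1) (s a).2 :=
    pt_st0 hL hS hA hc h1 e1 (PT.snd h3)
  have e3 : PT fun a => (l a).foldl (stepP A (d a))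
      (st0 A (cf a) (d a) (fratP (d a) (s a).1) (s a).2) := pt_fold hS hA h1 h2 e2
  unfold stRun
  exact pt_stEnd h1 e3

theorem pt_stage (hM : P_MKD) (hL : P_LAM) (hS : P_STEP) (hA : A.Pt)
    {cf : α → List (FP U) → FoG (FP U)} {pad u : α → Un} {Os : α → List (List U)} {i0 i1 : α → ℕ}
    {s : α → List (FP U) × FP U} (hc : PT fun x : α × List (FP U) => cf x.1 x.2) (h1 : PT pad)
    (h2 : PT u) (h3 : PT Os) (h4 : PT i0) (h5 : PT i1) (h6 : PT s) :
    PT fun a => stage A (cf a) (pad a) (u a) (Os a) (i0 a) (i1 a) (s a) := by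
  have e3 := (hM U).1.comp (PT.prodMk h1 (PT.prodMk h2 (PT.prodMk h3 (PT.prodMk h4 h5))))
  have e4 := (hM U).2.comp (PT.prodMk h3 (PT.prodMk h4 h5))
  have e1 : PT fun a => mkD (pad a) (u a) (Os a) (i0 a) (i1 a) := e3
  have e2 : PT fun a => insP (unL (oj (Os a) 0)) (uI (Os a) (i0 a) (i1 a)) (i0 a) := e4
  unfold stage
  exact pt_stRun hL hS hA hc e1 e2 h6

theorem pt_psStep (hM : P_MKD) (hL : P_LAM) (hS : P_STEP) (hA : A.Pt)
    {cf : α → List (FP U) → FoG (FP U)} {pad uN : α → Un} {Os : α → List (List U)}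
    {ps : α → List ℕ} {s : α → List (FP U) × FP U} {q : α → ℕ}
    (hc : PT fun x : α × List (FP U) => cf x.1 x.2) (h1 : PT pad)
    (h2 : PT uN) (h3 : PT Os) (h4 : PT ps) (h5 : PT s) (h6 : PT q) :
    PT fun a => psStep A (cf a) (pad a) (uN a) (Os a) (ps a) (s a) (q a) := by
  have e : PT fun a => stage A (cf a) (pad a) ((uN a).take (q a - 1)) (Os a)
      (iA (ps a) (q a + 1)) (iA (ps a) (q a)) (s a) :=
    pt_stage hM hL hS hA hc h1 (by fun_prop) h3 (by fun_prop) (by fun_prop) h5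
  unfold psStep
  exact PT.cond (by fun_prop) e h5

end TPTPS

open TPTPS in
theorem p_PS (hM : P_MKD) (hL : P_LAM) (hS : P_STEP) : P_PS := by
  intro U α _ _ _ _ _ A cf pad uN Os ps s hA hc h1 h2 h3 h4 h5
  have hW : PT fun a => (s a).2 :: ((s a).1 ++ inn (oj (Os a) 0)) := by fun_prop
  obtain ⟨B, hB, h⟩ := GI.gen_bound hW
  refine PT.foldl_inv (f := fun a t q => psStep A (cf a) (pad a) (uN a) (Os a) (ps a) t q)
    (pt_psStep hM hL hS hA (cf := fun p : α × (List (FP U) × FP U) × ℕ => cf p.1)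
      (hc.comp (g := fun x : (α × (List (FP U) × FP U) × ℕ) × List (FP U) => (x.1.1, x.2))
        (by fun_prop)) (by fun_prop) (by fun_prop) (by fun_prop) (by fun_prop) (by fun_prop)
      (by fun_prop)) (by fun_prop) h5
    (fun a t => gen t.1 ≤ gen ((s a).2 :: ((s a).1 ++ inn (oj (Os a) 0))) ∧
      t.1.length ≤ (pad a).length + (s a).1.length ∧
      t.2 ∈ gen ((s a).2 :: ((s a).1 ++ inn (oj (Os a) 0))))
    (fun a => ⟨GI.gen_mono fun x hx => by simp [hx], Nat.le_add_left _ _, GI.mem_gen (by simp)⟩)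
    (fun a t q _ ht => ?_) (fun a => ((pad a).length + (s a).1.length) * (B a + 1) + B a + 2)
    (((((GI.ps_len h1).add (GI.ps_len (PT.fst h5))).mul (hB.add (PB.const 1))).add hB).add
      (PB.const 2)) (fun a t ht => ?_)
  · unfold psStep
    cases Nat.blt (oj (Os a) (iA (ps a) q)).length (oj (Os a) (iA (ps a) (q + 1))).length with
    | false => exact ht
    | true =>
      obtain ⟨a1, a2, a3⟩ := run_inv hS hA (cf a)
        (mkD (pad a) ((uN a).take (q - 1)) (Os a) (iA (ps a) (q + 1)) (iA (ps a) q))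
        (insP (unL (oj (Os a) 0)) (uI (Os a) (iA (ps a) (q + 1)) (iA (ps a) q)) (iA (ps a) (q + 1)))
        t
      refine ⟨a1.trans ?_, a2.trans (Nat.le_add_right _ _), ?_⟩
      · rw [GI.gen_append]
        refine sup_le ht.1 (GI.gen_mono fun x hx => ?_)
        exact List.mem_cons_of_mem _ (List.mem_append_right _ hx)
      · simpa [stage] using Subgroup.mul_mem _ ht.2.2 (ht.1 a3)
  · obtain ⟨a1, a2, a3⟩ := ht
    have e1 := h a _ a3
    have e2 := size_list_le (fun x hx => h a x (a1 (GI.mem_gen hx)))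
    have e3 := Nat.mul_le_mul_right (B a + 1) a2
    rw [size_prod]
    omega

end Pool.Agent.P.MP_f1a348_lc.PS
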