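import Pool.Agent.P.MP_f1a348_lc.PS.TPTMK
import Pool.Agent.P.MP_f1a348_lc.UP.PTime

/-!
Project PS: the steps are computed in polynomial time.
-/

namespace Pool.Agent.P.MP_f1a348_lc.PS

open GI (gen Cg FP Rep sims)
open PG (V Cx pp mM mV fV unL oneP ran)
open UP (Fo nrm)
open Pool.Agent.Lib.Helper47

namespace TPTST

set_option linter.unusedSectionVars false

variable {α U τ : Type} [Enc α] [Enc τ] [Group U] [DecidableEq U] [Enc U] [GI.PG U]

@[fun_prop] theorem pt_lamP {d : α → Dt U} {u : α → FP U} (h1 : PT d) (h2 : PT u) :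
    PT (fun e => lamP (d e) (u e)) := by
  unfold lamP; fun_prop

@[fun_prop] theorem pt_thP {d : α → Dt U} {a : α → Ins} {u : α → FP U} (h1 : PT d) (h0 : PT a)
    (h2 : PT u) : PT (fun e => thP (d e) (a e) (u e)) := by
  unfold thP; fun_prop

@[fun_prop] theorem pt_dPad {d : α → Dt U} (h1 : PT d) : PT (fun e => dPad (d e)) := by
  unfold dPad; fun_prop

@[fun_prop] theorem pt_dO {d : α → Dt U} {j : α → ℕ} (h1 : PT d) (h2 : PT j) :
    PT (fun e => dO (d e) (j e)) := by
  unfold dO; fun_prop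

@[fun_prop] theorem pt_dD {d : α → Dt U} {j : α → ℕ} (h1 : PT d) (h2 : PT j) :
    PT (fun e => dD (d e) (j e)) := by
  unfold dD; fun_prop

@[fun_prop] theorem pt_tw {mem pass : α → τ → FP U → Bool} {pad : α → Un} {Y : α → List U}
    {ts : α → List τ} {S : α → List (FP U)}
    (h1 : PT fun x : α × τ × FP U => mem x.1 x.2.1 x.2.2)
    (h2 : PT fun x : α × τ × FP U => pass x.1 x.2.1 x.2.2) (h3 : PT pad) (h4 : PT Y)
    (h5 : PT ts) (h6 : PT S) : PT (fun e => tw (mem e) (pass e) (pad e) (Y e) (ts e) (S e)) := by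
  have := GI.pt_tower (g₀ := fun _ => (1 : FP U)) h1 h2 h3 h4 h5 (PT.const _) h6
  unfold tw; fun_prop

@[fun_prop] theorem pt_colE {c : α → Cx} {x z : α → V} {j : α → ℕ} (h1 : PT c) (h2 : PT x)
    (h3 : PT z) (h4 : PT j) : PT (fun e => colE (c e) (x e) (z e) (j e)) := by
  unfold colE; fun_prop

@[fun_prop] theorem pt_passC {d : α → Dt U} {a : α → Ins} {ψ u : α → FP U} {z : α → V}
    {t : α → Bool × ℕ} (h1 : PT d) (h2 : PT a) (h3 : PT ψ) (h4 : PT z) (h5 : PT t) (h6 : PT u) :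
    PT (fun e => passC (d e) (a e) (ψ e) (z e) (t e) (u e)) := by
  unfold passC; fun_prop

@[fun_prop] theorem pt_tstL {c : α → Cx} (h1 : PT c) : PT (fun e => tstL (c e)) := by
  unfold tstL; fun_prop

@[fun_prop] theorem pt_tstC {c : α → Cx} (h1 : PT c) : PT (fun e => tstC (c e)) := by
  unfold tstC; fun_prop

@[fun_prop] theorem pt_liftL {d : α → Dt U} {a : α → Ins} {S : α → List (FP U)} {z : α → V}
    (h1 : PT d) (h2 : PT a) (h3 : PT S) (h4 : PT z) :
    PT (fun e => liftL (d e) (a e) (S e) (z e)) := by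
  unfold liftL; fun_prop

@[fun_prop] theorem pt_liftC {d : α → Dt U} {a : α → Ins} {S : α → List (FP U)} {ψ : α → FP U}
    {z : α → V} (h1 : PT d) (h2 : PT a) (h3 : PT S) (h0 : PT ψ) (h4 : PT z) :
    PT (fun e => liftC (d e) (a e) (S e) (ψ e) (z e)) := by
  unfold liftC; fun_prop

@[fun_prop] theorem pt_omP {d : α → Dt U} {a : α → Ins} {S : α → List (FP U)} {z : α → V}
    (h1 : PT d) (h2 : PT a) (h3 : PT S) (h4 : PT z) :
    PT (fun e => omP (d e) (a e) (S e) (z e)) := by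
  unfold omP; fun_prop

@[fun_prop] theorem pt_callQ {d : α → Dt U} {a : α → Ins} {s : α → Stt U}
    {o : α → List V × (List V × Fo) × Option (V × V)} (h1 : PT d) (h2 : PT a) (h3 : PT s)
    (h4 : PT o) : PT (fun e => callQ (d e) (a e) (s e) (o e)) := by
  unfold callQ; fun_prop

theorem pt_callP {A : Aff} (hA : A.Pt) {d : α → Dt U} {a : α → Ins} {s : α → Stt U} (h1 : PT d)
    (h2 : PT a) (h3 : PT s) : PT (fun e => callP A (d e) (a e) (s e)) :=
  pt_callQ h1 h2 h3 (hA.solve α (fun e => (d e).1) (fun e => (a e).1)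
    (fun e => omP (d e) (a e) (s e).1) _ _ _ _ (by fun_prop) (by fun_prop) (by fun_prop)
    (by fun_prop) (by fun_prop) (by fun_prop) (by fun_prop))

@[fun_prop] theorem pt_passF {ψ u : α → FP U} {t : α → Ts U} (h1 : PT ψ) (h2 : PT t) (h3 : PT u) :
    PT (fun e => passF (ψ e) (t e) (u e)) := by
  unfold passF; fun_prop

@[fun_prop] theorem pt_fxT {S D : α → List U} (h1 : PT S) (h2 : PT D) :
    PT (fun e => fxT (S e) (D e)) := by
  unfold fxT; fun_prop

@[fun_prop] theorem pt_c2T {S R T : α → List U} (h1 : PT S) (h2 : PT R) (h3 : PT T) :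
    PT (fun e => c2T (S e) (R e) (T e)) := by
  unfold c2T; fun_prop

@[fun_prop] theorem pt_tstF {d : α → Dt U} {a : α → Ins} (h1 : PT d) (h2 : PT a) :
    PT (fun e => tstF (d e) (a e)) := by
  unfold tstF Ins.k Ins.b Ins.i Ins.t; fun_prop

@[fun_prop] theorem pt_fixT {d : α → Dt U} {a : α → Ins} {S : α → List (FP U)} {ψ : α → FP U}
    (h1 : PT d) (h2 : PT a) (h3 : PT S) (h0 : PT ψ) :
    PT (fun e => fixT (d e) (a e) (S e) (ψ e)) := by
  unfold fixT; fun_prop

@[fun_prop] theorem pt_fixP {d : α → Dt U} {a : α → Ins} {s : α → Stt U} (h1 : PT d) (h2 : PT a)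
    (h3 : PT s) : PT (fun e => fixP (d e) (a e) (s e)) := by
  unfold fixP; fun_prop

@[fun_prop] theorem pt_keepT {D : α → List U} {t : α → Unit} {u : α → FP U} (h1 : PT D)
    (h2 : PT u) : PT (fun e => keepT (D e) (t e) (u e)) := by
  unfold keepT; fun_prop

end TPTST

open TPTST

theorem p_STEP (hM : A_TWM) (_hL : P_LAM) : P_STEP := by
  intro U _ _ _ _ A hA
  refine ⟨?_, by unfold fratP; fun_prop, by unfold kkP; fun_prop, fun d s a => ?_⟩
  · have := pt_callP (α := Dt U × Stt U × Ins) hA (d := fun x => x.1) (a := fun x => x.2.2)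
      (s := fun x => x.2.1) (by fun_prop) (by fun_prop) (by fun_prop)
    unfold stepP Ins.k; fun_prop
  · unfold stepP
    cases Nat.ble a.k 1
    · refine ⟨GI.gen_le.2 fun x hx => (GI.gen_le.2 fun y hy => ?_ : _ ≤ gen s.1) (GI.sims_mem hx),
        GI.sims_length _ _ _, ?_, Or.inl rfl⟩
      · rcases List.mem_append.1 hy with hy | hy
        · obtain ⟨u, hu, rfl⟩ := List.mem_map.1 hy
          exact mul_mem (GI.mem_gen hu) (hM U _ _ _ _ _ _ _).1
        · exact (hM U _ _ _ _ _ _ _).2 (GI.mem_gen hy)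
      · change s.2.1⁻¹ * (s.2.1 * _) ∈ _
        rw [inv_mul_cancel_left]
        exact (hM U _ _ _ _ _ _ _).1
    · refine ⟨GI.gen_le.2 fun x hx => (GI.gen_le.2 fun y hy => ?_ : _ ≤ gen s.1) (GI.sims_mem hx),
        GI.sims_length _ _ _, ?_, Or.inr ⟨_, _, _, _, _, _, rfl⟩⟩
      · rcases List.mem_append.1 hy with hy | hy
        · obtain ⟨u, _, rfl⟩ := List.mem_map.1 hy
          exact (hM U _ _ _ _ _ _ _).1
        · exact (hM U _ _ _ _ _ _ _).2 (GI.mem_gen hy)
      · have : ∀ o, s.2.1⁻¹ * (callQ d a s o).2.1 ∈ gen s.1 := fun ⟨_, _, o⟩ => by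
          rw [callQ, inv_mul_cancel_left]
          cases o
          · exact one_mem _
          · exact (hM U _ _ _ _ _ _ _).1
        exact this _

end Pool.Agent.P.MP_f1a348_lc.PS
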