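import Pool.Agent.P.MP_f1a348_lc.PS.Iface
import Pool.Agent.P.MP_f1a348_lc.UP.TSOL
import Pool.Agent.P.MP_f1a348_lc.UP.TKID

/-!
Project PS, task PUSH: images of subgroups and of tight forests.
-/

namespace Pool.Agent.P.MP_f1a348_lc.PS

open GI (gen Cg FP)
open UP (Rec up topI SolvMod Nm Val GG SA UG)
open PG (Ix Vec Mat Frm Sub c0 st l0 Par pull1 Wt key)
open scoped commutatorElement Matrix

namespace TPUSH

variable {Γ Γ' : Type} [Group Γ] [Group Γ'] {ρ : Γ → Γ'} {G : Subgroup Γ}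

theorem mono {Z Z' : Subgroup Γ} (h : Z ≤ Z') : img ρ Z ≤ img ρ Z' :=
  Subgroup.closure_mono (Set.image_mono h)

theorem mem {Z : Subgroup Γ} {z : Γ} (h : z ∈ Z) : ρ z ∈ img ρ Z :=
  Subgroup.subset_closure ⟨z, h, rfl⟩

variable (hρ : ∀ a ∈ G, ∀ b ∈ G, ρ (a * b) = ρ a * ρ b)

/-- the map as a homomorphism -/
def hom : G →* Γ' := MonoidHom.mk' (fun z => ρ z) fun a b => hρ a a.2 b b.2

include hρ

theorem inv {a : Γ} (h : a ∈ G) : ρ a⁻¹ = (ρ a)⁻¹ := map_inv (hom hρ) ⟨a, h⟩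

theorem cm {a b : Γ} (h : a ∈ G) (h' : b ∈ G) : ρ ⁅a, b⁆ = ⁅ρ a, ρ b⁆ :=
  map_commutatorElement (hom hρ) ⟨a, h⟩ ⟨b, h'⟩

theorem mem_iff {Z : Subgroup Γ} (h : Z ≤ G) {y : Γ'} : y ∈ img ρ Z ↔ ∃ z ∈ Z, ρ z = y := by
  refine ⟨fun hy => ?_, fun ⟨z, hz, e⟩ => e ▸ mem hz⟩
  have : img ρ Z ≤ (Z.subgroupOf G).map (hom hρ) := (Subgroup.closure_le _).2 (by
    rintro _ ⟨z, hz, rfl⟩
    exact ⟨⟨z, h hz⟩, hz, rfl⟩)
  obtain ⟨z, hz, e⟩ := this hy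
  exact ⟨z, hz, e⟩

theorem nm {H N : Subgroup Γ} (h : H ≤ G) (n : Nm H N) : Nm (img ρ H) (img ρ (H ⊓ N)) := by
  intro _ h1 _ h2
  obtain ⟨g, hg, rfl⟩ := (mem_iff hρ h).1 h1
  obtain ⟨k, hk, rfl⟩ := (mem_iff hρ (inf_le_left.trans h)).1 h2
  rw [← inv hρ (h hg), ← hρ g (h hg) k (h hk.1), ← hρ _ (h (mul_mem hg hk.1)) _ (h (inv_mem hg))]
  exact mem ⟨H.mul_mem (H.mul_mem hg hk.1) (H.inv_mem hg), n g hg k hk.2⟩

theorem idx {H Z : Subgroup Γ} (h : H ≤ G) [Finite H] :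
    (img ρ Z).relIndex (img ρ H) ≤ Z.relIndex H := by
  choose f hf e using fun y : img ρ H => (mem_iff hρ h).1 y.2
  refine UP.SOLz.idx (fun y => ((⟨f y, hf y⟩ : H) : H ⧸ Z.subgroupOf H)) fun a b q => ?_
  rw [← e a, ← e b, ← inv hρ (h (hf a)), ← hρ _ (h (inv_mem (hf a))) _ (h (hf b))]
  exact mem (Subgroup.mem_subgroupOf.1 (QuotientGroup.eq.1 q))

theorem der {Z : Subgroup Γ} (h : Z ≤ G) (k : ℕ) : UP.der k (img ρ Z) ≤ img ρ (UP.der k Z) := by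
  induction k with
  | zero => exact le_rfl
  | succ k ih =>
    refine Subgroup.commutator_le.2 fun _ h1 _ h2 => ?_
    have l := (UP.SOLz.der_le k Z).trans h
    obtain ⟨a, ha, rfl⟩ := (mem_iff hρ l).1 (ih h1)
    obtain ⟨b, hb, rfl⟩ := (mem_iff hρ l).1 (ih h2)
    rw [← cm hρ (l ha) (l hb)]
    exact mem (Subgroup.commutator_mem_commutator ha hb)

theorem sol {Z N : Subgroup Γ} (h : Z ≤ G) (s : SolvMod Z N) :
    SolvMod (img ρ Z) (img ρ (Z ⊓ N)) :=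
  s.imp fun k s => (der hρ h k).trans (mono (le_inf (UP.SOLz.der_le k Z) s))

theorem two {H K K' : Subgroup Γ} (h : H ≤ G) (k : K ≤ H) (k' : K' ≤ H) (n : Nm H K) (n' : Nm H K') :
    SolvMod (img ρ K ⊓ img ρ K') (img ρ (K ⊓ K')) := by
  refine ⟨1, Subgroup.commutator_le.2 fun _ h1 _ h2 => ?_⟩
  obtain ⟨a, ha, rfl⟩ := (mem_iff hρ (k.trans h)).1 h1.1
  obtain ⟨b, hb, rfl⟩ := (mem_iff hρ (k'.trans h)).1 h2.2
  rw [← cm hρ (h (k ha)) (h (k' hb))]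
  refine mem (Subgroup.mem_inf.2 ⟨?_, K'.mul_mem (n' a (k ha) b hb) (K'.inv_mem hb)⟩)
  simpa only [commutatorElement_def, mul_assoc] using mul_mem ha (n b (k' hb) _ (inv_mem ha))

theorem push [Finite G] {q c : ℕ} {H : Subgroup Γ} {F : List (Rec Γ)} (t : Tight q c H F) :
    H ≤ G → (∀ r ∈ F, r.2.1 ≤ H ∧ r.2.2 ≤ H) ∧
      UP.Kids q c (img ρ H) (F.map fun r => (r.1, img ρ r.2.1, img ρ r.2.2)) ∧
      SolvMod (img ρ H ⊓ topI (F.map fun r => (r.1, img ρ r.2.1, img ρ r.2.2)))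
        (img ρ (H ⊓ topI F)) ∧ Nm H (H ⊓ topI F) := by
  obtain ⟨-, -, -, -, -, -, mo, tr, -⟩ := UP.s_SOL Γ'
  induction t with
  | nil c H =>
    intro _
    rw [List.map_nil, UP.KIDz.topI_nil, UP.KIDz.topI_nil, inf_top_eq, inf_top_eq]
    exact ⟨by simp, .nil _ _, ⟨0, le_rfl⟩, fun g hg x hx => mul_mem (mul_mem hg hx) (inv_mem hg)⟩
  | cons c c0 c' H K P sub rest hK hP n i e _ s _ ih1 ih2 =>
    intro h
    obtain ⟨a1, b1, c1, -⟩ := ih1 (hP.trans h)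
    obtain ⟨a2, b2, c2, d2⟩ := ih2 h
    have m : (((0, K, P) :: (up sub ++ rest)).map fun r : Rec Γ => (r.1, img ρ r.2.1, img ρ r.2.2)) =
        (0, img ρ K, img ρ P) :: (up (sub.map fun r => (r.1, img ρ r.2.1, img ρ r.2.2)) ++
          rest.map fun r => (r.1, img ρ r.2.1, img ρ r.2.2)) := by
      simp [up, Function.comp_def]
    have eP : img ρ H ⊓ img ρ P = img ρ P := inf_eq_right.2 (mono hP)
    have : Finite H := Finite.of_injective _ (Subgroup.inclusion_injective h)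
    rw [m, UP.KIDz.topI_cons, UP.KIDz.topI_cons]
    refine ⟨?_, .cons c c0 c' _ _ _ _ _ ?_ ((idx hρ h).trans i) e (eP.symm ▸ b1) ?_ b2, ?_,
      fun g hg x hx => ⟨(d2 g hg x ⟨hx.1, hx.2.2⟩).1, n g hg x hx.2.1, (d2 g hg x ⟨hx.1, hx.2.2⟩).2⟩⟩
    · simp only [List.forall_mem_cons, List.forall_mem_append, up, List.forall_mem_map]
      exact ⟨⟨hK, hP⟩, fun r hr => ⟨(a1 r hr).1.trans hP, (a1 r hr).2.trans hP⟩, a2⟩
    · simpa only [inf_eq_right.2 hK] using nm hρ h n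
    · rw [eP]
      exact tr _ _ _ c1 (mo _ _ _ _ inf_le_right (mono inf_le_right)
        (sol hρ (inf_le_left.trans (hP.trans h)) s))
    · refine tr _ _ _ (mo _ _ _ _ (inf_le_inf_left _ inf_le_right) le_rfl c2) (mo _ _ _ _
        (inf_le_inf_right _ (inf_le_right.trans inf_le_left)) (mono (inf_left_comm _ _ _).le)
        (two hρ h hK inf_le_left n d2))

end TPUSH

open TPUSH

theorem s_IMG : S_IMG := by
  intro Γ Γ' _ _ ρ G hρ
  refine ⟨fun Z h y => mem_iff hρ h, fun S h => le_antisymm ((Subgroup.closure_le _).2 ?_)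
    (Subgroup.closure_mono fun y ⟨s, hs, e⟩ => ⟨s, Subgroup.subset_closure hs, e⟩),
    fun H N => nm hρ, fun H Z _ h _ => idx hρ h, fun Z N => sol hρ, fun H K K' => two hρ⟩
  rintro _ ⟨z, hz, rfl⟩
  induction hz using Subgroup.closure_induction with
  | mem s hs => exact Subgroup.subset_closure ⟨s, hs, rfl⟩
  | one => exact (show ρ 1 = 1 from map_one (hom hρ)).symm ▸ one_mem _
  | mul a b ha hb h1 h2 => exact (hρ a (h ha) b (h hb)).symm ▸ mul_mem h1 h2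
  | inv a ha h1 => exact (inv hρ (h ha)).symm ▸ inv_mem h1

theorem s_PUSH : S_PUSH := by
  intro Γ Γ' _ _ ρ q c G N F hρ _ t s
  obtain ⟨a, b, c, -⟩ := push hρ t le_rfl
  obtain ⟨-, -, -, -, -, -, mo, tr, -⟩ := UP.s_SOL Γ'
  exact ⟨a, b, tr _ _ _ c (mo _ _ _ _ inf_le_right (mono (inf_le_inf_right _ inf_le_left))
    (sol hρ inf_le_left s))⟩

end Pool.Agent.P.MP_f1a348_lc.PS
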