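import Pool.Agent.P.MP_f1a348_lc.PS.Iface

/-!
Project PS, task REL: the relation between graded matrices and scalars is an algebra.
-/

namespace Pool.Agent.P.MP_f1a348_lc.PS

open GI (gen Cg FP)
open UP (Rec up topI SolvMod Nm Val GG SA UG)
open PG (Ix Vec Mat Frm Sub c0 st l0 Par pull1 Wt key)
open scoped commutatorElement Matrix

namespace TREL

variable {U : Type} [Group U]

theorem swap {A T : Subgroup U} (hc : ∀ x ∈ A, ∀ y ∈ A, ⁅x, y⁆ ∈ T) {x y : U} (hx : x ∈ A)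
    (hy : y ∈ A) : Cg T (x * y) (y * x) := cg_comm (hc _ (A.inv_mem hy) _ (A.inv_mem hx))

theorem mul4 {A T : Subgroup U} (hn : Nm A T) (hc : ∀ x ∈ A, ∀ y ∈ A, ⁅x, y⁆ ∈ T) (a : U)
    {b c d : U} (hb : b ∈ A) (hc' : c ∈ A) (hd : d ∈ A) :
    Cg T (a * b * (c * d)) (a * c * (b * d)) := by
  have := ((swap hc hb hc').left a).right (nm_cg hn hd)
  simpa only [mul_assoc] using this

theorem mul_pow_cg {A T : Subgroup U} (hn : Nm A T) (hc : ∀ x ∈ A, ∀ y ∈ A, ⁅x, y⁆ ∈ T)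
    {x y : U} (hx : x ∈ A) (hy : y ∈ A) (k : ℕ) : Cg T ((x * y) ^ k) (x ^ k * y ^ k) := by
  induction k with
  | zero => simpa using Cg.refl (E := T) (1 : U)
  | succ k ih =>
    rw [pow_succ, pow_succ, pow_succ]
    exact (ih.right (nm_cg hn (A.mul_mem hx hy))).trans (mul4 hn hc _ (A.pow_mem hy k) hx hy)

section
variable {O : ℕ → Subgroup U} {r i : ℕ} {φ φ' : U → U}

theorem nm_layer (h : Ser O r) (i : ℕ) : Nm (O i) (O (i + 1)) := fun x hx =>
  h.nm (i + 1) x (h.le (Nat.zero_le i) hx)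

theorem cm_layer (h : Ser O r) (hi : 1 ≤ i) : ∀ x ∈ O i, ∀ y ∈ O i, ⁅x, y⁆ ∈ O (i + 1) :=
  fun x hx y hy => h.cen i hi x (h.le hi hx) y hy

theorem end_congr (h : Ser O r) (e : End O i φ) {x y : U} (hx : x ∈ O i)
    (hxy : Cg (O (i + 1)) x y) : Cg (O (i + 1)) (φ x) (φ y) := by
  obtain ⟨o, ho, rfl⟩ := hxy.exists_eq
  exact (Cg.mul_mem (e.low o ho) (φ x)).trans (e.mul x hx o (h.anti i ho)).symm

theorem end_inv (e : End O i φ) {x : U} (hx : x ∈ O i) :
    Cg (O (i + 1)) (φ x⁻¹) (φ x)⁻¹ := by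
  have h1 := e.mul x hx x⁻¹ ((O i).inv_mem hx)
  rw [mul_inv_cancel] at h1
  have h2 := (h1.mem_iff le_rfl).1 (e.low 1 (O (i + 1)).one_mem)
  refine Cg.symm ?_
  simpa [Cg] using h2

theorem end_id : End O i fun x => x :=
  ⟨fun _ h => h, fun _ h => h, fun _ _ _ _ => Cg.refl _, fun _ _ _ _ => Cg.refl _⟩

theorem end_one : End O i fun _ => 1 :=
  ⟨fun _ _ => (O i).one_mem, fun _ _ => (O (i + 1)).one_mem, fun _ _ _ _ => Cg.of_eq (by simp),
    fun _ _ _ _ => Cg.of_eq (by simp)⟩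

theorem end_mul (h : Ser O r) (hi : 1 ≤ i) (e : End O i φ) (e' : End O i φ') :
    End O i fun x => φ x * φ' x := by
  refine ⟨fun x hx => (O i).mul_mem (e.mem x hx) (e'.mem x hx),
    fun x hx => (O (i + 1)).mul_mem (e.low x hx) (e'.low x hx), fun x hx y hy => ?_,
    fun y hy x hx => ?_⟩
  · exact (Cg.mul (nm_cg (nm_layer h i) (e'.mem _ ((O i).mul_mem hx hy))) (e.mul x hx y hy)
      (e'.mul x hx y hy)).trans
      (mul4 (nm_layer h i) (cm_layer h hi) _ (e.mem y hy) (e'.mem x hx) (e'.mem y hy))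
  · exact (Cg.mul (nm_cg (nm_layer h i) (e'.mem _ (h.nm i y hy x hx))) (e.eqv y hy x hx)
      (e'.eqv y hy x hx)).trans (Cg.of_eq (by group))

theorem end_pow (h : Ser O r) (hi : 1 ≤ i) (e : End O i φ) (k : ℕ) :
    End O i fun x => φ x ^ k := by
  induction k with
  | zero => simpa using end_one
  | succ k ih => simpa only [pow_succ] using end_mul h hi ih e

theorem end_comp (h : Ser O r) (e : End O i φ) (e' : End O i φ') :
    End O i fun x => φ (φ' x) := by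
  refine ⟨fun x hx => e.mem _ (e'.mem x hx), fun x hx => e.low _ (e'.low x hx),
    fun x hx y hy => ?_, fun y hy x hx => ?_⟩
  · exact (end_congr h e (e'.mem _ ((O i).mul_mem hx hy)) (e'.mul x hx y hy)).trans
      (e.mul _ (e'.mem x hx) _ (e'.mem y hy))
  · exact (end_congr h e (e'.mem _ (h.nm i y hy x hx)) (e'.eqv y hy x hx)).trans
      (e.eqv y hy _ (e'.mem x hx))

end

section
variable {g : Sg U} {p : ℕ}

theorem keep (h : g.Ch p) {i : ℕ} (h0 : g.i0 ≤ i) (h1 : i < g.i1) {φ : U → U}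
    (e : End g.O i φ) (b : ℕ) (hb : g.b0 i ≤ b) :
    b ≤ g.b0 (i + 1) → ∀ x ∈ g.D p b, φ x ∈ g.D p b := by
  induction b, hb using Nat.le_induction with
  | base =>
    intro _
    rw [h.eqO i h0 h1.le]
    exact e.mem
  | succ b hb ih =>
    intro hb'
    have ih := ih (by omega)
    have hd : g.i0 + b / g.L = i + 1 := by
      have : b / g.L = i - g.i0 + 1 := by
        refine Nat.div_eq_of_lt_le ?_ ?_
        · rw [mul_comm]; exact hb
        · have : i + 1 - g.i0 + 1 = i - g.i0 + 1 + 1 := by omega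
          rw [mul_comm, ← this]; exact hb'
      omega
    have hl : g.O (i + 1) ≤ g.D p (b + 1) := hd ▸ h.low b
    have hu : g.D p b ≤ g.O i := h.eqO i h0 h1.le ▸ h.anti _ _ hb
    have hn := nm_layer h.ser i
    let K : Subgroup U :=
      { carrier := {x | x ∈ g.O i ∧ φ x ∈ g.D p (b + 1)}
        one_mem' := ⟨(g.O i).one_mem, hl (e.low 1 (g.O (i + 1)).one_mem)⟩
        mul_mem' := fun {x y} hx hy => ⟨(g.O i).mul_mem hx.1 hy.1,
          ((e.mul x hx.1 y hy.1).mem_iff hl).2 ((g.D p (b + 1)).mul_mem hx.2 hy.2)⟩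
        inv_mem' := fun {x} hx => ⟨(g.O i).inv_mem hx.1,
          ((end_inv e hx.1).mem_iff hl).2 ((g.D p (b + 1)).inv_mem hx.2)⟩ }
    have hK : g.O (i + 1) ≤ K := fun x hx => ⟨h.ser.anti i hx, hl (e.low x hx)⟩
    have : g.D p (b + 1) ≤ K := by
      rw [Sg.D, hd]
      refine sup_le hK ((Subgroup.closure_le K).2 ?_)
      rintro z (⟨x, hx, rfl⟩ | ⟨x, hx, y, hy, rfl⟩)
      · exact hK (h.pw i h0 h1 x (hu hx))
      · have hx' := hu hx
        have hy' : y ∈ g.O 0 := h.syl.hi hy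
        have hc : y * x⁻¹ * y⁻¹ ∈ g.O i := h.ser.nm i y hy' _ ((g.O i).inv_mem hx')
        have he : ⁅x, y⁆ = x * (y * x⁻¹ * y⁻¹) := by simp [commutatorElement_def, mul_assoc]
        have h2 : Cg (g.O (i + 1)) (φ (x * (y * x⁻¹ * y⁻¹))) ⁅φ x, y⁆ :=
          (e.mul x hx' _ hc).trans (((e.eqv y hy' _ ((g.O i).inv_mem hx')).trans
            (((end_inv e hx').left y).right (nm_cg (h.ser.nm (i + 1))
              ((g.O 0).inv_mem hy')))).left (φ x) |>.trans
            (Cg.of_eq (by simp [commutatorElement_def, mul_assoc])))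
        rw [he]
        exact ⟨(g.O i).mul_mem hx' hc, (h2.mem_iff hl).2 (h.cm b _ (ih x hx) y hy)⟩
    exact fun x hx => (this hx).2

theorem act (h : g.Ch p) {φ : ℕ → U → U} (hφ : ∀ i, g.i0 ≤ i → i < g.i1 → End g.O i (φ i))
    (k : ℕ) : Act (g.D p) g.s fun b x => if b < g.L then x ^ k else φ (g.i0 + b / g.L - 1) x := by
  have key : ∀ b, b < g.s → ¬ b < g.L → ∃ i, g.i0 + b / g.L - 1 = i ∧ g.i0 + b / g.L = i + 1 ∧
      g.i0 ≤ i ∧ i < g.i1 ∧ g.b0 i ≤ b ∧ b < g.b0 (i + 1) := fun b hs hL => by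
    have a1 : 1 ≤ b / g.L := (Nat.le_div_iff_mul_le h.pos).2 (by omega)
    have a2 : b / g.L < g.i1 - g.i0 + 1 := Nat.div_lt_of_lt_mul hs
    have a3 := h.le
    refine ⟨_, rfl, by omega, by omega, by omega, ?_, ?_⟩
    · have : g.i0 + b / g.L - 1 - g.i0 + 1 = b / g.L := by omega
      rw [Sg.b0, this]
      exact Nat.mul_div_le b g.L
    · have : g.i0 + b / g.L - 1 + 1 - g.i0 + 1 = b / g.L + 1 := by omega
      rw [Sg.b0, this]
      exact Nat.lt_mul_div_succ b h.pos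
  refine ⟨fun b hs x hx => ?_, fun b hs x hx => ?_, fun b hs x hx y hy => ?_⟩
  · split_ifs with hL
    · exact Subgroup.pow_mem _ hx k
    · obtain ⟨i, e, -, h0, h1, b0, b1⟩ := key b hs hL
      rw [e]
      exact keep h h0 h1 (hφ i h0 h1) b b0 b1.le x hx
  · split_ifs with hL
    · exact Subgroup.pow_mem _ hx k
    · obtain ⟨i, e, -, h0, h1, b0, b1⟩ := key b hs hL
      rw [e]
      exact keep h h0 h1 (hφ i h0 h1) (b + 1) (by omega) b1 x hx
  · have hD : g.D p b ≤ g.D0 := h.anti 0 b (Nat.zero_le b)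
    split_ifs with hL
    · exact mul_pow_cg (fun z hz => h.nm (b + 1) z (hD hz)) (fun z hz w hw => h.cm b z hz w (hD hw))
        hx hy k
    · obtain ⟨i, e, e', h0, h1, b0, -⟩ := key b hs hL
      have hu : g.D p b ≤ g.O i := h.eqO i h0 h1.le ▸ h.anti _ _ b0
      rw [e]
      exact ((hφ i h0 h1).mul x (hu hx) y (hu hy)).mono (e' ▸ h.low b)

end

theorem aF_ext {p n : ℕ} {β : Bs U p n} {D : ℕ → Subgroup U} {s : ℕ} (hβ : β.OK D s)
    {F G : ℕ → U → U} {c : ZMod p}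
    (h : ∀ b, b < s → ∀ x ∈ D b, c • β.kap b (F b x) = β.kap b (G b x)) :
    c • β.aF F = β.aF G := by
  ext α γ
  simp only [Bs.aF, Matrix.smul_apply, Matrix.of_apply]
  split_ifs with hγ
  · exact congrFun (h _ (hβ.mem γ hγ).1 _ (hβ.mem γ hγ).2) α
  · exact smul_zero _

end TREL

open TREL in
theorem s_REL (p n : ℕ) [Fact p.Prime] (hK : S_LINK p n) (hA : S_AF p n) : S_REL p n := by
  intro U _ g β h hβ
  have hanti : ∀ b, g.D p (b + 1) ≤ g.D p b := fun b => h.anti _ _ (Nat.le_succ b)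
  have hk := (hK U β _ _ hβ hanti).1
  have ha := (hA U β _ _ hβ hanti).2.2
  have hpow : ∀ b, b < g.s → ∀ x ∈ g.D p b, ∀ k : ℕ,
      β.kap b (x ^ k) = (k : ZMod p) • β.kap b x := fun b hb x hx => ((hk b hb).2 x hx).2.1
  have hi : ∀ i, g.i0 ≤ i → 1 ≤ i := fun i hi => h.lo.trans hi
  refine ⟨fun φ hφ k => act h hφ k, ⟨fun _ _ => 1, fun _ _ _ => end_one, ?_⟩,
    ⟨fun _ x => x, fun _ _ _ => end_id, ?_⟩, ?_⟩
  · rw [← zero_smul (ZMod p) (β.aF fun _ x => x)]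
    refine aF_ext hβ fun b hb x _ => ?_
    simp [(hk b hb).1]
  · simp [ZMod.val_one]
  rintro _ χ ⟨φ, hφ, rfl⟩
  have A := act h hφ χ.val
  refine ⟨fun c => ⟨fun i x => φ i x ^ c.val,
    fun i h0 h1 => end_pow h.ser (hi i h0) (hφ i h0 h1) _, aF_ext hβ fun b hb x hx => ?_⟩, ?_⟩
  · have hm := A.mem b hb x hx
    split_ifs at hm ⊢ with hL
    · rw [hpow b hb x hx, hpow b hb x hx, smul_smul, ZMod.natCast_zmod_val, ZMod.natCast_zmod_val]
    · rw [hpow b hb _ hm, ZMod.natCast_zmod_val]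
  rintro _ χ' ⟨φ', hφ', rfl⟩
  have A' := act h hφ' χ'.val
  obtain ⟨e1, e2, -⟩ := (ha _ A).2 _ A'.mem
  refine ⟨⟨fun i x => φ i x * φ' i x,
    fun i h0 h1 => end_mul h.ser (hi i h0) (hφ i h0 h1) (hφ' i h0 h1), ?_⟩,
    ⟨fun i x => φ i (φ' i x), fun i h0 h1 => end_comp h.ser (hφ i h0 h1) (hφ' i h0 h1), ?_⟩⟩
  · rw [← e2, ← one_smul (ZMod p) (β.aF _)]
    refine aF_ext hβ fun b hb x hx => ?_
    rw [one_smul]
    split_ifs with hL
    · rw [← pow_add, hpow b hb x hx, hpow b hb x hx, Nat.cast_add, ZMod.natCast_zmod_val,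
        ZMod.natCast_zmod_val, ZMod.natCast_zmod_val]
    · rfl
  · rw [← e1, ← one_smul (ZMod p) (β.aF _)]
    refine aF_ext hβ fun b hb x hx => ?_
    rw [one_smul]
    split_ifs with hL
    · rw [← pow_mul, hpow b hb x hx, hpow b hb x hx, Nat.cast_mul, ZMod.natCast_zmod_val,
        ZMod.natCast_zmod_val, ZMod.natCast_zmod_val, mul_comm]
    · rfl

end Pool.Agent.P.MP_f1a348_lc.PS
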