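import Mathlib

/-!
A complement lemma above a subgroup that contains all commutators and all `p`-th powers.
-/

namespace Pool.Agent.P.MP_f1a348_lc.PS

open Subgroup
open scoped commutatorElement

theorem cob {W : Type*} [Group W] [Finite W] {p : ℕ} (hp : p.Prime) (M N : Subgroup W)
    (h1 : ∀ a b : W, ⁅a, b⁆ ∈ N) (h2 : ∀ a : W, a ^ p ∈ N) (h3 : N ⊓ M = ⊥) :
    ∃ S : Subgroup W, N ≤ S ∧ S ⊓ M = ⊥ ∧ S ⊔ M = ⊤ := by
  obtain ⟨S, hN, hS⟩ := exists_maximal_ge_of_wellFoundedGT (fun S : Subgroup W => S ⊓ M = ⊥) N h3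
  refine ⟨S, hN, hS.1, eq_top_iff.2 fun w _ => by_contra fun hw => hw ?_⟩
  have : S.Normal := ⟨fun s hs g => by
    simpa [commutatorElement_def] using S.mul_mem (hN (h1 g s)) hs⟩
  refine mem_sup_left (hS.2 (y := S ⊔ zpowers w) (eq_bot_iff.2 fun x hx => ?_) le_sup_left
    (mem_sup_right (mem_zpowers w)))
  obtain ⟨s, hs, y, hy, rfl⟩ := mem_sup_of_normal_left.1 hx.1
  obtain ⟨k, rfl⟩ := (mem_powers_iff_mem_zpowers.2 hy)
  by_cases hk : p ∣ k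
  · obtain ⟨j, rfl⟩ := hk
    refine hS.1.le ⟨S.mul_mem hs ?_, hx.2⟩
    simp only [pow_mul]
    exact S.pow_mem (hN (h2 w)) j
  · have h4 : w ^ k ∈ S ⊔ M := by
      simpa using mul_mem (mem_sup_left (S.inv_mem hs) : _ ∈ S ⊔ M) (mem_sup_right hx.2)
    have h5 : w ^ p ∈ S ⊔ M := mem_sup_left (hN (h2 w))
    have h6 := mul_mem (zpow_mem h5 (Nat.gcdA p k)) (zpow_mem h4 (Nat.gcdB p k))
    rw [← zpow_natCast, ← zpow_natCast, ← zpow_mul, ← zpow_mul, ← zpow_add,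
      ← Nat.gcd_eq_gcd_ab, (Nat.coprime_iff_gcd_eq_one.1 ((Nat.Prime.coprime_iff_not_dvd hp).2 hk)),
      Nat.cast_one, zpow_one] at h6
    exact absurd h6 hw

end Pool.Agent.P.MP_f1a348_lc.PS
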