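import Mathlib

/-!
The complement theorem of Gaschütz for an abelian normal subgroup.
-/

namespace Pool.Agent.P.MP_f1a348_lc.PS

open Subgroup

/-- A crossed homomorphism on `Q ⊔ V` that is the identity on `V`. -/
theorem gasch_cocycle {E : Type*} [Group E] (V Q : Subgroup E) [V.Normal]
    (hc : ∀ a ∈ V, ∀ b ∈ V, a * b = b * a) (hQ : Q ⊓ V = ⊥) :
    ∃ π : E → V, (∀ v : V, π v = v) ∧ ∀ h ∈ Q ⊔ V, ∀ h' ∈ Q ⊔ V,
      π (h * h') = π h * MulAut.conjNormal h (π h') := by
  have h1 : ∀ h ∈ Q ⊔ V, ∃ v : V, (v : E)⁻¹ * h ∈ Q := fun h hh => by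
    rw [sup_comm, mem_sup_of_normal_left] at hh
    obtain ⟨v, hv, q, hq, rfl⟩ := hh
    exact ⟨⟨v, hv⟩, by simpa using hq⟩
  choose! π hπ using h1
  have h2 : ∀ h ∈ Q ⊔ V, ∀ v : V, (v : E)⁻¹ * h ∈ Q → π h = v := fun h hh v hv => by
    have h3 : (v : E)⁻¹ * π h ∈ Q ⊓ V :=
      ⟨by simpa [mul_assoc] using Q.mul_mem hv (Q.inv_mem (hπ h hh)),
        V.mul_mem (V.inv_mem v.2) (π h).2⟩
    rw [hQ, mem_bot, inv_mul_eq_one] at h3
    exact Subtype.ext h3.symm
  refine ⟨π, fun v => h2 _ (mem_sup_right v.2) v (by simp), fun h hh h' hh' => ?_⟩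
  refine h2 _ (mul_mem hh hh') _ ?_
  rw [coe_mul, hc _ (π h).2 _ (MulAut.conjNormal h (π h')).2, MulAut.conjNormal_apply]
  have := Q.mul_mem (hπ h hh) (hπ h' hh')
  simpa [mul_assoc] using this

/-- The theorem of Gaschütz. -/
theorem gasch {E : Type*} [Group E] [Finite E] (V Q : Subgroup E) [V.Normal]
    (hc : ∀ a ∈ V, ∀ b ∈ V, a * b = b * a) {p : ℕ} (hV : ∀ v ∈ V, v ^ p = 1) (hQ : Q ⊓ V = ⊥)
    (hp : Nat.Coprime p (Q ⊔ V).index) : ∃ K : Subgroup E, K ⊓ V = ⊥ ∧ K ⊔ V = ⊤ := by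
  classical
  obtain ⟨π, π1, π2⟩ := gasch_cocycle V Q hc hQ
  let : CommGroup V := { (inferInstance : Group V) with
    mul_comm := fun a b => Subtype.ext (hc _ a.2 _ b.2) }
  have := Fintype.ofFinite (E ⧸ (Q ⊔ V))
  have hm : ∀ (g : E) (x : E ⧸ (Q ⊔ V)), (g • x).out⁻¹ * (g * x.out) ∈ Q ⊔ V := fun g x => by
    rw [← QuotientGroup.eq, QuotientGroup.out_eq', ← smul_eq_mul, MulAction.Quotient.mk_smul_out]
  let c : E → V := fun g => ∏ x : E ⧸ (Q ⊔ V),
    MulAut.conjNormal (g • x).out (π ((g • x).out⁻¹ * (g * x.out)))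
  have c1 : ∀ g g', c (g * g') = c g * MulAut.conjNormal g (c g') := fun g g' => by
    simp only [c, map_prod]
    rw [← Equiv.prod_comp (MulAction.toPerm g') fun x : E ⧸ (Q ⊔ V) =>
      MulAut.conjNormal (g • x).out (π ((g • x).out⁻¹ * (g * x.out))),
      ← Finset.prod_mul_distrib]
    refine Finset.prod_congr rfl fun x _ => ?_
    have e : ((g * g') • x).out⁻¹ * (g * g' * x.out) =
        ((g • g' • x).out⁻¹ * (g * (g' • x).out)) * ((g' • x).out⁻¹ * (g' * x.out)) := by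
      rw [mul_smul]
      group
    rw [e, π2 _ (hm _ _) _ (hm _ _), map_mul, mul_smul, MulAction.toPerm_apply,
      ← MulAut.mul_apply, ← MulAut.mul_apply, ← map_mul, ← map_mul, mul_inv_cancel_left]
  have c2 : ∀ v : V, c v = v ^ (Q ⊔ V).index := fun v => by
    rw [index_eq_card, Nat.card_eq_fintype_card, ← Finset.card_univ, ← Finset.prod_const]
    refine Finset.prod_congr rfl fun x _ => ?_
    have e : ((v : E) • x) = x := by
      rw [← QuotientGroup.out_eq' x, MulAction.Quotient.smul_mk, QuotientGroup.eq]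
      exact mem_sup_right (by
        simpa [mul_assoc] using ‹V.Normal›.conj_mem' _ (V.inv_mem v.2) x.out)
    have e2 : x.out⁻¹ * (v * x.out) = (MulAut.conjNormal x.out⁻¹ v : V) := by
      simp [mul_assoc]
    rw [e, e2, π1, ← MulAut.mul_apply, ← map_mul, mul_inv_cancel, map_one, MulAut.one_apply]
  have c3 : c 1 = 1 := by simpa using c2 1
  have c4 : ∀ v w : V, MulAut.conjNormal (v : E) w = w := fun v w =>
    Subtype.ext (by rw [MulAut.conjNormal_apply, hc _ v.2 _ w.2, mul_inv_cancel_right])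
  have c5 : Function.Injective fun v : V => v ^ (Q ⊔ V).index := by
    refine (injective_iff_map_eq_one (powMonoidHom (Q ⊔ V).index : V →* V)).2 fun v hv => ?_
    have h1 : v ^ p = 1 := Subtype.ext (hV _ v.2)
    have := (pow_gcd_eq_one (a := v)).2 ⟨h1, hv⟩
    rwa [hp, pow_one] at this
  let K : Subgroup E :=
    { carrier := {g | c g = 1}
      one_mem' := c3
      mul_mem' := fun {a b} ha hb => by
        have ha' : c a = 1 := ha
        have hb' : c b = 1 := hb
        change c (a * b) = 1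
        rw [c1, ha', hb', map_one, mul_one]
      inv_mem' := fun {a} ha => by
        have ha' : c a = 1 := ha
        have := c1 a⁻¹ a
        rw [inv_mul_cancel, c3, ha', map_one, mul_one] at this
        exact this.symm }
  refine ⟨K, eq_bot_iff.2 fun g hg => ?_, eq_top_iff.2 fun g _ => ?_⟩
  · have h1 : c (⟨g, hg.2⟩ : V) = 1 := hg.1
    rw [c2] at h1
    exact congrArg Subtype.val (c5 (a₁ := ⟨g, hg.2⟩) (a₂ := 1) (by simpa using h1))
  · obtain ⟨v, hv⟩ := Finite.surjective_of_injective c5 (c g)⁻¹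
    have h1 : v * g ∈ K := by
      change c (v * g) = 1
      rw [c1, c2, c4]
      exact mul_eq_one_iff_eq_inv.2 hv
    simpa using mul_mem (mem_sup_right (V.inv_mem v.2) : _ ∈ K ⊔ V) (mem_sup_left h1)

end Pool.Agent.P.MP_f1a348_lc.PS
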