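import Pool.Agent.P.MP_f1a348_lc.PS.Iface
import Pool.Agent.P.MP_f1a348_lc.PS.Gasch
import Pool.Agent.P.MP_f1a348_lc.PS.Cocyc

/-!
Project PS: complements in sections and the existence of repairs.
-/

namespace Pool.Agent.P.MP_f1a348_lc.PS

open GI (gen Cg FP)
open UP (Rec up topI SolvMod Nm Val GG SA UG)
open scoped commutatorElement Matrix

namespace TREP
variable {Γ : Type} [Group Γ]

theorem normal_of {E N : Subgroup Γ} (h : Nm E N) : (N.subgroupOf E).Normal :=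
  ⟨fun n hn g => h g g.2 n hn⟩

/-- a complement in the quotient gives a complement in the section -/
theorem pull {N M E : Subgroup Γ} [(N.subgroupOf E).Normal] (hN : N ≤ M) (hM : M ≤ E)
    (K : Subgroup (E ⧸ N.subgroupOf E))
    (h1 : K ⊓ (M.subgroupOf E).map (QuotientGroup.mk' _) = ⊥)
    (h2 : K ⊔ (M.subgroupOf E).map (QuotientGroup.mk' _) = ⊤) :
    ∃ S, N ≤ S ∧ S ≤ E ∧ S ⊓ M ≤ N ∧ E ≤ S ⊔ M := by
  refine ⟨(K.comap (QuotientGroup.mk' _)).map E.subtype, fun n hn => ⟨⟨n, hM (hN hn)⟩, ?_, rfl⟩,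
    Subgroup.map_subtype_le _, ?_, ?_⟩
  · show QuotientGroup.mk' (N.subgroupOf E) ⟨n, hM (hN hn)⟩ ∈ K
    rw [QuotientGroup.mk'_apply, (QuotientGroup.eq_one_iff (N := N.subgroupOf E) _).2 hn]
    exact K.one_mem
  · rintro x ⟨⟨y, hy, rfl⟩, hx⟩
    have : QuotientGroup.mk' (N.subgroupOf E) y ∈ (⊥ : Subgroup (E ⧸ N.subgroupOf E)) :=
      h1 ▸ ⟨hy, y, hx, rfl⟩
    exact (QuotientGroup.eq_one_iff (N := N.subgroupOf E) y).1 this
  · have e := Subgroup.comap_sup_eq (QuotientGroup.mk' (N.subgroupOf E)) K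
      ((M.subgroupOf E).map (QuotientGroup.mk' _)) (QuotientGroup.mk'_surjective _)
    rw [h2, Subgroup.comap_top, Subgroup.comap_map_eq, QuotientGroup.ker_mk',
      sup_eq_left.2 (show N.subgroupOf E ≤ M.subgroupOf E from fun _ h => hN h)] at e
    have e' := congrArg (Subgroup.map E.subtype) e
    rw [Subgroup.map_sup, ← MonoidHom.range_eq_map, Subgroup.range_subtype,
      Subgroup.subgroupOf_map_subtype] at e'
    exact e'.ge.trans (sup_le_sup le_rfl inf_le_left)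

theorem nm_of_comm {G W S : Subgroup Γ} (hS : S ≤ W) (h : ∀ a ∈ W, ∀ b ∈ G, ⁅a, b⁆ ∈ S) :
    Nm G S := fun g hg s hs => by
  simpa [commutatorElement_def, mul_assoc] using S.mul_mem (S.inv_mem (h s (hS hs) g hg)) hs

end TREP

open TREP

theorem s_CMPR : S_CMPR := by
  intro Γ _ p N M W hp _ hN hM h1 h2
  have := normal_of (nm_of_comm (hN.trans hM) h1)
  obtain ⟨K, -, k1, k2⟩ := cob hp ((M.subgroupOf W).map (QuotientGroup.mk' (N.subgroupOf W))) ⊥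
    (fun a b => by
      obtain ⟨a, rfl⟩ := QuotientGroup.mk'_surjective _ a
      obtain ⟨b, rfl⟩ := QuotientGroup.mk'_surjective _ b
      rw [← map_commutatorElement]
      exact (QuotientGroup.eq_one_iff _).2 (h1 a a.2 b b.2))
    (fun a => by
      obtain ⟨a, rfl⟩ := QuotientGroup.mk'_surjective _ a
      rw [← map_pow]
      exact (QuotientGroup.eq_one_iff _).2 (h2 a a.2)) (bot_inf_eq _)
  exact pull hN hM K k1 k2

theorem s_GASR : S_GASR := by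
  intro Γ _ p N M Q E _ hN hM n1 n2 h1 h2 hQ hE hI hp
  have := normal_of n1
  have := (normal_of n2).map _ (QuotientGroup.mk'_surjective (N.subgroupOf E))
  obtain ⟨K, k1, k2⟩ := gasch (p := p) ((M.subgroupOf E).map (QuotientGroup.mk' (N.subgroupOf E)))
    ((Q.subgroupOf E).map (QuotientGroup.mk' (N.subgroupOf E)))
    (by
      rintro _ ⟨a, ha, rfl⟩ _ ⟨b, hb, rfl⟩
      rw [← commute_iff_eq, ← commutatorElement_eq_one_iff_commute, ← map_commutatorElement]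
      exact (QuotientGroup.eq_one_iff _).2 (h1 a ha b hb))
    (by
      rintro _ ⟨a, ha, rfl⟩
      rw [← map_pow]
      exact (QuotientGroup.eq_one_iff _).2 (h2 a ha))
    (by
      refine eq_bot_iff.2 ?_
      rintro _ ⟨⟨a, ha, e⟩, b, hb, rfl⟩
      have h3 : (a : Γ)⁻¹ * b ∈ N := (QuotientGroup.eq (s := N.subgroupOf E)).1 e
      have h4 : (b : Γ) ∈ Q := by simpa using Q.mul_mem ha (hQ h3)
      exact (QuotientGroup.eq_one_iff _).2 (hI ⟨h4, hb⟩))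
    (by
      rwa [← Subgroup.map_sup, ← Subgroup.subgroupOf_sup hE hM, Subgroup.index_map_eq _
        (QuotientGroup.mk'_surjective _) (by
          rw [QuotientGroup.ker_mk']
          exact Subgroup.comap_mono (hN.trans le_sup_right))])
  exact pull hN hM K k1 k2

theorem s_REP (hG : S_GR1) (hD : S_DEV) (hB : S_BIL) (hS : S_SECT) : S_REP := by
  intro U _ p ψ hp
  refine ⟨fun A B B1 T0 T1 hc hz h1 h2 => ?_, fun Y O O' D hc hO hY hi h0 => ?_⟩
  · have d := hD U p A B1 T0 T1 ψ hc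
    obtain ⟨b1, b2⟩ := (hB U p A B B1 T0 T1 ψ hc hz).2.2 h1
    have mA := d.memA A hc.lB le_rfl
    have mB := d.memA B hz.lo hz.hi
    have m1 := d.memA B1 le_rfl hc.lB
    have hW : Gr ψ B T0 ≤ Gr ψ A T0 := fun δ h =>
      (mA δ).2 ⟨hz.hi ((mB δ).1 h).1, ((mB δ).1 h).2⟩
    have := d.fin
    obtain ⟨S, s1, s2, s3, s4⟩ := s_CMPR _ p (Gr ψ B1 T1) (Gr ψ B1 T0) (Gr ψ B T0) hp
      (Finite.of_injective _ (Subgroup.inclusion_injective hW))
      (fun δ h => (m1 δ).2 ⟨((d.memN δ).1 h).1, hc.l1 ((d.memN δ).1 h).2⟩)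
      (fun δ h => (mB δ).2 ⟨hz.lo ((m1 δ).1 h).1, ((m1 δ).1 h).2⟩)
      (fun a ha b hb => b1 a ha b (hW hb)) ((b2 hp.two_le).2 h2)
    exact hS U p A B B1 T0 T1 ψ S hc hz.lo hz.hi hz.nm s1 s2 s3 s4
      (Or.inl (nm_of_comm s2 fun a ha b hb => s1 (b1 a ha b hb)))
  · have d := hD U p Y O O O' ψ hc
    have := hc.fin
    have mY := d.memA Y hc.lB le_rfl
    have mD := d.memA D hO hY
    have mO := d.memA O le_rfl hc.lB
    have mQ := (hG U ψ D O' (Finite.of_injective _ (Subgroup.inclusion_injective hY))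
      (hc.l1.trans hO) (fun g hg => hc.n1 g (hY hg)) h0).1
    have e1 : Gr ψ D O' ⊔ Gr ψ O O = Gr ψ Y O ⊓ D.comap (MonoidHom.snd U U) := by
      refine le_antisymm (sup_le (fun δ h => ?_) fun δ h => ?_) fun δ h => ?_
      · exact ⟨(mY δ).2 ⟨hY ((mQ δ).1 h).1, hc.l1 ((mQ δ).1 h).2⟩, ((mQ δ).1 h).1⟩
      · exact ⟨(mY δ).2 ⟨hc.lB ((mO δ).1 h).1, ((mO δ).1 h).2⟩, hO ((mO δ).1 h).1⟩
      · have a : hat ψ δ.2 ∈ Gr ψ D O' := (mQ _).2 ⟨h.2, by rw [dev_hat]; exact O'.one_mem⟩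
        have b : hat ψ δ.2 ∈ Gr ψ Y O := (mY _).2 ⟨hY h.2, by rw [dev_hat]; exact O.one_mem⟩
        have c : (hat ψ δ.2)⁻¹ * δ ∈ Gr ψ O O := (mO _).2
          ⟨by simp, ((mY _).1 (mul_mem (inv_mem b) h.1)).2⟩
        simpa using mul_mem (Subgroup.mem_sup_left a : _ ∈ Gr ψ D O' ⊔ Gr ψ O O)
          (Subgroup.mem_sup_right c)
    have e2 : (Gr ψ Y O).map (MonoidHom.snd U U) = Y := by
      refine le_antisymm ?_ fun y hy =>
        ⟨hat ψ y, (mY _).2 ⟨hy, by rw [dev_hat]; exact O.one_mem⟩, rfl⟩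
      rintro _ ⟨δ, h, rfl⟩
      exact ((mY δ).1 h).1
    obtain ⟨S, s1, s2, s3, s4⟩ := s_GASR _ p (Gr ψ O O') (Gr ψ O O) (Gr ψ D O') (Gr ψ Y O) d.fin
      (fun δ h => (mO δ).2 ⟨((d.memN δ).1 h).1, hc.l1 ((d.memN δ).1 h).2⟩)
      (fun δ h => (mY δ).2 ⟨hc.lB ((mO δ).1 h).1, ((mO δ).1 h).2⟩) d.nmN d.nmM d.ab d.pw
      (fun δ h => (mQ δ).2 ⟨hO ((d.memN δ).1 h).1, ((d.memN δ).1 h).2⟩)
      (fun δ h => (mY δ).2 ⟨hY ((mQ δ).1 h).1, hc.l1 ((mQ δ).1 h).2⟩)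
      (fun δ h => (d.memN δ).2 ⟨((mO δ).1 h.2).1, ((mQ δ).1 h.1).2⟩)
      (by rwa [e1, Subgroup.inf_relIndex_left, Subgroup.relIndex_comap, e2])
    exact hS U p Y Y O O O' ψ S hc hc.lB le_rfl
      (fun g hg k hk => mul_mem (mul_mem hg hk) (inv_mem hg)) s1 s2 s3 s4 (Or.inr le_rfl)

end Pool.Agent.P.MP_f1a348_lc.PS
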