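import Pool.Agent.P.MP_f1a348_lc.PS.Iface

/-!
Project PS: graded matrices of the first certificate come from permutations.
-/

namespace Pool.Agent.P.MP_f1a348_lc.PS

open GI (gen Cg FP)
open UP (Rec up topI SolvMod Nm Val GG SA UG)
open PG (Ix Vec Mat Frm Sub c0 st l0 Par pull1 Wt key)
open scoped commutatorElement Matrix

namespace TRLIFT
variable {U : Type} [Group U]

theorem end_app {O : ℕ → Subgroup U} {r i : ℕ} (hS : Ser O r) (hi : 1 ≤ i) {u : FP U}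
    (h0 : u ∈ T0 O) (hA : Adm O u) (hF : Fx (O 0) (O 1) u) : End O i u.app := by
  have hk := fun j x => (T0_keep (O := O) j h0 x).2
  have m1 : ∀ x ∈ O i, ∀ y ∈ O 0, Cg (O (i + 1)) (u.app (x * y)) (u.app x * u.app y) :=
    fun x hx y hy => (df_iff (T0_pv (i + 1) h0) 0 x y).1 ((hA i).1 x hx y hy)
  have m2 : ∀ y ∈ O 0, ∀ x ∈ O i, Cg (O (i + 1)) (u.app (y * x)) (u.app y * u.app x) :=
    fun y hy x hx => (df_iff (T0_pv (i + 1) h0) 0 y x).1 ((hA i).2 y hy x hx)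
  refine ⟨hk i, hk (i + 1), fun x hx y hy => m1 x hx y (hS.le (Nat.zero_le i) hy),
    fun y hy x hx => ?_⟩
  have hz : y * x * y⁻¹ ∈ O i := hS.nm i y hy x hx
  have e1 := m1 _ hz y hy
  rw [inv_mul_cancel_right] at e1
  have e2 := (e1.symm.trans (m2 y hy x hx)).right
    (nm_cg (hS.nm (i + 1)) ((O 0).inv_mem (hk 0 y hy)))
  rw [mul_inv_cancel_right] at e2
  obtain ⟨o, ho, e⟩ := (hF y hy).exists_eq
  have e3 : Cg (O (i + 1)) (o * u.app x * o⁻¹) (u.app x) := by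
    have := hS.cen i hi o ho _ ((O i).inv_mem (hk i x hx))
    simpa [Cg, commutatorElement_def, mul_assoc] using this
  have e4 := (e3.left y).right (nm_cg (hS.nm (i + 1)) ((O 0).inv_mem hy))
  refine e2.trans (Cg.trans (Cg.of_eq ?_) e4)
  rw [e]
  group

theorem exists_rep (T : Subgroup U) : ∃ r : U → U, (∀ x, (r x)⁻¹ * x ∈ T) ∧
    (∀ x, ∀ o ∈ T, r (x * o) = r x) ∧ ∀ o ∈ T, r o = 1 := by
  classical
  refine ⟨fun x => if x ∈ T then 1 else (QuotientGroup.mk x : U ⧸ T).out, fun x => ?_,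
    fun x o ho => ?_, fun o ho => if_pos ho⟩
  · by_cases hx : x ∈ T
    · simp [hx]
    · simp only [if_neg hx]
      exact QuotientGroup.eq.1 (Quotient.out_eq _)
  · have : (QuotientGroup.mk (x * o) : U ⧸ T) = QuotientGroup.mk x :=
      QuotientGroup.mk_mul_of_mem x ho
    simp only [T.mul_mem_cancel_right ho, this]

theorem layer (hR : S_TRI) {O : ℕ → Subgroup U} {r i : ℕ} (hS : Ser O r) (hi : 1 ≤ i)
    {φ : U → U} (hφ : End O i φ) (hinj : ∀ o ∈ O i, φ o ∈ O (i + 1) → o ∈ O (i + 1)) :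
    ∃ u ∈ TT O i, Fx (O 0) (O i) u ∧ (∀ o ∈ O i, Cg (O (i + 1)) (u.app o) (φ o)) ∧
      ∀ o ∈ O (i + 1), u.app o = o := by
  obtain ⟨ρ, r1, r2, r3⟩ := exists_rep (O i)
  let h : U → U := fun x => ρ x * φ ((ρ x)⁻¹ * x)
  have hO : ∀ o ∈ O i, h o = φ o := fun o ho => by simp [h, r3 o ho]
  have h1 : ∀ x, Cg (O i) x (h x) := fun x => by
    have := (O i).mul_mem ((O i).inv_mem (r1 x)) (hφ.mem _ (r1 x))
    simpa [Cg, h, mul_assoc] using this
  have h2 : ∀ x, ∀ o ∈ O i, Cg (O (i + 1)) (h (x * o)) (h x * φ o) := fun x o ho => by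
    have := (hφ.mul _ (r1 x) o ho).left (ρ x)
    simpa only [h, r2 x o ho, mul_assoc] using this
  obtain ⟨u, hu, a, b, c⟩ := hR U O r i h hS hi (fun x _ => h1 x) (fun x hx o ho => ⟨by
      rw [hO o ho]; exact h2 x o ho, by
      have hx' := (O 0).inv_mem hx
      have ho' : x⁻¹ * o * x⁻¹⁻¹ ∈ O i := hS.nm i _ hx' o ho
      have e1 := h2 x _ ho'
      rw [show x * (x⁻¹ * o * x⁻¹⁻¹) = o * x by group] at e1
      have e2 := (hφ.eqv _ hx' o ho).left (h x)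
      obtain ⟨o2, ho2, e⟩ := (h1 x).exists_eq
      have hw : x⁻¹ * φ o * x⁻¹⁻¹ ∈ O i := hS.nm i _ hx' _ (hφ.mem o ho)
      have e3 : Cg (O (i + 1)) (o2 * (x⁻¹ * φ o * x⁻¹⁻¹)) ((x⁻¹ * φ o * x⁻¹⁻¹) * o2) :=
        cg_comm (hS.cen i hi _ (hS.le hi ((O i).inv_mem hw)) _ ((O i).inv_mem ho2))
      refine (e1.trans e2).trans ?_
      rw [hO o ho, e]
      refine Cg.trans (Cg.of_eq ?_) ((e3.left x).trans (Cg.of_eq ?_)) <;> group⟩)
    (fun o ho => by
      rw [hO o ho]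
      exact ⟨hinj o ho, hφ.low o⟩)
  exact ⟨u, hu, a, fun o ho => hO o ho ▸ b o (hS.le (Nat.zero_le i) ho), c⟩

theorem b0_succ (g : Sg U) {i : ℕ} (h : g.i0 ≤ i) : g.b0 (i + 1) = g.b0 i + g.L := by
  unfold Sg.b0
  rw [show i + 1 - g.i0 + 1 = (i - g.i0 + 1) + 1 by omega, Nat.mul_succ]

theorem b0_le (g : Sg U) {i : ℕ} (h : i ≤ g.i1) : g.b0 i ≤ g.s :=
  Nat.mul_le_mul_left _ (by omega)

theorem blk (g : Sg U) {i b : ℕ} (h : g.i0 ≤ i) (h1 : g.b0 i ≤ b) (h2 : b < g.b0 (i + 1)) :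
    ¬ b < g.L ∧ g.i0 + b / g.L - 1 = i := by
  have e := b0_succ g h
  have h3 : g.L ≤ g.b0 i := Nat.le_mul_of_pos_right _ (by omega)
  have h4 : b / g.L = i - g.i0 + 1 := by
    refine Nat.div_eq_of_lt_le ?_ ?_
    · rw [mul_comm]; exact h1
    · rw [mul_comm, Nat.mul_succ]; exact e ▸ h2
  exact ⟨by omega, by omega⟩

end TRLIFT

open TRLIFT

theorem s_RLIFT (p n : ℕ) [Fact p.Prime] (hR : S_TRI) (hK : S_LINK p n) (hA : S_AF p n)
    (hL : S_LAM p n) (hE : S_REL p n) : S_RLIFT p n := by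
  intro U _ g β hc hp hβ
  have _ := hK
  have hS := hc.ser
  have hD : ∀ b, g.D p (b + 1) ≤ g.D p b := fun b => hc.anti _ _ (Nat.le_succ b)
  have hD0 : ∀ b, g.D p b ≤ g.D0 := fun b => hc.anti 0 b (Nat.zero_le b)
  have hDO : ∀ b, g.D p b ≤ g.O 0 := fun b => (hD0 b).trans hc.syl.hi
  have hv : (1 : ZMod p).val = 1 := ZMod.val_one p
  obtain ⟨-, -, hA⟩ := hA U β (g.D p) g.s hβ hD
  refine ⟨fun u hu => ⟨fun _ => u.app, fun i hi _ => end_app hS (hc.lo.trans hi)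
    (g.B_le hu.1) hu.1.1.2.1 hu.2.2, ?_⟩, ?_⟩
  · have ha := (hL U g β hc hp hβ u hu.1).1
    refine (hA _ ha).2 _ (fun b hb x hx => ?_) |>.2.2 fun b hb x hx => ?_
    · split_ifs
      · exact (g.D p b).pow_mem hx _
      · exact ha.mem b hb x hx
    · split_ifs with h
      · rw [hv, pow_one]
        refine Cg.symm (hc.low b ?_)
        rw [Nat.div_eq_of_lt h]
        exact hc.cap ⟨g.D0.mul_mem (g.D0.inv_mem (hD0 b hx)) ((hu.1.2 x).2 (hD0 b hx)),
          hu.2.2 x (hDO b hx)⟩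
      · exact Cg.refl _
  · rintro a a' ⟨φ, hφ, rfl⟩ ha
    have hΦ := (hE U g β hc hβ).1 φ hφ (1 : ZMod p).val
    set Φ : ℕ → U → U := fun b x => if b < g.L then x ^ (1 : ZMod p).val
      else φ (g.i0 + b / g.L - 1) x with hΦe
    have hid : Act (g.D p) g.s (fun _ x => x) :=
      ⟨fun _ _ _ h => h, fun _ _ _ h => h, fun _ _ _ _ _ _ => Cg.refl _⟩
    have inj : ∀ b, b < g.s → ∀ x ∈ g.D p b, Φ b x ∈ g.D p (b + 1) → x ∈ g.D p (b + 1) := by
      intro b hb x hx h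
      have e1 := (hβ.ker b hb _ (hΦ.mem b hb x hx)).2 h
      rw [(hA _ hΦ).1 b hb x hx] at e1
      have e2 := (hA _ hid).1 b hb x hx
      rw [← ha, ← Matrix.mulVec_mulVec, e1, Matrix.mulVec_zero] at e2
      exact (hβ.ker b hb x hx).1 e2
    have hlay : ∀ i b, g.i0 ≤ i → g.b0 i ≤ b → b < g.b0 (i + 1) → ∀ x, Φ b x = φ i x := by
      intro i b h h1 h2 x
      obtain ⟨e1, e2⟩ := blk g h h1 h2
      simp only [hΦe, if_neg e1, e2]
    have hOD : ∀ i b, g.i0 ≤ i → i ≤ g.i1 → b < g.b0 i → g.O i ≤ g.D p (b + 1) :=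
      fun i b h h' hb => hc.eqO i h h' ▸ hc.anti _ _ hb
    have inj' : ∀ i, g.i0 ≤ i → i < g.i1 → ∀ o ∈ g.O i, φ i o ∈ g.O (i + 1) →
        o ∈ g.O (i + 1) := by
      intro i h h' o ho hh
      have : ∀ j, j ≤ g.L → o ∈ g.D p (g.b0 i + j) := by
        intro j
        induction j with
        | zero => exact fun _ => (hc.eqO i h h'.le).symm ▸ ho
        | succ j ih =>
          intro hj
          have hb : g.b0 i + j < g.b0 (i + 1) := by rw [b0_succ g h]; omega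
          refine inj _ (hb.trans_le (b0_le g h')) o (ih (by omega)) ?_
          rw [hlay i _ h (Nat.le_add_right _ _) hb]
          exact hOD (i + 1) _ (by omega) h' hb hh
      have := this g.L le_rfl
      rwa [← b0_succ g h, hc.eqO (i + 1) (by omega) h'] at this
    have main : ∀ k, g.i0 + k ≤ g.i1 → ∃ u ∈ g.B ⊓ FxG (g.O 0) (g.O 1),
        (∀ b, b < g.b0 (g.i0 + k) → ∀ x ∈ g.D p b, Cg (g.D p (b + 1)) (u.app x) (Φ b x)) ∧
        ∀ o ∈ g.O (g.i0 + k), u.app o = o := by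
      intro k
      induction k with
      | zero =>
        refine fun _ => ⟨1, Subgroup.one_mem _, fun b hb x _ => ?_, fun _ _ => rfl⟩
        have : b < g.L := by simpa [Sg.b0] using hb
        simp only [hΦe, if_pos this, hv, pow_one]
        exact Cg.refl _
      | succ k ih =>
        intro hk
        obtain ⟨u, hu, u1, u2⟩ := ih (by omega)
        have hi : g.i0 ≤ g.i0 + k := Nat.le_add_right _ _
        have h1 : 1 ≤ g.i0 + k := hc.lo.trans hi
        obtain ⟨v, hv0, v1, v2, v3⟩ := layer hR hS h1 (hφ _ hi hk) (inj' _ hi hk)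
        have hO : g.O (g.i0 + k) ≤ g.O g.i0 := hS.le hi
        have hvB : v ∈ g.B ⊓ FxG (g.O 0) (g.O 1) := by
          refine ⟨⟨TT_anti hO hv0, fun x => ?_⟩, T0_keep 0 hv0.1,
            fun x hx => (v1 x hx).mono (hS.le h1)⟩
          by_cases hx : x ∈ g.O 0
          · exact ((v1 x hx).mem_iff (hO.trans hc.syl.lo)).symm
          · rw [T0_sup hv0.1 x hx]
        refine ⟨v * u, Subgroup.mul_mem _ hvB hu, fun b hb x hx => ?_, fun o ho => ?_⟩
        · rw [FP.app_mul]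
          by_cases h : b < g.b0 (g.i0 + k)
          · exact ((v1 _ ((hu.2.1 x).2 (hDO b hx))).symm.mono (hOD _ b hi (by omega) h)).trans
              (u1 b h x hx)
          · have hx' : x ∈ g.O (g.i0 + k) :=
              hc.eqO _ hi (by omega) ▸ hc.anti _ _ (not_lt.1 h) hx
            rw [u2 x hx', hlay _ b hi (not_lt.1 h) hb]
            exact (v2 x hx').mono (hOD (g.i0 + k + 1) b (by omega) hk hb)
        · rw [FP.app_mul, u2 o (hS.anti _ ho), v3 o ho]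
    obtain ⟨u, hu, u1, -⟩ := main (g.i1 - g.i0) (by have := hc.le; omega)
    refine ⟨u, hu, ((hA _ (hL U g β hc hp hβ u hu.1).1).2 Φ hΦ.mem).2.2 fun b hb => u1 b ?_⟩
    rwa [show g.i0 + (g.i1 - g.i0) = g.i1 by have := hc.le; omega]

end Pool.Agent.P.MP_f1a348_lc.PS
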