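import Pool.Agent.P.MP_f1a348_lc.PS.PIf

/-!
Project PS: the Frattini step, the first state and the run of one stage.
-/

namespace Pool.Agent.P.MP_f1a348_lc.PS

open GI (gen Cg FP Rep sims)
open UP (Rec up topI SolvMod Nm Val GG SG SA UG Fo gS gD foD)
open PG (Ix Vec Mat Frm Sub c0 st l0 Par pull1 Wt key V Cx pp mM mV fV unL oneP)

set_option linter.unusedSectionVars false

namespace TRUN

variable {U : Type} [Group U] [DecidableEq U]

theorem keepT_iff {Dl : List U} {D : Subgroup U} (h : Rep Dl D) (t : Unit) (u : FP U) :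
    keepT Dl t u = true ↔ u ∈ Keep D := by
  have hf := h.finite
  simp only [keepT, List.all_eq_true, h.contains, h.mem]
  refine ⟨fun hu x => ⟨fun hx => ?_, hu x⟩, fun hu x hx => (hu x).2 hx⟩
  have hi : Function.Injective fun y : D => (⟨u.app y, hu y y.2⟩ : D) := fun a b e =>
    Subtype.ext (u.app_injective (congrArg Subtype.val e))
  obtain ⟨y, hy⟩ := Finite.surjective_of_injective hi ⟨_, hx⟩
  rw [← u.app_injective (congrArg Subtype.val hy)]
  exact y.2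

theorem mem_image (D : Subgroup U) (u : FP U) (y : U) :
    y ∈ u.app '' (D : Set U) ↔ u⁻¹.app y ∈ D :=
  ⟨fun ⟨x, hx, e⟩ => by rw [← e, FP.app_inv_app]; exact hx, fun h => ⟨_, h, u.app_app_inv y⟩⟩

theorem image_eq_iff (D : Subgroup U) (u v : FP U) :
    u.app '' (D : Set U) = v.app '' (D : Set U) ↔ u⁻¹ * v ∈ Keep D := by
  refine ⟨fun h x => ?_, fun h => Set.ext fun y => ?_⟩
  · rw [FP.app_mul, ← mem_image, h, mem_image, FP.app_inv_app]
  · rw [mem_image, mem_image, ← h (v⁻¹.app y), FP.app_mul, FP.app_app_inv]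

theorem small {Y : List U} {y : Subgroup U} (h : Rep Y y) {pad : Un}
    (hp : Y.length * Y.length ≤ pad.length) {W : Type} (f : U → W) :
    (f '' (y : Set U)).Finite ∧ (f '' (y : Set U)).ncard ≤ pad.length := by
  have hf := h.finite
  have hy : (y : Set U).Finite := Set.toFinite _
  refine ⟨hy.image f, (Set.ncard_image_le hy).trans ?_⟩
  have : (y : Set U).ncard = Y.length := h.card
  rw [this]
  exact (Nat.le_mul_self _).trans hp

theorem isInn_ofList {Y : List U} {y : Subgroup U} (h : Rep Y y) {a : U} (ha : a ∈ y) :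
    IsInn y a (FP.ofList (Y.map fun x => (x, a * x * a⁻¹))) := by
  refine ⟨fun x hx => FP.ofList_fix fun q hq => ?_, fun x hx =>
    FP.ofList_map (f := fun x => a * x * a⁻¹) (fun b _ c _ e => by simpa using e) ((h.mem x).2 hx)⟩
  obtain ⟨z, hz, rfl⟩ := List.mem_map.1 hq
  have hz' := (h.mem z).1 hz
  exact ⟨fun e => hx (e ▸ hz'),
    fun e => hx (e ▸ y.mul_mem (y.mul_mem ha hz') (y.inv_mem ha))⟩

theorem passF_iff {Dl : List U} {D : Subgroup U} (h : Rep Dl D) (x : U) (u : FP U) :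
    passF 1 (false, x, x, Dl) u = true ↔ Cg D x (u.app x) := h.contains _

theorem nm_fx {O : ℕ → Subgroup U} {B : Subgroup (FP U)} (hB : B ≤ T0 O) :
    Nm B (FxG (O 0) (O 1)) := fun g hg k hk => by
  have k0 := T0_keep 0 (hB hg)
  refine ⟨(Keep _).mul_mem ((Keep _).mul_mem k0 hk.1) ((Keep _).inv_mem k0), fun x hx => ?_⟩
  have := (T0_pv 1 (hB hg) _ _).2 (hk.2 _ (((Keep _).inv_mem k0 x).2 hx))
  simpa using this

end TRUN

open TRUN

theorem a_FRAT (p n : ℕ) [Fact p.Prime] (hW : A_TW) (hF : S_FRAT) : A_FRAT p n := by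
  intro U _ _ g d H
  have hY := H.repO 0
  have hD : Rep (dD d 0) g.D0 := H.repD 0 (Nat.zero_le _)
  have hF' := hF U p g Fact.out H.ch.toOK
  refine ⟨fun S hS => ?_, fun S hS => ?_, fun c hc => ?_, fun a ha => ?_⟩
  · have hle : gen S ≤ SupG (g.O 0) := hS ▸ (TT_le _).trans T0_sup
    have := ((hW U Unit (keepT (dD d 0)) (keepT (dD d 0)) (dPad d) (dO d 0) (g.O 0) [()] S hY hle
      H.pad).2 (fun _ t _ _ => ?_) (fun _ t _ _ a _ _ ha u _ _ => ?_) ⟨1, Subgroup.one_mem _,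
        fun t _ => (keepT_iff hD t 1).2 (Subgroup.one_mem _)⟩).2
    · ext u
      rw [fratP, this, hS, Sg.B, Subgroup.mem_inf]
      simp [keepT_iff hD]
    · obtain ⟨h1, h2⟩ := small hY H.pad fun a => (fun x => a * x * a⁻¹) '' (g.D0 : Set U)
      refine ⟨Set U, fun u => u.app '' (g.D0 : Set U), _, h1, h2, fun u hu _ => ⟨?_, fun v _ _ => ?_⟩⟩
      · obtain ⟨a, ha, hc⟩ := hF'.2 u⁻¹ (hS ▸ Subgroup.inv_mem _ hu)
        have hi := isInn_ofList hY ha
        refine ⟨a, ha, ?_⟩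
        exact (((image_eq_iff _ u _).2 (hc _ hi).2).trans
          (Set.image_congr fun x hx => hi.2 x (H.ch.syl.hi hx))).symm
      · rw [image_eq_iff, keepT_iff hD]
    · rw [Bool.eq_iff_iff, keepT_iff hD, keepT_iff hD]
      exact Subgroup.mul_mem_cancel_left _ ((keepT_iff hD t a).1 ha)
  · have hT : gen S ≤ T0 g.O := hS.trans g.B_le
    have h1 := H.repO 1
    have ht : ∀ {pre : List (Ts U)} {t post}, fxT (dO d 0) (dO d 1) = pre ++ t :: post →
        ∃ x ∈ g.O 0, t = (false, x, x, dO d 1) := fun {pre t post} e => by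
      have : t ∈ fxT (dO d 0) (dO d 1) := by rw [e]; simp
      obtain ⟨x, hx, rfl⟩ := List.mem_map.1 this
      exact ⟨x, (hY.mem x).1 hx, rfl⟩
    have := ((hW U (Ts U) (passF 1) (passF 1) (dPad d) (dO d 0) (g.O 0) (fxT (dO d 0) (dO d 1)) S hY
      (hT.trans T0_sup) H.pad).2 (fun _ t _ e => ?_) (fun _ t _ e a ha _ hp u _ _ => ?_)
      ⟨1, Subgroup.one_mem _, fun t h => ?_⟩).2
    · ext u
      rw [kkP, this, Subgroup.mem_inf]
      refine and_congr_right fun hu => ⟨fun h => ⟨T0_keep 0 (hT hu), fun x hx => ?_⟩, fun h t h' => ?_⟩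
      · exact (passF_iff h1 x u).1 (h _ (List.mem_map_of_mem ((hY.mem x).2 hx)))
      · obtain ⟨x, hx, rfl⟩ := List.mem_map.1 h'
        exact (passF_iff h1 x u).2 (h.2 x ((hY.mem x).1 hx))
    · obtain ⟨x, hx, rfl⟩ := ht e
      obtain ⟨h2, h3⟩ := small hY H.pad (QuotientGroup.mk : U → U ⧸ g.O 1)
      refine ⟨U ⧸ g.O 1, fun u => QuotientGroup.mk (u.app x), _, h2, h3, fun u hu _ =>
        ⟨⟨_, (T0_keep 0 (hT hu) x).2 hx, rfl⟩, fun v _ _ => ?_⟩⟩
      rw [QuotientGroup.eq, passF_iff h1, ← T0_pv 1 (hT hu), FP.app_mul, FP.app_app_inv]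
      rfl
    · obtain ⟨x, _, rfl⟩ := ht e
      rw [passF_iff h1] at hp
      rw [Bool.eq_iff_iff, passF_iff h1, passF_iff h1, ← T0_pv 1 (hT ha) x (u.app x), FP.app_mul]
      exact ⟨fun h => hp.symm.trans h, fun h => hp.trans h⟩
    · obtain ⟨x, _, rfl⟩ := List.mem_map.1 h
      exact (passF_iff h1 x 1).2 (Cg.refl x)
  · obtain ⟨a, ha, rfl⟩ := List.mem_map.1 hc
    exact ⟨a, (hY.mem a).1 ha, isInn_ofList hY ((hY.mem a).1 ha)⟩
  · exact ⟨_, List.mem_map_of_mem ((hY.mem a).2 ha), isInn_ofList hY ha⟩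

theorem a_ST0 (p n : ℕ) [Fact p.Prime] (hI : S_IMG) (hP : S_PUSH) (hL : S_LAM p n)
    (h0 : S_FULL0 p n) (hG : A_GS p n) (hF : A_FRAT p n) : A_ST0 p n := by
  intro U _ _ A P q C c0 f0 m Cert g d cf S σ hA hp H hC hm hcf hS
  have hfin := H.ch.ser.fin
  have hfs := finite_SupG (g.O 0)
  have hfB : Finite g.B := GI.finite_of_le (g.B_le.trans T0_sup)
  have hmul : ∀ a ∈ g.B, ∀ b ∈ g.B, (bsD p n d).lam (a * b) = (bsD p n d).lam a * (bsD p n d).lam b :=
    fun a ha => (hL U g _ H.ch H.pres H.bas a ha).2.2.1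
  have hB1 : gen S ≤ TT g.O 1 := hS ▸ inf_le_left.trans (TT_anti (H.ch.antiO _ _ H.ch.lo))
  obtain ⟨c1, c2, c3⟩ := hcf S hB1
  rw [hS] at c1 c2
  obtain ⟨p1, p2⟩ := hP _ _ (bsD p n d).lam q c0 g.B _ _ hmul hfB c1 c2
  have hG' := (hG U g d H).2
  have eH : gS p n (S.map (lamP d)) = img (bsD p n d).lam g.B := by rw [hG' S hS.le, hS]
  have ek := (hF U g d H).2.1 S hS.le
  have eN : gS p n ((kkP d S).map (lamP d)) = img (bsD p n d).lam (g.B ⊓ FxG (g.O 0) (g.O 1)) := by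
    rw [hG' _ (ek ▸ inf_le_left.trans hS.le), ek, hS]
  have eF : foD p n (foP d (cf S)) =
      (foG (cf S)).map fun r => (r.1, img (bsD p n d).lam r.2.1, img (bsD p n d).lam r.2.2) := by
    simp only [foD, foP, foG, List.map_map]
    refine List.map_congr_left fun r hr => ?_
    have := p1 _ (List.mem_map_of_mem hr)
    simp only [Function.comp_apply, hG' _ this.1, hG' _ this.2]
  have hlen : (foP d (cf S)).length = (cf S).length := List.length_map _
  obtain ⟨s1, s2⟩ := h0 U g _ H.ch H.pres H.bas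
  refine ⟨fun u => ?_, ?_, fun h => ?_, (foP d (cf S)).length + 1, by omega, ?_⟩
  · change u ∈ gen S ↔ _
    rw [hS]
    exact ⟨fun h => ⟨h, h.1.2⟩, fun h => h.1⟩
  · change σ⁻¹ * σ ∈ g.B
    simp
  · change ∃ u ∈ gen S, Hom (g.O 0) (σ * u)
    rwa [hS]
  · have := hA.start p n c0 m d.1 (S.map (lamP d)) ((kkP d S).map (lamP d)) (foP d (cf S))
      (R0 g (bsD p n d)) hp hC ?_ ?_ ?_ (by omega) s1 (eN.trans s2)
    · rw [eH, ← hS] at this
      exact this
    · rw [eH, eN]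
      exact Subgroup.closure_mono (Set.image_mono (inf_le_left : g.B ⊓ _ ≤ g.B))
    · rw [eH, eN]
      exact (hI _ _ _ g.B hmul).2.2.1 _ _ le_rfl (nm_fx g.B_le)
    · rw [eH, eN, eF]
      exact p2

theorem a_RUN (p n : ℕ) [Fact p.Prime] (hW : A_TW) (hF : S_FRAT) (hN : S_INS) (hA : A_FRAT p n)
    (h0 : A_ST0 p n) (hL : A_LOOP p n) : A_RUN p n := by
  intro U _ _ A P q C c0 f0 Cert g d cf s hO hp H hC hcf hS
  have hF' := hF U p g Fact.out H.ch.toOK
  obtain ⟨a1, -, a3, a4⟩ := hA U g d H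
  obtain ⟨n1, n2⟩ := hN U p g H.ch
  have I0 := h0 U A P q C c0 f0 _ Cert g d cf (fratP d s.1) s.2 hO hp H hC (by omega) hcf (a1 _ hS)
  have I := hL U A P q C c0 _ Cert g d s.2 hO hp H hC g.ins _ _ _ _ n1 (by omega) I0
  set s1 := g.ins.foldl (stepP A d) (st0 A cf d (fratP d s.1) s.2)
  have h1 : gen s1.1 ≤ TT g.O g.i1 := fun u hu =>
    ⟨g.B_le ((I.isG u).1 hu).1, ((I.isG u).1 hu).2⟩
  have e : gen (s1.1 ++ inn (dO d 0)) = TT g.O g.i1 := by
    refine le_antisymm (GI.gen_le.2 fun x hx => ?_) fun u hu => ?_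
    · rcases List.mem_append.1 hx with hx | hx
      · exact h1 (GI.mem_gen hx)
      · obtain ⟨a, ha, hi⟩ := a3 x hx
        exact (hF'.1 a ha x hi).1 _
    · obtain ⟨a, ha, hc⟩ := hF'.2 u (TT_anti (H.ch.antiO _ _ H.ch.le) hu)
      obtain ⟨c, hc1, hi⟩ := a4 a ha
      have h2 : u * c ∈ gen s1.1 := (I.isG _).2 ⟨hc c hi,
        ((TT g.O g.i1).mul_mem hu ((hF'.1 a ha c hi).1 _)).2⟩
      have h3 : u * c ∈ gen (s1.1 ++ inn (dO d 0)) :=
        GI.gen_mono (fun x hx => List.mem_append_left _ hx) h2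
      exact (Subgroup.mul_mem_cancel_right _ (GI.mem_gen (List.mem_append_right _ hc1))).1 h3
  refine ⟨?_, I.sig.1, fun ⟨u, hu, hh⟩ => ?_⟩
  · exact (hW U Unit (fun _ _ => true) (fun _ _ => true) (dPad d) (dO d 0) (g.O 0) [] _ (H.repO 0)
      (e ▸ (TT_le _).trans T0_sup) H.pad).1.trans e
  · obtain ⟨a, ha, hc⟩ := hF'.2 u hu
    obtain ⟨c, -, hi⟩ := a4 a ha
    obtain ⟨v, hv, h2⟩ := I.sol ⟨u * c, hc c hi, by
      rw [← mul_assoc]; exact (hF'.1 a ha c hi).2 _ hh⟩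
    exact ⟨v, h1 hv, h2⟩

end Pool.Agent.P.MP_f1a348_lc.PS
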