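import Pool.Agent.P.MP_f1a348_lc.PS.Iface

/-!
Project PS: a map that is right modulo `O (i + 1)` lifts to a triangular permutation.
-/

namespace Pool.Agent.P.MP_f1a348_lc.PS

open GI (gen Cg FP)
open UP (Rec up topI SolvMod Nm Val GG SA UG)
open PG (Ix Vec Mat Frm Sub c0 st l0 Par pull1 Wt key)
open scoped commutatorElement Matrix

namespace TTRI
variable {U : Type} [Group U]

open Classical in
/-- representatives of the cosets of `E`; the subgroup itself is represented by one -/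
noncomputable def rep (E : Subgroup U) (x : U) : U :=
  if x ∈ E then 1 else (QuotientGroup.mk x : U ⧸ E).out

theorem rep_cg (E : Subgroup U) (x : U) : Cg E (rep E x) x := by
  unfold rep
  split_ifs with hx
  · exact Cg.one_iff.2 hx
  · exact QuotientGroup.eq.1 (Quotient.out_eq _)

theorem rep_eq {E : Subgroup U} {x y : U} (h : Cg E x y) : rep E x = rep E y := by
  classical
  unfold rep
  rw [QuotientGroup.eq.2 h]
  exact if_congr (h.mem_iff le_rfl) rfl rfl

theorem rep_mem {E : Subgroup U} {x : U} (h : x ∈ E) : rep E x = 1 := if_pos h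

theorem t0 {O : ℕ → Subgroup U} {r i : ℕ} (hS : Ser O r) {u : FP U} (hu : u ∈ SupG (O 0))
    (ha : Fx (O 0) (O i) u) (hb : ∀ x ∈ O 0, ∀ o ∈ O (i + 1), u.app (x * o) = u.app x * o)
    (hc : ∀ o ∈ O (i + 1), u.app o = o) : u ∈ T0 O := by
  refine mem_T0.2 ⟨hu, fun j => ⟨fun x => ?_, fun x y => ?_⟩⟩
  · by_cases hx : x ∈ O 0
    · rcases le_or_gt j i with hj | hj
      · exact ((ha x hx).mem_iff (hS.le hj)).symm
      · refine ⟨fun h => ?_, fun h => ?_⟩
        · rw [← u.app_injective (hc _ (hS.le hj h))]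
          exact h
        · rw [hc _ (hS.le hj h)]
          exact h
    · rw [hu x hx]
  · have h0 : O j ≤ O 0 := hS.le (Nat.zero_le j)
    by_cases hx : x ∈ O 0 <;> by_cases hy : y ∈ O 0
    · rcases le_or_gt j i with hj | hj
      · have h1 := (ha x hx).mono (hS.le hj)
        have h2 := (ha y hy).mono (hS.le hj)
        exact ⟨fun h => (h1.trans h).trans h2.symm, fun h => (h1.symm.trans h).trans h2⟩
      · refine ⟨fun h => ?_, fun h => ?_⟩
        · obtain ⟨e, he, h'⟩ := h.exists_eq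
          rw [← hb x hx e (hS.le hj he)] at h'
          rw [u.app_injective h']
          exact Cg.mul_mem he x
        · obtain ⟨e, he, rfl⟩ := h.exists_eq
          rw [hb x hx e (hS.le hj he)]
          exact Cg.mul_mem he _
    · rw [hu y hy]
      exact ⟨fun h => (hy ((h.mem_iff h0).1 ((SupG_keep _ hu x).2 hx))).elim,
        fun h => (hy ((h.mem_iff h0).1 hx)).elim⟩
    · rw [hu x hx]
      exact ⟨fun h => (hx ((h.mem_iff h0).2 ((SupG_keep _ hu y).2 hy))).elim,
        fun h => (hx ((h.mem_iff h0).2 hy)).elim⟩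
    · rw [hu x hx, hu y hy]

theorem low {O : ℕ → Subgroup U} {r i j : ℕ} (hS : Ser O r) {u : FP U} (ha : Fx (O 0) (O i) u)
    (hj : j ≤ i) {x y : U} (hx : x ∈ O 0) (hy : y ∈ O 0) :
    Cg (O j) (u.app (x * y)) (u.app x * u.app y) :=
  ((ha _ ((O 0).mul_mem hx hy)).mono (hS.le hj)).symm.trans
    (Cg.mul (nm_cg (hS.nm j) hy) ((ha x hx).mono (hS.le hj)) ((ha y hy).mono (hS.le hj)))

end TTRI

open TTRI in
theorem s_TRI : S_TRI := by
  intro U _ O r i h hS hi h1 h2 h3
  have := hS.fin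
  have l0 : ∀ j, O j ≤ O 0 := fun j => hS.le (Nat.zero_le j)
  have hm : ∀ x ∈ O 0, h x ∈ O 0 := fun x hx => ((h1 x hx).mem_iff (l0 i)).1 hx
  have hcg : ∀ x ∈ O 0, ∀ y, Cg (O (i + 1)) x y → Cg (O (i + 1)) (h x) (h y) := fun x hx y hy => by
    obtain ⟨e, he, rfl⟩ := hy.exists_eq
    have he' := hS.anti i he
    exact (Cg.mul_mem ((h3 e he').2 he) _).trans (h2 x hx e he').1.symm
  have hcg' : ∀ x ∈ O 0, ∀ y ∈ O 0, Cg (O (i + 1)) (h x) (h y) → Cg (O (i + 1)) x y :=
    fun x hx y hy hh => by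
      obtain ⟨e, he, rfl⟩ :=
        (((h1 x hx).trans (hh.mono (hS.anti i))).trans (h1 y hy).symm).exists_eq
      have : Cg (O (i + 1)) (h x * 1) (h x * h e) := by
        simpa using hh.trans (h2 x hx e he).1
      exact Cg.mul_mem ((h3 e he).1 (Cg.one_iff.1 (this.cancel_left _))) x
  let f : U → U := fun x => rep (O (i + 1)) (h (rep (O (i + 1)) x)) * ((rep (O (i + 1)) x)⁻¹ * x)
  have fd : ∀ x ∈ O 0, Cg (O (i + 1)) (f x) (h x) := fun x hx =>
    ((Cg.mul_mem (rep_cg _ x) _).symm.trans (rep_cg _ _)).trans (hcg x hx _ (rep_cg _ x).symm).symm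
  obtain ⟨u, hu, huf⟩ := exists_perm (O 0) f
    (fun x hx => ((fd x hx).mem_iff (l0 _)).2 (hm x hx)) fun x hx y hy e => by
      have hr := rep_eq (hcg' x hx y hy ((fd x hx).symm.trans (e ▸ fd y hy)))
      simp only [f, hr] at e
      exact mul_left_cancel (mul_left_cancel e)
  have hd : ∀ x ∈ O 0, Cg (O (i + 1)) (u.app x) (h x) := fun x hx => huf x hx ▸ fd x hx
  have ha : Fx (O 0) (O i) u := fun x hx => (h1 x hx).trans ((hd x hx).symm.mono (hS.anti i))
  have hb : ∀ x ∈ O 0, ∀ o ∈ O (i + 1), u.app (x * o) = u.app x * o := fun x hx o ho => by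
    rw [huf x hx, huf _ ((O 0).mul_mem hx (l0 _ ho))]
    simp only [f, ← rep_eq (Cg.mul_mem ho x), mul_assoc]
  have hc : ∀ o ∈ O (i + 1), u.app o = o := fun o ho => by
    rw [huf o (l0 _ ho)]
    simp only [f, rep_mem ho, rep_mem ((h3 1 (O i).one_mem).2 (O (i + 1)).one_mem)]
    simp
  have hT := t0 hS hu ha hb hc
  have mid : ∀ x ∈ O 0, ∀ y ∈ O 0, Cg (O (i + 1)) (h (x * y)) (h x * h y) →
      Cg (O (i + 1)) (u.app (x * y)) (u.app x * u.app y) := fun x hx y hy hh =>
    ((hd _ ((O 0).mul_mem hx hy)).trans hh).trans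
      (Cg.mul (nm_cg (hS.nm _) (hm y hy)) (hd x hx).symm (hd y hy).symm)
  refine ⟨u, ⟨hT, fun j => ⟨fun x hx y hy => (df_iff (T0_pv _ hT) 0 x y).2 ?_,
    fun x hx y hy => (df_iff (T0_pv _ hT) 0 x y).2 ?_⟩,
    fun x hx y hy => (df_iff (T0_pv _ hT) 0 x y).2 (low hS ha le_rfl hx hy)⟩, ha, hd, hc⟩
  · simp only [wd_zero]
    rcases lt_trichotomy j i with hj | rfl | hj
    · exact low hS ha hj (l0 _ hx) hy
    · exact mid x (l0 _ hx) y hy (h2 y hy x hx).2
    · have hz : y⁻¹ * x * y ∈ O j := nm_cg (hS.nm j) hy x hx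
      obtain ⟨e, he, h'⟩ := (ha y hy).exists_eq
      have e1 : x * y = y * (y⁻¹ * x * y) := by group
      have e2 : x * (y * e) = y * (y⁻¹ * x * y * e) := by group
      rw [e1, hb y hy _ (hS.le hj hz), hc x (hS.le hj hx), h', e2, mul_assoc y]
      exact (cg_comm (hS.cen j (by omega) _ ((O 1).inv_mem (hS.le hi he)) _
        ((O j).inv_mem hz))).symm.left y
  · simp only [wd_zero]
    rcases lt_trichotomy j i with hj | rfl | hj
    · exact low hS ha hj hx (l0 _ hy)
    · exact mid x hx y (l0 _ hy) (h2 x hx y hy).1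
    · rw [hb x hx y (hS.le hj hy), hc y (hS.le hj hy)]
      exact Cg.refl _

end Pool.Agent.P.MP_f1a348_lc.PS
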