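import Pool.Agent.P.MP_f1a348_lc.PS.PIf
import Pool.Agent.P.MP_f1a348_lc.GI.Sims
import Pool.Agent.P.MP_f1a348_lc.GI.Tower
import Pool.Agent.P.MP_f1a348_lc.GI.PTA

/-!
Project PS: towers in the group of permutations of a finite group.
-/

namespace Pool.Agent.P.MP_f1a348_lc.PS

open GI (gen Cg FP Rep sims tower towerStep bfs mem_gen gen_le)
open UP (Nm)

namespace TTW

theorem step_mem {G Ω τ : Type} [Group G] [DecidableEq G] [MulAction G Ω] [DecidableEq Ω]
    {mem pass : τ → G → Bool} {pad : List Unit} {base : List Ω} {st : Option (G × List G)} {t : τ}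
    {W : Subgroup G} (h : ∀ s ∈ st, s.1 ∈ W ∧ gen s.2 ≤ W) :
    ∀ s ∈ towerStep mem pass pad base st t, s.1 ∈ W ∧ gen s.2 ≤ W := by
  intro s' hs'
  obtain ⟨s, hs, h1⟩ := Option.bind_eq_some_iff.1 hs'
  obtain ⟨g, hg, rfl⟩ := Option.map_eq_some_iff.1 h1
  obtain ⟨a1, hle⟩ := h s hs
  have hb : ∀ x ∈ bfs pad (mem t) s.2, x ∈ gen s.2 := (GI.bfsIter_inv _ _ _).1
  refine ⟨?_, gen_le.2 fun x hx => ?_⟩
  · obtain ⟨r, hr, rfl⟩ := List.mem_map.1 (List.mem_of_find?_eq_some hg)
    exact W.mul_mem a1 (hle (hb r hr))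
  · refine (gen_le.2 fun y hy => ?_ : gen _ ≤ W) (GI.sims_mem hx)
    obtain ⟨r', hr', s, hs, r, hr, rfl⟩ := GI.mem_schTriples.1 (List.mem_filter.1 hy).1
    refine W.mul_mem (W.mul_mem (W.inv_mem (hle (hb _ hr'))) ?_) (hle (hb _ hr))
    rcases hs with rfl | hs | hs
    · exact W.one_mem
    · exact hle (mem_gen hs)
    · simpa using W.inv_mem (hle (mem_gen hs))

theorem fold_mem {G Ω τ : Type} [Group G] [DecidableEq G] [MulAction G Ω] [DecidableEq Ω]
    {mem pass : τ → G → Bool} {pad : List Unit} {base : List Ω} {W : Subgroup G} (l : List τ) :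
    ∀ st : Option (G × List G), (∀ s ∈ st, s.1 ∈ W ∧ gen s.2 ≤ W) →
      ∀ s ∈ l.foldl (towerStep mem pass pad base) st, s.1 ∈ W ∧ gen s.2 ≤ W := by
  induction l with
  | nil => exact fun _ h => h
  | cons t l ih => exact fun st h => ih _ (step_mem h)

theorem len_le {G W : Type} {c : G → W} {T : Set W} (hT : T.Finite) {l : List G}
    (h : ∀ u ∈ l, c u ∈ T) (hp : l.Pairwise fun u v => c u ≠ c v) : l.length ≤ T.ncard := by
  classical
  have hn : (l.map c).Nodup := List.pairwise_map.2 hp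
  rw [← List.length_map (f := c), ← List.toFinset_card_of_nodup hn, ← Set.ncard_coe_finset]
  refine Set.ncard_le_ncard (fun w hw => ?_) hT
  obtain ⟨u, hu, rfl⟩ := List.mem_map.1 (List.mem_toFinset.1 hw)
  exact h u hu

end TTW

theorem a_TW : A_TW := by
  intro U τ _ _ mem pass pad Y y tests S hY hS hp
  have b1 : ∀ u ∈ gen S, (∀ b ∈ Y, u • b = b) → u = 1 := fun u hu h => FP.ext fun x => by
    by_cases hx : x ∈ y
    · exact h x ((hY.mem x).2 hx)
    · exact hS hu x hx
  have b2 : ∀ b ∈ Y, ∃ T : Finset U, T.card ≤ Y.length ∧ ∀ u ∈ gen S, u • b ∈ T := fun b hb =>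
    ⟨Y.toFinset, List.toFinset_card_le _, fun u hu => List.mem_toFinset.2 ((hY.mem _).2
      ((SupG_keep y (hS hu) b).2 ((hY.mem b).1 hb)))⟩
  refine ⟨GI.simsLemma _ _ pad Y S _ b1 b2 hp, fun hc h4 h5 => ?_⟩
  have h1 : ∀ pre post : List τ, tests = pre ++ post → ∀ s ∈ pre, mem s 1 = true := by
    intro pre
    induction pre using List.reverseRecOn with
    | nil => simp
    | append_singleton pre t ih =>
      intro post e s hs
      have e' : tests = pre ++ t :: post := by simpa using e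
      rcases List.mem_append.1 hs with hs | hs
      · exact ih _ e' s hs
      · obtain ⟨W, c, T, _, _, h⟩ := hc pre t post e'
        rw [List.mem_singleton.1 hs]
        simpa using ((h 1 (one_mem _) (ih _ e')).2 1 (one_mem _) (ih _ e')).1 rfl
  obtain ⟨g, S', e, _, a2, a3⟩ := GI.towerLemma GI.simsLemma _ _ _ mem pass pad Y tests 1 S _ b1 b2
    hp (h1 tests [] (by simp))
    (fun pre t post e u hu v hv hu' hv' mu mv => by
      obtain ⟨W, c, T, _, _, h⟩ := hc pre t post e
      have k := (h 1 (one_mem _) (h1 _ _ e)).2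
      refine ((h u hu hu').2 v hv hv').1 ?_
      rw [← (k u hu hu').2 (by simpa using mu), ← (k v hv hv').2 (by simpa using mv)])
    (fun pre t post e l hl hq => by
      obtain ⟨W, c, T, hT, hn, h⟩ := hc pre t post e
      refine (TTW.len_le hT (fun u hu => (h u (hl u hu).1 (hl u hu).2).1)
        (hq.imp_of_mem fun {u v} hu hv k k' => ?_)).trans hn
      rw [((h u (hl u hu).1 (hl u hu).2).2 v (hl v hv).1 (hl v hv).2).1 k'] at k
      exact absurd k (by simp))
    (fun pre t post e g hg => h4 pre t post e g (by simpa using hg))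
    (by simpa using h5)
  rw [tw, e]
  exact ⟨a2, a3⟩

theorem a_TWM : A_TWM := by
  intro U τ _ _ mem pass pad Y tests S
  have h := TTW.fold_mem (mem := mem) (pass := pass) (pad := pad) (base := Y) (W := gen S) tests
    (some (1, S)) fun s hs => by
      obtain rfl := Option.mem_some_iff.1 hs
      exact ⟨one_mem _, le_rfl⟩
  unfold tw tower
  cases e : tests.foldl (towerStep mem pass pad Y) (some (1, S)) with
  | none => exact ⟨one_mem _, gen_le.2 (by simp)⟩
  | some s => exact h s e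

theorem a_GENL : A_GENL := by
  intro Γ _ S H N Z hN hZ hH hI hS
  have key : ∀ g ∈ gen S, ∃ z ∈ Z, z⁻¹ * g ∈ N := fun g hg => by
    induction hg using Subgroup.closure_induction with
    | mem x hx => exact hS x hx
    | one => exact ⟨1, one_mem _, by simp⟩
    | mul a b _ hb iha ihb =>
      obtain ⟨z, hz, h⟩ := iha
      obtain ⟨w, hw, k⟩ := ihb
      refine ⟨z * w, mul_mem hz hw, ?_⟩
      have := mul_mem (hN _ (inv_mem (hH (hZ hw))) _ h) k
      simpa [mul_assoc] using this
    | inv a ha ih =>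
      obtain ⟨z, hz, h⟩ := ih
      refine ⟨z⁻¹, inv_mem hz, ?_⟩
      have := hN _ (hH (hZ hz)) _ (inv_mem h)
      simpa [mul_assoc] using this
  refine le_antisymm hZ fun g hg => ?_
  obtain ⟨z, hz, h⟩ := key g (hH hg)
  simpa using mul_mem hz (hI (Subgroup.mem_inf.2 ⟨H.mul_mem (H.inv_mem (hZ hz)) hg, h⟩))

theorem a_WD : A_WD := by
  intro U _ _ u ψ x y
  have h1 : ∀ x : U, pwU u x = x ^ u.length := fun x => by simp [pwU]
  have h2 : ∀ x y : U, wdP u x y = wd u.length x y := fun x y => by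
    unfold wdP wd
    by_cases h0 : u.length = 0
    · simp [h0]
    · by_cases h : u.length = 1
      · simp [h, GI.cm_eq]
      · rw [beq_false_of_ne h0, beq_false_of_ne h, if_neg h0, if_neg h]
        exact h1 x
  exact ⟨h1 x, h2 x y, by rw [dfP, df, h2, h2]⟩

end Pool.Agent.P.MP_f1a348_lc.PS
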