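import Pool.Agent.P.MP_f1a348_lc.PS.Iface

/-!
Project PS: the conditions of the loop and the list of instructions.
-/

namespace Pool.Agent.P.MP_f1a348_lc.PS

open GI (gen Cg FP)
open UP (Rec up topI SolvMod Nm Val GG SA UG)
open PG (Ix Vec Mat Frm Sub c0 st l0 Par pull1 Wt key)
open scoped commutatorElement Matrix

namespace TTWOQ
variable {U : Type} [Group U] {p : ℕ} {g : Sg U} {i t b c : ℕ} {ψ : FP U}

theorem two_lev (h : g.Pres p) (ht : t < g.s) (hb : b ≤ g.s) : Two g.B (g.Lev p i t b) :=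
  ((two_levG g.O i).mono g.B_le).and ((two_cd 0 inf_le_right inf_le_right (h.pv t ht.le)).and
    (two_c2 (h.keep b hb) inf_le_right (h.pv _ ht)))

theorem two_levC (h : g.Pres p) (ht : t < g.s) (hb : b < g.s) (hc : c ≤ g.s) :
    Two g.B (g.LevC p i t b c) :=
  (two_lev h ht hb).and (two_cd 1 (h.keep b hb.le) (h.keep c hc) (h.pv _ ht))

theorem two_levP (h : g.Pres p) (ht : t < g.s) (hb : b < g.s) : Two g.B (g.LevP p i t b) :=
  (two_levC h ht hb (Nat.zero_le _)).and (two_cd p (h.keep b hb.le) (h.keep b hb.le) (h.pv _ ht))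

theorem D_le (h : g.Ch p) (b : ℕ) : g.D p b ≤ g.O 0 := (h.anti 0 b (Nat.zero_le _)).trans h.syl.hi

theorem hom_levG (h : g.Ch p) (hψ : Hom (g.O 0) ψ) (i : ℕ) : LevG g.O i ψ :=
  ⟨fun j => ⟨hψ.cd 0 (h.antiO 0 j (Nat.zero_le _)) le_rfl _,
    hψ.cd 0 le_rfl (h.antiO 0 j (Nat.zero_le _)) _⟩, hψ.cd 0 le_rfl le_rfl _⟩

theorem hom_lev (h : g.Ch p) (hψ : Hom (g.O 0) ψ) (i t b : ℕ) : g.Lev p i t b ψ :=
  ⟨hom_levG h hψ i, hψ.cd 0 h.syl.hi h.syl.hi _, hψ.cd 0 (D_le h b) h.syl.hi _,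
    hψ.cd 0 h.syl.hi (D_le h b) _⟩

theorem lnk_congr {Q Q1 Q' Q1' : FP U → Prop} {l : List Ins} (h : g.Lnk p Q l Q')
    (h1 : ∀ ψ, Q1 ψ ↔ Q ψ) (h2 : ∀ ψ, Q' ψ ↔ Q1' ψ) : g.Lnk p Q1 l Q1' := by
  rwa [show Q1 = Q from funext fun ψ => propext (h1 ψ),
    show Q1' = Q' from funext fun ψ => propext (h2 ψ).symm]

theorem lnk_append {Q' Q'' : FP U → Prop} {l' : List Ins} (h' : g.Lnk p Q' l' Q'') :
    ∀ {l : List Ins} {Q : FP U → Prop}, g.Lnk p Q l Q' → g.Lnk p Q (l ++ l') Q''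
  | [], _, h => lnk_congr h' h fun _ => Iff.rfl
  | _ :: _, _, h => ⟨h.1, h.2.1, lnk_append h' h.2.2⟩

theorem lnk_up (F : ℕ → FP U → Prop) (f : ℕ → List Ins) (m : ℕ)
    (h : ∀ t < m, g.Lnk p (F t) (f t) (F (t + 1))) :
    g.Lnk p (F 0) ((List.range m).flatMap f) (F m) := by
  induction m with
  | zero => exact fun _ => Iff.rfl
  | succ m ih =>
    rw [List.range_succ, List.flatMap_append, List.flatMap_singleton]
    exact lnk_append (h m (by omega)) (ih fun t a => h t (by omega))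

theorem lnk_down (F : ℕ → FP U → Prop) (f : ℕ → List Ins) (m : ℕ)
    (h : ∀ t < m, g.Lnk p (F (t + 1)) (f t) (F t)) :
    g.Lnk p (F m) ((List.range m).reverse.flatMap f) (F 0) := by
  induction m with
  | zero => exact fun _ => Iff.rfl
  | succ m ih =>
    rw [List.range_succ, List.reverse_append, List.reverse_singleton, List.singleton_append,
      List.flatMap_cons]
    exact lnk_append (ih fun t a => h t (by omega)) (h m (by omega))

theorem len_le {α β : Type} {l : List α} {f : α → List β} {c : ℕ}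
    (h : ∀ x ∈ l, (f x).length ≤ c) : (l.flatMap f).length ≤ l.length * c := by
  rw [List.length_flatMap]
  simpa using List.sum_le_card_nsmul (l.map fun x => (f x).length) c (by simpa using h)

theorem b0_succ (h : g.i0 ≤ i) : g.b0 (i + 1) = g.b0 i + g.L := by
  rw [Sg.b0, Sg.b0, show i + 1 - g.i0 + 1 = i - g.i0 + 1 + 1 by omega, Nat.mul_succ]

end TTWOQ
open TTWOQ

theorem s_TWOQ (hT : S_TRIV) (hX : S_CTX) : S_TWOQ := by
  intro U _ p g a hc hp hv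
  obtain ⟨x1, -, -, x2⟩ := hX U p g hc
  obtain ⟨y1, y2, -⟩ := x2 a hv
  have y3 := hv.c
  have lO := hc.antiO a.i (a.i + 1) (by omega)
  have k3 : ∀ ψ, LevG g.O (a.i + 1) ψ → LevG g.O a.i ψ ∧ Cd 0 g.D0 g.D0 (g.O (a.i + 1)) ψ :=
    fun ψ h => ⟨⟨h.1, h.2.mono le_rfl le_rfl lO⟩, h.2.mono hc.syl.hi hc.syl.hi le_rfl⟩
  have k2 : ∀ ψ, g.Lev p a.i a.t a.b ψ → g.LevP p a.i a.t a.b ψ := fun ψ h => by
    obtain ⟨-, z1, z2, -⟩ := hT U p _ _ _ _ ψ (x1 _ _ _ ψ hv.lo hv.t0 y2.le h)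
    exact ⟨⟨⟨h.1, h.2.1, h.2.2.mono (hc.anti _ _ (by omega)) le_rfl le_rfl⟩, z1⟩, z2 p⟩
  have hk := hv.k
  unfold Sg.pre Sg.post Sg.fS Sg.fR Sg.fT
  rcases (by omega : a.k = 0 ∨ a.k = 1 ∨ a.k = 2 ∨ a.k = 3) with e | e | e | e <;>
    simp only [e, if_true, if_false, OfNat.ofNat_ne_zero, OfNat.ofNat_ne_one, one_ne_zero,
      Nat.reduceEqDiff]
  · exact ⟨two_levC hp y1 (by omega) (by omega), two_levC hp y1 (by omega) (by omega),
      fun ψ h => ⟨h.1, h.2.mono le_rfl (hc.anti _ _ (by omega)) le_rfl⟩,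
      fun ψ h => ⟨hom_lev hc h _ _ _, h.cd 1 (D_le hc _) (D_le hc _) _⟩, fun ψ h => h.1.1,
      fun h => by omega⟩
  · exact ⟨two_levC hp y1 (by omega) (by omega), two_levP hp y1 (by omega), fun ψ h => h.1,
      fun ψ h => ⟨⟨hom_lev hc h _ _ _, h.cd 1 (D_le hc _) (D_le hc _) _⟩,
        h.cd p (D_le hc _) (D_le hc _) _⟩, fun ψ h => h.1.1, fun h => by omega⟩
  · exact ⟨two_levP hp y1 (by omega), two_lev hp y1 (by omega), k2, fun ψ h => hom_lev hc h _ _ _,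
      fun ψ h => h.1.1.1, fun _ ψ => ⟨fun h => ⟨k2 ψ h, h.2.2⟩,
        fun h => ⟨h.1.1.1.1, h.1.1.1.2.1, h.2⟩⟩⟩
  · exact ⟨((two_levG g.O _).mono g.B_le).and (two_cd 0 inf_le_right inf_le_right
      (g.B_le.trans (T0_pv _))), (two_levG g.O _).mono g.B_le, k3, fun ψ h => hom_levG hc h _,
      fun ψ h => h.1, fun _ ψ => ⟨fun h => ⟨k3 ψ h, h.2, h.2⟩, fun h => ⟨h.1.1.1, h.2.1⟩⟩⟩

theorem s_INS (hT : S_TRIV) (hX : S_CTX) : S_INS := by
  intro U _ p g hc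
  obtain ⟨x1, -⟩ := hX U p g hc
  have hL := hc.pos
  have hle := hc.le
  have hB : ∀ i t b, g.i0 ≤ i → i < g.i1 → g.b0 i ≤ t → t < g.b0 (i + 1) → b < g.b0 i →
      g.Lnk p (g.Lev p i t (b + 1)) (Sg.insB i t b) (g.Lev p i t b) := fun i t b h1 h2 h3 h4 h5 => by
    have v : ∀ k c, k ≤ 3 → c ≤ b → g.Vd (k, i, t, b, c) := fun k c a a' =>
      ⟨a, h1, h2, h3, h4, h5, a'⟩
    rw [Sg.insB, List.map_eq_flatMap]
    refine lnk_append (Q' := g.LevC p i t b 0) ?_ ?_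
    · exact ⟨v 1 0 (by omega) (by omega), fun _ => Iff.rfl, v 2 0 (by omega) (by omega),
        fun _ => Iff.rfl, fun _ => Iff.rfl⟩
    refine lnk_congr (lnk_down (g.LevC p i t b) _ (b + 1) fun c a =>
      ⟨v 0 c (by omega) (by omega), fun _ => Iff.rfl, fun _ => Iff.rfl⟩)
      (fun ψ => ⟨fun h => ⟨h, ?_⟩, fun h => h.1⟩) fun _ => Iff.rfl
    exact (hT U p _ _ _ _ ψ (x1 _ _ _ ψ h1 h3 (by omega) h)).1.mono (hc.anti 0 b (by omega))
      le_rfl le_rfl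
  have hI : ∀ i, g.i0 ≤ i → i < g.i1 → g.Lnk p (LevG g.O i) (g.insI i) (LevG g.O (i + 1)) :=
    fun i h1 h2 => by
    have e0 := hc.eqO i h1 h2.le
    have e1 := hc.eqO (i + 1) (by omega) h2
    have e2 := b0_succ h1
    have e3 : 0 < g.b0 i := Nat.mul_pos hL (by omega)
    refine lnk_append (Q' := g.pre p (3, i, g.b0 i, 0, 0)) ?_ ?_
    · exact ⟨⟨le_rfl, h1, h2, le_rfl, by show g.b0 i < g.b0 (i + 1); omega, e3, le_rfl⟩,
        fun _ => Iff.rfl, fun _ => Iff.rfl⟩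
    refine lnk_congr (lnk_up (fun t ψ => LevG g.O i ψ ∧ Cd 0 g.D0 g.D0 (g.D p (g.b0 i + t)) ψ) _ g.L
      fun t a => lnk_congr (lnk_down (g.Lev p i (g.b0 i + t)) _ (g.b0 i) fun b a' =>
        hB i _ b h1 h2 (by omega) (by omega) a') (fun ψ => ⟨fun h => ⟨h.1, h.2, ?_⟩,
          fun h => ⟨h.1, h.2.1⟩⟩) fun ψ => ⟨fun h => ⟨h.1, h.2.2.1⟩, fun h => ⟨h.1,
            h.2.mono le_rfl le_rfl (hc.anti _ _ (by omega)), h.2, h.2⟩⟩)
      (fun ψ => ⟨fun h => ⟨h, h.2.mono hc.syl.hi hc.syl.hi e0.ge⟩, fun h => h.1⟩) fun ψ => ?_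
    · exact (h.1.1 i).mono e0.le hc.syl.hi (e1.ge.trans (hc.anti _ _ (by omega)))
    · rw [← e2, e1]; rfl
  refine ⟨?_, ?_⟩
  · have := lnk_up (g := g) (p := p) (fun j => LevG g.O (g.i0 + j)) _ (g.i1 - g.i0) fun j a =>
      hI (g.i0 + j) (by omega) (by omega)
    rwa [show g.i0 + (g.i1 - g.i0) = g.i1 by omega] at this
  have h1 : (g.i1 - g.i0) * g.L ≤ g.s := by
    rw [Sg.s, mul_comm]; exact Nat.mul_le_mul_left _ (by omega)
  have h2 : g.i1 - g.i0 ≤ g.s := (Nat.le_mul_of_pos_right _ hL).trans h1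
  refine (len_le (c := g.L * (g.s * (g.s + 2)) + 1) fun j hj => ?_).trans ?_
  · have h3 : g.b0 (g.i0 + j) ≤ g.s :=
      Nat.mul_le_mul_left _ (by have := List.mem_range.1 hj; omega)
    rw [Sg.insI, List.length_append, List.length_singleton]
    refine Nat.add_le_add_right ((len_le fun t _ => (len_le (c := g.s + 2) fun b hb => ?_).trans
      (Nat.mul_le_mul_right _ (show _ ≤ g.s by simpa using h3))).trans (by simp)) _
    have := List.mem_range.1 (List.mem_reverse.1 hb)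
    simp only [Sg.insB, List.length_append, List.length_map, List.length_reverse, List.length_range,
      List.length_cons, List.length_nil]
    omega
  · rw [List.length_range, mul_add, mul_one, ← mul_assoc]
    exact (add_le_add (Nat.mul_le_mul_right _ h1) h2).trans (by nlinarith)

end Pool.Agent.P.MP_f1a348_lc.PS
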