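import Pool.Agent.P.MP_f1a348_lc.PS.TSECT
import Pool.Agent.P.MP_f1a348_lc.PS.TTRI
import Pool.Agent.P.MP_f1a348_lc.PS.TCOC
import Pool.Agent.P.MP_f1a348_lc.PS.TRLIFT
import Pool.Agent.P.MP_f1a348_lc.PS.TREL
import Pool.Agent.P.MP_f1a348_lc.PS.TBIL
import Pool.Agent.P.MP_f1a348_lc.PS.TDEV
import Pool.Agent.P.MP_f1a348_lc.PS.TFIXM
import Pool.Agent.P.MP_f1a348_lc.PS.TPUSH
import Pool.Agent.P.MP_f1a348_lc.PS.TLINK
import Pool.Agent.P.MP_f1a348_lc.PS.TCHAIN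
import Pool.Agent.P.MP_f1a348_lc.PS.TPRES
import Pool.Agent.P.MP_f1a348_lc.PS.TSYL
import Pool.Agent.P.MP_f1a348_lc.PS.TREP
import Pool.Agent.P.MP_f1a348_lc.PS.TTWOQ
import Pool.Agent.P.MP_f1a348_lc.PS.TLAM
import Pool.Agent.P.MP_f1a348_lc.PS.TFULL0
import Pool.Agent.P.MP_f1a348_lc.PS.TPTPS
import Pool.Agent.P.MP_f1a348_lc.PS.TFIXT
import Pool.Agent.P.MP_f1a348_lc.PS.TLIFT
import Pool.Agent.P.MP_f1a348_lc.PS.TCALL
import Pool.Agent.P.MP_f1a348_lc.PS.TCRD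
import Pool.Agent.P.MP_f1a348_lc.PS.TBAS
import Pool.Agent.P.MP_f1a348_lc.PS.TMKD
import Pool.Agent.P.MP_f1a348_lc.PS.TTW
import Pool.Agent.P.MP_f1a348_lc.PS.TRUN
import Pool.Agent.P.MP_f1a348_lc.PS.TLOOP
import Pool.Agent.P.MP_f1a348_lc.PS.TAPS
import Pool.Agent.P.MP_f1a348_lc.PS.TPTST
import Pool.Agent.P.MP_f1a348_lc.PS.TPTMK
import Pool.Agent.P.MP_f1a348_lc.PS.Mono

/-!
Project PS: all statements, closed.
-/

namespace Pool.Agent.P.MP_f1a348_lc.PS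

theorem c_BIL : S_BIL := s_BIL s_DEV
theorem c_REP : S_REP := s_REP s_GR1 s_DEV c_BIL (s_SECT s_DEV)
theorem c_FIXM : S_FIXM := s_FIXM s_TRI c_REP s_SYL s_CTX
theorem c_ADD : S_ADD := s_ADD s_TRIV s_CTX
theorem c_TWOQ : S_TWOQ := s_TWOQ s_TRIV s_CTX
theorem c_INS : S_INS := s_INS s_TRIV s_CTX

section
variable (p n : ℕ) [Fact p.Prime]

theorem c_LAM : S_LAM p n := s_LAM p n (s_AF p n)
theorem c_ZERO : S_ZERO p n := s_ZERO p n s_TRIV c_BIL s_CTX (s_LINK p n)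
theorem c_COC : S_COC p n := s_COC p n s_TRIV c_BIL s_CTX (s_LINK p n) (s_AF p n) (c_LAM p n)
theorem c_REL : S_REL p n := s_REL p n (s_LINK p n) (s_AF p n)
theorem c_RLIFT : S_RLIFT p n :=
  s_RLIFT p n s_TRI (s_LINK p n) (s_AF p n) (c_LAM p n) (c_REL p n)
theorem c_FULL0 : S_FULL0 p n :=
  s_FULL0 p n (s_AF p n) (c_LAM p n) (c_REL p n) (c_RLIFT p n) s_IMG
theorem c_DEC : A_DEC p n := a_DEC p n a_WD
theorem c_GS : A_GS p n := a_GS p n s_IMG (c_LAM p n) (c_DEC p n)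
theorem c_LIFT0 : A_LIFT0 p n := a_LIFT0 p n a_TW (c_LAM p n) (c_DEC p n)
theorem c_LIFT : A_LIFT p n :=
  a_LIFT p n a_TW a_TWM c_TWOQ (c_LAM p n) (c_COC p n) (c_DEC p n)
theorem c_PAIR : A_PAIR p n :=
  a_PAIR p n a_TWM s_IMG (c_LAM p n) (c_ZERO p n) (c_COC p n) (c_DEC p n) (c_GS p n) (c_LIFT0 p n)
theorem c_CALL : A_CALL p n :=
  a_CALL p n a_TW a_TWM c_TWOQ s_IMG (c_LAM p n) (c_ZERO p n) (c_COC p n) (c_DEC p n) (c_GS p n)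
    (c_PAIR p n) (c_LIFT p n)
theorem c_FIXT : A_FIXT p n := a_FIXT p n a_TW a_TWM a_WD c_TWOQ s_CTX c_FIXM c_ADD
theorem c_FIX : A_FIX p n :=
  a_FIX p n a_TW a_TWM a_GENL c_TWOQ c_FIXM c_ADD s_IMG (c_LAM p n) (c_FIXT p n)
theorem c_LOOP : A_LOOP p n := a_LOOP p n c_TWOQ (c_CALL p n) (c_FIX p n)
theorem c_FRAT : A_FRAT p n := a_FRAT p n a_TW s_FRAT
theorem c_ST0 : A_ST0 p n :=
  a_ST0 p n s_IMG s_PUSH (c_LAM p n) (c_FULL0 p n) (c_GS p n) (c_FRAT p n)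
theorem c_RUN : A_RUN p n :=
  a_RUN p n a_TW s_FRAT c_INS (c_FRAT p n) (c_ST0 p n) (c_LOOP p n)

end

theorem c_MKD : A_MKD :=
  a_MKD s_CHAIN s_PRES (fun p n _ => s_LINK p n) (a_SYL a_WD) (a_CHN a_WD) (a_BAS a_CRD)

/-- correctness of the stages of all primes -/
theorem ps_ok : A_PS := a_PS c_MKD fun p n _ => c_RUN p n

/-- polynomial time -/
theorem ps_pt : P_PS := p_PS p_MKD p_LAM (p_STEP a_TWM p_LAM)

end Pool.Agent.P.MP_f1a348_lc.PS
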