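import Pool.Agent.P.MP_f1a348_lc.PS.Defs

/-!
Project PS: small facts used everywhere.
-/

namespace Pool.Agent.P.MP_f1a348_lc.PS

open GI (gen Cg FP)
open UP (Nm)
open scoped commutatorElement

set_option linter.unusedSectionVars false

variable {U : Type} [Group U]

@[simp] theorem wd_zero (x y : U) : wd 0 x y = x * y := rfl
@[simp] theorem wd_one (x y : U) : wd 1 x y = ⁅x, y⁆ := rfl
theorem wd_pow {k : ℕ} (hk : 2 ≤ k) (x y : U) : wd k x y = x ^ k := by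
  rw [wd, if_neg (by omega), if_neg (by omega)]

theorem wd_mem {Z : Subgroup U} (k : ℕ) {x y : U} (hx : x ∈ Z) (hy : y ∈ Z) : wd k x y ∈ Z := by
  unfold wd
  split_ifs
  · exact Z.mul_mem hx hy
  · exact Z.mul_mem (Z.mul_mem (Z.mul_mem hx hy) (Z.inv_mem hx)) (Z.inv_mem hy)
  · exact Z.pow_mem hx k

theorem wd_prod {V : Type} [Group V] (k : ℕ) (δ ε : U × V) :
    wd k δ ε = (wd k δ.1 ε.1, wd k δ.2 ε.2) := by
  unfold wd
  split_ifs <;> rfl

@[simp] theorem dev_hat (ψ : FP U) (x : U) : dev ψ (hat ψ x) = 1 := by simp [dev, hat]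
@[simp] theorem hat_snd (ψ : FP U) (x : U) : (hat ψ x).2 = x := rfl

theorem df_eq_dev (k : ℕ) (ψ : FP U) (x y : U) :
    df k ψ x y = dev ψ (wd k (hat ψ x) (hat ψ y)) := by rw [wd_prod]; rfl

theorem df_iff {T : Subgroup U} {u : FP U} (hu : u ∈ Pv T) (k : ℕ) (x y : U) :
    df k u x y ∈ T ↔ Cg T (u.app (wd k x y)) (wd k (u.app x) (u.app y)) := by
  have := hu (wd k x y) (u⁻¹.app (wd k (u.app x) (u.app y)))
  rw [FP.app_app_inv] at this
  exact this.symm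

theorem df_mul (k : ℕ) (ψ u : FP U) (x y : U) : df k (ψ * u) x y =
    (wd k x y)⁻¹ * u⁻¹.app (wd k (u.app x) (u.app y) * df k ψ (u.app x) (u.app y)) := by
  simp [df]

theorem Cd.mono {k : ℕ} {S R T S' R' T' : Subgroup U} {ψ : FP U} (h : Cd k S R T ψ) (hS : S' ≤ S)
    (hR : R' ≤ R) (hT : T ≤ T') : Cd k S' R' T' ψ := fun x hx y hy => hT (h x (hS hx) y (hR hy))

theorem C2.mono {S R T S' R' T' : Subgroup U} {ψ : FP U} (h : C2 S R T ψ) (hS : S' ≤ S)
    (hR : R' ≤ R) (hT : T ≤ T') : C2 S' R' T' ψ := ⟨h.1.mono hS hR hT, h.2.mono hR hS hT⟩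

theorem Hom.wd {Y : Subgroup U} {ψ : FP U} (h : Hom Y ψ) (k : ℕ) {x y : U} (hx : x ∈ Y)
    (hy : y ∈ Y) : ψ.app (wd k x y) = wd k (ψ.app x) (ψ.app y) := by
  let φ : Y →* U := MonoidHom.mk' (fun z => ψ.app z) fun a b => h a a.2 b b.2
  unfold PS.wd
  split_ifs
  · exact h x hx y hy
  · exact map_commutatorElement φ ⟨x, hx⟩ ⟨y, hy⟩
  · exact map_pow φ ⟨x, hx⟩ k

theorem Hom.cd {Y S R : Subgroup U} {ψ : FP U} (h : Hom Y ψ) (k : ℕ) (hS : S ≤ Y) (hR : R ≤ Y)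
    (T : Subgroup U) : Cd k S R T ψ := fun x hx y hy => by
  rw [df, ← h.wd k (hS hx) (hR hy)]
  simp

theorem hom_iff {Y : Subgroup U} {ψ : FP U} : Hom Y ψ ↔ Cd 0 Y Y ⊥ ψ := by
  refine ⟨fun h => h.cd 0 le_rfl le_rfl _, fun h x hx y hy => ?_⟩
  have := h x hx y hy
  rw [Subgroup.mem_bot, df, inv_mul_eq_one] at this
  simpa using congrArg ψ.app this

theorem SupG_keep (Y : Subgroup U) : SupG Y ≤ Keep Y := fun g hg x => by
  refine ⟨fun h => by_contra fun hx => hx (hg x hx ▸ h), fun h => by_contra fun hx => hx ?_⟩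
  rw [g.app_injective (hg _ hx)]
  exact h

theorem finite_SupG (Y : Subgroup U) [Finite Y] : Finite (SupG Y) := by
  refine Finite.of_injective
    (fun g : SupG Y => fun x : Y => (⟨g.1.app x, (SupG_keep Y g.2 x).2 x.2⟩ : Y)) fun g h e => ?_
  refine Subtype.ext (FP.ext fun x => ?_)
  by_cases hx : x ∈ Y
  · exact congrArg Subtype.val (congrFun e ⟨x, hx⟩)
  · rw [g.2 x hx, h.2 x hx]

/-- an injective self map of a finite subgroup as a permutation -/
theorem exists_perm (Y : Subgroup U) [Finite Y] (f : U → U) (hf : ∀ x ∈ Y, f x ∈ Y)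
    (hi : ∀ x ∈ Y, ∀ y ∈ Y, f x = f y → x = y) : ∃ u ∈ SupG Y, ∀ x ∈ Y, u.app x = f x := by
  classical
  have hY : (Y : Set U).Finite := Set.toFinite _
  refine ⟨FP.ofList (hY.toFinset.toList.map fun x => (x, f x)), fun x hx => FP.ofList_fix ?_,
    fun x hx => FP.ofList_map (fun a ha b hb => hi a ?_ b ?_) ?_⟩
  · intro q hq
    obtain ⟨y, hy, rfl⟩ := List.mem_map.1 hq
    have hy' : y ∈ Y := by simpa using hy
    exact ⟨fun e => hx (e ▸ hy'), fun e => hx (e ▸ hf y hy')⟩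
  · simpa using ha
  · simpa using hb
  · simpa using hx

theorem TT_le {O : ℕ → Subgroup U} (i : ℕ) : TT O i ≤ T0 O := fun _ h => h.1

theorem TT_anti {O : ℕ → Subgroup U} {i j : ℕ} (h : O j ≤ O i) : TT O j ≤ TT O i :=
  fun _ hg => ⟨hg.1, hg.2.1, hg.2.2.mono le_rfl le_rfl h⟩

theorem Ser.le {O : ℕ → Subgroup U} {r : ℕ} (h : Ser O r) {i j : ℕ} (hij : i ≤ j) : O j ≤ O i :=
  antitone_nat_of_succ_le h.anti hij

/-- normal subgroups in the form used by the congruence lemmas -/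
theorem nm_cg {A T : Subgroup U} (h : Nm A T) {c : U} (hc : c ∈ A) : GI.Nm T c := fun e he => by
  simpa using h _ (A.inv_mem hc) e he

theorem cg_comm {T : Subgroup U} {a b : U} (h : ⁅b⁻¹, a⁻¹⁆ ∈ T) : Cg T (a * b) (b * a) := by
  simpa [Cg, commutatorElement_def, mul_assoc] using h

theorem Sg.B_le (g : Sg U) : g.B ≤ T0 g.O := inf_le_left.trans (TT_le _)

@[simp] theorem Sg.D_zero (g : Sg U) (p : ℕ) : g.D p 0 = g.D0 := rfl

theorem exists_isG {B : Subgroup (FP U)} {Q : FP U → Prop} (h : Two B Q) : ∃ G, IsG G B Q :=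
  ⟨cut B Q h, fun _ => Iff.rfl⟩

end Pool.Agent.P.MP_f1a348_lc.PS
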