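import Pool.Agent.P.MP_f1a348_lc.PS.GDefs

/-!
Project PS: graph groups, the chain of a Sylow subgroup, coordinates, the conditions of the loop.
-/

namespace Pool.Agent.P.MP_f1a348_lc.PS

open GI (gen Cg FP)
open UP (Rec up topI SolvMod Nm GG)
open PG (Ix Vec Mat Frm Sub c0 st l0 Par)
open scoped commutatorElement

set_option linter.unusedSectionVars false

noncomputable section
variable {U : Type} [Group U]

/-! ### graph groups -/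

def dev (ψ : FP U) (δ : U × U) : U := δ.2⁻¹ * ψ⁻¹.app δ.1

def hat (ψ : FP U) (x : U) : U × U := (ψ.app x, x)

def Gr (ψ : FP U) (B T : Subgroup U) : Subgroup (U × U) :=
  Subgroup.closure {δ | δ.2 ∈ B ∧ dev ψ δ ∈ T}

structure Ctx (p : ℕ) (A B1 T0 T1 : Subgroup U) (ψ : FP U) : Prop where
  fin : Finite A
  l1 : T1 ≤ T0
  l0 : T0 ≤ B1
  lB : B1 ≤ A
  n1 : Nm A T1
  n0 : Nm A T0
  nB : Nm A B1
  cm : ∀ u ∈ T0, ∀ y ∈ B1, ⁅u, y⁆ ∈ T1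
  pw : ∀ u ∈ T0, u ^ p ∈ T1
  h0 : Cd 0 A A T0 ψ
  h1 : C2 B1 A T1 ψ

/-- a central section `B / B1` of exponent `p`; `T0 / T1` is central too -/
structure Cen (p : ℕ) (A B B1 T0 T1 : Subgroup U) : Prop where
  lo : B1 ≤ B
  hi : B ≤ A
  nm : Nm A B
  cm : ∀ x ∈ B, ∀ y ∈ A, ⁅x, y⁆ ∈ B1
  pw : ∀ x ∈ B, x ^ p ∈ B1
  ct : ∀ u ∈ T0, ∀ y ∈ A, ⁅u, y⁆ ∈ T1

/-- the translation `f` repairs `ψ` on `B` -/
structure Rpr (A B B1 T0 T1 : Subgroup U) (ψ : FP U) (f : U → U) : Prop where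
  mem : ∀ x, f x ∈ T0
  per : ∀ x y, Cg B1 x y → f x = f y
  one : ∀ x ∈ B1, f x = 1
  off : ∀ x, x ∉ A → f x = 1
  fix : ∀ g ∈ Pv T1, (∀ x ∈ A, Cg T1 (g.app x) (x * f x)) → C2 B A T1 (ψ * g)

/-! ### Sylow subgroups modulo `O` -/

def PGm (p : ℕ) (D O : Subgroup U) : Prop := ∀ x ∈ D, ∃ k : ℕ, x ^ p ^ k ∈ O

structure MaxP (p : ℕ) (Y O D : Subgroup U) : Prop where
  lo : O ≤ D
  hi : D ≤ Y
  pg : PGm p D O
  max : ∀ D', D ≤ D' → D' ≤ Y → PGm p D' O → D' ≤ D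

/-- `c` is the conjugation by `a` on `Y` -/
def IsInn (Y : Subgroup U) (a : U) (c : FP U) : Prop :=
  c ∈ SupG Y ∧ ∀ x ∈ Y, c.app x = a * x * a⁻¹

/-! ### stages -/

structure Sg (U : Type) [Group U] where
  O : ℕ → Subgroup U
  r : ℕ
  i0 : ℕ
  i1 : ℕ
  L : ℕ
  D0 : Subgroup U

namespace Sg
variable (g : Sg U) (p : ℕ)

/-- the chain -/
def D : ℕ → Subgroup U
  | 0 => g.D0
  | b + 1 => g.O (g.i0 + b / g.L) ⊔
      Subgroup.closure {z | (∃ x ∈ D b, z = x ^ p) ∨ ∃ x ∈ D b, ∃ y ∈ g.D0, z = ⁅x, y⁆}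

/-- the number of blocks -/
def s : ℕ := g.L * (g.i1 - g.i0 + 1)

/-- the first block of layer `i` -/
def b0 (i : ℕ) : ℕ := g.L * (i - g.i0 + 1)

/-- the group of the stage -/
def B : Subgroup (FP U) := TT g.O g.i0 ⊓ Keep g.D0

structure OK : Prop where
  ser : Ser g.O g.r
  lo : 1 ≤ g.i0
  le : g.i0 ≤ g.i1
  pw : ∀ i, g.i0 ≤ i → i < g.i1 → ∀ x ∈ g.O i, x ^ p ∈ g.O (i + 1)
  cop : ∀ x ∈ g.O 1, x ^ p ∈ g.O g.i0 → x ∈ g.O g.i0
  syl : MaxP p (g.O 0) (g.O g.i0) g.D0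
  big : Nat.card (g.O 0) ≤ g.L

/-- the properties of the chain -/
structure Ch : Prop extends g.OK p where
  pos : 0 < g.L
  anti : ∀ b b', b ≤ b' → g.D p b' ≤ g.D p b
  antiO : ∀ i i', i ≤ i' → g.O i' ≤ g.O i
  nm : ∀ b, Nm g.D0 (g.D p b)
  cm : ∀ b, ∀ x ∈ g.D p b, ∀ y ∈ g.D0, ⁅x, y⁆ ∈ g.D p (b + 1)
  pow : ∀ b, ∀ x ∈ g.D p b, x ^ p ∈ g.D p (b + 1)
  low : ∀ b, g.O (g.i0 + b / g.L) ≤ g.D p (b + 1)
  eqO : ∀ i, g.i0 ≤ i → i ≤ g.i1 → g.D p (g.b0 i) = g.O i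
  cap : g.D0 ⊓ g.O 1 ≤ g.O g.i0

/-- what the elements of `B` preserve -/
structure Pres : Prop where
  keep : ∀ b, b ≤ g.s → g.B ≤ Keep (g.D p b)
  pv : ∀ b, b ≤ g.s → g.B ≤ Pv (g.D p b)
  mul : ∀ u ∈ g.B, ∀ b, b < g.s → ∀ x ∈ g.D p b, ∀ y ∈ g.O 0,
    Cg (g.O (g.i0 + b / g.L)) (u.app (x * y)) (u.app x * u.app y) ∧
    Cg (g.O (g.i0 + b / g.L)) (u.app (y * x)) (u.app y * u.app x)

/-- the kernel used by the repairs of layer `i` -/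
def Nk (i : ℕ) : Subgroup (FP U) := FxG (g.O 0) (g.O i) ⊓ FxG (g.O i) (g.O (i + 1))

def Lev (i t b : ℕ) (ψ : FP U) : Prop :=
  LevG g.O i ψ ∧ Cd 0 g.D0 g.D0 (g.D p t) ψ ∧ C2 (g.D p b) g.D0 (g.D p (t + 1)) ψ

def LevC (i t b c : ℕ) (ψ : FP U) : Prop :=
  g.Lev p i t (b + 1) ψ ∧ Cd 1 (g.D p b) (g.D p c) (g.D p (t + 1)) ψ

def LevP (i t b : ℕ) (ψ : FP U) : Prop :=
  g.LevC p i t b 0 ψ ∧ Cd p (g.D p b) (g.D p b) (g.D p (t + 1)) ψ

end Sg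

/-- instructions: kind (0 commutator, 1 power, 2 repair, 3 repair of a layer), `i`, `t`, `b`, `c` -/
abbrev Ins : Type := ℕ × ℕ × ℕ × ℕ × ℕ

namespace Ins
variable (a : Ins)
def k : ℕ := a.1
def i : ℕ := a.2.1
def t : ℕ := a.2.2.1
def b : ℕ := a.2.2.2.1
def c : ℕ := a.2.2.2.2
end Ins

namespace Sg
variable (g : Sg U) (p : ℕ)

structure Vd (a : Ins) : Prop where
  k : a.k ≤ 3
  lo : g.i0 ≤ a.i
  hi : a.i < g.i1
  t0 : g.b0 a.i ≤ a.t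
  t1 : a.t < g.b0 (a.i + 1)
  b : a.b < g.b0 a.i
  c : a.c ≤ a.b

def pre (a : Ins) (ψ : FP U) : Prop :=
  if a.k = 0 then g.LevC p a.i a.t a.b (a.c + 1) ψ else
  if a.k = 1 then g.LevC p a.i a.t a.b 0 ψ else
  if a.k = 2 then g.LevP p a.i a.t a.b ψ else
    LevG g.O a.i ψ ∧ Cd 0 g.D0 g.D0 (g.O (a.i + 1)) ψ

def post (a : Ins) (ψ : FP U) : Prop :=
  if a.k = 0 then g.LevC p a.i a.t a.b a.c ψ else
  if a.k = 1 then g.LevP p a.i a.t a.b ψ else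
  if a.k = 2 then g.Lev p a.i a.t a.b ψ else LevG g.O (a.i + 1) ψ

/-- the three groups of a repair -/
def fS (a : Ins) : Subgroup U := if a.k = 2 then g.D p a.b else g.O 0
def fR (a : Ins) : Subgroup U := if a.k = 2 then g.D0 else g.O 0
def fT (a : Ins) : Subgroup U := if a.k = 2 then g.D p (a.t + 1) else g.O (a.i + 1)

/-- the instructions lead from `Q` to `Q'` -/
def Lnk : (FP U → Prop) → List Ins → (FP U → Prop) → Prop
  | Q, [], Q' => ∀ ψ, Q ψ ↔ Q' ψ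
  | Q, a :: l, Q' => g.Vd a ∧ (∀ ψ, Q ψ ↔ g.pre p a ψ) ∧ Lnk (g.post p a) l Q'

def insB (i t b : ℕ) : List Ins :=
  (List.range (b + 1)).reverse.map (fun c => (0, i, t, b, c)) ++ [(1, i, t, b, 0), (2, i, t, b, 0)]

def insI (i : ℕ) : List Ins :=
  ((List.range g.L).flatMap fun t =>
    (List.range (g.b0 i)).reverse.flatMap fun b => insB i (g.b0 i + t) b) ++ [(3, i, g.b0 i, 0, 0)]

/-- all instructions -/
def ins : List Ins := (List.range (g.i1 - g.i0)).flatMap fun j => g.insI (g.i0 + j)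

end Sg

/-! ### coordinates -/

structure Bs (U : Type) (p n : ℕ) where
  e : Ix n → U
  bl : Ix n → ℕ
  kap : ℕ → U → Vec p n

variable {p n : ℕ}

namespace Bs
variable (β : Bs U p n)

structure OK (D : ℕ → Subgroup U) (s : ℕ) : Prop where
  mem : ∀ α, c0 n < α → β.bl α < s ∧ β.e α ∈ D (β.bl α)
  add : ∀ b, b < s → ∀ x ∈ D b, ∀ y ∈ D b, β.kap b (x * y) = β.kap b x + β.kap b y
  ker : ∀ b, b < s → ∀ x ∈ D b, (β.kap b x = 0 ↔ x ∈ D (b + 1))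
  supp : ∀ b x α, β.kap b x α ≠ 0 → c0 n < α ∧ β.bl α = b
  unit : ∀ α, c0 n < α → β.kap (β.bl α) (β.e α) = Pi.single α 1

/-- the graded matrix of a family of maps -/
def aF (φ : ℕ → U → U) : Mat p n :=
  Matrix.of fun α γ => if c0 n < γ then β.kap (β.bl γ) (φ (β.bl γ) (β.e γ)) α else 0

/-- the graded matrix of a permutation -/
def aM (u : FP U) : Mat p n := β.aF fun _ => u.app

def lamM (u : FP U) : Mat p n := β.aM u + st (β.aM u⁻¹) + Matrix.single (c0 n) (c0 n) 1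

open Classical in
def lam (u : FP U) : GG p n := if h : Par (l0 n) (β.lamM u) then ⟨_, h⟩ else 1

/-- the form of a call -/
def th (a : Ins) (ψ : FP U) : Frm p n := fun i =>
  if c0 n < i 0 ∧ β.bl (i 0) = a.b ∧ i 2 < c0 n ∧
      (if a.k = 0 then c0 n < i 1 ∧ β.bl (i 1) = a.c else i 1 = c0 n) then
    β.kap a.t (df (if a.k = 0 then 1 else p) ψ (β.e (i 0)) (β.e (i 1))) (i 2).rev else 0

end Bs

/-- the box of a call -/
def box (n k : ℕ) : Fin 3 → Ix n := ![Fin.last _, if k = 0 then Fin.last _ else c0 n, 0]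

/-- endomorphisms of the layer `i` -/
structure End (O : ℕ → Subgroup U) (i : ℕ) (φ : U → U) : Prop where
  mem : ∀ x ∈ O i, φ x ∈ O i
  low : ∀ x ∈ O (i + 1), φ x ∈ O (i + 1)
  mul : ∀ x ∈ O i, ∀ y ∈ O i, Cg (O (i + 1)) (φ (x * y)) (φ x * φ y)
  eqv : ∀ y ∈ O 0, ∀ x ∈ O i, Cg (O (i + 1)) (φ (y * x * y⁻¹)) (y * φ x * y⁻¹)

/-- `a` is the scalar `χ` on the first `L` blocks and graded endomorphisms on the layers -/
def Rel (g : Sg U) (β : Bs U p n) (a : Mat p n) (χ : ZMod p) : Prop :=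
  ∃ φ : ℕ → U → U, (∀ i, g.i0 ≤ i → i < g.i1 → End g.O i (φ i)) ∧
    a = β.aF fun b x => if b < g.L then x ^ χ.val else φ (g.i0 + b / g.L - 1) x

/-- the algebra of the first certificate -/
def R0 (g : Sg U) (β : Bs U p n) : Sub p n :=
  Submodule.span (ZMod p) {x | ∃ a a' χ, Rel g β a χ ∧ Rel g β a' χ ∧
    x = a + st a' + Matrix.single (c0 n) (c0 n) χ}

end

end Pool.Agent.P.MP_f1a348_lc.PS
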