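import Pool.Agent.P.MP_f1a348_lc.GI.ABasic
import Pool.Agent.P.MP_f1a348_lc.UP.Defs

/-!
Project PS: the stage of one prime.  Series, triangular permutations, tight forests.
-/

namespace Pool.Agent.P.MP_f1a348_lc.PS

open GI (gen Cg FP)
open UP (Rec up topI SolvMod Nm)
open scoped commutatorElement

set_option linter.unusedSectionVars false

section
variable {U : Type} [Group U]

/-- product, commutator, power -/
def wd (k : ℕ) (x y : U) : U := if k = 0 then x * y else if k = 1 then ⁅x, y⁆ else x ^ k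

/-- the defect of `ψ` at a word -/
def df (k : ℕ) (ψ : FP U) (x y : U) : U := (wd k x y)⁻¹ * ψ⁻¹.app (wd k (ψ.app x) (ψ.app y))

def Cd (k : ℕ) (S R T : Subgroup U) (ψ : FP U) : Prop := ∀ x ∈ S, ∀ y ∈ R, df k ψ x y ∈ T

def C2 (S R T : Subgroup U) (ψ : FP U) : Prop := Cd 0 S R T ψ ∧ Cd 0 R S T ψ

def Fx (S D : Subgroup U) (g : FP U) : Prop := ∀ x ∈ S, Cg D x (g.app x)

def Adm (O : ℕ → Subgroup U) (ψ : FP U) : Prop := ∀ j, C2 (O j) (O 0) (O (j + 1)) ψ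

/-- multiplicative on `Y` -/
def Hom (Y : Subgroup U) (ψ : FP U) : Prop := ∀ x ∈ Y, ∀ y ∈ Y, ψ.app (x * y) = ψ.app x * ψ.app y

/-- the permutations that fix the complement of `Y` -/
def SupG (Y : Subgroup U) : Subgroup (FP U) where
  carrier := {g | ∀ x, x ∉ Y → g.app x = x}
  one_mem' _ _ := rfl
  mul_mem' {a b} ha hb x hx := by rw [FP.app_mul, hb x hx, ha x hx]
  inv_mem' {a} ha x hx := a.app_injective (by rw [FP.app_app_inv, ha x hx])

/-- the permutations that keep `D` -/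
def Keep (D : Subgroup U) : Subgroup (FP U) where
  carrier := {g | ∀ x, g.app x ∈ D ↔ x ∈ D}
  one_mem' _ := Iff.rfl
  mul_mem' {a b} ha hb x := (ha _).trans (hb x)
  inv_mem' {a} ha x := by rw [← ha, FP.app_app_inv]

/-- the permutations that permute the left cosets of `D` -/
def Pv (D : Subgroup U) : Subgroup (FP U) where
  carrier := {g | ∀ x y, Cg D (g.app x) (g.app y) ↔ Cg D x y}
  one_mem' _ _ := Iff.rfl
  mul_mem' {a b} ha hb x y := (ha _ _).trans (hb x y)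
  inv_mem' {a} ha x y := by rw [← ha, FP.app_app_inv, FP.app_app_inv]

theorem mem_SupG {Y : Subgroup U} {g : FP U} : g ∈ SupG Y ↔ ∀ x, x ∉ Y → g.app x = x := Iff.rfl
theorem mem_Keep {D : Subgroup U} {g : FP U} : g ∈ Keep D ↔ ∀ x, g.app x ∈ D ↔ x ∈ D := Iff.rfl
theorem mem_Pv {D : Subgroup U} {g : FP U} :
    g ∈ Pv D ↔ ∀ x y, Cg D (g.app x) (g.app y) ↔ Cg D x y := Iff.rfl

/-- two out of three -/
structure Two (B : Subgroup (FP U)) (Q : FP U → Prop) : Prop where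
  one : Q 1
  mul : ∀ ψ, ∀ g ∈ B, Q g → (Q (ψ * g) ↔ Q ψ)
  div : ∀ ψ, ∀ g ∈ B, Q ψ → Q (ψ * g) → Q g

theorem df_one (k : ℕ) (x y : U) : df k 1 x y = 1 := by simp [df]

theorem Two.and {B : Subgroup (FP U)} {Q Q' : FP U → Prop} (h : Two B Q) (h' : Two B Q') :
    Two B (fun ψ => Q ψ ∧ Q' ψ) :=
  ⟨⟨h.one, h'.one⟩, fun ψ g hg hq => and_congr (h.mul ψ g hg hq.1) (h'.mul ψ g hg hq.2),
    fun ψ g hg a b => ⟨h.div ψ g hg a.1 b.1, h'.div ψ g hg a.2 b.2⟩⟩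

theorem Two.all {B : Subgroup (FP U)} {ι : Type} {Q : ι → FP U → Prop} (h : ∀ i, Two B (Q i)) :
    Two B (fun ψ => ∀ i, Q i ψ) :=
  ⟨fun i => (h i).one, fun ψ g hg hq => forall_congr' fun i => (h i).mul ψ g hg (hq i),
    fun ψ g hg a b i => (h i).div ψ g hg (a i) (b i)⟩

theorem Two.mono {B B' : Subgroup (FP U)} {Q : FP U → Prop} (h : Two B Q) (hB : B' ≤ B) :
    Two B' Q := ⟨h.one, fun ψ g hg => h.mul ψ g (hB hg), fun ψ g hg => h.div ψ g (hB hg)⟩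

theorem two_cd (k : ℕ) {S R T : Subgroup U} {B : Subgroup (FP U)} (hS : B ≤ Keep S)
    (hR : B ≤ Keep R) (hT : B ≤ Pv T) : Two B (Cd k S R T) := by
  have key : ∀ (ψ : FP U), ∀ g ∈ B, ∀ x y : U, df k ψ (g.app x) (g.app y) ∈ T ↔
      (df k g x y)⁻¹ * df k (ψ * g) x y ∈ T := fun ψ g hg x y => by
    have := hT (B.inv_mem hg) (wd k (g.app x) (g.app y))
      (ψ⁻¹.app (wd k (ψ.app (g.app x)) (ψ.app (g.app y))))
    simpa [df, Cg, mul_assoc] using this.symm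
  refine ⟨fun x _ y _ => by rw [df_one]; exact T.one_mem, fun ψ g hg hq => ⟨fun h x hx y hy => ?_,
    fun h x hx y hy => ?_⟩, fun ψ g hg h h' x hx y hy => ?_⟩
  · have hx' := (hS (B.inv_mem hg) x).2 hx
    have hy' := (hR (B.inv_mem hg) y).2 hy
    simpa using (key ψ g hg _ _).2 (T.mul_mem (T.inv_mem (hq _ hx' _ hy')) (h _ hx' _ hy'))
  · simpa using T.mul_mem (hq x hx y hy)
      ((key ψ g hg x y).1 (h _ ((hS hg x).2 hx) _ ((hR hg y).2 hy)))
  · have := (key ψ g hg x y).1 (h _ ((hS hg x).2 hx) _ ((hR hg y).2 hy))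
    simpa using T.mul_mem (h' x hx y hy) (T.inv_mem this)

theorem two_c2 {S R T : Subgroup U} {B : Subgroup (FP U)} (hS : B ≤ Keep S)
    (hR : B ≤ Keep R) (hT : B ≤ Pv T) : Two B (C2 S R T) :=
  (two_cd 0 hS hR hT).and (two_cd 0 hR hS hT)

/-- the subgroup of a condition -/
def cut (B : Subgroup (FP U)) (Q : FP U → Prop) (h : Two B Q) : Subgroup (FP U) where
  carrier := {g | g ∈ B ∧ Q g}
  one_mem' := ⟨B.one_mem, h.one⟩
  mul_mem' {a b} ha hb := ⟨B.mul_mem ha.1 hb.1, (h.mul a b hb.1 hb.2).2 ha.2⟩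
  inv_mem' {a} ha := ⟨B.inv_mem ha.1, (h.mul a⁻¹ a ha.1 ha.2).1 (by simpa using h.one)⟩

theorem mem_cut {B : Subgroup (FP U)} {Q : FP U → Prop} {h : Two B Q} {g : FP U} :
    g ∈ cut B Q h ↔ g ∈ B ∧ Q g := Iff.rfl

/-- `G` is the subgroup of `B` given by `Q` -/
def IsG (G B : Subgroup (FP U)) (Q : FP U → Prop) : Prop := ∀ g, g ∈ G ↔ g ∈ B ∧ Q g

/-- the permutations of `O 0` that respect the series -/
def T0 (O : ℕ → Subgroup U) : Subgroup (FP U) := SupG (O 0) ⊓ ⨅ j, Keep (O j) ⊓ Pv (O j)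

theorem T0_sup {O : ℕ → Subgroup U} : T0 O ≤ SupG (O 0) := inf_le_left
theorem T0_keep {O : ℕ → Subgroup U} (j : ℕ) : T0 O ≤ Keep (O j) :=
  inf_le_right.trans ((iInf_le _ j).trans inf_le_left)
theorem T0_pv {O : ℕ → Subgroup U} (j : ℕ) : T0 O ≤ Pv (O j) :=
  inf_le_right.trans ((iInf_le _ j).trans inf_le_right)
theorem mem_T0 {O : ℕ → Subgroup U} {g : FP U} :
    g ∈ T0 O ↔ g ∈ SupG (O 0) ∧ ∀ j, g ∈ Keep (O j) ∧ g ∈ Pv (O j) := by
  simp only [T0, Subgroup.mem_inf, Subgroup.mem_iInf]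

/-- triangular and multiplicative modulo `O i` -/
def LevG (O : ℕ → Subgroup U) (i : ℕ) (ψ : FP U) : Prop := Adm O ψ ∧ Cd 0 (O 0) (O 0) (O i) ψ

theorem two_adm (O : ℕ → Subgroup U) : Two (T0 O) (Adm O) :=
  Two.all fun j => two_c2 (T0_keep j) (T0_keep 0) (T0_pv (j + 1))

theorem two_levG (O : ℕ → Subgroup U) (i : ℕ) : Two (T0 O) (LevG O i) :=
  (two_adm O).and (two_cd 0 (T0_keep 0) (T0_keep 0) (T0_pv i))

/-- the group `T i` -/
def TT (O : ℕ → Subgroup U) (i : ℕ) : Subgroup (FP U) := cut (T0 O) (LevG O i) (two_levG O i)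

theorem mem_TT {O : ℕ → Subgroup U} {i : ℕ} {g : FP U} : g ∈ TT O i ↔ g ∈ T0 O ∧ LevG O i g :=
  Iff.rfl

/-- the permutations that fix the cosets of `D` in `S` -/
def FxG (S D : Subgroup U) : Subgroup (FP U) where
  carrier := {g | g ∈ Keep S ∧ Fx S D g}
  one_mem' := ⟨(Keep S).one_mem, fun x _ => Cg.refl x⟩
  mul_mem' {a b} ha hb := ⟨(Keep S).mul_mem ha.1 hb.1,
    fun x hx => (hb.2 x hx).trans (ha.2 _ ((hb.1 x).2 hx))⟩
  inv_mem' {a} ha := ⟨(Keep S).inv_mem ha.1, fun x hx => by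
    simpa using (ha.2 _ (((Keep S).inv_mem ha.1 x).2 hx)).symm⟩

theorem mem_FxG {S D : Subgroup U} {g : FP U} : g ∈ FxG S D ↔ g ∈ Keep S ∧ Fx S D g := Iff.rfl

/-- the series -/
structure Ser (O : ℕ → Subgroup U) (r : ℕ) : Prop where
  fin : Finite (O 0)
  anti : ∀ j, O (j + 1) ≤ O j
  nm : ∀ j, Nm (O 0) (O j)
  cen : ∀ j, 1 ≤ j → ∀ x ∈ O 1, ∀ y ∈ O j, ⁅x, y⁆ ∈ O (j + 1)
  bot : ∀ j, r ≤ j → O j = ⊥

/-- the primes of the layers; `P` is the set of primes that are allowed -/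
structure Prs (P : ℕ → Prop) (O : ℕ → Subgroup U) (r N : ℕ) (pr : ℕ → ℕ) : Prop where
  anti : ∀ j, 1 ≤ j → j + 1 < r → pr (j + 1) ≤ pr j
  le : ∀ j, 1 ≤ j → j < r → pr j ≤ N + 1
  exp : ∀ j, 1 ≤ j → j < r →
    O j ≤ O (j + 1) ∨ ((pr j).Prime ∧ P (pr j) ∧ ∀ x ∈ O j, x ^ pr j ∈ O (j + 1))

end

section
variable {Γ Γ' : Type} [Group Γ] [Group Γ']

/-- forests whose groups lie in the groups of their nodes -/
inductive Tight (q : ℕ) : ℕ → Subgroup Γ → List (Rec Γ) → Prop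
  | nil (c G) : Tight q c G []
  | cons (c c0 c' G K P sub rest) : K ≤ G → P ≤ G → Nm G K → P.relIndex G ≤ q ^ c0 →
      c0 + 1 + c' ≤ c → Tight q c' P sub → SolvMod (P ⊓ topI sub) K → Tight q c G rest →
      Tight q c G ((0, K, P) :: (up sub ++ rest))

/-- the image of a subgroup -/
def img (ρ : Γ → Γ') (Z : Subgroup Γ) : Subgroup Γ' := Subgroup.closure (ρ '' Z)

/-- forests of lists of generators -/
abbrev FoG (Γ : Type) : Type := List (ℕ × List Γ × List Γ)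

def foG (F : FoG Γ) : List (Rec Γ) := F.map fun r => (r.1, gen r.2.1, gen r.2.2)

end

/-- the routine `cf` gives certificates for the subgroups of `T 1` -/
def Cf {U : Type} [Group U] (O : ℕ → Subgroup U) (q c0 f0 : ℕ) (cf : List (FP U) → FoG (FP U)) :
    Prop :=
  ∀ S, gen S ≤ TT O 1 → Tight q c0 (gen S) (foG (cf S)) ∧
    SolvMod (gen S ⊓ topI (foG (cf S))) (FxG (O 0) (O 1)) ∧ (cf S).length ≤ f0

end Pool.Agent.P.MP_f1a348_lc.PS
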