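import Pool.Agent.P.MP_f1a348_lc.PS.Basic

/-!
Project PS: the statements of the mathematical tasks.
-/

namespace Pool.Agent.P.MP_f1a348_lc.PS

open GI (gen Cg FP)
open UP (Rec up topI SolvMod Nm Val GG SA UG)
open PG (Ix Vec Mat Frm Sub c0 st l0 Par pull1 Wt key)
open scoped commutatorElement Matrix

/-! ### graph groups -/

def S_GR1 : Prop := ∀ (U : Type) [Group U] (ψ : FP U) (B T : Subgroup U), Finite B → T ≤ B →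
  Nm B T → Cd 0 B B T ψ →
  (∀ δ, δ ∈ Gr ψ B T ↔ δ.2 ∈ B ∧ dev ψ δ ∈ T) ∧ Finite (Gr ψ B T) ∧ ∀ k, Cd k B B T ψ

/-- the three graph groups of a context -/
structure Dv {U : Type} [Group U] (p : ℕ) (A B1 T0 T1 : Subgroup U) (ψ : FP U) : Prop where
  memA : ∀ B, B1 ≤ B → B ≤ A → ∀ δ, δ ∈ Gr ψ B T0 ↔ δ.2 ∈ B ∧ dev ψ δ ∈ T0
  memN : ∀ δ, δ ∈ Gr ψ B1 T1 ↔ δ.2 ∈ B1 ∧ dev ψ δ ∈ T1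
  fin : Finite (Gr ψ A T0)
  right : ∀ δ ∈ Gr ψ A T0, ∀ μ ∈ Gr ψ B1 T0, Cg T1 (dev ψ (δ * μ)) (dev ψ δ * dev ψ μ)
  left : ∀ δ ∈ Gr ψ A T0, ∀ μ ∈ Gr ψ B1 T0,
    Cg T1 (dev ψ (μ * δ)) (δ.2⁻¹ * dev ψ μ * δ.2 * dev ψ δ)
  nmM : Nm (Gr ψ A T0) (Gr ψ B1 T0)
  nmN : Nm (Gr ψ A T0) (Gr ψ B1 T1)
  pw : ∀ μ ∈ Gr ψ B1 T0, μ ^ p ∈ Gr ψ B1 T1
  ab : ∀ μ ∈ Gr ψ B1 T0, ∀ ν ∈ Gr ψ B1 T0, ⁅μ, ν⁆ ∈ Gr ψ B1 T1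
  cen : (∀ u ∈ T0, ∀ y ∈ A, ⁅u, y⁆ ∈ T1) →
    ∀ μ ∈ Gr ψ B1 T0, ∀ δ ∈ Gr ψ A T0, ⁅μ, δ⁆ ∈ Gr ψ B1 T1

def S_DEV : Prop := ∀ (U : Type) [Group U] (p : ℕ) (A B1 T0 T1 : Subgroup U) (ψ : FP U),
  Ctx p A B1 T0 T1 ψ → Dv p A B1 T0 T1 ψ

def S_TRIV : Prop := ∀ (U : Type) [Group U] (p : ℕ) (A B1 T0 T1 : Subgroup U) (ψ : FP U),
  Ctx p A B1 T0 T1 ψ → Cd 1 A B1 T1 ψ ∧ Cd 1 B1 A T1 ψ ∧ (∀ k, Cd k B1 B1 T1 ψ) ∧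
  (∀ k, Cd k A A T0 ψ) ∧
  ∀ x ∈ A, ∀ y ∈ A, ∀ x' y', Cg B1 x x' → Cg B1 y y' → Cg T1 (df 0 ψ x y) (df 0 ψ x' y')

def S_BIL : Prop := ∀ (U : Type) [Group U] (p : ℕ) (A B B1 T0 T1 : Subgroup U) (ψ : FP U),
  Ctx p A B1 T0 T1 ψ → Cen p A B B1 T0 T1 →
  (∀ x ∈ B, ∀ x' ∈ B, ∀ y ∈ A, Cg T1 (df 1 ψ (x * x') y) (df 1 ψ x y * df 1 ψ x' y)) ∧
  (∀ x ∈ B, ∀ y ∈ A, ∀ y' ∈ A, Cg T1 (df 1 ψ x (y * y')) (df 1 ψ x y * df 1 ψ x y')) ∧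
  (Cd 1 B A T1 ψ → (∀ δ ∈ Gr ψ B T0, ∀ ε ∈ Gr ψ A T0, ⁅δ, ε⁆ ∈ Gr ψ B1 T1) ∧ (2 ≤ p →
    (∀ x ∈ B, ∀ x' ∈ B, ∀ y, Cg T1 (df p ψ (x * x') y) (df p ψ x y * df p ψ x' y)) ∧
    (Cd p B B T1 ψ → ∀ δ ∈ Gr ψ B T0, δ ^ p ∈ Gr ψ B1 T1)))

/-- complements in elementary abelian sections -/
def S_CMPR : Prop := ∀ (Γ : Type) [Group Γ] (p : ℕ) (N M W : Subgroup Γ), p.Prime → Finite W →
  N ≤ M → M ≤ W → (∀ a ∈ W, ∀ b ∈ W, ⁅a, b⁆ ∈ N) → (∀ a ∈ W, a ^ p ∈ N) →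
  ∃ S, N ≤ S ∧ S ≤ W ∧ S ⊓ M ≤ N ∧ W ≤ S ⊔ M

/-- the theorem of Gaschütz in a section -/
def S_GASR : Prop := ∀ (Γ : Type) [Group Γ] (p : ℕ) (N M Q E : Subgroup Γ), Finite E → N ≤ M →
  M ≤ E → Nm E N → Nm E M → (∀ a ∈ M, ∀ b ∈ M, ⁅a, b⁆ ∈ N) → (∀ a ∈ M, a ^ p ∈ N) → N ≤ Q →
  Q ≤ E → Q ⊓ M ≤ N → p.Coprime ((Q ⊔ M).relIndex E) →
  ∃ S, N ≤ S ∧ S ≤ E ∧ S ⊓ M ≤ N ∧ E ≤ S ⊔ M

def S_SECT : Prop := ∀ (U : Type) [Group U] (p : ℕ) (A B B1 T0 T1 : Subgroup U) (ψ : FP U)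
  (S : Subgroup (U × U)), Ctx p A B1 T0 T1 ψ → B1 ≤ B → B ≤ A → Nm A B → Gr ψ B1 T1 ≤ S →
  S ≤ Gr ψ B T0 → S ⊓ Gr ψ B1 T0 ≤ Gr ψ B1 T1 → Gr ψ B T0 ≤ S ⊔ Gr ψ B1 T0 →
  (Nm (Gr ψ A T0) S ∨ A ≤ B) → ∃ f, Rpr A B B1 T0 T1 ψ f

def S_REP : Prop := ∀ (U : Type) [Group U] (p : ℕ) (ψ : FP U), p.Prime →
  (∀ A B B1 T0 T1 : Subgroup U, Ctx p A B1 T0 T1 ψ → Cen p A B B1 T0 T1 → Cd 1 B A T1 ψ →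
    Cd p B B T1 ψ → ∃ f, Rpr A B B1 T0 T1 ψ f) ∧
  ∀ Y O O' D : Subgroup U, Ctx p Y O O O' ψ → O ≤ D → D ≤ Y → p.Coprime (D.relIndex Y) →
    Cd 0 D D O' ψ → ∃ f, Rpr Y Y O O O' ψ f

/-- a map that is right modulo `O (i + 1)` lifts to a triangular permutation -/
def S_TRI : Prop := ∀ (U : Type) [Group U] (O : ℕ → Subgroup U) (r i : ℕ) (h : U → U), Ser O r →
  1 ≤ i → (∀ x ∈ O 0, Cg (O i) x (h x)) →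
  (∀ x ∈ O 0, ∀ o ∈ O i, Cg (O (i + 1)) (h (x * o)) (h x * h o) ∧
    Cg (O (i + 1)) (h (o * x)) (h o * h x)) →
  (∀ o ∈ O i, h o ∈ O (i + 1) ↔ o ∈ O (i + 1)) →
  ∃ u ∈ TT O i, Fx (O 0) (O i) u ∧ (∀ x ∈ O 0, Cg (O (i + 1)) (u.app x) (h x)) ∧
    ∀ o ∈ O (i + 1), u.app o = o

/-! ### the set-up of a stage -/

def S_SYL : Prop := ∀ (U : Type) [Group U] (p : ℕ) (Y O D : Subgroup U), p.Prime → Finite Y →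
  Nm Y O → MaxP p Y O D → p.Coprime (D.relIndex Y) ∧
    ∀ D', MaxP p Y O D' → ∃ a ∈ Y, ∀ x, a * x * a⁻¹ ∈ D' ↔ x ∈ D

def S_FRAT : Prop := ∀ (U : Type) [Group U] (p : ℕ) (g : Sg U), p.Prime → g.OK p →
  (∀ a ∈ g.O 0, ∀ c, IsInn (g.O 0) a c → (∀ i, c ∈ TT g.O i) ∧
    ∀ ψ, Hom (g.O 0) ψ → Hom (g.O 0) (ψ * c)) ∧
  ∀ u ∈ TT g.O g.i0, ∃ a ∈ g.O 0, ∀ c, IsInn (g.O 0) a c → u * c ∈ g.B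

def S_CHAIN : Prop := ∀ (U : Type) [Group U] (p : ℕ) (g : Sg U), p.Prime → g.OK p → g.Ch p

def S_PRES : Prop := ∀ (U : Type) [Group U] (p : ℕ) (g : Sg U), g.Ch p → g.Pres p

/-- the context of an instruction -/
def S_CTX : Prop := ∀ (U : Type) [Group U] (p : ℕ) (g : Sg U), g.Ch p →
  (∀ i t b ψ, g.i0 ≤ i → g.b0 i ≤ t → b ≤ t → g.Lev p i t b ψ →
    Ctx p g.D0 (g.D p b) (g.D p t) (g.D p (t + 1)) ψ) ∧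
  (∀ t b, Cen p g.D0 (g.D p b) (g.D p (b + 1)) (g.D p t) (g.D p (t + 1))) ∧
  (∀ i ψ, g.i0 ≤ i → i < g.i1 → LevG g.O i ψ →
    Ctx p (g.O 0) (g.O i) (g.O i) (g.O (i + 1)) ψ) ∧
  ∀ a, g.Vd a → a.t < g.s ∧ a.b < a.t ∧ g.D p a.t ≤ g.O a.i ∧ g.O (a.i + 1) ≤ g.D p (a.t + 1) ∧
    g.O a.i ≤ g.D p (a.b + 1) ∧ g.fS p a ≤ g.O 0 ∧ g.fR a ≤ g.O 0 ∧ g.O (a.i + 1) ≤ g.fT p a ∧
    g.fT p a ≤ g.O a.i ∧ ∀ x ∈ g.O a.i, ∀ y ∈ g.O a.i, ⁅x, y⁆ ∈ g.fT p a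

def S_TWOQ : Prop := ∀ (U : Type) [Group U] (p : ℕ) (g : Sg U) (a : Ins), g.Ch p → g.Pres p →
  g.Vd a → Two g.B (g.pre p a) ∧ Two g.B (g.post p a) ∧ (∀ ψ, g.post p a ψ → g.pre p a ψ) ∧
  (∀ ψ, Hom (g.O 0) ψ → g.post p a ψ) ∧ (∀ ψ, g.pre p a ψ → LevG g.O a.i ψ) ∧
  (2 ≤ a.k → ∀ ψ, g.post p a ψ ↔ g.pre p a ψ ∧ C2 (g.fS p a) (g.fR a) (g.fT p a) ψ)

def S_INS : Prop := ∀ (U : Type) [Group U] (p : ℕ) (g : Sg U), g.Ch p →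
  g.Lnk p (LevG g.O g.i0) g.ins (LevG g.O g.i1) ∧ g.ins.length ≤ (g.s + 1) ^ 3

def S_FIXM : Prop := ∀ (U : Type) [Group U] (p : ℕ) (g : Sg U) (a : Ins) (ψ : FP U), p.Prime →
  g.Ch p → g.Pres p → g.Vd a → 2 ≤ a.k → g.pre p a ψ →
  ∃ τ ∈ g.B, τ ∈ g.Nk a.i ∧ (∀ b, b < g.s → Fx (g.D p b) (g.D p (b + 1)) τ) ∧ g.post p a (ψ * τ)

def S_ADD : Prop := ∀ (U : Type) [Group U] (p : ℕ) (g : Sg U) (i : ℕ), g.Ch p → g.i0 ≤ i →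
  i < g.i1 → Nm (T0 g.O) (T0 g.O ⊓ g.Nk i) ∧ ∀ ψ, LevG g.O i ψ → ∀ u ∈ TT g.O i, u ∈ g.Nk i →
    ∀ x ∈ g.O 0, ∀ y ∈ g.O 0, df 0 ψ x y ∈ g.O i ∧
      Cg (g.O (i + 1)) (df 0 (ψ * u) x y) (df 0 u x y * df 0 ψ x y)

/-! ### certificates -/

def S_IMG : Prop := ∀ (Γ Γ' : Type) [Group Γ] [Group Γ'] (ρ : Γ → Γ') (G : Subgroup Γ),
  (∀ a ∈ G, ∀ b ∈ G, ρ (a * b) = ρ a * ρ b) →
  (∀ Z, Z ≤ G → ∀ y, y ∈ img ρ Z ↔ ∃ z ∈ Z, ρ z = y) ∧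
  (∀ S : List Γ, gen S ≤ G → img ρ (gen S) = Subgroup.closure {y | ∃ s ∈ S, ρ s = y}) ∧
  (∀ H N, H ≤ G → Nm H N → Nm (img ρ H) (img ρ (H ⊓ N))) ∧
  (∀ H Z : Subgroup Γ, Z ≤ H → H ≤ G → Finite H → (img ρ Z).relIndex (img ρ H) ≤ Z.relIndex H) ∧
  (∀ Z N, Z ≤ G → SolvMod Z N → SolvMod (img ρ Z) (img ρ (Z ⊓ N))) ∧
  ∀ H K K', H ≤ G → K ≤ H → K' ≤ H → Nm H K → Nm H K' →
    SolvMod (img ρ K ⊓ img ρ K') (img ρ (K ⊓ K'))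

def S_PUSH : Prop := ∀ (Γ Γ' : Type) [Group Γ] [Group Γ'] (ρ : Γ → Γ') (q c : ℕ)
  (G N : Subgroup Γ) (F : List (Rec Γ)), (∀ a ∈ G, ∀ b ∈ G, ρ (a * b) = ρ a * ρ b) → Finite G →
  Tight q c G F → SolvMod (G ⊓ topI F) N → (∀ r ∈ F, r.2.1 ≤ G ∧ r.2.2 ≤ G) ∧
  Val q c (img ρ G) (img ρ (G ⊓ N)) (F.map fun r => (r.1, img ρ r.2.1, img ρ r.2.2))

section
variable (p n : ℕ) [Fact p.Prime]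

/-! ### coordinates -/

def S_LINK : Prop := ∀ (U : Type) [Group U] (β : Bs U p n) (D : ℕ → Subgroup U) (s : ℕ),
  β.OK D s → (∀ b, D (b + 1) ≤ D b) →
  (∀ b, b < s → β.kap b 1 = 0 ∧ ∀ x ∈ D b, β.kap b x⁻¹ = -β.kap b x ∧
    (∀ k : ℕ, β.kap b (x ^ k) = (k : ZMod p) • β.kap b x) ∧
    ∀ y, Cg (D (b + 1)) x y → β.kap b x = β.kap b y) ∧
  (∀ (W : Type) [AddCommGroup W] [Module (ZMod p) W] (φ : U → W) (b : ℕ), b < s →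
    (∀ x ∈ D b, ∀ y ∈ D b, φ (x * y) = φ x + φ y) → (∀ x ∈ D (b + 1), φ x = 0) →
    ∀ x ∈ D b, φ x = ∑ α, β.kap b x α • φ (β.e α)) ∧
  (Finite (D 0) → p ^ n ≤ Nat.card (D 0))

/-- maps that act on the section `D b / D (b + 1)` -/
structure Act {U : Type} [Group U] (D : ℕ → Subgroup U) (s : ℕ) (φ : ℕ → U → U) : Prop where
  mem : ∀ b, b < s → ∀ x ∈ D b, φ b x ∈ D b
  low : ∀ b, b < s → ∀ x ∈ D (b + 1), φ b x ∈ D (b + 1)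
  mul : ∀ b, b < s → ∀ x ∈ D b, ∀ y ∈ D b, Cg (D (b + 1)) (φ b (x * y)) (φ b x * φ b y)

def S_AF : Prop := ∀ (U : Type) [Group U] (β : Bs U p n) (D : ℕ → Subgroup U) (s : ℕ),
  β.OK D s → (∀ b, D (b + 1) ≤ D b) →
  (∀ φ α γ, β.aF φ α γ ≠ 0 → c0 n < α ∧ c0 n < γ ∧ β.bl α = β.bl γ) ∧
  β.aF (fun _ x => x) = Matrix.diagonal (fun α => if c0 n < α then 1 else 0) ∧
  ∀ φ, Act D s φ → (∀ b, b < s → ∀ x ∈ D b, β.kap b (φ b x) = β.aF φ *ᵥ β.kap b x) ∧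
    ∀ φ', (∀ b, b < s → ∀ x ∈ D b, φ' b x ∈ D b) →
      β.aF (fun b x => φ b (φ' b x)) = β.aF φ * β.aF φ' ∧
      β.aF (fun b x => φ b x * φ' b x) = β.aF φ + β.aF φ' ∧
      ((∀ b, b < s → ∀ x ∈ D b, Cg (D (b + 1)) (φ b x) (φ' b x)) → β.aF φ = β.aF φ')

def S_LAM : Prop := ∀ (U : Type) [Group U] (g : Sg U) (β : Bs U p n), g.Ch p → g.Pres p →
  β.OK (g.D p) g.s → ∀ u ∈ g.B, Act (g.D p) g.s (fun _ => u.app) ∧ (β.lam u).1 = β.lamM u ∧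
    (∀ v ∈ g.B, β.lam (u * v) = β.lam u * β.lam v) ∧
    ((∀ b, b < g.s → Fx (g.D p b) (g.D p (b + 1)) u) → β.lam u = 1)

def S_ZERO : Prop := ∀ (U : Type) [Group U] (g : Sg U) (β : Bs U p n) (a : Ins) (ψ : FP U),
  g.Ch p → β.OK (g.D p) g.s → g.Vd a → a.k ≤ 1 →
  β.th a ψ ∈ Wt (l0 n) (key (l0 n) (box n a.k)) ∧
  (g.pre p a ψ → (g.post p a ψ ↔ β.th a ψ = 0))

def S_COC : Prop := ∀ (U : Type) [Group U] (g : Sg U) (β : Bs U p n) (a : Ins) (ψ : FP U),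
  g.Ch p → g.Pres p → β.OK (g.D p) g.s → g.Vd a → a.k ≤ 1 → g.pre p a ψ →
  ∀ u ∈ g.B, g.pre p a u → β.th a (ψ * u) = pull1 (β.lam u).1 (β.th a ψ) + β.th a u

/-! ### the first certificate -/

def S_REL : Prop := ∀ (U : Type) [Group U] (g : Sg U) (β : Bs U p n), g.Ch p →
  β.OK (g.D p) g.s →
  (∀ φ : ℕ → U → U, (∀ i, g.i0 ≤ i → i < g.i1 → End g.O i (φ i)) → ∀ k : ℕ,
    Act (g.D p) g.s fun b x => if b < g.L then x ^ k else φ (g.i0 + b / g.L - 1) x) ∧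
  Rel g β 0 0 ∧ Rel g β (β.aF fun _ x => x) 1 ∧
  ∀ a χ, Rel g β a χ → (∀ c : ZMod p, Rel g β (c • a) (c * χ)) ∧
    ∀ a' χ', Rel g β a' χ' → Rel g β (a + a') (χ + χ') ∧ Rel g β (a * a') (χ * χ')

def S_RLIFT : Prop := ∀ (U : Type) [Group U] (g : Sg U) (β : Bs U p n), g.Ch p → g.Pres p →
  β.OK (g.D p) g.s → (∀ u ∈ g.B ⊓ FxG (g.O 0) (g.O 1), Rel g β (β.aM u) 1) ∧
  ∀ a a', Rel g β a 1 → a' * a = β.aF (fun _ x => x) →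
    ∃ u ∈ g.B ⊓ FxG (g.O 0) (g.O 1), β.aM u = a

def S_FULL0 : Prop := ∀ (U : Type) [Group U] (g : Sg U) (β : Bs U p n), g.Ch p → g.Pres p →
  β.OK (g.D p) g.s → SA (R0 g β) ∧ img β.lam (g.B ⊓ FxG (g.O 0) (g.O 1)) = UG (R0 g β)

end

end Pool.Agent.P.MP_f1a348_lc.PS
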