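import Pool.Agent.P.MP_f1a348_lc.PS.Iface

/-!
Project PS: the chain of a Sylow subgroup and the contexts of the instructions.
-/

namespace Pool.Agent.P.MP_f1a348_lc.PS

open GI (gen Cg FP)
open UP (Rec up topI SolvMod Nm Val GG SA UG)
open PG (Ix Vec Mat Frm Sub c0 st l0 Par pull1 Wt key)
open scoped commutatorElement Matrix

namespace TCHAIN

/-- in a nilpotent group of exponent `p ^ e` only the trivial subgroup is generated by its powers and
commutators -/
theorem nil (p e : ℕ) (G : Type) [Group G] [Group.IsNilpotent G] : (∀ x : G, x ^ p ^ e = 1) →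
    ∀ K : Subgroup G, K ≤ Subgroup.closure
      {z | (∃ x ∈ K, z = x ^ p) ∨ ∃ x ∈ K, ∃ y, z = ⁅x, y⁆} → K = ⊥ := by
  refine Group.nilpotent_center_quotient_ind (P := fun G _ _ => (∀ x : G, x ^ p ^ e = 1) →
    ∀ K : Subgroup G, K ≤ Subgroup.closure
      {z | (∃ x ∈ K, z = x ^ p) ∨ ∃ x ∈ K, ∃ y, z = ⁅x, y⁆} → K = ⊥) G
    (fun G _ _ _ K _ => Subsingleton.elim _ _) ?_
  intro G _ _ ih hx K hK
  have hc : K ≤ Subgroup.center G := by
    have := ih (fun x => by
      obtain ⟨y, rfl⟩ := QuotientGroup.mk'_surjective _ x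
      rw [← map_pow, hx, map_one]) (K.map (QuotientGroup.mk' (Subgroup.center G))) (by
      refine (Subgroup.map_mono hK).trans ?_
      rw [MonoidHom.map_closure]
      refine Subgroup.closure_mono ?_
      rintro _ ⟨z, ⟨x, h, rfl⟩ | ⟨x, h, y, rfl⟩, rfl⟩
      · exact .inl ⟨_, ⟨x, h, rfl⟩, map_pow _ _ _⟩
      · exact .inr ⟨_, ⟨x, h, rfl⟩, _, map_commutatorElement _ x y⟩)
    rwa [Subgroup.map_eq_bot_iff, QuotientGroup.ker_mk'] at this
  have cm : ∀ x ∈ K, ∀ y, Commute x y := fun x h y => (Subgroup.mem_center_iff.1 (hc h) y).symm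
  let T : Subgroup G :=
    { carrier := {z | ∃ x ∈ K, z = x ^ p}
      one_mem' := ⟨1, K.one_mem, (one_pow p).symm⟩
      mul_mem' := by
        rintro _ _ ⟨x, h, rfl⟩ ⟨y, h', rfl⟩
        exact ⟨x * y, K.mul_mem h h', ((cm x h y).mul_pow p).symm⟩
      inv_mem' := by
        rintro _ ⟨x, h, rfl⟩
        exact ⟨x⁻¹, K.inv_mem h, (inv_pow x p).symm⟩ }
  have hT : K ≤ T := hK.trans ((Subgroup.closure_le T).2 (by
    rintro _ (h | ⟨x, h, y, rfl⟩)
    · exact h
    · rw [(cm x h y).commutator_eq]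
      exact T.one_mem))
  have hk : ∀ k : ℕ, ∀ x ∈ K, ∃ y ∈ K, x = y ^ p ^ k := fun k => by
    induction k with
    | zero => exact fun x h => ⟨x, h, by simp⟩
    | succ k ih =>
      intro x h
      obtain ⟨y, h1, rfl⟩ := ih x h
      obtain ⟨z, h2, rfl⟩ := hT h1
      exact ⟨z, h2, by rw [← pow_mul, pow_succ']⟩
  refine eq_bot_iff.2 fun x h => ?_
  obtain ⟨y, -, rfl⟩ := hk e x h
  exact hx y

variable {U : Type} [Group U]

theorem sect {p : ℕ} (hp : p.Prime) {A N K : Subgroup U} [Finite A] (hN : N ≤ A) (hK : K ≤ A)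
    (nm : Nm A N) (pg : PGm p A N) (h : K ≤ N ⊔ Subgroup.closure
      {z | (∃ x ∈ K, z = x ^ p) ∨ ∃ x ∈ K, ∃ y ∈ A, z = ⁅x, y⁆}) : K ≤ N := by
  have : Fact p.Prime := ⟨hp⟩
  have : (N.subgroupOf A).Normal := ⟨fun n hn g => nm g g.2 n hn⟩
  let φ := QuotientGroup.mk' (N.subgroupOf A)
  have hP : IsPGroup p (A ⧸ N.subgroupOf A) := fun x => by
    obtain ⟨y, rfl⟩ := QuotientGroup.mk'_surjective _ x
    obtain ⟨k, hk⟩ := pg y y.2
    exact ⟨k, by rw [← map_pow]; exact (QuotientGroup.eq_one_iff _).2 hk⟩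
  have := hP.isNilpotent
  obtain ⟨e, he⟩ := IsPGroup.iff_card.1 hP
  have := nil p e (A ⧸ N.subgroupOf A) (fun x => he ▸ pow_card_eq_one') ((K.subgroupOf A).map φ) (by
    rintro _ ⟨x, hx, rfl⟩
    generalize hW : Subgroup.closure (G := A ⧸ N.subgroupOf A) _ = W
    have key : K ≤ (W.comap φ).map A.subtype := by
      refine h.trans (sup_le (fun n hn => ⟨⟨n, hN hn⟩, ?_, rfl⟩) ((Subgroup.closure_le _).2 ?_))
      · have : φ ⟨n, hN hn⟩ = 1 := (QuotientGroup.eq_one_iff _).2 hn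
        exact Subgroup.mem_comap.2 (this ▸ Subgroup.one_mem _)
      · subst hW
        rintro _ (⟨x, h, rfl⟩ | ⟨x, h, y, hy, rfl⟩)
        · exact ⟨⟨x, hK h⟩ ^ p, Subgroup.subset_closure
            (.inl ⟨_, ⟨⟨x, hK h⟩, h, rfl⟩, map_pow _ _ _⟩), rfl⟩
        · exact ⟨⁅(⟨x, hK h⟩ : A), ⟨y, hy⟩⁆, Subgroup.subset_closure
            (.inr ⟨_, ⟨⟨x, hK h⟩, h, rfl⟩, _, map_commutatorElement _ _ _⟩), rfl⟩
    obtain ⟨y, h1, h2⟩ := key hx
    exact (Subtype.ext h2 : y = x) ▸ h1)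
  rw [Subgroup.map_eq_bot_iff, QuotientGroup.ker_mk'] at this
  exact fun x hx => this (x := ⟨x, hK hx⟩) hx

variable {g : Sg U} {p : ℕ}

theorem low (b : ℕ) : g.O (g.i0 + b / g.L) ≤ g.D p (b + 1) := le_sup_left

theorem pow (b : ℕ) : ∀ x ∈ g.D p b, x ^ p ∈ g.D p (b + 1) := fun x hx =>
  Subgroup.mem_sup_right (Subgroup.subset_closure (.inl ⟨x, hx, rfl⟩))

theorem cm (b : ℕ) : ∀ x ∈ g.D p b, ∀ y ∈ g.D0, ⁅x, y⁆ ∈ g.D p (b + 1) := fun x hx y hy =>
  Subgroup.mem_sup_right (Subgroup.subset_closure (.inr ⟨x, hx, y, hy, rfl⟩))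

theorem nm (h : g.OK p) (b : ℕ) : Nm g.D0 (g.D p b) := by
  induction b with
  | zero => exact fun a ha k hk => g.D0.mul_mem (g.D0.mul_mem ha hk) (g.D0.inv_mem ha)
  | succ b ih =>
    intro a ha
    refine (?_ : g.D p (b + 1) ≤ (g.D p (b + 1)).comap (MulAut.conj a).toMonoidHom)
    refine sup_le (fun k hk => low b (h.ser.nm _ a (h.syl.hi ha) k hk))
      ((Subgroup.closure_le _).2 ?_)
    rintro _ (⟨x, hx, rfl⟩ | ⟨x, hx, y, hy, rfl⟩)
    · exact Subgroup.mem_comap.2 (by rw [map_pow]; exact pow b _ (ih a ha x hx))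
    · exact Subgroup.mem_comap.2 (by
        rw [map_commutatorElement]
        exact cm b _ (ih a ha x hx) _ (g.D0.mul_mem (g.D0.mul_mem ha hy) (g.D0.inv_mem ha)))

theorem low' (h : g.OK p) : ∀ b, g.O (g.i0 + b / g.L) ≤ g.D p b
  | 0 => by simpa using h.syl.lo
  | b + 1 => (h.ser.le (Nat.add_le_add_left (Nat.div_le_div_right b.le_succ) _)).trans (low b)

theorem step (h : g.OK p) (b : ℕ) : g.D p (b + 1) ≤ g.D p b := by
  refine sup_le (low' h b) ((Subgroup.closure_le _).2 ?_)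
  rintro _ (⟨x, hx, rfl⟩ | ⟨x, hx, y, hy, rfl⟩)
  · exact (g.D p b).pow_mem hx p
  · have := (g.D p b).mul_mem hx (nm h b y hy _ ((g.D p b).inv_mem hx))
    simpa [commutatorElement_def, mul_assoc] using this

theorem anti (h : g.OK p) {b b' : ℕ} (e : b ≤ b') : g.D p b' ≤ g.D p b :=
  antitone_nat_of_succ_le (step h) e

theorem pgm (h : g.OK p) : ∀ j, g.i0 + j ≤ g.i1 → PGm p g.D0 (g.O (g.i0 + j))
  | 0, _ => h.syl.pg
  | j + 1, e => fun x hx => by
    obtain ⟨k, hk⟩ := pgm h j (by omega) x hx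
    exact ⟨k + 1, by rw [pow_succ, pow_mul]; exact h.pw (g.i0 + j) (by omega) (by omega) _ hk⟩

theorem run (hp : p.Prime) (h : g.OK p) (j : ℕ) (e : g.i0 + j ≤ g.i1) : ∀ k, k ≤ g.L →
    g.D p (g.L * j + k) ≤ g.O (g.i0 + j) ∨ Nat.card (g.D p (g.L * j + k)) + k ≤ Nat.card (g.O 0) := by
  have := h.ser.fin
  have hi : ∀ b, g.D p b ≤ g.O 0 := fun b => (anti h b.zero_le).trans h.syl.hi
  have : ∀ b, Finite (g.D p b) := fun b => Finite.of_injective _ (Subgroup.inclusion_injective (hi b))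
  have : Finite g.D0 := Finite.of_injective _ (Subgroup.inclusion_injective h.syl.hi)
  intro k
  induction k with
  | zero => exact fun _ => .inr (Subgroup.card_le_of_le (hi _))
  | succ k ih =>
    intro hk
    by_cases c : g.D p (g.L * j + k) ≤ g.O (g.i0 + j)
    · exact .inl ((step h _).trans c)
    have d : (g.L * j + k) / g.L = j := by
      rw [Nat.mul_add_div (by omega), Nat.div_eq_of_lt hk, add_zero]
    have lt : ¬ g.D p (g.L * j + k) ≤ g.D p (g.L * j + k + 1) := fun n => c (by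
      refine sect hp ((h.ser.le (Nat.le_add_right _ _)).trans h.syl.lo) (anti h (Nat.zero_le _))
        (fun a ha => h.ser.nm _ a (h.syl.hi ha)) (pgm h j e) ?_
      rw [Sg.D, d] at n
      exact n)
    have : Nat.card (g.D p (g.L * j + k + 1)) < Nat.card (g.D p (g.L * j + k)) :=
      lt_of_not_ge fun n => lt (Subgroup.eq_of_le_of_card_ge (step h _) n).ge
    have := (ih (by omega)).resolve_left c
    rw [← add_assoc]
    omega

end TCHAIN

open TCHAIN in
theorem s_CHAIN : S_CHAIN := by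
  intro U _ p g hp h
  have := h.ser.fin
  have pos : 0 < g.L := Nat.card_pos.trans_le h.big
  refine ⟨h, pos, fun _ _ => anti h, fun _ _ => h.ser.le, nm h, cm, pow, low, fun i e e' => ?_,
    fun x hx => ?_⟩
  · obtain ⟨j, rfl⟩ := Nat.exists_eq_add_of_le e
    rw [Sg.b0, Nat.add_sub_cancel_left, Nat.mul_succ]
    refine le_antisymm ((run hp h j e' g.L le_rfl).resolve_right fun n => ?_) ?_
    · have : Finite (g.D p (g.L * j + g.L)) := Finite.of_injective _
        (Subgroup.inclusion_injective ((anti h (Nat.zero_le _)).trans h.syl.hi))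
      have := Nat.card_pos (α := g.D p (g.L * j + g.L))
      have := h.big
      omega
    · have d : (g.L * j + (g.L - 1)) / g.L = j := by
        rw [Nat.mul_add_div pos, Nat.div_eq_of_lt (by omega), add_zero]
      have := low (g := g) (p := p) (g.L * j + (g.L - 1))
      rwa [d, add_assoc (g.L * j), Nat.sub_add_cancel pos] at this
  · obtain ⟨k, hk⟩ := h.syl.pg x hx.1
    induction k with
    | zero => simpa using hk
    | succ k ih => exact ih (h.cop _ ((g.O 1).pow_mem hx.2 _) (by rwa [← pow_mul, ← pow_succ]))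

theorem s_CTX : S_CTX := by
  intro U _ p g h
  have := h.ser.fin
  have lo := h.lo
  have cen : ∀ i, g.i0 ≤ i → ∀ x ∈ g.O i, ∀ y ∈ g.O i, ⁅x, y⁆ ∈ g.O (i + 1) := fun i e x hx =>
    h.ser.cen i (by omega) x (h.antiO 1 i (by omega) hx)
  have hi : ∀ b, g.D p b ≤ g.D0 := fun b => h.anti 0 b b.zero_le
  refine ⟨fun i t b ψ _ _ e l => ⟨Finite.of_injective _ (Subgroup.inclusion_injective h.syl.hi),
      h.anti _ _ t.le_succ, h.anti _ _ e, hi b, h.nm _, h.nm _, h.nm _,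
      fun u hu y hy => h.cm t u hu y (hi b hy), h.pow t, l.2.1, l.2.2⟩,
    fun t b => ⟨h.anti _ _ b.le_succ, hi b, h.nm b, h.cm b, h.pow b, h.cm t⟩,
    fun i ψ e e' l => ⟨h.ser.fin, h.ser.anti i, le_rfl, h.antiO 0 i i.zero_le, h.ser.nm _, h.ser.nm _,
      h.ser.nm _, cen i e, h.pw i e e', l.2, l.1 i⟩, fun a v => ?_⟩
  have e1 := v.lo
  have e2 := v.hi
  have d1 : g.D p a.t ≤ g.O a.i := (h.anti _ _ v.t0).trans (h.eqO _ e1 e2.le).le
  have d2 : g.O (a.i + 1) ≤ g.D p (a.t + 1) := (h.eqO _ (by omega) e2).ge.trans (h.anti _ _ v.t1)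
  have d3 : g.O (a.i + 1) ≤ g.fT p a := by
    unfold Sg.fT
    split_ifs
    exacts [d2, le_rfl]
  refine ⟨v.t1.trans_le (Nat.mul_le_mul_left _ (by omega)), v.b.trans_le v.t0, d1, d2,
    (h.eqO _ e1 e2.le).ge.trans (h.anti _ _ v.b), ?_, ?_, d3, ?_,
    fun x hx y hy => d3 (cen _ e1 x hx y hy)⟩
  · unfold Sg.fS
    split_ifs
    exacts [(hi _).trans h.syl.hi, le_rfl]
  · unfold Sg.fR
    split_ifs
    exacts [h.syl.hi, le_rfl]
  · unfold Sg.fT
    split_ifs
    exacts [(h.anti _ _ a.t.le_succ).trans d1, h.ser.anti _]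

end Pool.Agent.P.MP_f1a348_lc.PS
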