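import Pool.Agent.P.MP_f1a348_lc.PS.PIf

/-! Project PS: the coordinates of one block. -/

namespace Pool.Agent.P.MP_f1a348_lc.PS

open GI (gen Cg FP Rep sims)
open UP (Rec up topI SolvMod Nm Val GG SG SA UG Fo gS gD foD)
open PG (Ix Vec Mat Frm Sub c0 st l0 Par pull1 Wt key V Cx pp mM mV fV unL oneP)
open Pool.Agent.Lib.Helper47

namespace TCRD

variable {U : Type} [Group U]

/-- an additive map on `D` with kernel `D1` -/
structure Lin {M : Type} [AddCommGroup M] (D D1 : Subgroup U) (φ : U → M) : Prop where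
  add : ∀ x ∈ D, ∀ z ∈ D, φ (x * z) = φ x + φ z
  ker : ∀ x ∈ D, φ x = 0 ↔ x ∈ D1

theorem exists_lin (p : ℕ) {D D1 : Subgroup U} [Finite D]
    (h : ∀ x ∈ D, x ^ p ∈ D1 ∧ ∀ z ∈ D, x * z * x⁻¹ * z⁻¹ ∈ D1) :
    ∃ (M : Type) (_ : AddCommGroup M) (_ : Module (ZMod p) M) (_ : Finite M) (φ : U → M),
      Lin D D1 φ ∧ Nat.card M ≤ Nat.card D := by
  classical
  have hn : (D1.subgroupOf D).Normal := ⟨fun n hn g => by
    have := D1.mul_mem ((h g g.2).2 n n.2) hn
    simpa [Subgroup.mem_subgroupOf] using this⟩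
  let cg : CommGroup (D ⧸ D1.subgroupOf D) :=
    { QuotientGroup.Quotient.group (D1.subgroupOf D) with
      mul_comm := fun a b => by
        obtain ⟨a, rfl⟩ := QuotientGroup.mk_surjective a
        obtain ⟨b, rfl⟩ := QuotientGroup.mk_surjective b
        rw [← QuotientGroup.mk_mul, ← QuotientGroup.mk_mul, QuotientGroup.eq]
        have := (h _ (D.inv_mem b.2)).2 _ (D.inv_mem a.2)
        simpa [Subgroup.mem_subgroupOf, mul_assoc] using this }
  refine ⟨Additive (D ⧸ D1.subgroupOf D), inferInstance, AddCommGroup.zmodModule fun x => ?_,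
    inferInstance, fun x => if hx : x ∈ D then Additive.ofMul (QuotientGroup.mk ⟨x, hx⟩) else 0,
    ⟨fun x hx z hz => ?_, fun x hx => ?_⟩, ?_⟩
  · obtain ⟨a, ha⟩ := QuotientGroup.mk_surjective (Additive.toMul x)
    apply Additive.toMul.injective
    rw [toMul_nsmul, ← ha, toMul_zero, ← QuotientGroup.mk_pow, QuotientGroup.eq_one_iff]
    exact (h a a.2).1
  · rw [dif_pos hx, dif_pos hz, dif_pos (D.mul_mem hx hz)]
    rfl
  · rw [dif_pos hx, ofMul_eq_zero, QuotientGroup.eq_one_iff]
    rfl
  · exact Nat.card_le_card_of_surjective _ (QuotientGroup.mk_surjective (s := D1.subgroupOf D))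

variable {p : ℕ} {M : Type} [AddCommGroup M] [Module (ZMod p) M] {D D1 : Subgroup U} {φ : U → M}

theorem Lin.one (h : Lin D D1 φ) : φ 1 = 0 := (h.ker 1 D.one_mem).2 D1.one_mem

theorem Lin.inv (h : Lin D D1 φ) {x : U} (hx : x ∈ D) : φ x⁻¹ = -φ x := by
  rw [eq_neg_iff_add_eq_zero, ← h.add _ (D.inv_mem hx) _ hx, inv_mul_cancel, h.one]

theorem Lin.pow (h : Lin D D1 φ) {x : U} (hx : x ∈ D) (n : ℕ) :
    φ (x ^ n) = (n : ZMod p) • φ x := by
  induction n with
  | zero => simp [h.one]
  | succ n ih => rw [pow_succ, h.add _ (D.pow_mem hx n) _ hx, ih, Nat.cast_succ, add_smul, one_smul]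

theorem Lin.eq_iff (h : Lin D D1 φ) {x z : U} (hx : x ∈ D) (hz : z ∈ D) :
    x⁻¹ * z ∈ D1 ↔ φ z = φ x := by
  rw [← h.ker _ (D.mul_mem (D.inv_mem hx) hz), h.add _ (D.inv_mem hx) _ hz, h.inv hx,
    neg_add_eq_zero, eq_comm]

/-- linear combinations of the images of a list -/
def lc (p : ℕ) [Module (ZMod p) M] (φ : U → M) (l : List U) : (ℕ → ZMod p) →ₗ[ZMod p] M where
  toFun c := ∑ k ∈ Finset.range l.length, c k • φ (l.getD k 1)
  map_add' a b := by simp [add_smul, Finset.sum_add_distrib]
  map_smul' a b := by simp [mul_smul, Finset.smul_sum]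

theorem lc_apply (l : List U) (c : ℕ → ZMod p) :
    lc p φ l c = ∑ k ∈ Finset.range l.length, c k • φ (l.getD k 1) := rfl

theorem lc_snoc (l : List U) (x : U) (c : ℕ → ZMod p) :
    lc p φ (l ++ [x]) c = lc p φ l c + c l.length • φ x := by
  rw [lc_apply, lc_apply, List.length_append, List.length_singleton, Finset.sum_range_succ]
  congr 1
  · exact Finset.sum_congr rfl fun k hk => by
      rw [List.getD_append _ _ _ _ (Finset.mem_range.1 hk)]
  · simp

theorem lc_single (l : List U) {k : ℕ} (hk : k < l.length) :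
    lc p φ l (Pi.single k 1) = φ (l.getD k 1) := by
  rw [lc_apply, Finset.sum_eq_single k (fun j _ e => by simp [e])
    (fun e => absurd (Finset.mem_range.2 hk) e)]
  simp

theorem getD_mem {l : List U} {k : ℕ} (hk : k < l.length) : l.getD k 1 ∈ l := by
  rw [List.getD_eq_getElem _ _ hk]; exact List.getElem_mem hk

theorem lc_word [DecidableEq U] (h : Lin D D1 φ) (l : List U) (hl : ∀ x ∈ l, x ∈ D) (js : List Un) :
    word l js ∈ D ∧
      φ (word l js) = lc p φ l fun k => (((js.map List.length).getD k 0 : ℕ) : ZMod p) := by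
  induction l generalizing js with
  | nil => exact ⟨D.one_mem, by simpa [word, lc_apply] using h.one⟩
  | cons x l ih =>
    cases js with
    | nil => exact ⟨D.one_mem, by simpa [word, lc_apply] using h.one⟩
    | cons j js =>
      have hx := hl x (by simp)
      obtain ⟨i1, i2⟩ := ih (fun z hz => hl z (by simp [hz])) js
      have e : word (x :: l) (j :: js) = x ^ j.length * word l js := by
        simp [word, pwU]
      rw [e]
      refine ⟨D.mul_mem (D.pow_mem hx _) i1, ?_⟩
      rw [h.add _ (D.pow_mem hx _) _ i1, h.pow (p := p) hx, i2, lc_apply, lc_apply, List.length_cons,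
        Finset.sum_range_succ', add_comm]
      simp

theorem gen_iff [NeZero p] (h : Lin D D1 φ) (h1 : D1 ≤ D) {E l : List U} (hE : Rep E D1)
    (hl : ∀ x ∈ l, x ∈ D) {x : U} (hx : x ∈ D) : x ∈ gen (E ++ l) ↔ ∃ c, lc p φ l c = φ x := by
  have hl' : gen l ≤ D := GI.gen_le.2 hl
  constructor
  · intro hg
    refine And.right (a := x ∈ D) ?_
    clear hx
    induction hg using Subgroup.closure_induction with
    | mem z hz =>
      rcases List.mem_append.1 hz with hz | hz
      · have := (hE.mem z).1 hz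
        exact ⟨h1 this, 0, by rw [map_zero, (h.ker z (h1 this)).2 this]⟩
      · obtain ⟨k, hk, rfl⟩ := List.getElem_of_mem hz
        exact ⟨hl _ hz, _, by rw [lc_single l hk, List.getD_eq_getElem _ _ hk]⟩
    | one => exact ⟨D.one_mem, 0, by rw [map_zero, h.one]⟩
    | mul a b _ _ ia ib =>
      obtain ⟨a1, c, hc⟩ := ia
      obtain ⟨b1, c', hc'⟩ := ib
      exact ⟨D.mul_mem a1 b1, c + c', by rw [map_add, hc, hc', h.add a a1 b b1]⟩
    | inv a _ ia =>
      obtain ⟨a1, c, hc⟩ := ia
      exact ⟨D.inv_mem a1, -c, by rw [map_neg, hc, h.inv a1]⟩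
  · rintro ⟨c, hc⟩
    obtain ⟨w, hw, e⟩ : ∃ w ∈ gen l, φ w = lc p φ l c := by
      rw [lc_apply]
      refine Finset.sum_induction _ (fun m => ∃ w ∈ gen l, φ w = m) ?_
        ⟨1, Subgroup.one_mem _, h.one⟩ fun k hk => ?_
      · rintro _ _ ⟨a, ha, rfl⟩ ⟨b, hb, rfl⟩
        exact ⟨a * b, Subgroup.mul_mem _ ha hb, h.add a (hl' ha) b (hl' hb)⟩
      · have := getD_mem (Finset.mem_range.1 hk)
        exact ⟨_, Subgroup.pow_mem _ (GI.mem_gen this) (c k).val, by
          rw [h.pow (p := p) (hl _ this), ZMod.natCast_zmod_val]⟩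
    have h2 := (h.eq_iff (hl' hw) hx).2 (hc.symm.trans e.symm)
    have := (gen (E ++ l)).mul_mem (GI.gen_mono (fun z hz => by simp [hz]) hw)
      (GI.mem_gen (l := E ++ l) (List.mem_append_left _ ((hE.mem _).2 h2)))
    simpa using this

theorem greedy [Fact p.Prime] [DecidableEq U] (h : Lin D D1 φ) (h1 : D1 ≤ D) {Y E : List U}
    {y : Subgroup U} (hY : Rep Y y) (hE : Rep E D1) (hy : D ≤ y) (u : List U) (hu : ∀ x ∈ u, x ∈ D) :
    (∀ x ∈ basP Y E u, x ∈ D) ∧ (∀ x ∈ u, ∃ c, lc p φ (basP Y E u) c = φ x) ∧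
      ∀ c, lc p φ (basP Y E u) c = 0 → ∀ k < (basP Y E u).length, c k = 0 := by
  induction u using List.reverseRecOn with
  | nil => simp [basP]
  | append_singleton u a ih =>
    obtain ⟨i1, i2, i3⟩ := ih fun x hx => hu x (by simp [hx])
    have ha := hu a (by simp)
    have e : basP Y E (u ++ [a]) = bif (GI.clo Y (E ++ basP Y E u)).contains a then basP Y E u
        else basP Y E u ++ [a] := by simp [basP]
    rw [e]
    generalize basP Y E u = l at *
    have hr := (GI.clo_rep hY (gs := E ++ l) fun g hg => hy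
      ((List.mem_append.1 hg).elim (fun q => h1 ((hE.mem g).1 q)) (i1 g))).contains a
    rw [gen_iff (p := p) h h1 hE i1 ha] at hr
    cases hb : (GI.clo Y (E ++ l)).contains a
    · have hn : ¬ ∃ c, lc p φ l c = φ a := fun q => Bool.false_ne_true (hb.symm.trans (hr.2 q))
      rw [cond_false]
      refine ⟨fun x hx => ?_, fun x hx => ?_, fun c hc => ?_⟩
      · rcases List.mem_append.1 hx with hx | hx
        exacts [i1 x hx, List.mem_singleton.1 hx ▸ ha]
      · rcases List.mem_append.1 hx with hx | hx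
        · obtain ⟨c, hc⟩ := i2 x hx
          refine ⟨fun k => if k < l.length then c k else 0, ?_⟩
          rw [lc_snoc, if_neg (lt_irrefl _), zero_smul, add_zero, ← hc, lc_apply, lc_apply]
          exact Finset.sum_congr rfl fun k hk => by rw [if_pos (Finset.mem_range.1 hk)]
        · exact ⟨_, by rw [lc_single (k := l.length) _ (by simp), List.mem_singleton.1 hx]; simp⟩
      · rw [lc_snoc] at hc
        have h0 : c l.length = 0 := by_contra fun h0 => hn ⟨-(c l.length)⁻¹ • c, by
          rw [map_smul, eq_neg_of_add_eq_zero_left hc, neg_smul_neg, inv_smul_smul₀ h0]⟩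
        rw [h0, zero_smul, add_zero] at hc
        intro k hk
        rw [List.length_append, List.length_singleton, Nat.lt_succ_iff_lt_or_eq] at hk
        exact hk.elim (i3 c hc k) fun q => q ▸ h0
    · rw [cond_true]
      refine ⟨i1, fun x hx => ?_, i3⟩
      rcases List.mem_append.1 hx with hx | hx
      exacts [i2 x hx, List.mem_singleton.1 hx ▸ hr.1 hb]

theorem pow_le [NeZero p] [Finite M] {l : List U}
    (h : ∀ c, lc p φ l c = 0 → ∀ k < l.length, c k = 0) : p ^ l.length ≤ Nat.card M := by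
  have := Nat.card_le_card_of_injective
    (fun c : Fin l.length → ZMod p => lc p φ l fun k => if e : k < l.length then c ⟨k, e⟩ else 0)
    fun a b e => funext fun k => by
      have := h _ (by rw [map_sub]; exact sub_eq_zero.2 e) k k.2
      simpa [sub_eq_zero] using this
  simpa [Nat.card_fun] using this

end TCRD

open TCRD

theorem a_CRD : A_CRD := by
  intro U _ _ p b d Y y D D1 hp hpp hY hD hD1 h1 hy hc hpad hB
  have := Fact.mk hp
  have := hD.finite
  obtain ⟨M, _, _, _, φ, h, hM⟩ := exists_lin p hc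
  obtain ⟨g1, g2, g3⟩ := greedy (p := p) h h1 hY hD1 hy (dD d b) fun x hx => (hD.mem x).1 hx
  rw [← hB] at g1 g2 g3
  have hup : (dUp d).length = p := hpp
  have hlen : (digU (dUp d)).length ^ (dB d b).length ≤ (dPad d).length := by
    rw [digU, List.length_map, PG.length_ran, hup]
    exact (pow_le g3).trans (hM.trans (hD.card.le.trans ((hD.length_le hY hy).trans hpad)))
  have uq : ∀ c c', lc p φ (dB d b) c = lc p φ (dB d b) c' → ∀ k < (dB d b).length, c k = c' k :=
    fun c c' e k hk => sub_eq_zero.1 (g3 (c - c') (by rw [map_sub, e, sub_self]) k hk)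
  have key : ∀ x ∈ D, lc p φ (dB d b) (fun k => (((crd d b x).getD k 0 : ℕ) : ZMod p)) = φ x ∧
      ∀ k, (dB d b).length ≤ k → (crd d b x).getD k 0 = 0 := by
    intro x hx
    have tst : ∀ js, (dD d (b + 1)).contains (x⁻¹ * word (dB d b) js) = true ↔
        lc p φ (dB d b) (fun k => (((js.map List.length).getD k 0 : ℕ) : ZMod p)) = φ x := fun js => by
      rw [hD1.contains, h.eq_iff hx (lc_word (p := p) h _ g1 js).1, (lc_word (p := p) h _ g1 js).2]
    obtain ⟨c, e⟩ := g2 x ((hD.mem x).2 hx)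
    have hv : ∀ k, (c k).val < (dUp d).length := fun k => (ZMod.val_lt _).trans_eq hup.symm
    rw [crd]
    cases hf : (GI.tuples (dPad d) (digU (dUp d)) (dB d b)).find? fun js =>
      (dD d (b + 1)).contains (x⁻¹ * word (dB d b) js) with
    | none =>
      refine absurd ((tst _).2 ?_) (List.find?_eq_none.1 hf
        ((List.range (dB d b).length).map fun k => (dUp d).take (c k).val)
        (GI.tuples_complete hlen (by simp) fun z hz => ?_))
      · rw [← e, lc_apply, lc_apply]
        refine Finset.sum_congr rfl fun k hk => ?_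
        rw [List.getD_eq_getElem _ _ (by simpa using hk)]
        simp [(hv k).le]
      · obtain ⟨k, -, rfl⟩ := List.mem_map.1 hz
        exact List.mem_map.2 ⟨_, PG.mem_ran.2 (hv k), rfl⟩
    | some js =>
      refine ⟨(tst js).1 (by simpa only using List.find?_some hf), fun k hk => List.getD_eq_default _ _ ?_⟩
      rw [Option.getD_some, List.length_map, (GI.tuples_sound (List.mem_of_find?_eq_some hf)).1]
      exact hk
  refine ⟨g1, fun x hx z hz k => ?_, fun x hx => ⟨fun e => ?_, fun e k hk => ?_⟩, fun k hk k' => ?_⟩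
  · rcases lt_or_ge k (dB d b).length with hk | hk
    · refine uq (fun k => (((crd d b (x * z)).getD k 0 : ℕ) : ZMod p))
        ((fun k => (((crd d b x).getD k 0 : ℕ) : ZMod p)) +
          fun k => (((crd d b z).getD k 0 : ℕ) : ZMod p)) ?_ k hk
      rw [map_add, (key _ (D.mul_mem hx hz)).1, (key x hx).1, (key z hz).1, h.add x hx z hz]
    · rw [(key _ (D.mul_mem hx hz)).2 k hk, (key x hx).2 k hk, (key z hz).2 k hk]; simp
  · rw [← h.ker x hx, ← (key x hx).1, lc_apply]
    exact Finset.sum_eq_zero fun k hk => by rw [e k (Finset.mem_range.1 hk), zero_smul]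
  · exact g3 _ ((key x hx).1.trans ((h.ker x hx).2 e)) k hk
  · have hx := g1 _ (getD_mem hk)
    rcases lt_or_ge k' (dB d b).length with hk' | hk'
    · rw [uq _ _ ((key _ hx).1.trans (lc_single _ hk).symm) k' hk', Pi.single_apply]
    · rw [(key _ hx).2 k' hk', if_neg (by omega), Nat.cast_zero]

end Pool.Agent.P.MP_f1a348_lc.PS
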