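import Pool.Agent.P.MP_f1a348_lc.PS.Iface

/-!
Project PS: a complement in the graph group gives a translation that repairs.
-/

namespace Pool.Agent.P.MP_f1a348_lc.PS

open GI (gen Cg FP)
open UP (Rec up topI SolvMod Nm Val GG SA UG)
open PG (Ix Vec Mat Frm Sub c0 st l0 Par pull1 Wt key)
open scoped commutatorElement Matrix

namespace TSECT
variable {U : Type} [Group U]

/-- a representative of the coset `x B` -/
noncomputable def out (B : Subgroup U) (x : U) : U := (QuotientGroup.mk x : U ⧸ B).out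

theorem out_cg (B : Subgroup U) (x : U) : Cg B (out B x) x :=
  QuotientGroup.eq.1 (QuotientGroup.out_eq' (QuotientGroup.mk x : U ⧸ B))

theorem out_eq {B : Subgroup U} {x y : U} (h : Cg B x y) : out B x = out B y := by
  unfold out
  rw [QuotientGroup.eq.2 h]

/-- a section of the graph group that is stable under `S` -/
structure Sec (E S : Subgroup (U × U)) (A B : Subgroup U) (Q : U × U → Prop) : Prop where
  mem : ∀ σ, Q σ → σ ∈ E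
  ex : ∀ x ∈ A, ∃ σ, Q σ ∧ σ.2 = x
  right : ∀ σ, Q σ → ∀ s ∈ S, Q (σ * s)
  left : ∀ σ, Q σ → ∀ s ∈ S, Q (s * σ)
  div : ∀ σ τ, Q σ → Q τ → Cg B σ.2 τ.2 → σ⁻¹ * τ ∈ S
  one : Q 1

theorem exists_sec {E S : Subgroup (U × U)} {A B : Subgroup U} (h : U → U × U) (hBA : B ≤ A)
    (nB : Nm A B) (hSE : S ≤ E) (hS : ∀ s ∈ S, s.2 ∈ B) (hE : ∀ x ∈ A, h x ∈ E)
    (h2 : ∀ x, (h x).2 = x) (hs : ∀ w ∈ B, ∃ s ∈ S, s.2 = w) (hn : Nm E S ∨ A ≤ B) :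
    ∃ Q, Sec E S A B Q := by
  classical
  obtain ⟨R, hR⟩ : ∃ R : U → U × U, ∀ x, R x = if x ∈ B then 1 else h (out B x) := ⟨_, fun _ => rfl⟩
  have r1 : ∀ x ∈ B, R x = 1 := fun x hx => by rw [hR, if_pos hx]
  have r2 : ∀ x y, Cg B x y → R x = R y := fun x y e => by
    rw [hR, hR, out_eq e]
    exact if_congr (e.mem_iff le_rfl) rfl rfl
  have r3 : ∀ x ∈ A, R x ∈ E := fun x hx => by
    rw [hR]
    split_ifs
    · exact E.one_mem
    · exact hE _ (((out_cg B x).mem_iff hBA).2 hx)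
  have r4 : ∀ x, Cg B (R x).2 x := fun x => by
    rw [hR]
    split_ifs with hx
    · exact Cg.one_iff.2 hx
    · rw [h2]
      exact out_cg B x
  refine ⟨fun σ => σ.2 ∈ A ∧ (R σ.2)⁻¹ * σ ∈ S, fun σ q => ?_, fun x hx => ?_, fun σ q s hs => ?_,
    fun σ q s hs => ?_, fun σ τ q q' e => ?_, A.one_mem, ?_⟩
  · simpa using E.mul_mem (r3 _ q.1) (hSE q.2)
  · obtain ⟨s, hs, e⟩ := hs _ (r4 x)
    have e' : (R x * s).2 = x := by rw [Prod.snd_mul, e]; simp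
    exact ⟨R x * s, ⟨by rw [e']; exact hx, by rw [e']; simpa using hs⟩, e'⟩
  · refine ⟨A.mul_mem q.1 (hBA (hS s hs)), ?_⟩
    rw [Prod.snd_mul, ← r2 _ _ (Cg.mul_mem (hS s hs) _), ← mul_assoc]
    exact S.mul_mem q.2 hs
  · refine ⟨A.mul_mem (hBA (hS s hs)) q.1, ?_⟩
    have c : Cg B σ.2 (s.2 * σ.2) := by
      simpa [Cg, mul_assoc] using nm_cg nB q.1 _ (hS s hs)
    have n : (R σ.2)⁻¹ * s * (R σ.2)⁻¹⁻¹ ∈ S := by
      rcases hn with hn | hn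
      · exact hn _ (E.inv_mem (r3 _ q.1)) s hs
      · rw [r1 _ (hn q.1)]
        simpa using hs
    rw [Prod.snd_mul, ← r2 _ _ c]
    simpa [mul_assoc] using S.mul_mem n q.2
  · have := S.mul_mem (S.inv_mem q.2) q'.2
    rw [← r2 _ _ e] at this
    simpa [mul_assoc] using this
  · rw [r1 _ (by exact B.one_mem)]
    simp

theorem rpr {p : ℕ} {A B B1 T0 T1 : Subgroup U} {ψ : FP U} {S : Subgroup (U × U)}
    {Q : U × U → Prop} (c : Ctx p A B1 T0 T1 ψ) (d : Dv p A B1 T0 T1 ψ) (h1 : B1 ≤ B) (h2 : B ≤ A)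
    (hN : Gr ψ B1 T1 ≤ S) (hM : S ⊓ Gr ψ B1 T0 ≤ Gr ψ B1 T1) (q : Sec (Gr ψ A T0) S A B Q) :
    ∃ f, Rpr A B B1 T0 T1 ψ f := by
  classical
  have mE := d.memA A c.lB le_rfl
  have mM := d.memA B1 le_rfl c.lB
  have qM : ∀ σ ∈ Gr ψ A T0, ∀ τ ∈ Gr ψ A T0, Cg B1 σ.2 τ.2 → σ⁻¹ * τ ∈ Gr ψ B1 T0 ∧
      (Cg T1 (dev ψ σ) (dev ψ τ) ↔ σ⁻¹ * τ ∈ Gr ψ B1 T1) := fun σ hσ τ hτ e => by
    have m : σ⁻¹ * τ ∈ Gr ψ B1 T0 :=
      (mM _).2 ⟨e, ((mE _).1 (Subgroup.mul_mem _ (Subgroup.inv_mem _ hσ) hτ)).2⟩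
    have r := d.right σ hσ _ m
    rw [mul_inv_cancel_left] at r
    refine ⟨m, fun h => (d.memN _).2 ⟨e, ?_⟩, fun h => ?_⟩
    · simpa [Cg] using h.trans r
    · exact (Cg.mul_mem ((d.memN _).1 h).2 _).trans r.symm
  have K1 : ∀ σ τ, Q σ → Q τ → Cg B1 σ.2 τ.2 → Cg T1 (dev ψ σ) (dev ψ τ) := fun σ τ a b e =>
    have m := qM σ (q.mem σ a) τ (q.mem τ b) e
    m.2.2 (hM ⟨q.div σ τ a b (e.mono h1), m.1⟩)
  choose! sg hsg using q.ex
  obtain ⟨f, hf⟩ : ∃ f : U → U, ∀ x,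
      f x = if x ∈ A ∧ x ∉ B1 then dev ψ (sg (out B1 x)) else 1 := ⟨_, fun _ => rfl⟩
  have oA : ∀ x ∈ A, out B1 x ∈ A := fun x hx => ((out_cg B1 x).mem_iff c.lB).2 hx
  have K2 : ∀ σ, Q σ → Cg T1 (dev ψ σ) (f σ.2) := fun σ a => by
    have hA := ((mE _).1 (q.mem σ a)).1
    rw [hf]
    split_ifs with h
    · have := hsg _ (oA _ hA)
      exact K1 _ _ a this.1 (by rw [this.2]; exact (out_cg B1 _).symm)
    · have hB : σ.2 ∈ B1 := by_contra fun n => h ⟨hA, n⟩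
      exact (K1 _ _ a q.one (Cg.one_iff.2 hB).symm).trans
        (Cg.one_iff.2 ((d.memN 1).1 (Subgroup.one_mem _)).2).symm
  have K3 : ∀ δ ∈ Gr ψ A T0, Cg T1 (dev ψ δ) (f δ.2) → Q δ := fun δ hδ e => by
    obtain ⟨a, b⟩ := hsg _ ((mE _).1 hδ).1
    have k := K2 _ a
    rw [b] at k
    have := (qM _ (q.mem _ a) δ hδ (Cg.of_eq b)).2.1 (k.trans e.symm)
    simpa using q.right _ a _ (hN this)
  have fm : ∀ x, f x ∈ T0 := fun x => by
    rw [hf]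
    split_ifs with h
    · exact ((mE _).1 (q.mem _ (hsg _ (oA _ h.1)).1)).2
    · exact T0.one_mem
  refine ⟨f, fm, fun x y e => ?_, fun x hx => ?_, fun x hx => ?_, fun g hg h => ?_⟩
  · rw [hf, hf, out_eq e]
    exact if_congr (and_congr (e.mem_iff c.lB) (not_congr (e.mem_iff le_rfl))) rfl rfl
  · rw [hf, if_neg fun n => n.2 hx]
  · rw [hf, if_neg fun n => hx n.1]
  · have a : ∀ x ∈ A, Cg T1 (dev ψ (ψ.app (g.app x), x)) (f x) := fun x hx => by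
      simpa [dev] using (h x hx).left x⁻¹
    have b : ∀ x ∈ A, Q (ψ.app (g.app x), x) := fun x hx =>
      K3 _ ((mE _).2 ⟨hx, ((a x hx).mem_iff c.l1).2 (fm x)⟩) (a x hx)
    have s : ∀ x ∈ B, (ψ.app (g.app x), x) ∈ S := fun x hx => by
      simpa using q.div _ _ q.one (b x (h2 hx)) (Cg.one_iff.2 hx)
    have e : ∀ x ∈ A, ∀ y ∈ A, Q ((ψ.app (g.app x), x) * (ψ.app (g.app y), y)) →
        df 0 (ψ * g) x y ∈ T1 := fun x hx y hy k => by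
      have k1 := ((a _ (A.mul_mem hx hy)).trans (K2 _ k).symm).left (x * y)
      have k2 := ((Pv T1).inv_mem hg _ _).2 k1
      simpa [dev, df, Cg, mul_assoc] using k2
    exact ⟨fun x hx y hy => e x (h2 hx) y hy (q.left _ (b y hy) _ (s x hx)),
      fun x hx y hy => e x hx y (h2 hy) (q.right _ (b x hx) _ (s y hy))⟩

end TSECT

theorem s_SECT (hD : S_DEV) : S_SECT := fun U _ p A B B1 T0 T1 ψ S c h1 h2 nB hN hS hM hW hn => by
  have d := hD U p A B1 T0 T1 ψ c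
  have mE := d.memA A c.lB le_rfl
  have mW := d.memA B h1 h2
  have hh : ∀ {C T : Subgroup U} {x : U}, x ∈ C → (hat ψ x).2 ∈ C ∧ dev ψ (hat ψ x) ∈ T :=
    fun hx => ⟨hx, by rw [dev_hat]; exact Subgroup.one_mem _⟩
  have hP : S ⊔ Gr ψ B1 T0 ≤ (S.map (MonoidHom.snd U U)).comap (MonoidHom.snd U U) :=
    sup_le (Subgroup.le_comap_map _ _) fun μ hμ => ⟨hat ψ μ.2,
      hN ((d.memN _).2 (hh ((d.memA B1 le_rfl c.lB μ).1 hμ).1)), rfl⟩
  obtain ⟨Q, q⟩ := TSECT.exists_sec (E := Gr ψ A T0) (S := S) (hat ψ) h2 nB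
    (fun s hs => (mE s).2 ⟨h2 ((mW s).1 (hS hs)).1, ((mW s).1 (hS hs)).2⟩)
    (fun s hs => ((mW s).1 (hS hs)).1) (fun x hx => (mE _).2 (hh hx)) (fun _ => rfl)
    (fun w hw => hP (hW ((mW _).2 (hh hw)))) hn
  exact TSECT.rpr c d h1 h2 hN hM q

end Pool.Agent.P.MP_f1a348_lc.PS
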